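import Pool.Agent.H225.LF

/-!
# Systems of linear forms at integers with restricted digits, uniformly, with the singular series
-/

set_option autoImplicit false

namespace Pool.Agent.H225.LF

open Finset Filter
open Pool.Agent.Y816.PD (WG NA ND ND_sub TP TP_dvd NA_nonneg WG_nonneg WG_bounds)
open Pool.Agent.H386R2.HL (one_sub_pos)
open Pool.Agent.H225.DG (AP)

open Classical in
/-- **The sieve product and the singular series.** -/
theorem WG_sg (k E b : ℕ) (hb : 2 ≤ b) : ∃ c C : ℝ, 0 < c ∧ 0 < C ∧ ∀ᶠ K : ℕ in atTop,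
    ∀ G : ℕ → ℤ, ∀ w : ℕ → ℕ,
    (∀ p : ℕ, p.Prime → ((range p).filter (fun n : ℕ => (p : ℤ) ∣ G n)).card = w p) →
    ∀ n : ℕ, n ≠ 0 → n ≤ b ^ (E * K) → (∀ p : ℕ, p.Prime → w p ≤ k) →
    (∀ p : ℕ, p.Prime → w p < p) → (∀ p : ℕ, p.Prime → k < p → ¬ p ∣ n → w p = k) →
    0 < sg k w ∧ c * sg k w / (K : ℝ) ^ k ≤ WG G (b ^ K) ∧
    WG G (b ^ K) ≤ C * sg k w / (K : ℝ) ^ k := by
  obtain ⟨v, Cv, hv, hCv, hW⟩ := WG_bounds {0} (fun p hp => ⟨1, fun h hh => by
    rw [mem_singleton] at hh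
    subst hh
    simpa using hp.one_lt.ne'⟩) 1 (card_singleton 0) b hb
  obtain ⟨c, C, hc, hC, y₀, hS⟩ := sg_bounds k E
  have hbpow : Tendsto (fun K : ℕ => b ^ K) atTop atTop :=
    tendsto_pow_atTop_atTop_of_one_lt (by omega)
  refine ⟨c * v ^ k, C * Cv ^ k, by positivity, by positivity, ?_⟩
  filter_upwards [hW, hbpow.eventually_ge_atTop y₀, eventually_ge_atTop 1] with
    K hWK hbK hK1 G w hGw n hn hnE hwk hwp hwn
  have hK0 : (0 : ℝ) < K := by exact_mod_cast hK1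
  obtain ⟨hw1, hw2⟩ := hWK 0
  rw [pow_one] at hw1 hw2
  obtain ⟨hs1, hs2, hs3⟩ := hS (b ^ K) hbK w n hn (by rwa [← pow_mul, mul_comm K E]) hwk hwp hwn
  have hkey : WG G (b ^ K) = WG (TP {0} 0) (b ^ K) ^ k *
      ∏ p ∈ (Icc 1 (b ^ K)).filter Nat.Prime, loc k w p := by
    unfold WG
    rw [← prod_pow, ← prod_mul_distrib]
    refine prod_congr rfl fun p hp => ?_
    have hpp := (mem_filter.1 hp).2
    have h1 := one_sub_pos hpp
    have c2 := Pool.Agent.H225.EX.card_TP {0} 0 hpp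
    have c3 : ((range p).filter (fun n : ℕ => ∃ h ∈ ({0} : Finset ℕ), p ∣ n + h)).card = 1 := by
      rw [card_eq_one]
      refine ⟨0, ?_⟩
      ext n
      simp only [mem_filter, mem_range, mem_singleton, exists_eq_left, add_zero]
      constructor
      · rintro ⟨hn, hd⟩
        exact Nat.eq_zero_of_dvd_of_lt hd hn
      · rintro rfl
        exact ⟨hpp.pos, dvd_zero _⟩
    have d1 := hGw p hpp
    have d2 : ((range p).filter (fun n : ℕ => (p : ℤ) ∣ TP {0} 0 n)).card = 1 := by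
      rw [c2, c3]
    have goal : 1 - (w p : ℝ) / p = (1 - ((1 : ℕ) : ℝ) / p) ^ k * loc k w p := by
      unfold loc
      rw [Nat.cast_one, ← mul_assoc, ← mul_pow, mul_inv_cancel₀ h1.ne', one_pow, one_mul]
    rw [← d1, ← d2] at goal
    convert goal using 5
  have hw0 : 0 ≤ WG (TP {0} 0) (b ^ K) := WG_nonneg _ _
  have hL0 : 0 ≤ ∏ p ∈ (Icc 1 (b ^ K)).filter Nat.Prime, loc k w p :=
    le_trans (by positivity) hs1
  rw [hkey]
  refine ⟨hs3, ?_, ?_⟩
  · calc c * v ^ k * sg k w / (K : ℝ) ^ k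
        = (v / K) ^ k * (c * sg k w) := by
          rw [div_pow]
          ring
      _ ≤ _ := mul_le_mul (pow_le_pow_left₀ (by positivity) hw1 k) hs1 (by positivity)
          (by positivity)
  · calc _ ≤ (Cv / K) ^ k * (C * sg k w) :=
          mul_le_mul (pow_le_pow_left₀ hw0 hw2 k) hs2 hL0 (by positivity)
      _ = C * Cv ^ k * sg k w / (K : ℝ) ^ k := by
          rw [div_pow]
          ring

/-- counting in a period -/
lemma card_shift (Q : ℕ → Prop) [DecidablePred Q] (p M : ℕ) (hQ : ∀ n, Q (n + p) ↔ Q n) :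
    ((range p).filter (fun t => Q (M + t))).card = ((range p).filter Q).card := by
  have h1 : ((range p).filter (fun t => Q (M + t))).card = ((Ico M (M + p)).filter Q).card := by
    refine card_bij' (fun t _ => M + t) (fun x _ => x - M) ?_ ?_ ?_ ?_
    · intro t ht
      rw [mem_filter, mem_range] at ht
      rw [mem_filter, mem_Ico]
      exact ⟨⟨by omega, by omega⟩, ht.2⟩
    · intro x hx
      rw [mem_filter, mem_Ico] at hx
      rw [mem_filter, mem_range]
      refine ⟨by omega, ?_⟩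
      rw [Nat.add_sub_cancel' hx.1.1]
      exact hx.2
    · intro t _
      simp
    · intro x hx
      rw [mem_filter, mem_Ico] at hx
      exact Nat.add_sub_cancel' hx.1.1
  have hper : Function.Periodic Q p := fun n => propext (hQ n)
  rw [h1, Nat.filter_Ico_card_eq_of_periodic M p Q hper, Nat.count_eq_card_filter_range]

open Classical in
/-- the number of roots modulo `p` of the product of the `a i * q + c i` -/
noncomputable def rt {k : ℕ} (a c : Fin k → ℤ) (p : ℕ) : ℕ :=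
  ((range p).filter (fun q : ℕ => ∃ i, (p : ℤ) ∣ a i * q + c i)).card

lemma dvd_add_p (a c : ℤ) (p q : ℕ) : (p : ℤ) ∣ a * ((q + p : ℕ) : ℤ) + c ↔ (p : ℤ) ∣ a * q + c := by
  have e : a * ((q + p : ℕ) : ℤ) + c = (a * q + c) + p * a := by
    push_cast
    ring
  rw [e]
  exact ⟨fun h => (dvd_add_left (dvd_mul_right _ _)).1 h, fun h => h.add (dvd_mul_right _ _)⟩

open Classical in
lemma rt_shift {k : ℕ} (a c : Fin k → ℤ) {p : ℕ} (hp : p.Prime) (M : ℕ) :
    ((range p).filter (fun t : ℕ => (p : ℤ) ∣ ∏ i, (a i * ((M + t : ℕ) : ℤ) + c i))).card =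
      rt a c p := by
  unfold rt
  rw [← card_shift (fun q => ∃ i, (p : ℤ) ∣ a i * (q : ℤ) + c i) p M
    (fun n => exists_congr fun i => dvd_add_p _ _ _ _)]
  congr 1
  refine filter_congr fun t _ => ?_
  exact (Nat.prime_iff_prime_int.1 hp).dvd_finsetProd_iff _ |>.trans (by simp)

/-- a good residue class -/
def Adm {k : ℕ} (a c : Fin k → ℤ) : Prop := ∀ p : ℕ, p.Prime → ∃ q : ℕ, ∀ i, ¬ (p : ℤ) ∣ a i * q + c i

open Classical in
lemma rt_lt {k : ℕ} {a c : Fin k → ℤ} (h : Adm a c) {p : ℕ} (hp : p.Prime) : rt a c p < p := by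
  obtain ⟨q, hq⟩ := h p hp
  have e : ∀ i, (p : ℤ) ∣ a i * ((q % p : ℕ) : ℤ) + c i ↔ (p : ℤ) ∣ a i * q + c i := by
    intro i
    have e1 : a i * (q : ℤ) + c i = (a i * ((q % p : ℕ) : ℤ) + c i) + p * (a i * ((q / p : ℕ) : ℤ)) := by
      have : (q : ℤ) = ((q % p : ℕ) : ℤ) + p * ((q / p : ℕ) : ℤ) := by
        exact_mod_cast (Nat.mod_add_div q p).symm
      conv_lhs => rw [this]
      ring
    rw [e1]
    exact ⟨fun h => h.add (dvd_mul_right _ _), fun h => (dvd_add_left (dvd_mul_right _ _)).1 h⟩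
  unfold rt
  refine lt_of_lt_of_eq (card_lt_card ?_) (card_range p)
  rw [filter_ssubset]
  exact ⟨q % p, mem_range.2 (Nat.mod_lt _ hp.pos), fun ⟨i, hi⟩ => hq i ((e i).1 hi)⟩

open Classical in
lemma rt_le' {k : ℕ} {a c : Fin k → ℤ} {p : ℕ} (hp : p.Prime)
    (h0 : ∀ i, (p : ℤ) ∣ a i → ¬ (p : ℤ) ∣ c i) : rt a c p ≤ k := by
  have h1 : (range p).filter (fun q : ℕ => ∃ i, (p : ℤ) ∣ a i * q + c i) ⊆
      univ.biUnion (fun i : Fin k => (range p).filter (fun q : ℕ => (p : ℤ) ∣ a i * q + c i)) := by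
    intro y hy
    rw [mem_filter] at hy
    obtain ⟨i, hi⟩ := hy.2
    exact mem_biUnion.2 ⟨i, mem_univ _, mem_filter.2 ⟨hy.1, hi⟩⟩
  unfold rt
  refine (card_le_card h1).trans (card_biUnion_le.trans ?_)
  calc ∑ i : Fin k, ((range p).filter (fun q : ℕ => (p : ℤ) ∣ a i * q + c i)).card
      ≤ ∑ _i : Fin k, 1 := by
        refine sum_le_sum fun i _ => card_le_one.2 fun x hx y hy => ?_
        rw [mem_filter, mem_range] at hx hy
        have h2 : (p : ℤ) ∣ a i * ((x : ℤ) - y) := by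
          have := dvd_sub hx.2 hy.2
          have e : a i * (x : ℤ) + c i - (a i * y + c i) = a i * ((x : ℤ) - y) := by ring
          rwa [e] at this
        rcases (Nat.prime_iff_prime_int.1 hp).dvd_or_dvd h2 with h3 | h3
        · exact absurd ((dvd_add_right (h3.mul_right _)).1 hx.2) (h0 i h3)
        · have h4 : (y : ℤ) ≡ x [ZMOD p] := Int.modEq_iff_dvd.2 h3
          have h5 : y ≡ x [MOD p] := Int.natCast_modEq_iff.1 h4
          unfold Nat.ModEq at h5
          rw [Nat.mod_eq_of_lt hx.1, Nat.mod_eq_of_lt hy.1] at h5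
          exact h5.symm
    _ = k := by simp

lemma rt_le {k : ℕ} {a c : Fin k → ℤ} (h : Adm a c) {p : ℕ} (hp : p.Prime) : rt a c p ≤ k := by
  obtain ⟨q, hq⟩ := h p hp
  exact rt_le' hp fun i h1 h2 => hq i (dvd_add (h1.mul_right _) h2)

/-- a root -/
lemma exists_root {p : ℕ} (hp : p.Prime) {a : ℤ} (ha : ¬ (p : ℤ) ∣ a) (c : ℤ) :
    ∃ q : ℕ, q < p ∧ (p : ℤ) ∣ a * q + c := by
  haveI : Fact p.Prime := ⟨hp⟩
  have ha0 : (a : ZMod p) ≠ 0 := fun h => ha ((ZMod.intCast_zmod_eq_zero_iff_dvd a p).1 h)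
  refine ⟨(-(c : ZMod p) / (a : ZMod p)).val, ZMod.val_lt _, ?_⟩
  rw [← ZMod.intCast_zmod_eq_zero_iff_dvd]
  push_cast
  rw [ZMod.natCast_zmod_val]
  field_simp
  ring

open Classical in
lemma rt_eq {k : ℕ} {a c : Fin k → ℤ} {p : ℕ} (hp : p.Prime)
    (h1 : ∀ i, ¬ (p : ℤ) ∣ a i) (h2 : ∀ i j, i ≠ j → ¬ (p : ℤ) ∣ a i * c j - a j * c i) :
    rt a c p = k := by
  refine le_antisymm (rt_le' hp fun i hi _ => h1 i hi) ?_
  choose q hq hq' using fun i => exists_root hp (h1 i) (c i)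
  have hinj : Function.Injective q := by
    intro i j hij
    by_contra hne
    refine h2 i j hne ?_
    have e : a i * c j - a j * c i = a i * (a j * q j + c j) - a j * (a i * q i + c i) := by
      rw [hij]
      ring
    rw [e]
    exact dvd_sub ((hq' j).mul_left _) ((hq' i).mul_left _)
  unfold rt
  calc k = (univ.image q).card := by
        rw [card_image_of_injective _ hinj, card_univ, Fintype.card_fin]
    _ ≤ _ := by
        refine card_le_card fun x hx => ?_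
        rw [mem_image] at hx
        obtain ⟨i, -, rfl⟩ := hx
        exact mem_filter.2 ⟨mem_range.2 (hq i), i, hq' i⟩

/-- the product of the coefficients and of the determinants -/
def disc {k : ℕ} (a c : Fin k → ℤ) : ℕ :=
  (∏ i, (a i).natAbs) * ∏ q ∈ (univ : Finset (Fin k × Fin k)).filter (fun q => q.1 ≠ q.2),
    (a q.1 * c q.2 - a q.2 * c q.1).natAbs

lemma disc_ne {k : ℕ} {a c : Fin k → ℤ} (h1 : ∀ i, a i ≠ 0)
    (h2 : ∀ i j, i ≠ j → a i * c j ≠ a j * c i) : disc a c ≠ 0 := by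
  unfold disc
  refine mul_ne_zero (prod_ne_zero_iff.2 fun i _ => ?_) (prod_ne_zero_iff.2 fun q hq => ?_)
  · exact Int.natAbs_ne_zero.2 (h1 i)
  · rw [mem_filter] at hq
    exact Int.natAbs_ne_zero.2 (sub_ne_zero.2 (h2 _ _ hq.2))

lemma disc_le {k : ℕ} {a c : Fin k → ℤ} {X : ℕ} (hX : 2 ≤ X) (h1 : ∀ i, (a i).natAbs ≤ X)
    (h2 : ∀ i, (c i).natAbs ≤ X) : disc a c ≤ X ^ (k + 3 * k ^ 2) := by
  unfold disc
  rw [pow_add]
  refine Nat.mul_le_mul ?_ ?_
  · calc ∏ i, (a i).natAbs ≤ ∏ _i : Fin k, X := prod_le_prod' fun i _ => h1 i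
      _ = X ^ k := by simp
  · calc ∏ q ∈ (univ : Finset (Fin k × Fin k)).filter (fun q => q.1 ≠ q.2),
          (a q.1 * c q.2 - a q.2 * c q.1).natAbs
        ≤ ∏ _q ∈ (univ : Finset (Fin k × Fin k)).filter (fun q => q.1 ≠ q.2), X ^ 3 := by
          refine prod_le_prod' fun q _ => ?_
          refine (Int.natAbs_sub_le _ _).trans ?_
          rw [Int.natAbs_mul, Int.natAbs_mul]
          calc (a q.1).natAbs * (c q.2).natAbs + (a q.2).natAbs * (c q.1).natAbs
              ≤ X * X + X * X := Nat.add_le_add (Nat.mul_le_mul (h1 _) (h2 _))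
                (Nat.mul_le_mul (h1 _) (h2 _))
            _ = 2 * (X * X) := by ring
            _ ≤ X * (X * X) := Nat.mul_le_mul_right _ hX
            _ = X ^ 3 := by ring
      _ = (X ^ 3) ^ ((univ : Finset (Fin k × Fin k)).filter (fun q => q.1 ≠ q.2)).card := by
          rw [prod_const]
      _ ≤ (X ^ 3) ^ (k ^ 2) := by
          refine Nat.pow_le_pow_right (Nat.pow_pos (by omega)) ?_
          refine (card_filter_le _ _).trans ?_
          rw [card_univ, Fintype.card_prod, Fintype.card_fin, sq]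
      _ = X ^ (3 * k ^ 2) := by rw [← pow_mul]

lemma rt_eq_disc {k : ℕ} {a c : Fin k → ℤ} {p : ℕ} (hp : p.Prime)
    (hd : ¬ p ∣ disc a c) : rt a c p = k := by
  unfold disc at hd
  refine rt_eq hp (fun i hi => hd (Dvd.dvd.mul_right ?_ _)) (fun i j hij hi => hd
    (Dvd.dvd.mul_left ?_ _))
  · exact (Int.natCast_dvd.1 hi).trans (dvd_prod_of_mem _ (mem_univ i))
  · exact (Int.natCast_dvd.1 hi).trans (dvd_prod_of_mem
      (fun q : Fin k × Fin k => (a q.1 * c q.2 - a q.2 * c q.1).natAbs)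
      (mem_filter.2 ⟨mem_univ (i, j), hij⟩))

open Classical in
/-- a nonvanishing singular series implies admissibility -/
lemma adm_of_sg {k : ℕ} {a c : Fin k → ℤ} (h1 : ∀ i, a i ≠ 0)
    (h2 : ∀ i j, i ≠ j → a i * c j ≠ a j * c i) (h : sg k (rt a c) ≠ 0) : Adm a c := by
  intro p hp
  by_contra hcon
  push Not at hcon
  refine h ?_
  have hd := disc_ne h1 h2
  have hrt : rt a c p = p := by
    unfold rt
    rw [filter_true_of_mem fun q _ => hcon q, card_range]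
  refine sg_zero (s := (range (k + 1)).filter Nat.Prime ∪ (disc a c).primeFactors)
    (fun q hq => ?_) (fun q hq hqs => ?_) hp ?_
  · rw [mem_union, mem_filter] at hq
    rcases hq with hq | hq
    · exact hq.2
    · exact Nat.prime_of_mem_primeFactors hq
  · rw [mem_union, not_or, mem_filter, mem_range] at hqs
    have hkq : k < q := by
      by_contra hlt
      exact hqs.1 ⟨by omega, hq⟩
    exact ratio_one hq hkq (rt_eq_disc hq fun hdvd => hqs.2 (Nat.mem_primeFactors.2 ⟨hq, hdvd, hd⟩))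
  · unfold loc
    rw [hrt, div_self (by exact_mod_cast hp.pos.ne'), sub_self, mul_zero]

/-- **Systems of linear forms at integers with restricted digits.** -/
theorem lf (k E : ℕ) (hk : 1 ≤ k) :
    ∃ δ : ℝ, 0 < δ ∧ ∃ r₀ : ℕ, 2 ≤ r₀ ∧ ∀ r : ℕ, r₀ ≤ r → ∀ b : ℕ, 2 ≤ b →
      ∃ κ C : ℝ, 0 < κ ∧ 0 < C ∧ ∀ᶠ K : ℕ in atTop, ∀ M : ℕ, M ≤ b ^ (E * K) →
        ∀ a c : Fin k → ℤ, (∀ i, a i ≠ 0) → (∀ i, (a i).natAbs ≤ b ^ (E * K)) →
        (∀ i, (c i).natAbs ≤ b ^ (E * K)) → (∀ i j, i ≠ j → a i * c j ≠ a j * c i) → Adm a c →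
        ∀ A : ℕ → Finset ℕ, (∀ i < K, A i ⊆ range b) →
        (b : ℝ) ^ K ≤ Real.exp (δ * K) * NA K A →
        0 < sg k (rt a c) ∧
        ((∃ e ∈ A 0, ∀ i, (a i * ((M + e : ℕ) : ℤ) + c i).natAbs.Coprime b) →
          (∃ e ∈ A (K - 1), e ≠ 0) →
          κ * sg k (rt a c) * NA K A / (K : ℝ) ^ k ≤
            ND b K A {n | b ^ (K - 1) ≤ n ∧
              ∀ i, AP r (b ^ K) (a i * ((M + n : ℕ) : ℤ) + c i).natAbs}) ∧
        (ND b K A {n | ∀ i, (a i * ((M + n : ℕ) : ℤ) + c i).natAbs.Prime ∧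
            n < (a i * ((M + n : ℕ) : ℤ) + c i).natAbs ^ 2} : ℝ) ≤
          C * sg k (rt a c) * NA K A / (K : ℝ) ^ k := by
  classical
  obtain ⟨δ, hδ, r₀, hr₀, h⟩ := Pool.Agent.H225.DG.gen k 1 (2 * E + 2) hk le_rfl
  refine ⟨δ, hδ, r₀, hr₀, fun r hr b hb => ?_⟩
  obtain ⟨κ, C, hκ, hC, h1⟩ := h r hr b hb
  obtain ⟨v, Cv, hv, hCv, hS⟩ := WG_sg k ((E + 1) * (k + 3 * k ^ 2)) b hb
  refine ⟨κ * v, C * Cv, by positivity, by positivity, ?_⟩
  filter_upwards [h1, hS, eventually_ge_atTop 1] with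
    K hK hSK hK1 M hM a c ha0 ha hc hac hadm A hA hprod
  have hbK : 2 ≤ b ^ K := hb.trans (Nat.le_self_pow (by omega) b)
  have hE1 : 1 ≤ b ^ (E * K) := Nat.one_le_pow _ _ (by omega)
  have hNA := NA_nonneg K A
  have hpoly : ∀ i, ∃ P : Polynomial ℤ, P.natDegree ≤ 1 ∧
      ∀ n : ℕ, P.eval (n : ℤ) = a i * ((M + n : ℕ) : ℤ) + c i := by
    intro i
    refine ⟨Polynomial.C (a i) * Polynomial.X + Polynomial.C (a i * M + c i),
        Polynomial.natDegree_linear_le, fun n => ?_⟩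
    simp only [Polynomial.eval_add, Polynomial.eval_mul, Polynomial.eval_C, Polynomial.eval_X]
    push_cast
    ring
  have hadm' : ∀ p : ℕ, p.Prime → ∃ n : ℕ, ∀ i, ¬ (p : ℤ) ∣ a i * ((M + n : ℕ) : ℤ) + c i := by
    intro p hp
    obtain ⟨q, hq⟩ := hadm p hp
    refine ⟨q + M * (p - 1), fun i hi => hq i ?_⟩
    have hp1 : 1 ≤ p := hp.pos
    have e : a i * ((M + (q + M * (p - 1)) : ℕ) : ℤ) + c i = (a i * q + c i) + p * (a i * M) := by
      push_cast [hp1]
      ring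
    rw [e] at hi
    exact (dvd_add_left (dvd_mul_right _ _)).1 hi
  have hbb : b ^ ((2 * E + 2) * K) = (b ^ (E * K) * b ^ K) * (b ^ (E * K) * b ^ K) := by
    rw [← pow_add, ← pow_add]
    congr 1
    ring
  have hsize : ∀ n : ℕ, n < b ^ K → ∀ i,
      (a i * ((M + n : ℕ) : ℤ) + c i).natAbs ≤ b ^ ((2 * E + 2) * K) := by
    intro n hn i
    refine (Int.natAbs_add_le _ _).trans ?_
    rw [Int.natAbs_mul, Int.natAbs_natCast, hbb]
    have h2 := ha i
    have h3 := hc i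
    obtain ⟨X, hX⟩ : ∃ X, X = b ^ (E * K) := ⟨_, rfl⟩
    obtain ⟨Y, hY⟩ : ∃ Y, Y = b ^ K := ⟨_, rfl⟩
    rw [← hX] at h2 h3 hM hE1 ⊢
    rw [← hY] at hn hbK ⊢
    calc (a i).natAbs * (M + n) + (c i).natAbs ≤ X * (X + Y) + X :=
          Nat.add_le_add (Nat.mul_le_mul h2 (by omega)) h3
      _ ≤ X * Y * (X * Y) := by
          have h4 : X + Y + 1 ≤ X * Y * Y := by
            obtain ⟨x, rfl⟩ := Nat.exists_eq_add_of_le hE1
            obtain ⟨y, rfl⟩ := Nat.exists_eq_add_of_le hbK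
            nlinarith [Nat.zero_le (x * y), Nat.zero_le (x * y * y), Nat.zero_le (y * y)]
          calc X * (X + Y) + X = X * (X + Y + 1) := by ring
            _ ≤ X * (X * Y * Y) := Nat.mul_le_mul_left _ h4
            _ = X * Y * (X * Y) := by ring
  obtain ⟨h4, h5⟩ := hK (fun i n => a i * ((M + n : ℕ) : ℤ) + c i) hpoly hadm' hsize A hA hprod
  obtain ⟨hS0, hS1, hS2⟩ := hSK (fun n => ∏ i, (a i * ((M + n : ℕ) : ℤ) + c i)) (rt a c)
    (fun p hp => by convert rt_shift a c hp M) (disc a c) (disc_ne ha0 hac) (by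
      have e : b ^ ((E + 1) * (k + 3 * k ^ 2) * K) = (b ^ (E * K) * b ^ K) ^ (k + 3 * k ^ 2) := by
        rw [← pow_add, ← pow_mul]
        congr 1
        ring
      rw [e]
      refine disc_le ?_ (fun i => (ha i).trans ?_) (fun i => (hc i).trans ?_)
      · exact hbK.trans (Nat.le_mul_of_pos_left _ hE1)
      · exact Nat.le_mul_of_pos_right _ (by omega)
      · exact Nat.le_mul_of_pos_right _ (by omega))
    (fun p hp => rt_le hadm hp) (fun p hp => rt_lt hadm hp) (fun p hp _ hd => rt_eq_disc hp hd)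
  refine ⟨hS0, fun hcop htop => ?_, ?_⟩
  · refine le_trans ?_ ((h4 hcop htop))
    calc κ * v * sg k (rt a c) * NA K A / (K : ℝ) ^ k
        = κ * NA K A * (v * sg k (rt a c) / (K : ℝ) ^ k) := by ring
      _ ≤ _ := mul_le_mul_of_nonneg_left hS1 (by positivity)
  · refine le_trans (Nat.cast_le.2 ?_) (h5.trans ?_)
    · refine ND_sub fun n _ hn1 hn2 => ⟨hn1, fun i => ⟨(hn2 i).1, (hn2 i).2.trans_le ?_⟩⟩
      exact Nat.pow_le_pow_right (hn2 i).1.pos (by omega)
    · calc C * NA K A * WG (fun n => ∏ i, (a i * ((M + n : ℕ) : ℤ) + c i)) (b ^ K)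
          ≤ C * NA K A * (Cv * sg k (rt a c) / (K : ℝ) ^ k) :=
            mul_le_mul_of_nonneg_left hS2 (mul_nonneg hC.le hNA)
        _ = _ := by ring

end Pool.Agent.H225.LF
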