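import Pool.Agent.H225.EX2
import Pool.Agent.H225.LF2

/-!
# Exact patterns of rough numbers in arithmetic progressions, uniformly in the modulus: preparations
-/

set_option autoImplicit false

namespace Pool.Agent.H225.AX

open Polynomial Finset Filter
open Pool.Agent.Y816.PD (WG uni_top NA ND Rgh Alm WG_nonneg shift_eq TP TP_dvd WG_bounds ND_sub
  NA_nonneg)
open Pool.Agent.H225.DG (AP len_dvd)
open Pool.Agent.H225.EX (Rough Co neg_res card_insert_eq)
open Pool.Agent.H373R2.T7 (pz mem_pz)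

/-- sets which are admissible for the primes not dividing the modulus -/
def Adm (q : ℕ) (H : Finset ℕ) : Prop :=
  ∀ p : ℕ, p.Prime → ¬ p ∣ q → ∃ m : ℕ, ∀ h ∈ H, ¬ p ∣ m + h

open Classical in
/-- the number of the classes modulo `p` occupied by `-H` -/
noncomputable def nu (H : Finset ℕ) (p : ℕ) : ℕ :=
  ((range p).filter (fun n : ℕ => ∃ h ∈ H, p ∣ n + h)).card

/-- the sieve product -/
noncomputable def V (q : ℕ) (H : Finset ℕ) (x : ℕ) : ℝ :=
  ∏ p ∈ (Icc 1 x).filter Nat.Prime, (if p ∣ q then 1 else (1 - (nu H p : ℝ) / p))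

/-- the product of the values -/
def TQ (q a : ℕ) (H : Finset ℕ) (N j : ℕ) : ℤ := ∏ h ∈ H, ((q : ℤ) * ((N : ℤ) + j + h) + a)

lemma TQ_dvd (q a : ℕ) (H : Finset ℕ) (N j : ℕ) {p : ℕ} (hp : p.Prime) :
    (p : ℤ) ∣ TQ q a H N j ↔ ∃ h ∈ H, p ∣ q * (N + j + h) + a := by
  unfold TQ
  rw [Prime.dvd_finsetProd_iff (Nat.prime_iff_prime_int.1 hp)]
  refine exists_congr fun h => and_congr_right fun _ => ?_
  rw [← Int.natCast_dvd_natCast]
  push_cast
  exact Iff.rfl

lemma natAbs_TQ (q a : ℕ) (H : Finset ℕ) (N j : ℕ) :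
    (TQ q a H N j).natAbs = ∏ h ∈ H, (q * (N + j + h) + a) := by
  unfold TQ
  have e : ∏ h ∈ H, ((q : ℤ) * ((N : ℤ) + j + h) + a) =
      ((∏ h ∈ H, (q * (N + j + h) + a) : ℕ) : ℤ) := by push_cast; rfl
  rw [e, Int.natAbs_natCast]

open Classical in
/-- the number of the roots modulo a prime -/
lemma card_TQ {q a : ℕ} (hqa : q.Coprime a) (H : Finset ℕ) (N : ℕ) {p : ℕ} (hp : p.Prime) :
    ((range p).filter (fun n : ℕ => (p : ℤ) ∣ TQ q a H N n)).card =
      if p ∣ q then 0 else nu H p := by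
  by_cases hpq : p ∣ q
  · rw [if_pos hpq, card_eq_zero, filter_eq_empty_iff]
    intro n _ hd
    obtain ⟨h, -, hd⟩ := (TQ_dvd q a H N n hp).1 hd
    have h1 : p ∣ a := (Nat.dvd_add_right (hpq.mul_right _)).1 hd
    have h2 := Nat.dvd_gcd hpq h1
    rw [hqa] at h2
    exact hp.one_lt.ne' (Nat.dvd_one.1 h2)
  · rw [if_neg hpq]
    obtain ⟨u, -, hu⟩ := Pool.Agent.H225.LF.exists_root hp
      (a := (q : ℤ)) (fun h => hpq (Int.natCast_dvd_natCast.1 h)) (-(a : ℤ))
    unfold nu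
    have h1 : ∀ n h : ℕ, p ∣ q * (N + n + h) + a ↔ p ∣ (N + u) + n + h := by
      intro n h
      have h2 : (p : ℤ) ∣ ((q * (N + n + h) + a : ℕ) : ℤ) ↔
          (p : ℤ) ∣ (q : ℤ) * (((N + u) + n + h : ℕ) : ℤ) := by
        have e : ((q * (N + n + h) + a : ℕ) : ℤ) =
            (q : ℤ) * (((N + u) + n + h : ℕ) : ℤ) - ((q : ℤ) * u + -(a : ℤ)) := by
          push_cast
          ring
        rw [e]
        constructor
        · intro h3
          have := dvd_add h3 hu
          rwa [sub_add_cancel] at this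
        · intro h3
          exact dvd_sub h3 hu
      rw [Int.natCast_dvd_natCast] at h2
      rw [h2]
      constructor
      · intro h3
        rcases (Nat.prime_iff_prime_int.1 hp).dvd_or_dvd h3 with h4 | h4
        · exact absurd (Int.natCast_dvd_natCast.1 h4) hpq
        · exact Int.natCast_dvd_natCast.1 h4
      · intro h3
        exact (Int.natCast_dvd_natCast.2 h3).mul_left _
    have h2 : ((range p).filter (fun n : ℕ => (p : ℤ) ∣ TQ q a H N n)).card =
        ((range p).filter (fun n : ℕ => ∃ h ∈ H, p ∣ (N + u) + n + h)).card := by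
      congr 1
      apply filter_congr
      intro n _
      rw [TQ_dvd q a H N n hp]
      exact exists_congr fun h => and_congr_right fun _ => h1 n h
    rw [h2]
    convert shift_eq p (N + u) hp.pos (fun n => ∃ h ∈ H, p ∣ n + h) (fun n => by
      apply exists_congr
      intro h
      apply and_congr_right
      intro _
      rw [Nat.dvd_iff_mod_eq_zero, Nat.dvd_iff_mod_eq_zero, Nat.mod_add_mod])

lemma WG_TQ {q a : ℕ} (hqa : q.Coprime a) (H : Finset ℕ) (N x : ℕ) :
    WG (TQ q a H N) x = V q H x := by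
  classical
  unfold WG V
  refine prod_congr rfl fun p hp => ?_
  have hpp := (mem_filter.1 hp).2
  have h1 := card_TQ hqa H N hpp
  have h2 : ((((range p).filter (fun n : ℕ => (p : ℤ) ∣ TQ q a H N n)).card : ℕ) : ℝ) =
      ((if p ∣ q then 0 else nu H p : ℕ) : ℝ) := by rw [h1]
  by_cases hpq : p ∣ q
  · rw [if_pos hpq] at h2 ⊢
    have h3 : (1 : ℝ) - ((((range p).filter (fun n : ℕ => (p : ℤ) ∣ TQ q a H N n)).card : ℕ) : ℝ) / p
        = 1 := by
      rw [h2]
      simp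
    convert h3
  · rw [if_neg hpq] at h2 ⊢
    rw [← h2]

lemma nu_le (H : Finset ℕ) {p : ℕ} (hp : p.Prime) : nu H p ≤ H.card := by
  classical
  unfold nu
  have h7 : (range p).filter (fun n : ℕ => ∃ h ∈ H, p ∣ n + h) ⊆
      H.biUnion (fun h => (range p).filter (fun n : ℕ => p ∣ n + h)) := by
    intro n hn
    rw [mem_filter] at hn
    obtain ⟨h, hh, hd⟩ := hn.2
    exact mem_biUnion.2 ⟨h, hh, mem_filter.2 ⟨hn.1, hd⟩⟩
  refine le_trans (le_of_eq (by congr)) ((card_le_card h7).trans (card_biUnion_le.trans ?_))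
  rw [card_eq_sum_ones]
  refine sum_le_sum fun h _ => ?_
  obtain ⟨a, ha, ha'⟩ := neg_res hp.pos h
  rw [card_le_one]
  intro x hx y hy
  rw [mem_filter, mem_range] at hx hy
  rw [(ha' x hx.1).1 hx.2, (ha' y hy.1).1 hy.2]

lemma nu_lt {q : ℕ} {H : Finset ℕ} (hadm : Adm q H) {p : ℕ} (hp : p.Prime) (hpq : ¬ p ∣ q) :
    nu H p < p := by
  classical
  unfold nu
  obtain ⟨m, hm⟩ := hadm p hp hpq
  refine lt_of_lt_of_eq (card_lt_card ?_) (card_range p)
  rw [filter_ssubset]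
  refine ⟨m % p, mem_range.2 (Nat.mod_lt _ hp.pos), fun ⟨h, hh, hd⟩ => hm h hh ?_⟩
  rw [Nat.dvd_iff_mod_eq_zero, Nat.mod_add_mod] at hd
  exact Nat.dvd_of_mod_eq_zero hd

lemma V_nonneg {q : ℕ} {H : Finset ℕ} (x : ℕ) (hadm : Adm q H) : 0 ≤ V q H x := by
  unfold V
  refine prod_nonneg fun p hp => ?_
  have hpp := (mem_filter.1 hp).2
  split_ifs with h
  · exact zero_le_one
  · rw [sub_nonneg, div_le_one (by exact_mod_cast hpp.pos)]
    exact_mod_cast (nu_lt hadm hpp h).le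

/-- **Tuples in an arithmetic progression, uniformly.** -/
theorem tup (k D : ℕ) (hk : 1 ≤ k) :
    ∃ δ : ℝ, 0 < δ ∧ ∃ r₀ : ℕ, 2 ≤ r₀ ∧ ∀ r : ℕ, r₀ ≤ r → ∀ b : ℕ, 2 ≤ b →
      ∃ κ C : ℝ, 0 < κ ∧ 0 < C ∧ ∀ᶠ K : ℕ in atTop, ∀ q a N : ℕ, q ≤ b ^ (D * K) →
        a ≤ b ^ (D * K) → N ≤ b ^ (D * K) → q.Coprime a →
        ∀ H : Finset ℕ, H.card = k → (∀ h ∈ H, h ≤ b ^ K) → Adm q H →
        ∀ A : ℕ → Finset ℕ, (∀ i < K, A i ⊆ range b) →
        (b : ℝ) ^ K ≤ Real.exp (δ * K) * NA K A →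
        ((∃ e ∈ A 0, ∀ h ∈ H, (q * (N + e + h) + a).Coprime b) → (∃ e ∈ A (K - 1), e ≠ 0) →
          κ * NA K A * V q H (b ^ K) ≤
            ND b K A {n | b ^ (K - 1) ≤ n ∧ ∀ h ∈ H, AP r (b ^ K) (q * (N + n + h) + a)}) ∧
        (ND b K A {n | ∀ h ∈ H, ∀ p : ℕ, p.Prime → p ∣ q * (N + n + h) + a → n < p ^ r} : ℝ) ≤
          C * NA K A * V q H (b ^ K) := by
  classical
  obtain ⟨δ, hδ, r₀, hr₀, h⟩ := uni_top k ((2 * D + 2) * k) hk
  refine ⟨δ, hδ, r₀, hr₀, fun r hr b hb => ?_⟩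
  obtain ⟨κ, C, hκ, hC, h1⟩ := h r hr b hb
  refine ⟨κ, C, hκ, hC, ?_⟩
  filter_upwards [h1, eventually_ge_atTop (r + 2)] with
    K hK hKr q a N hq ha hN hqa H hHk hHb hadm A hA hprod
  have hbK : 2 ^ (r + 2) ≤ b ^ K :=
    (Nat.pow_le_pow_left hb _).trans (Nat.pow_le_pow_right (by omega) hKr)
  have h4b : 4 ≤ b ^ K := by
    have : 2 ^ 2 ≤ 2 ^ (r + 2) := Nat.pow_le_pow_right (by norm_num) (by omega)
    omega
  have hpoly : ∃ P : ℤ[X], P.natDegree ≤ k ∧ ∀ j : ℕ, P.eval (j : ℤ) = TQ q a H N j := by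
    refine ⟨∏ h ∈ H, (Polynomial.C (q : ℤ) * X + Polynomial.C ((q : ℤ) * ((N : ℤ) + h) + a)), ?_,
      fun j => ?_⟩
    · refine (natDegree_prod_le _ _).trans ?_
      rw [← hHk, Finset.card_eq_sum_ones]
      exact sum_le_sum fun h _ => by compute_degree
    · rw [eval_prod]
      unfold TQ
      refine prod_congr rfl fun h _ => ?_
      simp only [eval_add, eval_mul, eval_X, eval_C]
      ring
  have hadm' : ∀ p : ℕ, p.Prime → ∃ n : ℕ, ¬ (p : ℤ) ∣ TQ q a H N n := by
    intro p hp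
    have h2 := card_TQ hqa H N hp
    have h3 : ((range p).filter (fun n : ℕ => (p : ℤ) ∣ TQ q a H N n)).card < (range p).card := by
      rw [card_range]
      refine lt_of_eq_of_lt (by convert h2) ?_
      split_ifs with hpq
      · exact hp.pos
      · exact nu_lt hadm hp hpq
    obtain ⟨n, hn, hn'⟩ := exists_mem_notMem_of_card_lt_card h3
    exact ⟨n, fun hd => hn' (mem_filter.2 ⟨hn, hd⟩)⟩
  have hsize : ∀ n : ℕ, n < b ^ K → (TQ q a H N n).natAbs ≤ b ^ ((2 * D + 2) * k * K) := by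
    intro n hn
    rw [natAbs_TQ]
    calc ∏ h ∈ H, (q * (N + n + h) + a) ≤ ∏ _h ∈ H, b ^ ((2 * D + 2) * K) := by
          refine prod_le_prod' fun h hh => ?_
          have e : b ^ ((2 * D + 2) * K) = b ^ (D * K) * (b ^ (D * K) * (b ^ K * b ^ K)) := by
            rw [← pow_add, ← pow_add, ← pow_add]
            congr 1
            ring
          rw [e]
          have h6 := hHb h hh
          have h1 : 1 ≤ b ^ (D * K) := Nat.one_le_pow _ _ (by omega)
          obtain ⟨x, hx⟩ : ∃ x, x = b ^ (D * K) := ⟨_, rfl⟩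
          obtain ⟨y, hy⟩ : ∃ y, y = b ^ K := ⟨_, rfl⟩
          rw [← hx] at hq ha hN h1 ⊢
          rw [← hy] at hn h6 h4b ⊢
          have h2 : N + n + h + 1 ≤ x * (y * y) := by
            have h3 : x * 4 * 4 ≤ x * (y * y) := by
              rw [mul_assoc]
              exact Nat.mul_le_mul_left _ (Nat.mul_le_mul h4b h4b)
            have h7 : y * 4 ≤ x * (y * y) := by
              calc y * 4 ≤ y * y := Nat.mul_le_mul_left _ h4b
                _ ≤ x * (y * y) := Nat.le_mul_of_pos_left _ h1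
            omega
          calc q * (N + n + h) + a ≤ x * (N + n + h) + x := Nat.add_le_add
                (Nat.mul_le_mul_right _ hq) ha
            _ = x * (N + n + h + 1) := by ring
            _ ≤ _ := Nat.mul_le_mul_left _ h2
      _ = b ^ ((2 * D + 2) * k * K) := by
          rw [prod_const, hHk, ← pow_mul]
          congr 1
          ring
  obtain ⟨h2, h3⟩ := hK (TQ q a H N) hpoly hadm' hsize A hA hprod
  rw [WG_TQ hqa] at h2 h3
  constructor
  · rintro ⟨e, he, hcop⟩ htop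
    refine (h2 ⟨e, he, ?_⟩ htop).trans (Nat.cast_le.2 ?_)
    · rw [natAbs_TQ]
      exact Nat.Coprime.prod_left fun h hh => hcop h hh
    · refine ND_sub fun n _ hn1 hn2 => ⟨hn1, ?_⟩
      obtain ⟨hn3, hn4, hn5⟩ := hn2
      have h0 : (TQ q a H N n).natAbs ≠ 0 := by
        intro h0
        have h7 := hn4 2 Nat.prime_two (by
          rw [Int.natAbs_eq_zero.1 h0]
          exact dvd_zero _)
        have : 2 ^ r ≤ 2 ^ (r + 2) := Nat.pow_le_pow_right (by norm_num) (by omega)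
        omega
      refine ⟨hn3, fun h hh => ⟨fun p hp hpd => hn4 p hp ((TQ_dvd q a H N n hp).2 ⟨h, hh, hpd⟩), ?_⟩⟩
      refine (len_dvd h0 ?_).trans hn5
      rw [natAbs_TQ]
      exact dvd_prod_of_mem (fun h => q * (N + n + h) + a) hh
  · refine le_trans (Nat.cast_le.2 ?_) h3
    refine ND_sub fun n _ hn1 hn2 => ⟨hn1, fun p hp hpd => ?_⟩
    obtain ⟨h, hh, hd⟩ := (TQ_dvd q a H N n hp).1 hpd
    exact hn2 h hh p hp hd

open Classical in
/-- **The sieve product with one more shift.** -/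
lemma V_insert {q : ℕ} {H : Finset ℕ} (hadm : Adm q H) (j x : ℕ) (hadm' : Adm q (insert j H)) :
    V q (insert j H) x ≤ V q H x * (V q {0} x *
      ∏ p ∈ (pz x).filter (fun p : ℕ => 0 < p ∧ (¬ p ∣ q ∧ Co H p j)), (1 + (2 : ℕ) / (p : ℝ))) := by
  have e : ∏ p ∈ (pz x).filter (fun p : ℕ => 0 < p ∧ (¬ p ∣ q ∧ Co H p j)), (1 + (2 : ℕ) / (p : ℝ)) =
      ∏ p ∈ (Icc 1 x).filter Nat.Prime,
        (if ¬ p ∣ q ∧ Co H p j then (1 + (2 : ℕ) / (p : ℝ)) else 1) := by
    rw [prod_filter]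
    unfold pz
    refine prod_congr rfl fun p hp => ?_
    have hpp := (mem_filter.1 hp).2
    simp only [hpp.pos, true_and]
  rw [e]
  unfold V
  rw [← prod_mul_distrib, ← prod_mul_distrib]
  refine prod_le_prod (fun p hp => ?_) (fun p hp => ?_)
  · have hpp := (mem_filter.1 hp).2
    split_ifs with h
    · exact zero_le_one
    · rw [sub_nonneg, div_le_one (by exact_mod_cast hpp.pos)]
      exact_mod_cast (nu_lt hadm' hpp h).le
  · have hpp := (mem_filter.1 hp).2
    have hp2 : (2 : ℝ) ≤ p := by exact_mod_cast hpp.two_le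
    have hp0 : (0 : ℝ) < p := by linarith
    by_cases hpq : p ∣ q
    · rw [if_pos hpq, if_pos hpq, if_pos hpq, if_neg (fun h => h.1 hpq)]
      norm_num
    rw [if_neg hpq, if_neg hpq, if_neg hpq]
    have h4 : nu {0} p = 1 := by
      unfold nu
      rw [card_eq_one]
      refine ⟨0, ?_⟩
      ext n
      simp only [mem_filter, mem_range, mem_singleton, exists_eq_left, add_zero]
      constructor
      · rintro ⟨hn, hd⟩
        exact Nat.eq_zero_of_dvd_of_lt hd hn
      · rintro rfl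
        exact ⟨hpp.pos, dvd_zero _⟩
    have h5 : nu (insert j H) p = nu H p + (if Co H p j then 0 else 1) := by
      unfold nu
      convert card_insert_eq H j hpp
    have h6 := nu_lt hadm hpp hpq
    rw [h4, h5]
    obtain ⟨ν, hν⟩ : ∃ ν : ℕ, ν = nu H p := ⟨_, rfl⟩
    rw [← hν] at h6 ⊢
    have h6' : (ν : ℝ) ≤ p := by exact_mod_cast h6.le
    have h8 : 0 ≤ 1 - (ν : ℝ) / p := by
      rw [sub_nonneg, div_le_one hp0]
      exact h6'
    by_cases hc : Co H p j
    · rw [if_pos hc, if_pos ⟨hpq, hc⟩, add_zero]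
      have h9 : (1 : ℝ) ≤ (1 - ((1 : ℕ) : ℝ) / p) * (1 + (2 : ℕ) / (p : ℝ)) := by
        have e9 : (1 - ((1 : ℕ) : ℝ) / p) * (1 + (2 : ℕ) / (p : ℝ)) =
            1 + (1 / p) * (1 - 2 / p) := by
          push_cast
          field_simp
          ring
        rw [e9]
        have h10 : (2 : ℝ) / p ≤ 1 := by
          rw [div_le_one hp0]
          exact hp2
        have h11 : 0 ≤ 1 / (p : ℝ) := by positivity
        nlinarith
      nlinarith
    · rw [if_neg hc, if_neg (fun h => hc h.2), mul_one]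
      have e9 : (1 - (ν : ℝ) / p) * (1 - ((1 : ℕ) : ℝ) / p) =
          1 - ((ν + 1 : ℕ) : ℝ) / p + (ν : ℝ) / p / p := by
        push_cast
        field_simp
        ring
      rw [e9]
      have : 0 ≤ (ν : ℝ) / p / p := by positivity
      linarith

end Pool.Agent.H225.AX
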