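import Pool.Agent.H225.AX

/-!
# Exact patterns of rough numbers in arithmetic progressions, uniformly in the modulus
-/

set_option autoImplicit false

namespace Pool.Agent.H225.AX

open Polynomial Finset Filter
open Pool.Agent.Y816.PD (WG uni_top NA ND Rgh Alm WG_nonneg shift_eq TP TP_dvd WG_bounds ND_sub
  NA_nonneg)
open Pool.Agent.H225.DG (AP len_dvd)
open Pool.Agent.H225.EX (Rough Co neg_res card_insert_eq ND_cover card_TP)
open Pool.Agent.H373R2.T7 (pz mem_pz)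

lemma prod_sub_le {s t : Finset ℕ} (h : s ⊆ t) (f : ℕ → ℝ) (h0 : ∀ i ∈ t, 0 ≤ f i)
    (h1 : ∀ i ∈ t, f i ≤ 1) : ∏ i ∈ t, f i ≤ ∏ i ∈ s, f i := by
  rw [← prod_sdiff h]
  refine mul_le_of_le_one_left (prod_nonneg fun i hi => h0 i (h hi)) ?_
  exact prod_le_one (fun i hi => h0 i (sdiff_subset hi)) (fun i hi => h1 i (sdiff_subset hi))

lemma one_sub_sum_le (s : Finset ℕ) (x : ℕ → ℝ) (h0 : ∀ i ∈ s, 0 ≤ x i) (h1 : ∀ i ∈ s, x i ≤ 1) :
    1 - ∑ i ∈ s, x i ≤ ∏ i ∈ s, (1 - x i) := by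
  classical
  induction s using Finset.induction_on with
  | empty => simp
  | insert a s ha ih =>
    rw [sum_insert ha, prod_insert ha]
    have h2 := ih (fun i hi => h0 i (mem_insert_of_mem hi)) (fun i hi => h1 i (mem_insert_of_mem hi))
    have h3 := h0 a (mem_insert_self _ _)
    have h4 := h1 a (mem_insert_self _ _)
    have h5 : 0 ≤ ∑ i ∈ s, x i := sum_nonneg fun i hi => h0 i (mem_insert_of_mem hi)
    have h6 : (1 - x a) * (1 - ∑ i ∈ s, x i) ≤ (1 - x a) * ∏ i ∈ s, (1 - x i) :=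
      mul_le_mul_of_nonneg_left h2 (by linarith)
    nlinarith [mul_nonneg h3 h5]

lemma nu_zero {p : ℕ} (hp : p.Prime) : nu {0} p = 1 := by
  classical
  unfold nu
  rw [card_eq_one]
  refine ⟨0, ?_⟩
  ext n
  simp only [mem_filter, mem_range, mem_singleton, exists_eq_left, add_zero]
  constructor
  · rintro ⟨hn, hd⟩
    exact Nat.eq_zero_of_dvd_of_lt hd hn
  · rintro rfl
    exact ⟨hp.pos, dvd_zero _⟩

lemma WG_zero (x : ℕ) : WG (TP {0} 0) x = ∏ p ∈ (Icc 1 x).filter Nat.Prime, (1 - 1 / (p : ℝ)) := by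
  classical
  unfold WG
  refine prod_congr rfl fun p hp => ?_
  have hpp := (mem_filter.1 hp).2
  have h1 := card_TP {0} 0 hpp
  have h2 : ((range p).filter (fun n : ℕ => ∃ h ∈ ({0} : Finset ℕ), p ∣ n + h)).card = 1 := by
    have := nu_zero hpp
    unfold nu at this
    exact this
  rw [h2] at h1
  have h3 : (1 : ℝ) - ((((range p).filter (fun n : ℕ => (p : ℤ) ∣ TP {0} 0 n)).card : ℕ) : ℝ) / p =
      1 - 1 / (p : ℝ) := by
    rw [h1, Nat.cast_one]
  convert h3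

lemma fac_bounds {p : ℕ} (hp : p.Prime) : (0 : ℝ) ≤ 1 - 1 / (p : ℝ) ∧ 1 - 1 / (p : ℝ) ≤ 1 := by
  have hp0 : (0 : ℝ) < p := by exact_mod_cast hp.pos
  have h1 : (1 : ℝ) / p ≤ 1 := by
    rw [div_le_one hp0]
    exact_mod_cast hp.one_lt.le
  have h2 : 0 ≤ (1 : ℝ) / p := by positivity
  constructor <;> linarith

lemma totient_eq (q : ℕ) : ((Nat.totient q : ℕ) : ℝ) = q * ∏ p ∈ q.primeFactors, (1 - 1 / (p : ℝ)) := by
  have h := congrArg (fun x : ℚ => (x : ℝ)) (Nat.totient_eq_mul_prod_factors q)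
  simp only [Rat.cast_natCast, Rat.cast_mul, Rat.cast_prod, Rat.cast_sub, Rat.cast_one,
    Rat.cast_inv] at h
  rw [h]
  simp only [one_div]

/-- `φ (q) / q` is not too small -/
lemma phi_small (b D : ℕ) (hb : 2 ≤ b) (M : ℝ) (hM : 0 < M) : ∀ᶠ K : ℕ in atTop, ∀ q : ℕ, 1 ≤ q →
    q ≤ b ^ (D * K) → M ≤ K * (((Nat.totient q : ℕ) : ℝ) / q) := by
  obtain ⟨v, Cv, hv, hCv, hW⟩ := WG_bounds {0} (fun p hp => ⟨1, fun h hh => by
    rw [mem_singleton] at hh
    subst hh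
    simpa using hp.one_lt.ne'⟩) 1 (card_singleton 0) 2 le_rfl
  obtain ⟨M', hM'⟩ : ∃ M' : ℕ, M' = ⌈2 * M / v⌉₊ + 1 := ⟨_, rfl⟩
  have hM'0 : 0 < M' := by omega
  have hM'v : 2 * M ≤ M' * v := by
    have h1 : 2 * M / v ≤ M' := by
      rw [hM']
      push_cast
      linarith [Nat.le_ceil (2 * M / v)]
    rwa [div_le_iff₀ hv] at h1
  obtain ⟨c, hc⟩ : ∃ c : ℕ, c = 2 * (b * D) * M' := ⟨_, rfl⟩
  have hdiv : Tendsto (fun K : ℕ => K / M') atTop atTop :=
    tendsto_atTop_atTop.2 fun B => ⟨B * M', fun K hK => (Nat.le_div_iff_mul_le hM'0).2 hK⟩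
  have hexp : ∀ᶠ L : ℕ in atTop, c * (L + 1) ≤ 2 ^ L := by
    have h1 := tendsto_pow_const_div_const_pow_of_one_lt 1 (by norm_num : (1 : ℝ) < 2)
    have h2 : ∀ᶠ L : ℕ in atTop, (L : ℝ) ^ 1 / 2 ^ L < 1 / (2 * c + 1) :=
      h1.eventually_lt_const (by positivity)
    filter_upwards [h2, eventually_ge_atTop 1] with L hL hL1
    rw [pow_one, div_lt_div_iff₀ (by positivity) (by positivity), one_mul] at hL
    have h3 : (c : ℝ) * (L + 1) ≤ 2 ^ L := by
      have h4 : (1 : ℝ) ≤ L := by exact_mod_cast hL1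
      have h5 : (0 : ℝ) ≤ c := Nat.cast_nonneg _
      nlinarith
    exact_mod_cast h3
  filter_upwards [hdiv.eventually hW, hdiv.eventually hexp, hdiv.eventually_ge_atTop 1,
    eventually_ge_atTop 1] with K hWK hexpK hL1 hK1 q hq hqb
  obtain ⟨L, hL⟩ : ∃ L, L = K / M' := ⟨_, rfl⟩
  rw [← hL] at hWK hexpK hL1
  obtain ⟨hW1, -⟩ := hWK 0
  rw [pow_one, WG_zero] at hW1
  have hKL : K ≤ M' * (L + 1) := by
    have := Nat.lt_mul_div_succ K hM'0
    rw [← hL] at this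
    exact this.le
  have hLK : M' * L ≤ K := by
    rw [hL]
    exact Nat.mul_div_le K M'
  -- the number of the prime factors
  have hω : q.primeFactors.card ≤ b * D * K := by
    have h1 : 2 ^ q.primeFactors.card ≤ q := by
      calc 2 ^ q.primeFactors.card = ∏ _p ∈ q.primeFactors, 2 := by rw [prod_const]
        _ ≤ ∏ p ∈ q.primeFactors, p :=
            prod_le_prod' fun p hp => (Nat.prime_of_mem_primeFactors hp).two_le
        _ ≤ q := Nat.le_of_dvd hq (Nat.prod_primeFactors_dvd q)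
    have h2 : b ^ (D * K) ≤ 2 ^ (b * D * K) := by
      calc b ^ (D * K) ≤ (2 ^ b) ^ (D * K) := Nat.pow_le_pow_left Nat.lt_two_pow_self.le _
        _ = 2 ^ (b * D * K) := by rw [← pow_mul, mul_assoc]
    exact (Nat.pow_le_pow_iff_right (by norm_num)).1 (h1.trans (hqb.trans h2))
  have hω2 : 2 * q.primeFactors.card ≤ 2 ^ L := by
    refine le_trans ?_ hexpK
    rw [hc]
    calc 2 * q.primeFactors.card ≤ 2 * (b * D * K) := Nat.mul_le_mul_left _ hω
      _ ≤ 2 * (b * D * (M' * (L + 1))) := Nat.mul_le_mul_left _ (Nat.mul_le_mul_left _ hKL)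
      _ = _ := by ring
  -- the two parts
  have hq0 : (0 : ℝ) < q := by exact_mod_cast hq
  have hsplit : ((Nat.totient q : ℕ) : ℝ) / q =
      (∏ p ∈ q.primeFactors.filter (fun p => p ≤ 2 ^ L), (1 - 1 / (p : ℝ))) *
        ∏ p ∈ q.primeFactors.filter (fun p => ¬ p ≤ 2 ^ L), (1 - 1 / (p : ℝ)) := by
    rw [prod_filter_mul_prod_filter_not, totient_eq, mul_div_assoc, mul_comm, div_mul_eq_mul_div]
    rw [mul_div_assoc, div_self hq0.ne', mul_one]
  have hA : v / L ≤ ∏ p ∈ q.primeFactors.filter (fun p => p ≤ 2 ^ L), (1 - 1 / (p : ℝ)) := by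
    refine hW1.trans (prod_sub_le (fun p hp => ?_) _ (fun p hp => (fac_bounds (mem_filter.1 hp).2).1)
      (fun p hp => (fac_bounds (mem_filter.1 hp).2).2))
    rw [mem_filter] at hp ⊢
    have := Nat.prime_of_mem_primeFactors hp.1
    exact ⟨mem_Icc.2 ⟨this.pos, hp.2⟩, this⟩
  have hB : (1 : ℝ) / 2 ≤ ∏ p ∈ q.primeFactors.filter (fun p => ¬ p ≤ 2 ^ L), (1 - 1 / (p : ℝ)) := by
    have h1 := one_sub_sum_le (q.primeFactors.filter (fun p => ¬ p ≤ 2 ^ L)) (fun p => 1 / (p : ℝ))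
      (fun p _ => by positivity) (fun p hp => by
        have := (fac_bounds (Nat.prime_of_mem_primeFactors (mem_filter.1 hp).1)).1
        linarith)
    refine le_trans ?_ h1
    have h2 : ∑ p ∈ q.primeFactors.filter (fun p => ¬ p ≤ 2 ^ L), 1 / (p : ℝ) ≤ 1 / 2 := by
      calc ∑ p ∈ q.primeFactors.filter (fun p => ¬ p ≤ 2 ^ L), 1 / (p : ℝ)
          ≤ ∑ _p ∈ q.primeFactors.filter (fun p => ¬ p ≤ 2 ^ L), 1 / (2 : ℝ) ^ L := by
            refine sum_le_sum fun p hp => ?_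
            have h3 : 2 ^ L ≤ p := (not_le.1 (mem_filter.1 hp).2).le
            exact one_div_le_one_div_of_le (by positivity) (by exact_mod_cast h3)
        _ = (q.primeFactors.filter (fun p => ¬ p ≤ 2 ^ L)).card * (1 / (2 : ℝ) ^ L) := by
            rw [sum_const, nsmul_eq_mul]
        _ ≤ q.primeFactors.card * (1 / (2 : ℝ) ^ L) :=
            mul_le_mul_of_nonneg_right (Nat.cast_le.2 (card_filter_le _ _)) (by positivity)
        _ ≤ 1 / 2 := by
            rw [mul_one_div, div_le_div_iff₀ (by positivity) (by norm_num), one_mul]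
            have : ((2 * q.primeFactors.card : ℕ) : ℝ) ≤ ((2 ^ L : ℕ) : ℝ) := Nat.cast_le.2 hω2
            push_cast at this
            linarith
    linarith
  have hL0 : (0 : ℝ) < L := by exact_mod_cast hL1
  rw [hsplit]
  calc M ≤ M' * v / 2 := by linarith
    _ = (M' * L) * (v / L * (1 / 2)) := by
        field_simp
    _ ≤ K * (v / L * (1 / 2)) := by
        refine mul_le_mul_of_nonneg_right ?_ (by positivity)
        exact_mod_cast hLK
    _ ≤ K * _ := by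
        refine mul_le_mul_of_nonneg_left ?_ (Nat.cast_nonneg _)
        exact mul_le_mul hA hB (by norm_num) (le_trans (by positivity) hA)

/-- the sieve product of one element -/
lemma V_zero_le {q : ℕ} (hq : 1 ≤ q) (x : ℕ) :
    V q {0} x * (((Nat.totient q : ℕ) : ℝ) / q) ≤ WG (TP {0} 0) x := by
  classical
  have hq0 : (0 : ℝ) < q := by exact_mod_cast hq
  have h0 : 0 ≤ V q {0} x := by
    refine V_nonneg x fun p hp _ => ⟨1, fun h hh => ?_⟩
    rw [mem_singleton] at hh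
    subst hh
    simpa using hp.one_lt.ne'
  have e1 : ((Nat.totient q : ℕ) : ℝ) / q = ∏ p ∈ q.primeFactors, (1 - 1 / (p : ℝ)) := by
    rw [totient_eq, mul_div_assoc, mul_comm, div_mul_eq_mul_div, mul_div_assoc, div_self hq0.ne',
      mul_one]
  have e2 : ∏ p ∈ q.primeFactors, (1 - 1 / (p : ℝ)) ≤
      ∏ p ∈ ((Icc 1 x).filter Nat.Prime).filter (fun p => p ∣ q), (1 - 1 / (p : ℝ)) := by
    refine prod_sub_le (fun p hp => ?_) _
      (fun p hp => (fac_bounds (Nat.prime_of_mem_primeFactors hp)).1)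
      (fun p hp => (fac_bounds (Nat.prime_of_mem_primeFactors hp)).2)
    rw [mem_filter, mem_filter] at hp
    exact Nat.mem_primeFactors.2 ⟨hp.1.2, hp.2, by omega⟩
  have e3 : V q {0} x * ∏ p ∈ ((Icc 1 x).filter Nat.Prime).filter (fun p => p ∣ q),
      (1 - 1 / (p : ℝ)) = WG (TP {0} 0) x := by
    rw [WG_zero, prod_filter]
    unfold V
    rw [← prod_mul_distrib]
    refine prod_congr rfl fun p hp => ?_
    have hpp := (mem_filter.1 hp).2
    by_cases hpq : p ∣ q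
    · rw [if_pos hpq, if_pos hpq, one_mul]
    · rw [if_neg hpq, if_neg hpq, nu_zero hpp, mul_one, Nat.cast_one]
  rw [e1, ← e3]
  exact mul_le_mul_of_nonneg_left e2 h0

open Classical in
/-- the average over the further shift -/
theorem avgV (k b : ℕ) (hb : 2 ≤ b) : ∃ C : ℝ, 0 < C ∧ ∃ T₀ : ℕ, ∀ᶠ K : ℕ in atTop, ∀ T : ℕ, T₀ ≤ T →
    ∀ q : ℕ, 1 ≤ q → ∀ H : Finset ℕ, H ⊆ range T → H.card = k → Adm q H →
    (∑ j ∈ (range T \ H).filter (fun j => Adm q (insert j H)), V q (insert j H) (b ^ K)) *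
      (((Nat.totient q : ℕ) : ℝ) / q) ≤ C * T / K * V q H (b ^ K) := by
  obtain ⟨v, Cv, hv, hCv, hW⟩ := WG_bounds {0} (fun p hp => ⟨1, fun h hh => by
    rw [mem_singleton] at hh
    subst hh
    simpa using hp.one_lt.ne'⟩) 1 (card_singleton 0) b hb
  obtain ⟨C, hC, T₀, hT₀, havg⟩ := Pool.Agent.W123.RU.avg 2 k 1 0
  refine ⟨Cv * C, by positivity, T₀, ?_⟩
  filter_upwards [hW] with K hWK T hT q hq H hH hHk hadm
  obtain ⟨-, hW1⟩ := hWK 0
  rw [pow_one] at hW1
  obtain ⟨S, hS⟩ : ∃ S, S = (range T \ H).filter (fun j => Adm q (insert j H)) := ⟨_, rfl⟩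
  rw [← hS]
  have hSm : ∀ j ∈ S, j < T ∧ j ∉ H ∧ Adm q (insert j H) := by
    intro j hj
    rw [hS, mem_filter, Finset.mem_sdiff, mem_range] at hj
    exact ⟨hj.1.1, hj.1.2, hj.2⟩
  obtain ⟨Co', hCo'⟩ : ∃ Co' : ℕ → ℕ → Prop, Co' = fun p i => ¬ p ∣ q ∧ ∃ h ∈ H, i ≡ h + 1 [MOD p] :=
    ⟨_, rfl⟩
  have hcoll : Pool.Agent.W123.RU.Coll Co' 0 k := by
    constructor
    · intro p n
      rw [hCo']
      simp only
      refine and_congr_right fun _ => exists_congr fun h => and_congr_right fun _ => ?_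
      exact ⟨fun h1 => (Nat.mod_modEq n p).trans h1, fun h1 => (Nat.mod_modEq n p).symm.trans h1⟩
    · intro p hp _
      have h1 : (range p).filter (fun r => Co' p r) ⊆ H.image (fun h => (h + 1) % p) := by
        intro r hr
        rw [mem_filter, mem_range, hCo'] at hr
        obtain ⟨hr, -, h, hh, h1⟩ := hr
        rw [mem_image]
        refine ⟨h, hh, ?_⟩
        unfold Nat.ModEq at h1
        rw [← h1, Nat.mod_eq_of_lt hr]
      exact (card_le_card h1).trans (card_image_le.trans hHk.le)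
  have hEs : S.image (fun j => j + 1) ⊆ Icc 1 T := by
    intro i hi
    rw [mem_image] at hi
    obtain ⟨j, hj, rfl⟩ := hi
    have := (hSm j hj).1
    rw [mem_Icc]
    omega
  have hEc : ∀ i ∈ S.image (fun j => j + 1),
      ((pz (b ^ K)).filter (fun p : ℕ => T < p ∧ Co' p i)).card ≤ 1 * T := by
    intro i hi
    rw [mem_image] at hi
    obtain ⟨j, hj, rfl⟩ := hi
    have h0 : (pz (b ^ K)).filter (fun p : ℕ => T < p ∧ Co' p (j + 1)) = ∅ := by
      refine filter_eq_empty_iff.2 fun p _ hcon => ?_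
      obtain ⟨hTp, hc⟩ := hcon
      rw [hCo'] at hc
      obtain ⟨-, h, hh, h1⟩ := hc
      have h2 := (hSm j hj).1
      have h3 : h < T := mem_range.1 (hH hh)
      unfold Nat.ModEq at h1
      rw [Nat.mod_eq_of_lt (by omega), Nat.mod_eq_of_lt (by omega)] at h1
      have h4 : j = h := by omega
      exact (hSm j hj).2.1 (h4 ▸ hh)
    rw [h0, card_empty]
    exact Nat.zero_le _
  have h1 := havg T hT Co' hcoll (b ^ K) (S.image (fun j => j + 1)) hEs hEc
  rw [sum_image (fun i _ j _ h => Nat.succ_injective h)] at h1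
  have hiff : ∀ p j : ℕ, Co' p (j + 1) ↔ ¬ p ∣ q ∧ Co H p j := by
    intro p j
    rw [hCo']
    refine and_congr_right fun _ => exists_congr fun h => and_congr_right fun _ => ?_
    exact ⟨fun h1 => Nat.ModEq.add_right_cancel' 1 h1, fun h1 => h1.add_right 1⟩
  have h2 : ∑ j ∈ S, ∏ p ∈ (pz (b ^ K)).filter (fun p : ℕ => 0 < p ∧ (¬ p ∣ q ∧ Co H p j)),
      (1 + ((2 : ℕ) : ℝ) / (p : ℝ)) ≤ C * T := by
    refine le_trans (le_of_eq ?_) h1
    refine sum_congr rfl fun j _ => prod_congr ?_ fun _ _ => rfl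
    refine filter_congr fun p _ => ?_
    rw [hiff]
  have hW0 := V_nonneg (b ^ K) hadm
  have hCT : 0 ≤ C * T := by positivity
  have hθ : 0 ≤ ((Nat.totient q : ℕ) : ℝ) / q := by positivity
  have hVz := (V_zero_le hq (b ^ K)).trans hW1
  calc (∑ j ∈ S, V q (insert j H) (b ^ K)) * (((Nat.totient q : ℕ) : ℝ) / q)
      ≤ (∑ j ∈ S, V q H (b ^ K) * (V q {0} (b ^ K) *
        ∏ p ∈ (pz (b ^ K)).filter (fun p : ℕ => 0 < p ∧ (¬ p ∣ q ∧ Co H p j)),
          (1 + (2 : ℕ) / (p : ℝ)))) * (((Nat.totient q : ℕ) : ℝ) / q) :=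
        mul_le_mul_of_nonneg_right (sum_le_sum fun j hj =>
          V_insert hadm j (b ^ K) (hSm j hj).2.2) hθ
    _ = V q H (b ^ K) * ((V q {0} (b ^ K) * (((Nat.totient q : ℕ) : ℝ) / q)) * ∑ j ∈ S,
        ∏ p ∈ (pz (b ^ K)).filter (fun p : ℕ => 0 < p ∧ (¬ p ∣ q ∧ Co H p j)),
          (1 + (2 : ℕ) / (p : ℝ))) := by
        rw [← mul_sum, ← mul_sum]
        ring
    _ ≤ V q H (b ^ K) * (Cv / K * (C * T)) := by
        refine mul_le_mul_of_nonneg_left ?_ hW0
        exact mul_le_mul hVz h2 (sum_nonneg fun j _ => prod_nonneg fun p _ => by positivity)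
          (by positivity)
    _ = _ := by ring

/-- a non-admissible set is covered modulo a small prime -/
lemma small_of_not_adm {q : ℕ} {H : Finset ℕ} {k : ℕ} (hk : H.card ≤ k) (h : ¬ Adm q H) :
    ∃ p : ℕ, p.Prime ∧ ¬ p ∣ q ∧ p ≤ k ∧ ∀ m : ℕ, ∃ h ∈ H, p ∣ m + h := by
  unfold Adm at h
  push Not at h
  obtain ⟨p, hp, hpq, hc⟩ := h
  refine ⟨p, hp, hpq, ?_, hc⟩
  choose f hf hfd using hc
  have h1 : (range p).card ≤ H.card := by
    refine card_le_card_of_injOn f (fun m _ => hf m) ?_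
    intro m hm m' hm' he
    rw [mem_coe, mem_range] at hm hm'
    have h2 : m + f m ≡ m' + f m [MOD p] := by
      have h3 := hfd m
      have h4 := hfd m'
      rw [← he] at h4
      exact (Nat.modEq_zero_iff_dvd.2 h3).trans (Nat.modEq_zero_iff_dvd.2 h4).symm
    have h5 := Nat.ModEq.add_right_cancel' (f m) h2
    unfold Nat.ModEq at h5
    rwa [Nat.mod_eq_of_lt hm, Nat.mod_eq_of_lt hm'] at h5
  rw [card_range] at h1
  omega

/-- the shift -/
lemma exists_shift {q p : ℕ} (a : ℕ) (hp : p.Prime) (hpq : ¬ p ∣ q) :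
    ∃ u : ℕ, ∀ m : ℕ, p ∣ u + m → p ∣ q * m + a := by
  obtain ⟨u, -, hu⟩ := Pool.Agent.H225.LF.exists_root hp
    (a := (q : ℤ)) (fun h => hpq (Int.natCast_dvd_natCast.1 h)) (-(a : ℤ))
  refine ⟨u, fun m hm => ?_⟩
  rw [← Int.natCast_dvd_natCast]
  have e : ((q * m + a : ℕ) : ℤ) = (q : ℤ) * ((u + m : ℕ) : ℤ) - ((q : ℤ) * u + -(a : ℤ)) := by
    push_cast
    ring
  rw [e]
  exact dvd_sub ((Int.natCast_dvd_natCast.2 hm).mul_left _) hu

end Pool.Agent.H225.AX
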