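import Pool.Agent.H225.AX2

/-!
# Exact patterns of rough numbers in arithmetic progressions, uniformly in the modulus: main theorem
-/

set_option autoImplicit false

namespace Pool.Agent.H225.AX

open Finset Filter
open Pool.Agent.Y816.PD (WG NA ND ND_sub NA_nonneg)
open Pool.Agent.H225.DG (AP)
open Pool.Agent.H225.EX (Rough ND_cover)

/-- the lower bound of the sieve product -/
lemma V_low (k b : ℕ) (hk : 1 ≤ k) (hb : 2 ≤ b) : ∃ v : ℝ, 0 < v ∧ ∀ᶠ K : ℕ in atTop,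
    ∀ q a : ℕ, q.Coprime a → ∀ H : Finset ℕ, H.card = k → Adm q H →
      v / (K : ℝ) ^ k ≤ V q H (b ^ K) := by
  classical
  obtain ⟨v, hv, hVl⟩ := Pool.Agent.H225.VL.lower k b hk hb
  refine ⟨v, hv, ?_⟩
  filter_upwards [hVl] with K hVK q a hqa H hHk hadm
  rw [← WG_TQ hqa H 0]
  refine hVK (TQ q a H 0) (fun p hp => ?_) (fun p hp => ?_)
  · have h1 := card_TQ hqa H 0 hp
    refine le_trans (le_of_eq (by convert h1)) ?_
    split_ifs
    · exact Nat.zero_le _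
    · exact (nu_le H hp).trans hHk.le
  · have h1 := card_TQ hqa H 0 hp
    refine lt_of_eq_of_lt (by convert h1) ?_
    split_ifs with hpq
    · exact hp.pos
    · exact nu_lt hadm hp hpq

/-- **Exact patterns of rough numbers in arithmetic progressions, uniformly.** -/
theorem exact (k D : ℕ) (hk : 1 ≤ k) :
    ∃ δ : ℝ, 0 < δ ∧ ∃ r₀ : ℕ, 2 ≤ r₀ ∧ ∀ r : ℕ, r₀ ≤ r → ∀ b : ℕ, 2 ≤ b →
      ∃ κ C c : ℝ, 0 < κ ∧ 0 < C ∧ 0 < c ∧ ∀ᶠ K : ℕ in atTop, ∀ q a N : ℕ, 1 ≤ q →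
        q ≤ b ^ (D * K) → a ≤ b ^ (D * K) → N ≤ b ^ (D * K) → q.Coprime a →
        ∀ H : Finset ℕ, H.card = k →
        (∀ h ∈ H, (h : ℝ) ≤ c * K * (((Nat.totient q : ℕ) : ℝ) / q)) → Adm q H →
        ∀ A : ℕ → Finset ℕ, (∀ i < K, A i ⊆ range b) →
        (b : ℝ) ^ K ≤ Real.exp (δ * K) * NA K A →
        κ / (K : ℝ) ^ k ≤ V q H (b ^ K) ∧
        ((∃ e ∈ A 0, ∀ h ∈ H, (q * (N + e + h) + a).Coprime b) → (∃ e ∈ A (K - 1), e ≠ 0) →
          κ * NA K A * V q H (b ^ K) ≤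
            ND b K A {n | b ^ (K - 1) ≤ n ∧ (∀ h ∈ H, AP r (b ^ K) (q * (N + n + h) + a)) ∧
              ∀ j : ℕ, (j : ℝ) ≤ c * K * (((Nat.totient q : ℕ) : ℝ) / q) → j ∉ H →
                ¬ Rough r (b ^ K) (q * (N + n + j) + a)}) ∧
        (ND b K A {n | ∀ h ∈ H, ∀ p : ℕ, p.Prime → p ∣ q * (N + n + h) + a → n < p ^ r} : ℝ) ≤
          C * NA K A * V q H (b ^ K) := by
  classical
  obtain ⟨δ1, hδ1, r1, hr1, ht1⟩ := tup k D hk
  obtain ⟨δ2, hδ2, r2, hr2, ht2⟩ := tup (k + 1) D (by omega)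
  refine ⟨min δ1 δ2, lt_min hδ1 hδ2, max r1 r2, hr1.trans (le_max_left _ _), fun r hr b hb => ?_⟩
  obtain ⟨κ, C, hκ, hC, h1⟩ := ht1 r ((le_max_left _ _).trans hr) b hb
  obtain ⟨κ2, C2, hκ2, hC2, h2⟩ := ht2 r ((le_max_right _ _).trans hr) b hb
  obtain ⟨C3, hC3, T₀, h3⟩ := avgV k b hb
  obtain ⟨v, hv, hVl⟩ := V_low k b hk hb
  obtain ⟨c, hc⟩ : ∃ c : ℝ, c = min 1 (κ / (4 * C2 * C3)) := ⟨_, rfl⟩
  have hc0 : 0 < c := by rw [hc]; exact lt_min one_pos (by positivity)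
  have hc1 : c ≤ 1 := by rw [hc]; exact min_le_left _ _
  have hc2 : C2 * C3 * (2 * c) ≤ κ / 2 := by
    have : c ≤ κ / (4 * C2 * C3) := by rw [hc]; exact min_le_right _ _
    rw [le_div_iff₀ (by positivity)] at this
    linarith
  refine ⟨min (κ / 2) v, C, c, lt_min (by positivity) hv, hC, hc0, ?_⟩
  have hbpow : Tendsto (fun K : ℕ => b ^ K) atTop atTop :=
    tendsto_pow_atTop_atTop_of_one_lt (by omega)
  filter_upwards [h1, h2, h3, hVl, hbpow.eventually_gt_atTop ((k + 1) ^ r),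
    phi_small b D hb ((T₀ + 1) / c) (by positivity), eventually_ge_atTop 1] with
    K hK1 hK2 hK3 hVK hKb hKT hK0 q a N hq hqb ha hN hqa H hHk hHc hadm A hA hprod
  have hKr0 : (0 : ℝ) < K := by exact_mod_cast hK0
  have hq0 : (0 : ℝ) < q := by exact_mod_cast hq
  obtain ⟨θ, hθ⟩ : ∃ θ : ℝ, θ = ((Nat.totient q : ℕ) : ℝ) / q := ⟨_, rfl⟩
  have hθ0 : 0 < θ := by
    rw [hθ]
    have : 0 < Nat.totient q := Nat.totient_pos.2 hq
    have : (0 : ℝ) < (Nat.totient q : ℕ) := by exact_mod_cast this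
    positivity
  have hθ1 : θ ≤ 1 := by
    rw [hθ, div_le_one hq0]
    exact_mod_cast Nat.totient_le q
  have hKT' := hKT q hq hqb
  have hK3' := hK3
  rw [← hθ] at hKT' hHc ⊢
  have hcK : (T₀ : ℝ) + 1 ≤ c * K * θ := by
    rw [div_le_iff₀ hc0] at hKT'
    linarith
  obtain ⟨T, hT⟩ : ∃ T, T = ⌊c * K * θ⌋₊ + 1 := ⟨_, rfl⟩
  have hTle : (T : ℝ) ≤ 2 * c * K * θ := by
    have h4 : (⌊c * K * θ⌋₊ : ℝ) ≤ c * K * θ := Nat.floor_le (by positivity)
    rw [hT]
    push_cast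
    have : (0 : ℝ) ≤ T₀ := Nat.cast_nonneg _
    linarith
  have hTT₀ : T₀ ≤ T := by
    have h4 : c * K * θ < ⌊c * K * θ⌋₊ + 1 := Nat.lt_floor_add_one _
    have h5 : (T₀ : ℝ) < T := by
      rw [hT]
      push_cast
      linarith
    exact (by exact_mod_cast h5 : T₀ < T).le
  have hmem : ∀ j : ℕ, (j : ℝ) ≤ c * K * θ → j < T := by
    intro j hj
    rw [hT]
    exact Nat.lt_succ_of_le (Nat.le_floor hj)
  have hTK : T ≤ K + 1 := by
    rw [hT]
    have h4 : c * K * θ ≤ K := by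
      calc c * K * θ ≤ 1 * K * 1 :=
            mul_le_mul (mul_le_mul_of_nonneg_right hc1 hKr0.le) hθ1 hθ0.le (by positivity)
        _ = K := by ring
    have : ⌊c * K * θ⌋₊ ≤ ⌊(K : ℝ)⌋₊ := Nat.floor_le_floor h4
    rw [Nat.floor_natCast] at this
    omega
  have hKlt : K < b ^ K := Nat.lt_pow_self (by omega)
  have hHT : H ⊆ range T := fun h hh => mem_range.2 (hmem h (hHc h hh))
  have hHb : ∀ h ∈ H, h ≤ b ^ K := fun h hh => by
    have := mem_range.1 (hHT hh)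
    omega
  have hNA := NA_nonneg K A
  have hexp : ∀ δ : ℝ, min δ1 δ2 ≤ δ → (b : ℝ) ^ K ≤ Real.exp (δ * K) * NA K A := by
    intro δ hδ
    refine hprod.trans (mul_le_mul_of_nonneg_right (Real.exp_le_exp.2 ?_) hNA)
    exact mul_le_mul_of_nonneg_right hδ hKr0.le
  obtain ⟨h4, h5⟩ := hK1 q a N hqb ha hN hqa H hHk hHb hadm A hA (hexp δ1 (min_le_left _ _))
  have hW0 := V_nonneg (b ^ K) hadm
  refine ⟨?_, ?_, h5⟩
  · exact le_trans (div_le_div_of_nonneg_right (min_le_right _ _) (by positivity))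
      (hVK q a hqa H hHk hadm)
  · intro hcop htop
    have h6 := h4 hcop htop
    obtain ⟨J, hJ⟩ : ∃ J, J = (range T \ H).filter (fun j => Adm q (insert j H)) := ⟨_, rfl⟩
    have h7 : ND b K A {n | b ^ (K - 1) ≤ n ∧ ∀ h ∈ H, AP r (b ^ K) (q * (N + n + h) + a)} ≤
        ND b K A {n | b ^ (K - 1) ≤ n ∧ (∀ h ∈ H, AP r (b ^ K) (q * (N + n + h) + a)) ∧
              ∀ j : ℕ, (j : ℝ) ≤ c * K * θ → j ∉ H → ¬ Rough r (b ^ K) (q * (N + n + j) + a)} +
        ∑ j ∈ J, ND b K A {n | ∀ h ∈ insert j H, ∀ p : ℕ, p.Prime → p ∣ q * (N + n + h) + a →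
          n < p ^ r} := by
      refine ND_cover J _ fun n hn hn1 => ?_
      obtain ⟨hn2, hn3⟩ := hn1
      by_cases hg : ∀ j : ℕ, (j : ℝ) ≤ c * K * θ → j ∉ H → ¬ Rough r (b ^ K) (q * (N + n + j) + a)
      · exact Or.inl ⟨hn2, hn3, hg⟩
      · push Not at hg
        obtain ⟨j, hj1, hj2, hj3⟩ := hg
        have hall : ∀ h ∈ insert j H, ∀ p : ℕ, p.Prime → p ∣ q * (N + n + h) + a → b ^ K < p ^ r := by
          intro h hh p hp hd
          rw [mem_insert] at hh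
          rcases hh with rfl | hh
          · exact hj3 p hp hd
          · exact (hn3 h hh).1 p hp hd
        right
        refine ⟨j, ?_, fun h hh p hp hd => hn.trans (hall h hh p hp hd)⟩
        rw [hJ, mem_filter, Finset.mem_sdiff, mem_range]
        refine ⟨⟨hmem j hj1, hj2⟩, ?_⟩
        by_contra hna
        obtain ⟨p, hp, hpq, hpk, hcov⟩ := small_of_not_adm (k := k + 1)
          ((card_insert_le _ _).trans (by omega)) hna
        obtain ⟨u, hu⟩ := exists_shift a hp hpq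
        obtain ⟨h, hh, hd⟩ := hcov (u + (N + n))
        have h8 := hall h hh p hp (hu _ (by rwa [← add_assoc] ))
        have h9 : p ^ r ≤ (k + 1) ^ r := Nat.pow_le_pow_left hpk r
        omega
    have h8 : ∀ j ∈ J, (ND b K A {n | ∀ h ∈ insert j H, ∀ p : ℕ, p.Prime →
        p ∣ q * (N + n + h) + a → n < p ^ r} : ℝ) ≤ C2 * NA K A * V q (insert j H) (b ^ K) := by
      intro j hj
      rw [hJ, mem_filter, Finset.mem_sdiff, mem_range] at hj
      refine (hK2 q a N hqb ha hN hqa (insert j H) ?_ ?_ hj.2 A hA (hexp δ2 (min_le_right _ _))).2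
      · rw [card_insert_of_notMem hj.1.2, hHk]
      · intro h hh
        rw [mem_insert] at hh
        rcases hh with rfl | hh
        · omega
        · exact hHb h hh
    have h9 := hK3 T hTT₀ q hq H hHT hHk hadm
    rw [← hJ, ← hθ] at h9
    have h10 : (ND b K A {n | b ^ (K - 1) ≤ n ∧ ∀ h ∈ H, AP r (b ^ K) (q * (N + n + h) + a)} : ℝ) ≤
        ND b K A {n | b ^ (K - 1) ≤ n ∧ (∀ h ∈ H, AP r (b ^ K) (q * (N + n + h) + a)) ∧
              ∀ j : ℕ, (j : ℝ) ≤ c * K * θ → j ∉ H → ¬ Rough r (b ^ K) (q * (N + n + j) + a)} +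
        ∑ j ∈ J, (ND b K A {n | ∀ h ∈ insert j H, ∀ p : ℕ, p.Prime → p ∣ q * (N + n + h) + a →
          n < p ^ r} : ℝ) := by exact_mod_cast h7
    have h9' : ∑ j ∈ J, V q (insert j H) (b ^ K) ≤ C3 * (2 * c) * V q H (b ^ K) := by
      have h12 : C3 * T / K * V q H (b ^ K) ≤ C3 * (2 * c) * V q H (b ^ K) * θ := by
        calc C3 * T / K * V q H (b ^ K) ≤ C3 * (2 * c * K * θ) / K * V q H (b ^ K) := by
              refine mul_le_mul_of_nonneg_right ?_ hW0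
              exact div_le_div_of_nonneg_right (mul_le_mul_of_nonneg_left hTle hC3.le) hKr0.le
          _ = C3 * (2 * c) * V q H (b ^ K) * θ := by
              field_simp
      exact le_of_mul_le_mul_right (h9.trans h12) hθ0
    have h11 : ∑ j ∈ J, (ND b K A {n | ∀ h ∈ insert j H, ∀ p : ℕ, p.Prime →
        p ∣ q * (N + n + h) + a → n < p ^ r} : ℝ) ≤ κ / 2 * (NA K A * V q H (b ^ K)) := by
      calc _ ≤ ∑ j ∈ J, C2 * NA K A * V q (insert j H) (b ^ K) := sum_le_sum h8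
        _ = C2 * NA K A * ∑ j ∈ J, V q (insert j H) (b ^ K) := by rw [mul_sum]
        _ ≤ C2 * NA K A * (C3 * (2 * c) * V q H (b ^ K)) :=
            mul_le_mul_of_nonneg_left h9' (by positivity)
        _ = (C2 * C3 * (2 * c)) * (NA K A * V q H (b ^ K)) := by ring
        _ ≤ κ / 2 * (NA K A * V q H (b ^ K)) :=
            mul_le_mul_of_nonneg_right hc2 (by positivity)
    have h12 : min (κ / 2) v * NA K A * V q H (b ^ K) ≤ κ / 2 * (NA K A * V q H (b ^ K)) := by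
      rw [mul_assoc]
      exact mul_le_mul_of_nonneg_right (min_le_left _ _) (by positivity)
    have h13 : κ * NA K A * V q H (b ^ K) = κ / 2 * (NA K A * V q H (b ^ K)) +
        κ / 2 * (NA K A * V q H (b ^ K)) := by ring
    linarith

end Pool.Agent.H225.AX
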