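import Pool.Agent.Y816.PD.UniS

/-!
# Systems of polynomials at integers with restricted digits: general forms

`gen`: systems with varying coefficients, sieve product `V`; `fixed`: fixed systems of irreducible
polynomials near any base point, order of magnitude `1 / K ^ k`.
-/

set_option autoImplicit false

namespace Pool.Agent.H225.DG

open Polynomial Finset Filter
open Pool.Agent.Y816.PD (WG uni_top NA ND Rgh Alm WG_nonneg shift_eq)
open Pool.Agent.W123.RU.Poly (Sys Q V_bounds per1)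
open Pool.Agent.W123.RP (Vq)
open Pool.Agent.H373R2.T7 (nuB pz)

/-- `m` has at most `r` prime factors, all larger than `z ^ (1 / r)` -/
def AP (r z m : ℕ) : Prop :=
  (∀ p : ℕ, p.Prime → p ∣ m → z < p ^ r) ∧ m.primeFactorsList.length ≤ r

/-- a prime divides a product of integers iff it divides a factor -/
lemma dvd_prod_iff {k : ℕ} (F : Fin k → ℤ) {p : ℕ} (hp : p.Prime) :
    (p : ℤ) ∣ ∏ i, F i ↔ ∃ i, (p : ℤ) ∣ F i := by
  rw [Prime.dvd_finsetProd_iff (Nat.prime_iff_prime_int.1 hp)]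
  simp

lemma len_dvd {m n : ℕ} (hn : n ≠ 0) (h : m ∣ n) :
    m.primeFactorsList.length ≤ n.primeFactorsList.length := by
  obtain ⟨c, rfl⟩ := h
  have hm : m ≠ 0 := fun h => hn (by rw [h, zero_mul])
  have hc : c ≠ 0 := fun h => hn (by rw [h, mul_zero])
  have := (Nat.perm_primeFactorsList_mul hm hc).length_eq
  rw [List.length_append] at this
  omega

/-- **Systems of `k` polynomials of degree at most `d` whose coefficients may vary.** -/
theorem gen (k d D : ℕ) (hk : 1 ≤ k) (hd : 1 ≤ d) :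
    ∃ δ : ℝ, 0 < δ ∧ ∃ r₀ : ℕ, 2 ≤ r₀ ∧ ∀ r : ℕ, r₀ ≤ r → ∀ b : ℕ, 2 ≤ b →
      ∃ κ C : ℝ, 0 < κ ∧ 0 < C ∧ ∀ᶠ K : ℕ in atTop, ∀ F : Fin k → ℕ → ℤ,
        (∀ i, ∃ P : ℤ[X], P.natDegree ≤ d ∧ ∀ n : ℕ, P.eval (n : ℤ) = F i n) →
        (∀ p : ℕ, p.Prime → ∃ n : ℕ, ∀ i, ¬ (p : ℤ) ∣ F i n) →
        (∀ n : ℕ, n < b ^ K → ∀ i, (F i n).natAbs ≤ b ^ (D * K)) →
        ∀ A : ℕ → Finset ℕ, (∀ i < K, A i ⊆ range b) →
        (b : ℝ) ^ K ≤ Real.exp (δ * K) * NA K A →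
        ((∃ e ∈ A 0, ∀ i, (F i e).natAbs.Coprime b) → (∃ e ∈ A (K - 1), e ≠ 0) →
          κ * NA K A * WG (fun n => ∏ i, F i n) (b ^ K) ≤
            ND b K A {n | b ^ (K - 1) ≤ n ∧ ∀ i, AP r (b ^ K) (F i n).natAbs}) ∧
        (ND b K A {n | ∀ i, (F i n).natAbs.Prime ∧ n < (F i n).natAbs ^ r} : ℝ) ≤
          C * NA K A * WG (fun n => ∏ i, F i n) (b ^ K) := by
  classical
  obtain ⟨δ, hδ, r₀, hr₀, h⟩ := uni_top (k * d) (D * k) (Nat.mul_pos hk hd)
  refine ⟨δ, hδ, r₀, hr₀, fun r hr b hb => ?_⟩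
  obtain ⟨κ, C, hκ, hC, h1⟩ := h r hr b hb
  refine ⟨κ, C, hκ, hC, ?_⟩
  filter_upwards [h1, eventually_ge_atTop r] with K hK hKr F hP hadm hsize A hA hprod
  obtain ⟨P, hP⟩ : ∃ P : Fin k → ℤ[X], ∀ i, (P i).natDegree ≤ d ∧
      ∀ n : ℕ, (P i).eval (n : ℤ) = F i n := by
    choose P hP using hP
    exact ⟨P, hP⟩
  have hpoly : ∃ P : ℤ[X], P.natDegree ≤ k * d ∧ ∀ n : ℕ, P.eval (n : ℤ) = ∏ i, F i n := by
    refine ⟨∏ i, P i, ?_, fun n => ?_⟩
    · refine (natDegree_prod_le _ _).trans ?_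
      calc ∑ i, (P i).natDegree ≤ ∑ _i : Fin k, d := sum_le_sum fun i _ => (hP i).1
        _ = k * d := by simp
    · rw [eval_prod]
      exact prod_congr rfl fun i _ => (hP i).2 n
  have hadm' : ∀ p : ℕ, p.Prime → ∃ n : ℕ, ¬ (p : ℤ) ∣ ∏ i, F i n := by
    intro p hp
    obtain ⟨n, hn⟩ := hadm p hp
    refine ⟨n, fun hd => ?_⟩
    rw [dvd_prod_iff (fun i => F i n) hp] at hd
    obtain ⟨i, hi⟩ := hd
    exact hn i hi
  have habs : ∀ n : ℕ, (∏ i, F i n).natAbs = ∏ i, (F i n).natAbs := by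
    intro n
    exact map_prod Int.natAbsHom _ _
  have hsize' : ∀ n : ℕ, n < b ^ K → (∏ i, F i n).natAbs ≤ b ^ (D * k * K) := by
    intro n hn
    rw [habs]
    calc ∏ i, (F i n).natAbs ≤ ∏ _i : Fin k, b ^ (D * K) :=
          prod_le_prod' fun i _ => hsize n hn i
      _ = b ^ (D * k * K) := by
          rw [prod_const, card_univ, Fintype.card_fin, ← pow_mul]
          congr 1
          ring
  obtain ⟨h2, h3⟩ := hK (fun n => ∏ i, F i n) hpoly hadm' hsize' A hA hprod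
  have hz : 2 ^ r ≤ b ^ K :=
    (Nat.pow_le_pow_left hb r).trans (Nat.pow_le_pow_right (by omega) hKr)
  constructor
  · rintro ⟨e, he, hcop⟩ htop
    have h4 := h2 ⟨e, he, by
      rw [habs]
      exact Nat.Coprime.prod_left fun i _ => hcop i⟩ htop
    refine h4.trans ?_
    have h5 : ND b K A {n | b ^ (K - 1) ≤ n ∧ n ∈ Alm (fun n => ∏ i, F i n) r (b ^ K)} ≤
        ND b K A {n | b ^ (K - 1) ≤ n ∧ ∀ i, AP r (b ^ K) (F i n).natAbs} := by
      refine Pool.Agent.Y816.PD.ND_sub fun n _ hn1 hn2 => ⟨hn1, ?_⟩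
      obtain ⟨hn3, hn4, hn5⟩ := hn2
      have h0 : (∏ i, F i n).natAbs ≠ 0 := by
        intro h0
        have h6 : (∏ i, F i n) = 0 := Int.natAbs_eq_zero.1 h0
        have h7 := hn4 2 Nat.prime_two (by
          change ((2 : ℕ) : ℤ) ∣ ∏ i, F i n
          rw [h6]
          exact dvd_zero _)
        omega
      refine ⟨hn3, fun i => ⟨fun p hp hpd => hn4 p hp ?_, ?_⟩⟩
      · exact (Int.natCast_dvd.2 hpd).trans (dvd_prod_of_mem (fun i => F i n) (mem_univ i))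
      · refine (len_dvd h0 ?_).trans hn5
        rw [habs]
        exact dvd_prod_of_mem (fun i => (F i n).natAbs) (mem_univ i)
    exact_mod_cast h5
  · refine le_trans ?_ h3
    have h5 : ND b K A {n | ∀ i, (F i n).natAbs.Prime ∧ n < (F i n).natAbs ^ r} ≤
        ND b K A (Rgh (fun n => ∏ i, F i n) r) := by
      refine Pool.Agent.Y816.PD.ND_sub fun n _ hn1 hn2 => ⟨hn1, fun p hp hpd => ?_⟩
      rw [dvd_prod_iff (fun i => F i n) hp] at hpd
      obtain ⟨i, hi⟩ := hpd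
      obtain ⟨h6, h7⟩ := hn2 i
      have h8 := (Nat.prime_dvd_prime_iff_eq hp h6).1 (Int.natCast_dvd.1 hi)
      rw [h8]
      exact h7
    exact_mod_cast h5

/-! ### The sieve product -/

open Classical in
/-- the number of the roots modulo `p` does not change under a shift -/
lemma roots_shift {k : ℕ} (f : Fin k → ℤ[X]) (N : ℕ) {p : ℕ} (hp : p.Prime) :
    ((range p).filter (fun n : ℕ => (p : ℤ) ∣ ∏ i, (f i).eval (((N + n : ℕ)) : ℤ))).card =
      nuB (Q f) p := by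
  have h1 : ((range p).filter (fun n : ℕ => (p : ℤ) ∣ ∏ i, (f i).eval (((N + n : ℕ)) : ℤ))).card =
      ((range p).filter (fun n : ℕ => Q f p (N + n))).card := by
    congr 1
    apply filter_congr
    intro n _
    rw [dvd_prod_iff (fun i => (f i).eval (((N + n : ℕ)) : ℤ)) hp]
    rfl
  rw [h1]
  have h2 := shift_eq p N hp.pos (fun n => Q f p n) (Pool.Agent.W123.RU.Poly.per f p)
  unfold nuB
  exact h2

lemma WG_shift {k : ℕ} (f : Fin k → ℤ[X]) (N x : ℕ) :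
    WG (fun n => ∏ i, (f i).eval (((N + n : ℕ)) : ℤ)) x = Vq (Q f) x := by
  classical
  unfold WG Vq pz
  refine prod_congr rfl fun p hp => ?_
  rw [mem_filter] at hp
  rw [← roots_shift f N hp.2]

/-- **Fixed systems near any base point.** -/
theorem fixed {k : ℕ} (hk : 1 ≤ k) (f : Fin k → ℤ[X]) (hf : Sys f) (D : ℕ) :
    ∃ δ : ℝ, 0 < δ ∧ ∃ r₀ : ℕ, 2 ≤ r₀ ∧ ∀ r : ℕ, r₀ ≤ r → ∀ b : ℕ, 2 ≤ b →
      ∃ κ C : ℝ, 0 < κ ∧ 0 < C ∧ ∀ᶠ K : ℕ in atTop, ∀ N : ℕ, N ≤ b ^ (D * K) →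
        ∀ A : ℕ → Finset ℕ, (∀ i < K, A i ⊆ range b) →
        (b : ℝ) ^ K ≤ Real.exp (δ * K) * NA K A →
        ((∃ e ∈ A 0, ∀ i, ((f i).eval (((N + e : ℕ)) : ℤ)).natAbs.Coprime b) →
          (∃ e ∈ A (K - 1), e ≠ 0) →
          κ * NA K A / (K : ℝ) ^ k ≤
            ND b K A {n | b ^ (K - 1) ≤ n ∧
              ∀ i, AP r (b ^ K) ((f i).eval (((N + n : ℕ)) : ℤ)).natAbs}) ∧
        (ND b K A {n | ∀ i, ((f i).eval (((N + n : ℕ)) : ℤ)).natAbs.Prime ∧
            n < ((f i).eval (((N + n : ℕ)) : ℤ)).natAbs ^ r} : ℝ) ≤ C * NA K A / (K : ℝ) ^ k := by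
  classical
  -- the degrees and the sizes
  obtain ⟨d, hd1, hd⟩ : ∃ d : ℕ, 1 ≤ d ∧ ∀ i, (f i).natDegree ≤ d := by
    refine ⟨∑ i, (f i).natDegree + 1, by omega, fun i => ?_⟩
    have := single_le_sum (f := fun i => (f i).natDegree) (fun _ _ => Nat.zero_le _) (mem_univ i)
    omega
  obtain ⟨M, hM⟩ : ∃ M : ℕ, ∀ i, ∀ m : ℕ, ((f i).eval (m : ℤ)).natAbs ≤ M * (m + 1) ^ d := by
    refine ⟨∑ i, ∑ j ∈ range ((f i).natDegree + 1), ((f i).coeff j).natAbs, fun i m => ?_⟩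
    rw [eval_eq_sum_range]
    refine (Int.natAbs_sum_le _ _).trans ?_
    calc ∑ j ∈ range ((f i).natDegree + 1), ((f i).coeff j * (m : ℤ) ^ j).natAbs
        ≤ ∑ j ∈ range ((f i).natDegree + 1), ((f i).coeff j).natAbs * (m + 1) ^ d := by
          refine sum_le_sum fun j hj => ?_
          rw [Int.natAbs_mul, Int.natAbs_pow, Int.natAbs_natCast]
          refine Nat.mul_le_mul_left _ ((Nat.pow_le_pow_left (Nat.le_succ m) j).trans
            (Nat.pow_le_pow_right (Nat.succ_pos m) ?_))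
          have := mem_range.1 hj
          have := hd i
          omega
      _ = (∑ j ∈ range ((f i).natDegree + 1), ((f i).coeff j).natAbs) * (m + 1) ^ d := by
          rw [sum_mul]
      _ ≤ _ := by
          refine Nat.mul_le_mul_right _ ?_
          exact single_le_sum (f := fun i => ∑ j ∈ range ((f i).natDegree + 1),
            ((f i).coeff j).natAbs) (fun _ _ => Nat.zero_le _) (mem_univ i)
  obtain ⟨δ, hδ, r₀, hr₀, h⟩ := gen k d (1 + (D + 2) * d) hk hd1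
  refine ⟨δ, hδ, r₀, hr₀, fun r hr b hb => ?_⟩
  obtain ⟨κ, C, hκ, hC, h1⟩ := h r hr b hb
  obtain ⟨v, Cv, hv, hCv, hV⟩ := V_bounds f hf
  have hb1 : (1 : ℝ) < b := by exact_mod_cast (by omega : 1 < b)
  have hlb : 0 < Real.log b := Real.log_pos hb1
  refine ⟨κ * (v / Real.log b ^ k), C * (Cv / Real.log b ^ k), by positivity, by positivity, ?_⟩
  filter_upwards [h1, eventually_ge_atTop (M + 2)] with K hK hKM N hN A hA hprod
  have hK0 : (0 : ℝ) < K := by exact_mod_cast (by omega : 0 < K)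
  have hMb : M ≤ b ^ K := by
    have : K < 2 ^ K := Nat.lt_two_pow_self
    have h2 : 2 ^ K ≤ b ^ K := Nat.pow_le_pow_left hb K
    omega
  have h3b : 3 ≤ b ^ K := by
    calc 3 ≤ 2 ^ 2 := by norm_num
      _ ≤ 2 ^ K := Nat.pow_le_pow_right (by norm_num) (by omega)
      _ ≤ b ^ K := Nat.pow_le_pow_left hb K
  have hsize : ∀ n : ℕ, n < b ^ K → ∀ i,
      ((f i).eval (((N + n : ℕ)) : ℤ)).natAbs ≤ b ^ ((1 + (D + 2) * d) * K) := by
    intro n hn i
    have hNn : N + n + 1 ≤ b ^ ((D + 2) * K) := by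
      have e : b ^ ((D + 2) * K) = b ^ (D * K) * b ^ K * b ^ K := by
        rw [← pow_add, ← pow_add]
        congr 1
        ring
      rw [e]
      have h4 : 1 ≤ b ^ (D * K) := Nat.one_le_pow _ _ (by omega)
      have h5 : b ^ K ≤ b ^ (D * K) * b ^ K := Nat.le_mul_of_pos_left _ (by omega)
      have h6 : b ^ (D * K) ≤ b ^ (D * K) * b ^ K := Nat.le_mul_of_pos_right _ (by omega)
      have h7 : b ^ (D * K) * b ^ K * 2 ≤ b ^ (D * K) * b ^ K * b ^ K :=
        Nat.mul_le_mul_left _ (by omega)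
      omega
    refine (hM i (N + n)).trans ?_
    have e : b ^ ((1 + (D + 2) * d) * K) = b ^ K * (b ^ ((D + 2) * K)) ^ d := by
      rw [← pow_mul, ← pow_add]
      congr 1
      ring
    rw [e]
    exact Nat.mul_le_mul hMb (Nat.pow_le_pow_left hNn d)
  have hadm : ∀ p : ℕ, p.Prime → ∃ n : ℕ, ∀ i, ¬ (p : ℤ) ∣ (f i).eval (((N + n : ℕ)) : ℤ) := by
    intro p hp
    obtain ⟨m, hm⟩ := hf.adm p hp
    refine ⟨m + (p * N - N), fun i hi => hm i ?_⟩
    have hle : N ≤ p * N := Nat.le_mul_of_pos_left N hp.pos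
    have e : N + (m + (p * N - N)) = m + p * N := by omega
    rw [e, per1, Nat.add_mul_mod_self_left, ← per1] at hi
    exact hi
  have hpoly : ∀ i, ∃ P : ℤ[X], P.natDegree ≤ d ∧
      ∀ n : ℕ, P.eval (n : ℤ) = (f i).eval (((N + n : ℕ)) : ℤ) := by
    intro i
    refine ⟨(f i).comp (X + Polynomial.C (N : ℤ)), ?_, fun n => ?_⟩
    · rw [natDegree_comp, natDegree_X_add_C, mul_one]
      exact hd i
    · rw [eval_comp, eval_add, eval_X, eval_C]
      congr 1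
      push_cast
      ring
  obtain ⟨h2, h3⟩ := hK (fun i n => (f i).eval (((N + n : ℕ)) : ℤ)) hpoly hadm hsize A hA hprod
  have hNA : 0 ≤ NA K A := by
    unfold NA
    exact prod_nonneg fun i _ => Nat.cast_nonneg _
  obtain ⟨hV1, hV2⟩ := hV (b ^ K) h3b
  rw [Fintype.card_fin] at hV1 hV2
  push_cast at hV1 hV2
  rw [Real.log_pow] at hV1 hV2
  have e : ∀ u : ℝ, u / Real.log b ^ k / (K : ℝ) ^ k = u / ((K : ℝ) * Real.log b) ^ k := by
    intro u
    rw [mul_pow]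
    field_simp
  rw [← e] at hV1 hV2
  rw [WG_shift] at h2 h3
  constructor
  · intro hcop htop
    refine le_trans ?_ (h2 hcop htop)
    calc κ * (v / Real.log b ^ k) * NA K A / (K : ℝ) ^ k
        = κ * NA K A * (v / Real.log b ^ k / (K : ℝ) ^ k) := by ring
      _ ≤ _ := mul_le_mul_of_nonneg_left hV1 (mul_nonneg hκ.le hNA)
  · refine h3.trans ?_
    calc C * NA K A * Vq (Q f) (b ^ K)
        ≤ C * NA K A * (Cv / Real.log b ^ k / (K : ℝ) ^ k) :=
          mul_le_mul_of_nonneg_left hV2 (mul_nonneg hC.le hNA)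
      _ = _ := by ring

end Pool.Agent.H225.DG
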