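import Pool.Agent.H225.DG

/-!
# Systems of polynomials at integers with restricted digits: upper bounds for rough values, and
almost prime values without primes at a further polynomial
-/

set_option autoImplicit false

namespace Pool.Agent.H225.DG2

open Polynomial Finset Filter
open Pool.Agent.Y816.PD (WG uni_top NA ND Rgh Alm WG_nonneg shift_eq)
open Pool.Agent.W123.RU.Poly (Sys Q V_bounds per1)
open Pool.Agent.W123.RP (Vq)
open Pool.Agent.H373R2.T7 (nuB pz)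

open Pool.Agent.H225.DG (AP dvd_prod_iff len_dvd WG_shift roots_shift)

/-- **Systems of `k` polynomials of degree at most `d` whose coefficients may vary.** -/
theorem genR (k d D : ℕ) (hk : 1 ≤ k) (hd : 1 ≤ d) :
    ∃ δ : ℝ, 0 < δ ∧ ∃ r₀ : ℕ, 2 ≤ r₀ ∧ ∀ r : ℕ, r₀ ≤ r → ∀ b : ℕ, 2 ≤ b →
      ∃ κ C : ℝ, 0 < κ ∧ 0 < C ∧ ∀ᶠ K : ℕ in atTop, ∀ F : Fin k → ℕ → ℤ,
        (∀ i, ∃ P : ℤ[X], P.natDegree ≤ d ∧ ∀ n : ℕ, P.eval (n : ℤ) = F i n) →
        (∀ p : ℕ, p.Prime → ∃ n : ℕ, ∀ i, ¬ (p : ℤ) ∣ F i n) →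
        (∀ n : ℕ, n < b ^ K → ∀ i, (F i n).natAbs ≤ b ^ (D * K)) →
        ∀ A : ℕ → Finset ℕ, (∀ i < K, A i ⊆ range b) →
        (b : ℝ) ^ K ≤ Real.exp (δ * K) * NA K A →
        ((∃ e ∈ A 0, ∀ i, (F i e).natAbs.Coprime b) → (∃ e ∈ A (K - 1), e ≠ 0) →
          κ * NA K A * WG (fun n => ∏ i, F i n) (b ^ K) ≤
            ND b K A {n | b ^ (K - 1) ≤ n ∧ ∀ i, AP r (b ^ K) (F i n).natAbs}) ∧
        (ND b K A {n | ∀ i, ∀ p : ℕ, p.Prime → (p : ℤ) ∣ F i n → n < p ^ r} : ℝ) ≤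
          C * NA K A * WG (fun n => ∏ i, F i n) (b ^ K) := by
  classical
  obtain ⟨δ, hδ, r₀, hr₀, h⟩ := uni_top (k * d) (D * k) (Nat.mul_pos hk hd)
  refine ⟨δ, hδ, r₀, hr₀, fun r hr b hb => ?_⟩
  obtain ⟨κ, C, hκ, hC, h1⟩ := h r hr b hb
  refine ⟨κ, C, hκ, hC, ?_⟩
  filter_upwards [h1, eventually_ge_atTop r] with K hK hKr F hP hadm hsize A hA hprod
  obtain ⟨P, hP⟩ : ∃ P : Fin k → ℤ[X], ∀ i, (P i).natDegree ≤ d ∧
      ∀ n : ℕ, (P i).eval (n : ℤ) = F i n := by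
    choose P hP using hP
    exact ⟨P, hP⟩
  have hpoly : ∃ P : ℤ[X], P.natDegree ≤ k * d ∧ ∀ n : ℕ, P.eval (n : ℤ) = ∏ i, F i n := by
    refine ⟨∏ i, P i, ?_, fun n => ?_⟩
    · refine (natDegree_prod_le _ _).trans ?_
      calc ∑ i, (P i).natDegree ≤ ∑ _i : Fin k, d := sum_le_sum fun i _ => (hP i).1
        _ = k * d := by simp
    · rw [eval_prod]
      exact prod_congr rfl fun i _ => (hP i).2 n
  have hadm' : ∀ p : ℕ, p.Prime → ∃ n : ℕ, ¬ (p : ℤ) ∣ ∏ i, F i n := by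
    intro p hp
    obtain ⟨n, hn⟩ := hadm p hp
    refine ⟨n, fun hd => ?_⟩
    rw [dvd_prod_iff (fun i => F i n) hp] at hd
    obtain ⟨i, hi⟩ := hd
    exact hn i hi
  have habs : ∀ n : ℕ, (∏ i, F i n).natAbs = ∏ i, (F i n).natAbs := by
    intro n
    exact map_prod Int.natAbsHom _ _
  have hsize' : ∀ n : ℕ, n < b ^ K → (∏ i, F i n).natAbs ≤ b ^ (D * k * K) := by
    intro n hn
    rw [habs]
    calc ∏ i, (F i n).natAbs ≤ ∏ _i : Fin k, b ^ (D * K) :=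
          prod_le_prod' fun i _ => hsize n hn i
      _ = b ^ (D * k * K) := by
          rw [prod_const, card_univ, Fintype.card_fin, ← pow_mul]
          congr 1
          ring
  obtain ⟨h2, h3⟩ := hK (fun n => ∏ i, F i n) hpoly hadm' hsize' A hA hprod
  have hz : 2 ^ r ≤ b ^ K :=
    (Nat.pow_le_pow_left hb r).trans (Nat.pow_le_pow_right (by omega) hKr)
  constructor
  · rintro ⟨e, he, hcop⟩ htop
    have h4 := h2 ⟨e, he, by
      rw [habs]
      exact Nat.Coprime.prod_left fun i _ => hcop i⟩ htop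
    refine h4.trans ?_
    have h5 : ND b K A {n | b ^ (K - 1) ≤ n ∧ n ∈ Alm (fun n => ∏ i, F i n) r (b ^ K)} ≤
        ND b K A {n | b ^ (K - 1) ≤ n ∧ ∀ i, AP r (b ^ K) (F i n).natAbs} := by
      refine Pool.Agent.Y816.PD.ND_sub fun n _ hn1 hn2 => ⟨hn1, ?_⟩
      obtain ⟨hn3, hn4, hn5⟩ := hn2
      have h0 : (∏ i, F i n).natAbs ≠ 0 := by
        intro h0
        have h6 : (∏ i, F i n) = 0 := Int.natAbs_eq_zero.1 h0
        have h7 := hn4 2 Nat.prime_two (by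
          change ((2 : ℕ) : ℤ) ∣ ∏ i, F i n
          rw [h6]
          exact dvd_zero _)
        omega
      refine ⟨hn3, fun i => ⟨fun p hp hpd => hn4 p hp ?_, ?_⟩⟩
      · exact (Int.natCast_dvd.2 hpd).trans (dvd_prod_of_mem (fun i => F i n) (mem_univ i))
      · refine (len_dvd h0 ?_).trans hn5
        rw [habs]
        exact dvd_prod_of_mem (fun i => (F i n).natAbs) (mem_univ i)
    exact_mod_cast h5
  · refine le_trans ?_ h3
    have h5 : ND b K A {n | ∀ i, ∀ p : ℕ, p.Prime → (p : ℤ) ∣ F i n → n < p ^ r} ≤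
        ND b K A (Rgh (fun n => ∏ i, F i n) r) := by
      refine Pool.Agent.Y816.PD.ND_sub fun n _ hn1 hn2 => ⟨hn1, fun p hp hpd => ?_⟩
      rw [dvd_prod_iff (fun i => F i n) hp] at hpd
      obtain ⟨i, hi⟩ := hpd
      exact hn2 i p hp hi
    exact_mod_cast h5

/-- **Fixed systems near any base point.** -/
theorem fixedR {k : ℕ} (hk : 1 ≤ k) (f : Fin k → ℤ[X]) (hf : Sys f) (D : ℕ) :
    ∃ δ : ℝ, 0 < δ ∧ ∃ r₀ : ℕ, 2 ≤ r₀ ∧ ∀ r : ℕ, r₀ ≤ r → ∀ b : ℕ, 2 ≤ b →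
      ∃ κ C : ℝ, 0 < κ ∧ 0 < C ∧ ∀ᶠ K : ℕ in atTop, ∀ N : ℕ, N ≤ b ^ (D * K) →
        ∀ A : ℕ → Finset ℕ, (∀ i < K, A i ⊆ range b) →
        (b : ℝ) ^ K ≤ Real.exp (δ * K) * NA K A →
        ((∃ e ∈ A 0, ∀ i, ((f i).eval (((N + e : ℕ)) : ℤ)).natAbs.Coprime b) →
          (∃ e ∈ A (K - 1), e ≠ 0) →
          κ * NA K A / (K : ℝ) ^ k ≤
            ND b K A {n | b ^ (K - 1) ≤ n ∧
              ∀ i, AP r (b ^ K) ((f i).eval (((N + n : ℕ)) : ℤ)).natAbs}) ∧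
        (ND b K A {n | ∀ i, ∀ p : ℕ, p.Prime → (p : ℤ) ∣ (f i).eval (((N + n : ℕ)) : ℤ) →
            n < p ^ r} : ℝ) ≤ C * NA K A / (K : ℝ) ^ k := by
  classical
  -- the degrees and the sizes
  obtain ⟨d, hd1, hd⟩ : ∃ d : ℕ, 1 ≤ d ∧ ∀ i, (f i).natDegree ≤ d := by
    refine ⟨∑ i, (f i).natDegree + 1, by omega, fun i => ?_⟩
    have := single_le_sum (f := fun i => (f i).natDegree) (fun _ _ => Nat.zero_le _) (mem_univ i)
    omega
  obtain ⟨M, hM⟩ : ∃ M : ℕ, ∀ i, ∀ m : ℕ, ((f i).eval (m : ℤ)).natAbs ≤ M * (m + 1) ^ d := by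
    refine ⟨∑ i, ∑ j ∈ range ((f i).natDegree + 1), ((f i).coeff j).natAbs, fun i m => ?_⟩
    rw [eval_eq_sum_range]
    refine (Int.natAbs_sum_le _ _).trans ?_
    calc ∑ j ∈ range ((f i).natDegree + 1), ((f i).coeff j * (m : ℤ) ^ j).natAbs
        ≤ ∑ j ∈ range ((f i).natDegree + 1), ((f i).coeff j).natAbs * (m + 1) ^ d := by
          refine sum_le_sum fun j hj => ?_
          rw [Int.natAbs_mul, Int.natAbs_pow, Int.natAbs_natCast]
          refine Nat.mul_le_mul_left _ ((Nat.pow_le_pow_left (Nat.le_succ m) j).trans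
            (Nat.pow_le_pow_right (Nat.succ_pos m) ?_))
          have := mem_range.1 hj
          have := hd i
          omega
      _ = (∑ j ∈ range ((f i).natDegree + 1), ((f i).coeff j).natAbs) * (m + 1) ^ d := by
          rw [sum_mul]
      _ ≤ _ := by
          refine Nat.mul_le_mul_right _ ?_
          exact single_le_sum (f := fun i => ∑ j ∈ range ((f i).natDegree + 1),
            ((f i).coeff j).natAbs) (fun _ _ => Nat.zero_le _) (mem_univ i)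
  obtain ⟨δ, hδ, r₀, hr₀, h⟩ := genR k d (1 + (D + 2) * d) hk hd1
  refine ⟨δ, hδ, r₀, hr₀, fun r hr b hb => ?_⟩
  obtain ⟨κ, C, hκ, hC, h1⟩ := h r hr b hb
  obtain ⟨v, Cv, hv, hCv, hV⟩ := V_bounds f hf
  have hb1 : (1 : ℝ) < b := by exact_mod_cast (by omega : 1 < b)
  have hlb : 0 < Real.log b := Real.log_pos hb1
  refine ⟨κ * (v / Real.log b ^ k), C * (Cv / Real.log b ^ k), by positivity, by positivity, ?_⟩
  filter_upwards [h1, eventually_ge_atTop (M + 2)] with K hK hKM N hN A hA hprod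
  have hK0 : (0 : ℝ) < K := by exact_mod_cast (by omega : 0 < K)
  have hMb : M ≤ b ^ K := by
    have : K < 2 ^ K := Nat.lt_two_pow_self
    have h2 : 2 ^ K ≤ b ^ K := Nat.pow_le_pow_left hb K
    omega
  have h3b : 3 ≤ b ^ K := by
    calc 3 ≤ 2 ^ 2 := by norm_num
      _ ≤ 2 ^ K := Nat.pow_le_pow_right (by norm_num) (by omega)
      _ ≤ b ^ K := Nat.pow_le_pow_left hb K
  have hsize : ∀ n : ℕ, n < b ^ K → ∀ i,
      ((f i).eval (((N + n : ℕ)) : ℤ)).natAbs ≤ b ^ ((1 + (D + 2) * d) * K) := by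
    intro n hn i
    have hNn : N + n + 1 ≤ b ^ ((D + 2) * K) := by
      have e : b ^ ((D + 2) * K) = b ^ (D * K) * b ^ K * b ^ K := by
        rw [← pow_add, ← pow_add]
        congr 1
        ring
      rw [e]
      have h4 : 1 ≤ b ^ (D * K) := Nat.one_le_pow _ _ (by omega)
      have h5 : b ^ K ≤ b ^ (D * K) * b ^ K := Nat.le_mul_of_pos_left _ (by omega)
      have h6 : b ^ (D * K) ≤ b ^ (D * K) * b ^ K := Nat.le_mul_of_pos_right _ (by omega)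
      have h7 : b ^ (D * K) * b ^ K * 2 ≤ b ^ (D * K) * b ^ K * b ^ K :=
        Nat.mul_le_mul_left _ (by omega)
      omega
    refine (hM i (N + n)).trans ?_
    have e : b ^ ((1 + (D + 2) * d) * K) = b ^ K * (b ^ ((D + 2) * K)) ^ d := by
      rw [← pow_mul, ← pow_add]
      congr 1
      ring
    rw [e]
    exact Nat.mul_le_mul hMb (Nat.pow_le_pow_left hNn d)
  have hadm : ∀ p : ℕ, p.Prime → ∃ n : ℕ, ∀ i, ¬ (p : ℤ) ∣ (f i).eval (((N + n : ℕ)) : ℤ) := by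
    intro p hp
    obtain ⟨m, hm⟩ := hf.adm p hp
    refine ⟨m + (p * N - N), fun i hi => hm i ?_⟩
    have hle : N ≤ p * N := Nat.le_mul_of_pos_left N hp.pos
    have e : N + (m + (p * N - N)) = m + p * N := by omega
    rw [e, per1, Nat.add_mul_mod_self_left, ← per1] at hi
    exact hi
  have hpoly : ∀ i, ∃ P : ℤ[X], P.natDegree ≤ d ∧
      ∀ n : ℕ, P.eval (n : ℤ) = (f i).eval (((N + n : ℕ)) : ℤ) := by
    intro i
    refine ⟨(f i).comp (X + Polynomial.C (N : ℤ)), ?_, fun n => ?_⟩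
    · rw [natDegree_comp, natDegree_X_add_C, mul_one]
      exact hd i
    · rw [eval_comp, eval_add, eval_X, eval_C]
      congr 1
      push_cast
      ring
  obtain ⟨h2, h3⟩ := hK (fun i n => (f i).eval (((N + n : ℕ)) : ℤ)) hpoly hadm hsize A hA hprod
  have hNA : 0 ≤ NA K A := by
    unfold NA
    exact prod_nonneg fun i _ => Nat.cast_nonneg _
  obtain ⟨hV1, hV2⟩ := hV (b ^ K) h3b
  rw [Fintype.card_fin] at hV1 hV2
  push_cast at hV1 hV2
  rw [Real.log_pow] at hV1 hV2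
  have e : ∀ u : ℝ, u / Real.log b ^ k / (K : ℝ) ^ k = u / ((K : ℝ) * Real.log b) ^ k := by
    intro u
    rw [mul_pow]
    field_simp
  rw [← e] at hV1 hV2
  rw [WG_shift] at h2 h3
  constructor
  · intro hcop htop
    refine le_trans ?_ (h2 hcop htop)
    calc κ * (v / Real.log b ^ k) * NA K A / (K : ℝ) ^ k
        = κ * NA K A * (v / Real.log b ^ k / (K : ℝ) ^ k) := by ring
      _ ≤ _ := mul_le_mul_of_nonneg_left hV1 (mul_nonneg hκ.le hNA)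
  · refine h3.trans ?_
    calc C * NA K A * Vq (Q f) (b ^ K)
        ≤ C * NA K A * (Cv / Real.log b ^ k / (K : ℝ) ^ k) :=
          mul_le_mul_of_nonneg_left hV2 (mul_nonneg hC.le hNA)
      _ = _ := by ring

lemma ND_union {b K : ℕ} {A : ℕ → Finset ℕ} {S T U : Set ℕ}
    (h : ∀ n < b ^ K, n ∈ S → n ∈ T ∨ n ∈ U) : ND b K A S ≤ ND b K A T + ND b K A U := by
  classical
  unfold ND
  refine (card_le_card ?_).trans (card_union_le _ _)
  intro n hn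
  rw [mem_filter] at hn
  rw [mem_union, mem_filter, mem_filter]
  exact (h n (mem_range.1 hn.1) hn.2.2).imp (fun h => ⟨hn.1, hn.2.1, h⟩) fun h => ⟨hn.1, hn.2.1, h⟩

/-- **Fixed systems near any base point, without primes at a further polynomial.** -/
theorem fixedE {k : ℕ} (hk : 1 ≤ k) (f : Fin k → ℤ[X]) (hf : Sys f) (e : ℤ[X])
    (hfe : Sys (Fin.snoc f e : Fin (k + 1) → ℤ[X])) (D : ℕ) :
    ∃ δ : ℝ, 0 < δ ∧ ∃ r₀ : ℕ, 2 ≤ r₀ ∧ ∀ r : ℕ, r₀ ≤ r → ∀ b : ℕ, 2 ≤ b →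
      ∃ κ C : ℝ, 0 < κ ∧ 0 < C ∧ ∀ᶠ K : ℕ in atTop, ∀ N : ℕ, N ≤ b ^ (D * K) →
        ∀ A : ℕ → Finset ℕ, (∀ i < K, A i ⊆ range b) →
        (b : ℝ) ^ K ≤ Real.exp (δ * K) * NA K A →
        ((∃ d ∈ A 0, ∀ i, ((f i).eval (((N + d : ℕ)) : ℤ)).natAbs.Coprime b) →
          (∃ d ∈ A (K - 1), d ≠ 0) →
          κ * NA K A / (K : ℝ) ^ k ≤
            ND b K A {n | b ^ (K - 1) ≤ n ∧
              (∀ i, AP r (b ^ K) ((f i).eval (((N + n : ℕ)) : ℤ)).natAbs) ∧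
              ¬ ((e.eval (((N + n : ℕ)) : ℤ)).natAbs.Prime ∧
                n < (e.eval (((N + n : ℕ)) : ℤ)).natAbs ^ r)}) ∧
        (ND b K A {n | ∀ i, ∀ p : ℕ, p.Prime → (p : ℤ) ∣ (f i).eval (((N + n : ℕ)) : ℤ) →
            n < p ^ r} : ℝ) ≤ C * NA K A / (K : ℝ) ^ k := by
  classical
  obtain ⟨δ₁, hδ₁, r₁, hr₁, h⟩ := fixedR hk f hf D
  obtain ⟨δ₂, hδ₂, r₂, hr₂, h'⟩ := fixedR (by omega) (Fin.snoc f e : Fin (k + 1) → ℤ[X]) hfe D
  refine ⟨min δ₁ δ₂, lt_min hδ₁ hδ₂, max r₁ r₂, le_max_of_le_left hr₁, fun r hr b hb => ?_⟩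
  obtain ⟨κ, C, hκ, hC, h1⟩ := h r ((le_max_left _ _).trans hr) b hb
  obtain ⟨κ', C', hκ', hC', h1'⟩ := h' r ((le_max_right _ _).trans hr) b hb
  refine ⟨κ / 2, C, by positivity, hC, ?_⟩
  filter_upwards [h1, h1', eventually_ge_atTop 1,
    tendsto_natCast_atTop_atTop.eventually_ge_atTop (2 * C' / κ)] with K hK hK' hK1 hK2 N hN A hA
    hprod
  have hK0 : (0 : ℝ) < K := by exact_mod_cast hK1
  have hNA : 0 ≤ NA K A := by
    unfold NA
    exact prod_nonneg fun i _ => Nat.cast_nonneg _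
  have hexp : ∀ δ : ℝ, min δ₁ δ₂ ≤ δ → (b : ℝ) ^ K ≤ Real.exp (δ * K) * NA K A := by
    intro δ hδ
    refine hprod.trans (mul_le_mul_of_nonneg_right ?_ hNA)
    exact Real.exp_le_exp.2 (mul_le_mul_of_nonneg_right hδ hK0.le)
  obtain ⟨h2, h3⟩ := hK N hN A hA (hexp _ (min_le_left _ _))
  obtain ⟨-, h4⟩ := hK' N hN A hA (hexp _ (min_le_right _ _))
  refine ⟨fun hcop htop => ?_, h3⟩
  have h5 := h2 hcop htop
  -- the values with a prime at the further polynomial are few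
  have hunion : ND b K A {n | b ^ (K - 1) ≤ n ∧
      ∀ i, AP r (b ^ K) ((f i).eval (((N + n : ℕ)) : ℤ)).natAbs} ≤
      ND b K A {n | b ^ (K - 1) ≤ n ∧
              (∀ i, AP r (b ^ K) ((f i).eval (((N + n : ℕ)) : ℤ)).natAbs) ∧
              ¬ ((e.eval (((N + n : ℕ)) : ℤ)).natAbs.Prime ∧
                n < (e.eval (((N + n : ℕ)) : ℤ)).natAbs ^ r)} +
      ND b K A {n | ∀ i, ∀ p : ℕ, p.Prime →
        (p : ℤ) ∣ ((Fin.snoc f e : Fin (k + 1) → ℤ[X]) i).eval (((N + n : ℕ)) : ℤ) →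
        n < p ^ r} := by
    refine ND_union fun n hn0 hn => ?_
    obtain ⟨hn2, hn3⟩ := hn
    by_cases hp : (e.eval (((N + n : ℕ)) : ℤ)).natAbs.Prime ∧
        n < (e.eval (((N + n : ℕ)) : ℤ)).natAbs ^ r
    · right
      intro i p hpp hpd
      refine Fin.lastCases (fun hpd => ?_) (fun j hpd => ?_) i hpd
      · rw [Fin.snoc_last] at hpd
        have h8 := (Nat.prime_dvd_prime_iff_eq hpp hp.1).1 (Int.natCast_dvd.1 hpd)
        rw [h8]
        exact hp.2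
      · rw [Fin.snoc_castSucc] at hpd
        exact lt_trans hn0 ((hn3 j).1 p hpp (Int.natCast_dvd.1 hpd))
    · left
      exact ⟨hn2, hn3, hp⟩
  have hunion' : (ND b K A {n | b ^ (K - 1) ≤ n ∧
      ∀ i, AP r (b ^ K) ((f i).eval (((N + n : ℕ)) : ℤ)).natAbs} : ℝ) ≤
      ND b K A {n | b ^ (K - 1) ≤ n ∧
              (∀ i, AP r (b ^ K) ((f i).eval (((N + n : ℕ)) : ℤ)).natAbs) ∧
              ¬ ((e.eval (((N + n : ℕ)) : ℤ)).natAbs.Prime ∧
                n < (e.eval (((N + n : ℕ)) : ℤ)).natAbs ^ r)} +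
      ND b K A {n | ∀ i, ∀ p : ℕ, p.Prime →
        (p : ℤ) ∣ ((Fin.snoc f e : Fin (k + 1) → ℤ[X]) i).eval (((N + n : ℕ)) : ℤ) →
        n < p ^ r} := by exact_mod_cast hunion
  have h6 : C' * NA K A / (K : ℝ) ^ (k + 1) ≤ κ / 2 * NA K A / (K : ℝ) ^ k := by
    rw [pow_succ, div_le_div_iff₀ (by positivity) (by positivity)]
    have h7 : C' ≤ κ / 2 * K := by
      rw [div_le_iff₀ hκ] at hK2
      linarith
    have h8 : 0 ≤ NA K A * (K : ℝ) ^ k := by positivity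
    calc C' * NA K A * (K : ℝ) ^ k = C' * (NA K A * (K : ℝ) ^ k) := by ring
      _ ≤ κ / 2 * K * (NA K A * (K : ℝ) ^ k) := mul_le_mul_of_nonneg_right h7 h8
      _ = κ / 2 * NA K A * ((K : ℝ) ^ k * K) := by ring
  have e1 : κ * NA K A / (K : ℝ) ^ k =
      κ / 2 * NA K A / (K : ℝ) ^ k + κ / 2 * NA K A / (K : ℝ) ^ k := by ring
  linarith

end Pool.Agent.H225.DG2
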