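import Pool.Agent.H225.EX2
import Pool.Agent.W123.RU.PolyV

/-!
# Exact patterns of the places of rough values of a system of polynomials, at integers with restricted
digits, uniformly in the pattern

The system `f` of `s` polynomials is fixed, the pattern of `k` places may have a diameter up to a small
multiple of `K ^ s`, the mean distance of the places.
-/

set_option autoImplicit false

namespace Pool.Agent.H225.EP

open Polynomial Finset Filter
open Pool.Agent.Y816.PD (WG uni_top NA ND Rgh Alm WG_nonneg shift_eq ND_sub NA_nonneg)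
open Pool.Agent.H225.DG (AP len_dvd dvd_prod_iff)
open Pool.Agent.H373R2.T7 (pz mem_pz nuB PerB)
open Pool.Agent.W123.RU.Poly (Sys Q V_bounds per per1 exists_c ncolR eval_bound Vq_low Vq_up)
open Pool.Agent.W123.RU (card_le_log)
open Pool.Agent.W123.RP (Vq one_sub_nonneg)

variable {s : ℕ}

/-- the condition for the pattern `H` -/
def QH (f : Fin s → ℤ[X]) (H : Finset ℕ) (p n : ℕ) : Prop := ∃ h ∈ H, Q f p (n + h)

/-- admissible patterns -/
def AdmP (f : Fin s → ℤ[X]) (H : Finset ℕ) : Prop := ∀ p : ℕ, p.Prime → ∃ n : ℕ, ¬ QH f H p n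

/-- the product of all values -/
def G (f : Fin s → ℤ[X]) (H : Finset ℕ) (N n : ℕ) : ℤ :=
  ∏ h ∈ H, ∏ i, (f i).eval (((N + n + h : ℕ)) : ℤ)

lemma per_add (f : Fin s → ℤ[X]) (p n h : ℕ) : Q f p (n + h) ↔ Q f p (n % p + h) := by
  rw [per f p (n + h), per f p (n % p + h), Nat.mod_add_mod]

lemma QH_per (f : Fin s → ℤ[X]) (H : Finset ℕ) (p n : ℕ) : QH f H p n ↔ QH f H p (n % p) :=
  exists_congr fun h => and_congr_right fun _ => per_add f p n h

lemma G_dvd (f : Fin s → ℤ[X]) (H : Finset ℕ) (N n : ℕ) {p : ℕ} (hp : p.Prime) :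
    (p : ℤ) ∣ G f H N n ↔ QH f H p (N + n) := by
  unfold G QH
  rw [Prime.dvd_finsetProd_iff (Nat.prime_iff_prime_int.1 hp)]
  refine exists_congr fun h => and_congr_right fun _ => ?_
  rw [dvd_prod_iff (fun i => (f i).eval (((N + n + h : ℕ)) : ℤ)) hp]
  rfl

lemma WG_G (f : Fin s → ℤ[X]) (H : Finset ℕ) (N x : ℕ) : WG (G f H N) x = Vq (QH f H) x := by
  classical
  unfold WG Vq pz
  refine prod_congr rfl fun p hp => ?_
  have hpp := (mem_filter.1 hp).2
  have h1 : ((range p).filter (fun n : ℕ => (p : ℤ) ∣ G f H N n)).card =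
      ((range p).filter (fun n : ℕ => QH f H p (N + n))).card := by
    congr 1
    exact filter_congr fun n _ => G_dvd f H N n hpp
  have h2 := shift_eq p N hpp.pos (fun n => QH f H p n) (QH_per f H p)
  unfold nuB
  rw [h1, h2]

/-- **Tuples of places, uniformly in the shifts.** -/
theorem tupP (hs : 1 ≤ s) (f : Fin s → ℤ[X]) (k D : ℕ) (hk : 1 ≤ k) :
    ∃ δ : ℝ, 0 < δ ∧ ∃ r₀ : ℕ, 2 ≤ r₀ ∧ ∀ r : ℕ, r₀ ≤ r → ∀ b : ℕ, 2 ≤ b →
      ∃ κ C : ℝ, 0 < κ ∧ 0 < C ∧ ∀ᶠ K : ℕ in atTop, ∀ N : ℕ, N ≤ b ^ (D * K) →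
        ∀ H : Finset ℕ, H.card = k → (∀ h ∈ H, h ≤ b ^ K) → AdmP f H →
        ∀ A : ℕ → Finset ℕ, (∀ i < K, A i ⊆ range b) →
        (b : ℝ) ^ K ≤ Real.exp (δ * K) * NA K A →
        ((∃ e ∈ A 0, ∀ h ∈ H, ∀ i, ((f i).eval (((N + e + h : ℕ)) : ℤ)).natAbs.Coprime b) →
          (∃ e ∈ A (K - 1), e ≠ 0) →
          κ * NA K A * Vq (QH f H) (b ^ K) ≤
            ND b K A {n | b ^ (K - 1) ≤ n ∧
              ∀ h ∈ H, ∀ i, AP r (b ^ K) ((f i).eval (((N + n + h : ℕ)) : ℤ)).natAbs}) ∧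
        (ND b K A {n | ∀ h ∈ H, ∀ i, ∀ p : ℕ, p.Prime →
            (p : ℤ) ∣ (f i).eval (((N + n + h : ℕ)) : ℤ) → n < p ^ r} : ℝ) ≤
          C * NA K A * Vq (QH f H) (b ^ K) := by
  classical
  -- the degrees and the sizes
  obtain ⟨d, hd1, hd⟩ : ∃ d : ℕ, 1 ≤ d ∧ ∀ i, (f i).natDegree ≤ d := by
    refine ⟨∑ i, (f i).natDegree + 1, by omega, fun i => ?_⟩
    have := single_le_sum (f := fun i => (f i).natDegree) (fun _ _ => Nat.zero_le _) (mem_univ i)
    omega
  obtain ⟨M, hM⟩ : ∃ M : ℕ, ∀ i, ∀ m : ℕ, ((f i).eval (m : ℤ)).natAbs ≤ M * (m + 1) ^ d := by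
    refine ⟨∑ i, ∑ j ∈ range ((f i).natDegree + 1), ((f i).coeff j).natAbs, fun i m => ?_⟩
    rw [eval_eq_sum_range]
    refine (Int.natAbs_sum_le _ _).trans ?_
    calc ∑ j ∈ range ((f i).natDegree + 1), ((f i).coeff j * (m : ℤ) ^ j).natAbs
        ≤ ∑ j ∈ range ((f i).natDegree + 1), ((f i).coeff j).natAbs * (m + 1) ^ d := by
          refine sum_le_sum fun j hj => ?_
          rw [Int.natAbs_mul, Int.natAbs_pow, Int.natAbs_natCast]
          refine Nat.mul_le_mul_left _ ((Nat.pow_le_pow_left (Nat.le_succ m) j).trans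
            (Nat.pow_le_pow_right (Nat.succ_pos m) ?_))
          have := mem_range.1 hj
          have := hd i
          omega
      _ = (∑ j ∈ range ((f i).natDegree + 1), ((f i).coeff j).natAbs) * (m + 1) ^ d := by
          rw [sum_mul]
      _ ≤ _ := by
          refine Nat.mul_le_mul_right _ ?_
          exact single_le_sum (f := fun i => ∑ j ∈ range ((f i).natDegree + 1),
            ((f i).coeff j).natAbs) (fun _ _ => Nat.zero_le _) (mem_univ i)
  obtain ⟨δ, hδ, r₀, hr₀, h⟩ := uni_top (k * (s * d)) ((1 + (D + 3) * d) * (k * s))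
    (Nat.mul_pos hk (Nat.mul_pos hs hd1))
  refine ⟨δ, hδ, r₀, hr₀, fun r hr b hb => ?_⟩
  obtain ⟨κ, C, hκ, hC, h1⟩ := h r hr b hb
  refine ⟨κ, C, hκ, hC, ?_⟩
  filter_upwards [h1, eventually_ge_atTop (M + r + 2)] with K hK hKr N hN H hHk hHb hadm A hA hprod
  have hbK : 2 ^ (r + 2) ≤ b ^ K :=
    (Nat.pow_le_pow_left hb _).trans (Nat.pow_le_pow_right (by omega) (by omega))
  have h4b : 4 ≤ b ^ K := by
    have : 2 ^ 2 ≤ 2 ^ (r + 2) := Nat.pow_le_pow_right (by norm_num) (by omega)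
    omega
  have hMb : M ≤ b ^ K := by
    have : K < 2 ^ K := Nat.lt_two_pow_self
    have h2 : 2 ^ K ≤ b ^ K := Nat.pow_le_pow_left hb K
    omega
  have habs : ∀ n, (G f H N n).natAbs =
      ∏ h ∈ H, ∏ i, ((f i).eval (((N + n + h : ℕ)) : ℤ)).natAbs := by
    intro n
    unfold G
    rw [show (∏ h ∈ H, ∏ i, (f i).eval (((N + n + h : ℕ)) : ℤ)).natAbs =
      Int.natAbsHom (∏ h ∈ H, ∏ i, (f i).eval (((N + n + h : ℕ)) : ℤ)) from rfl, map_prod]
    refine prod_congr rfl fun h _ => ?_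
    rw [map_prod]
    rfl
  have hpoly : ∃ P : ℤ[X], P.natDegree ≤ k * (s * d) ∧ ∀ n : ℕ, P.eval (n : ℤ) = G f H N n := by
    refine ⟨∏ h ∈ H, ∏ i, (f i).comp (X + Polynomial.C (((N + h : ℕ)) : ℤ)), ?_, fun n => ?_⟩
    · refine (natDegree_prod_le _ _).trans ?_
      calc ∑ h ∈ H, (∏ i, (f i).comp (X + Polynomial.C (((N + h : ℕ)) : ℤ))).natDegree
          ≤ ∑ _h ∈ H, s * d := by
            refine sum_le_sum fun h _ => (natDegree_prod_le _ _).trans ?_
            calc ∑ i, ((f i).comp (X + Polynomial.C (((N + h : ℕ)) : ℤ))).natDegree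
                ≤ ∑ _i : Fin s, d := by
                  refine sum_le_sum fun i _ => ?_
                  rw [natDegree_comp, natDegree_X_add_C, mul_one]
                  exact hd i
              _ = s * d := by simp
        _ = k * (s * d) := by rw [sum_const, hHk, smul_eq_mul]
    · rw [eval_prod]
      unfold G
      refine prod_congr rfl fun h _ => ?_
      rw [eval_prod]
      refine prod_congr rfl fun i _ => ?_
      rw [eval_comp, eval_add, eval_X, eval_C]
      congr 1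
      push_cast
      ring
  have hadm' : ∀ p : ℕ, p.Prime → ∃ n : ℕ, ¬ (p : ℤ) ∣ G f H N n := by
    intro p hp
    obtain ⟨m, hm⟩ := hadm p hp
    refine ⟨m + (p * N - N), fun hd => hm ?_⟩
    rw [G_dvd f H N _ hp] at hd
    have hle : N ≤ p * N := Nat.le_mul_of_pos_left N hp.pos
    have e : N + (m + (p * N - N)) = m + p * N := by omega
    rw [e, QH_per, Nat.add_mul_mod_self_left, ← QH_per] at hd
    exact hd
  have hsize : ∀ n : ℕ, n < b ^ K → (G f H N n).natAbs ≤ b ^ ((1 + (D + 3) * d) * (k * s) * K) := by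
    intro n hn
    rw [habs]
    have hNn : ∀ h ∈ H, N + n + h + 1 ≤ b ^ ((D + 3) * K) := by
      intro h hh
      have e : b ^ ((D + 3) * K) = b ^ (D * K) * b ^ K * b ^ K * b ^ K := by
        rw [← pow_add, ← pow_add, ← pow_add]
        congr 1
        ring
      rw [e]
      have h1 : 1 ≤ b ^ (D * K) := Nat.one_le_pow _ _ (by omega)
      have h2 : b ^ K ≤ b ^ (D * K) * b ^ K := Nat.le_mul_of_pos_left _ (by omega)
      have h3 : b ^ (D * K) ≤ b ^ (D * K) * b ^ K := Nat.le_mul_of_pos_right _ (by omega)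
      have h4 : b ^ (D * K) * b ^ K * 4 ≤ b ^ (D * K) * b ^ K * b ^ K :=
        Nat.mul_le_mul_left _ h4b
      have h5 : b ^ (D * K) * b ^ K * b ^ K ≤ b ^ (D * K) * b ^ K * b ^ K * b ^ K :=
        Nat.le_mul_of_pos_right _ (by omega)
      have h6 := hHb h hh
      omega
    have hone : ∀ h ∈ H, ∀ i, ((f i).eval (((N + n + h : ℕ)) : ℤ)).natAbs ≤
        b ^ ((1 + (D + 3) * d) * K) := by
      intro h hh i
      refine (hM i (N + n + h)).trans ?_
      have e : b ^ ((1 + (D + 3) * d) * K) = b ^ K * (b ^ ((D + 3) * K)) ^ d := by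
        rw [← pow_mul, ← pow_add]
        congr 1
        ring
      rw [e]
      exact Nat.mul_le_mul hMb (Nat.pow_le_pow_left (hNn h hh) d)
    calc ∏ h ∈ H, ∏ i, ((f i).eval (((N + n + h : ℕ)) : ℤ)).natAbs
        ≤ ∏ _h ∈ H, ∏ _i : Fin s, b ^ ((1 + (D + 3) * d) * K) :=
          prod_le_prod' fun h hh => prod_le_prod' fun i _ => hone h hh i
      _ = b ^ ((1 + (D + 3) * d) * (k * s) * K) := by
          rw [prod_const, prod_const, card_univ, Fintype.card_fin, hHk, ← pow_mul, ← pow_mul]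
          congr 1
          ring
  obtain ⟨h2, h3⟩ := hK (G f H N) hpoly hadm' hsize A hA hprod
  rw [WG_G] at h2 h3
  constructor
  · rintro ⟨e, he, hcop⟩ htop
    refine (h2 ⟨e, he, ?_⟩ htop).trans (Nat.cast_le.2 ?_)
    · rw [habs]
      exact Nat.Coprime.prod_left fun h hh => Nat.Coprime.prod_left fun i _ => hcop h hh i
    · refine ND_sub fun n _ hn1 hn2 => ⟨hn1, ?_⟩
      obtain ⟨hn3, hn4, hn5⟩ := hn2
      have h0 : (G f H N n).natAbs ≠ 0 := by
        intro h0
        have h7 := hn4 2 Nat.prime_two (by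
          rw [Int.natAbs_eq_zero.1 h0]
          exact dvd_zero _)
        have : 2 ^ r ≤ 2 ^ (r + 2) := Nat.pow_le_pow_right (by norm_num) (by omega)
        omega
      refine ⟨hn3, fun h hh i => ⟨fun p hp hpd => hn4 p hp ?_, ?_⟩⟩
      · rw [G_dvd f H N n hp]
        exact ⟨h, hh, i, Int.natCast_dvd.2 hpd⟩
      · refine (len_dvd h0 ?_).trans hn5
        rw [habs]
        refine dvd_trans ?_
          (dvd_prod_of_mem (fun h => ∏ i, ((f i).eval (((N + n + h : ℕ)) : ℤ)).natAbs) hh)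
        exact dvd_prod_of_mem (fun i => ((f i).eval (((N + n + h : ℕ)) : ℤ)).natAbs) (mem_univ i)
  · refine le_trans (Nat.cast_le.2 ?_) h3
    refine ND_sub fun n _ hn1 hn2 => ⟨hn1, fun p hp hpd => ?_⟩
    rw [G_dvd f H N n hp] at hpd
    obtain ⟨h, hh, i, hi⟩ := hpd
    exact hn2 h hh i p hp hi

/-! ### One more place -/

/-- the place `j` collides with a place of `H` modulo `p` -/
def Co (f : Fin s → ℤ[X]) (H : Finset ℕ) (p j : ℕ) : Prop := ∃ n : ℕ, Q f p (n + j) ∧ QH f H p n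

open Classical in
lemma nu_insert (f : Fin s → ℤ[X]) (H : Finset ℕ) (j : ℕ) {p : ℕ} (hp : p.Prime) :
    nuB (QH f H) p ≤ nuB (QH f (insert j H)) p ∧
    (¬ Co f H p j → nuB (QH f (insert j H)) p = nuB (QH f H) p + nuB (Q f) p) := by
  unfold nuB
  have e : (range p).filter (fun n => QH f (insert j H) p n) =
      (range p).filter (fun n => QH f H p n) ∪ (range p).filter (fun n => Q f p (j + n)) := by
    ext n
    rw [mem_union, mem_filter, mem_filter, mem_filter]
    unfold QH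
    simp only [mem_insert, exists_eq_or_imp]
    rw [add_comm n j]
    constructor
    · rintro ⟨h1, h2 | h2⟩
      · exact Or.inr ⟨h1, h2⟩
      · exact Or.inl ⟨h1, h2⟩
    · rintro (⟨h1, h2⟩ | ⟨h1, h2⟩)
      · exact ⟨h1, Or.inr h2⟩
      · exact ⟨h1, Or.inl h2⟩
  constructor
  · rw [e]
    exact card_le_card subset_union_left
  · intro hc
    have h2 := shift_eq p j hp.pos (fun n => Q f p n) (per f p)
    rw [e, card_union_of_disjoint, ← h2]
    rw [disjoint_filter]
    intro n _ h1 h2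
    rw [add_comm j n] at h2
    exact hc ⟨n, h2, h1⟩

open Classical in
/-- **The sieve product with one more place.** -/
lemma V_insert (f : Fin s → ℤ[X]) {c : ℕ} (hc1 : 1 ≤ c) (hc : PerB (Q f) c)
    (hfadm : ∀ p : ℕ, p.Prime → nuB (Q f) p < p) (H : Finset ℕ) (j x : ℕ) :
    Vq (QH f (insert j H)) x ≤ Vq (QH f H) x * (Vq (Q f) x * (((2 * c).factorial : ℝ) *
      ∏ p ∈ (pz x).filter (fun p : ℕ => 2 * c < p ∧ Co f H p j),
        (1 + ((2 * c : ℕ) : ℝ) / (p : ℝ)))) := by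
  have e1 : ∏ p ∈ (pz x).filter (fun p : ℕ => 2 * c < p ∧ Co f H p j),
      (1 + ((2 * c : ℕ) : ℝ) / (p : ℝ)) =
      ∏ p ∈ pz x, (if 2 * c < p ∧ Co f H p j then (1 + ((2 * c : ℕ) : ℝ) / (p : ℝ)) else 1) := by
    rw [prod_filter]
  have e2 : ∏ p ∈ pz x, (if p ≤ 2 * c then (p : ℝ) else 1) ≤ ((2 * c).factorial : ℝ) := by
    rw [← prod_filter, ← Finset.prod_range_add_one_eq_factorial, Nat.cast_prod]
    have h1 : ∏ i ∈ range (2 * c), ((i + 1 : ℕ) : ℝ) = ∏ p ∈ Icc 1 (2 * c), (p : ℝ) := by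
      have h2 : Icc 1 (2 * c) = (range (2 * c)).image (fun i => i + 1) := by
        ext p
        rw [mem_Icc, mem_image]
        constructor
        · rintro ⟨h1, h2⟩
          exact ⟨p - 1, mem_range.2 (by omega), by omega⟩
        · rintro ⟨i, hi, rfl⟩
          rw [mem_range] at hi
          omega
      rw [h2, prod_image (fun a _ b _ h => Nat.succ_injective h)]
    rw [h1]
    refine prod_le_prod_of_subset_of_one_le ?_ (fun p _ => by positivity) ?_
    · intro p hp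
      rw [mem_filter, mem_pz] at hp
      rw [mem_Icc]
      exact ⟨hp.1.2.one_le, hp.2⟩
    · intro p hp _
      rw [mem_Icc] at hp
      exact_mod_cast hp.1
  have e3 : 0 ≤ ∏ p ∈ pz x,
      (if 2 * c < p ∧ Co f H p j then (1 + ((2 * c : ℕ) : ℝ) / (p : ℝ)) else 1) :=
    prod_nonneg fun p _ => by split_ifs <;> positivity
  have hV0 : ∀ Q' : ℕ → ℕ → Prop, 0 ≤ Vq Q' x := fun Q' =>
    prod_nonneg fun p hp => one_sub_nonneg Q' p (mem_pz.1 hp).2
  rw [e1]
  refine le_trans ?_ (mul_le_mul_of_nonneg_left (mul_le_mul_of_nonneg_left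
    (mul_le_mul_of_nonneg_right e2 e3) (hV0 _)) (hV0 _))
  unfold Vq
  rw [← prod_mul_distrib, ← prod_mul_distrib, ← prod_mul_distrib]
  refine prod_le_prod (fun p hp => one_sub_nonneg _ p (mem_pz.1 hp).2) (fun p hp => ?_)
  have hpp := (mem_pz.1 hp).2
  have hp0 : (0 : ℝ) < p := by exact_mod_cast hpp.pos
  obtain ⟨h1, h2⟩ := nu_insert f H j hpp
  have h3 := one_sub_nonneg (QH f H) p hpp
  have h4 := one_sub_nonneg (Q f) p hpp
  have h5 := hfadm p hpp
  have h6 := hc.few p hpp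
  have h7 : 1 - (nuB (QH f (insert j H)) p : ℝ) / p ≤ 1 - (nuB (QH f H) p : ℝ) / p := by
    have : (nuB (QH f H) p : ℝ) / p ≤ (nuB (QH f (insert j H)) p : ℝ) / p :=
      div_le_div_of_nonneg_right (Nat.cast_le.2 h1) hp0.le
    linarith
  have hm1 : (1 : ℝ) ≤ (if p ≤ 2 * c then (p : ℝ) else 1) := by
    split_ifs
    · exact_mod_cast hpp.one_le
    · exact le_rfl
  by_cases hco : Co f H p j
  · refine h7.trans (le_mul_of_one_le_right h3 ?_)
    by_cases hp2 : p ≤ 2 * c
    · rw [if_pos hp2, if_neg (fun h => absurd h.1 (by omega)), mul_one, sub_mul, one_mul,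
        div_mul_cancel₀ _ hp0.ne']
      have : (nuB (Q f) p : ℝ) + 1 ≤ p := by exact_mod_cast h5
      linarith
    · rw [if_neg hp2, if_pos ⟨by omega, hco⟩, one_mul]
      have h8 : (nuB (Q f) p : ℝ) ≤ c := by exact_mod_cast h6
      have h9 : (2 * c : ℝ) < p := by exact_mod_cast (by omega : 2 * c < p)
      have hc0 : (0 : ℝ) ≤ c := Nat.cast_nonneg c
      have h10 : 1 - (c : ℝ) / p ≤ 1 - (nuB (Q f) p : ℝ) / p := by
        have : (nuB (Q f) p : ℝ) / p ≤ (c : ℝ) / p := div_le_div_of_nonneg_right h8 hp0.le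
        linarith
      refine le_trans ?_ (mul_le_mul_of_nonneg_right h10 (by positivity))
      have e9 : (1 - (c : ℝ) / p) * (1 + ((2 * c : ℕ) : ℝ) / p) =
          1 + (c / p) * (1 - 2 * c / p) := by
        push_cast
        field_simp
        ring
      rw [e9]
      have h11 : 2 * (c : ℝ) / p ≤ 1 := by
        rw [div_le_one hp0]
        exact h9.le
      have h12 : 0 ≤ (c : ℝ) / p := by positivity
      nlinarith
  · rw [h2 hco, if_neg (fun h : 2 * c < p ∧ Co f H p j => hco h.2), mul_one]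
    have h8 : 1 - ((nuB (QH f H) p + nuB (Q f) p : ℕ) : ℝ) / p ≤
        (1 - (nuB (QH f H) p : ℝ) / p) * (1 - (nuB (Q f) p : ℝ) / p) := by
      have e9 : (1 - (nuB (QH f H) p : ℝ) / p) * (1 - (nuB (Q f) p : ℝ) / p) =
          1 - ((nuB (QH f H) p + nuB (Q f) p : ℕ) : ℝ) / p +
          (nuB (QH f H) p : ℝ) / p * ((nuB (Q f) p : ℝ) / p) := by
        push_cast
        ring
      rw [e9]
      have : 0 ≤ (nuB (QH f H) p : ℝ) / p * ((nuB (Q f) p : ℝ) / p) := by positivity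
      linarith
    refine h8.trans (mul_le_mul_of_nonneg_left ?_ h3)
    exact le_mul_of_one_le_right h4 hm1

end Pool.Agent.H225.EP
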