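import Pool.Agent.H225.EP

/-!
# Exact patterns for systems of polynomials at integers with restricted digits: main theorem
-/

set_option autoImplicit false

namespace Pool.Agent.H225.EP

open Polynomial Finset Filter
open Pool.Agent.Y816.PD (WG uni_top NA ND Rgh Alm WG_nonneg shift_eq ND_sub NA_nonneg)
open Pool.Agent.H225.DG (AP len_dvd dvd_prod_iff)
open Pool.Agent.H373R2.T7 (pz mem_pz nuB PerB)
open Pool.Agent.W123.RU.Poly (Sys Q V_bounds per per1 exists_c ncolR eval_bound Vq_low Vq_up)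
open Pool.Agent.W123.RU (card_le_log Coll)
open Pool.Agent.W123.RP (Vq one_sub_nonneg)
open Pool.Agent.H225.EX (ND_cover)

variable {s : ℕ}

/-- no two polynomials are translates of each other -/
def NT (f : Fin s → ℤ[X]) : Prop := ∀ i i' : Fin s, ∀ t : ℤ, t ≠ 0 → f i ≠ (f i').comp (X + C t)

open Classical in
/-- few large primes divide a collision -/
lemma large (f : Fin s → ℤ[X]) (hf : Sys f) (hn : NT f) : ∃ D' : ℕ, ∀ T : ℕ, 1 ≤ T → ∀ y : ℕ,
    ∀ t : ℤ, t ≠ 0 → |t| ≤ T → ((pz y).filter (fun p : ℕ => T < p ∧ ∃ m : ℕ, ∃ i i' : Fin s,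
      (p : ℤ) ∣ (f i).eval (m : ℤ) ∧ (p : ℤ) ∣ (f i').eval ((m : ℤ) + t))).card ≤ D' * T := by
  choose R hR1 hR2 using fun i j : Fin s => ncolR (f i) (f j) (hf.irr i) (hf.irr j) (hf.deg i)
    (hf.deg j) (hf.lead i) (hf.lead j)
  obtain ⟨R', hR'⟩ : ∃ R' : ℤ[X], R' = ∏ i, ∏ j, R i j := ⟨_, rfl⟩
  have hne : ∀ t : ℤ, t ≠ 0 → R'.eval t ≠ 0 := by
    intro t ht
    rw [hR', eval_prod, Finset.prod_ne_zero_iff]
    intro i _
    rw [eval_prod, Finset.prod_ne_zero_iff]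
    intro j _
    exact hR1 i j t (hn i j t ht)
  obtain ⟨K, D, hKD⟩ := eval_bound R'
  refine ⟨2 * (K + D), fun T hT y t ht htT => ?_⟩
  have h1 := card_le_log ((pz y).filter (fun p : ℕ => T < p ∧ ∃ m : ℕ, ∃ i i' : Fin s,
      (p : ℤ) ∣ (f i).eval (m : ℤ) ∧ (p : ℤ) ∣ (f i').eval ((m : ℤ) + t))) (R'.eval t).natAbs
    (Int.natAbs_ne_zero.2 (hne t ht)) (fun p hp => by
      rw [mem_filter] at hp
      obtain ⟨hp1, hp2, m, i, j, hi, hj⟩ := hp
      refine ⟨(mem_pz.1 hp1).2, ?_⟩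
      refine Int.natCast_dvd.1 ?_
      have h1 := hR2 i j t m p hi hj
      rw [hR', eval_prod]
      refine h1.trans ?_
      refine dvd_trans ?_ (Finset.dvd_prod_of_mem _ (mem_univ i))
      rw [eval_prod]
      exact Finset.dvd_prod_of_mem _ (mem_univ j))
  have hT1 : (1 : ℝ) ≤ T := by exact_mod_cast hT
  have hh1 : |(t : ℝ)| ≤ T := by exact_mod_cast htT
  have hh0 : (0 : ℝ) ≤ |(t : ℝ)| := abs_nonneg _
  have hK0 : (0 : ℝ) ≤ K := Nat.cast_nonneg K
  have hD0 : (0 : ℝ) ≤ D := Nat.cast_nonneg D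
  have h2 : Real.log ((R'.eval t).natAbs : ℝ) ≤ (K + D) * T := by
    have e1 : (((R'.eval t).natAbs : ℕ) : ℝ) = |((R'.eval t : ℤ) : ℝ)| := by
      rw [Nat.cast_natAbs, Int.cast_abs]
    rw [e1]
    have h3 := hKD t
    have h4 : 0 < |((R'.eval t : ℤ) : ℝ)| := abs_pos.2 (by exact_mod_cast hne t ht)
    have h5 : |((R'.eval t : ℤ) : ℝ)| ≤ (K + 1) * (1 + |(t : ℝ)|) ^ D := by
      refine h3.trans ?_
      gcongr
      linarith
    calc Real.log |((R'.eval t : ℤ) : ℝ)| ≤ Real.log ((K + 1) * (1 + |(t : ℝ)|) ^ D) :=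
          Real.log_le_log h4 h5
      _ = Real.log (K + 1) + D * Real.log (1 + |(t : ℝ)|) := by
          rw [Real.log_mul (by positivity) (by positivity), Real.log_pow]
      _ ≤ K + D * |(t : ℝ)| := by
          have a1 := Real.log_le_sub_one_of_pos (x := (K : ℝ) + 1) (by positivity)
          have a2 := Real.log_le_sub_one_of_pos (x := 1 + |(t : ℝ)|) (by positivity)
          have a3 : D * Real.log (1 + |(t : ℝ)|) ≤ D * |(t : ℝ)| :=
            mul_le_mul_of_nonneg_left (by linarith) hD0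
          linarith
      _ ≤ (K + D) * T := by
          nlinarith [mul_le_mul_of_nonneg_left hh1 hD0, mul_le_mul_of_nonneg_left hT1 hK0]
  have hl2 : (1 : ℝ) / 2 ≤ Real.log 2 := by
    have := Real.log_two_gt_d9
    linarith
  have hc0 : (0 : ℝ) ≤ (((pz y).filter (fun p : ℕ => T < p ∧ ∃ m : ℕ, ∃ i i' : Fin s,
      (p : ℤ) ∣ (f i).eval (m : ℤ) ∧ (p : ℤ) ∣ (f i').eval ((m : ℤ) + t))).card : ℝ) :=
    Nat.cast_nonneg _
  have h6 := mul_le_mul_of_nonneg_left hl2 hc0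
  have h7 : (((pz y).filter (fun p : ℕ => T < p ∧ ∃ m : ℕ, ∃ i i' : Fin s,
      (p : ℤ) ∣ (f i).eval (m : ℤ) ∧ (p : ℤ) ∣ (f i').eval ((m : ℤ) + t))).card : ℝ) ≤
      ((2 * (K + D) * T : ℕ) : ℝ) := by
    push_cast
    linarith
  exact_mod_cast h7

open Classical in
lemma nu_QH_le (f : Fin s → ℤ[X]) (H : Finset ℕ) {p : ℕ} (hp : p.Prime) :
    nuB (QH f H) p ≤ H.card * nuB (Q f) p := by
  have h1 : (range p).filter (fun n => QH f H p n) ⊆
      H.biUnion (fun h => (range p).filter (fun n => Q f p (h + n))) := by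
    intro n hn
    rw [mem_filter] at hn
    obtain ⟨h, hh, hd⟩ := hn.2
    rw [add_comm] at hd
    exact mem_biUnion.2 ⟨h, hh, mem_filter.2 ⟨hn.1, hd⟩⟩
  unfold nuB
  refine (card_le_card h1).trans (card_biUnion_le.trans ?_)
  rw [← smul_eq_mul, ← sum_const]
  refine sum_le_sum fun h _ => ?_
  exact (shift_eq p h hp.pos (fun n => Q f p n) (per f p)).le

lemma perB_QH (f : Fin s → ℤ[X]) {c : ℕ} (hc : PerB (Q f) c) (H : Finset ℕ) :
    PerB (QH f H) (H.card * c) :=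
  ⟨fun p n => QH_per f H p n, fun _ hp =>
    (nu_QH_le f H hp).trans (Nat.mul_le_mul_left _ (hc.few _ hp))⟩

open Classical in
lemma adm_lt (f : Fin s → ℤ[X]) {H : Finset ℕ} (hadm : AdmP f H) {p : ℕ} (hp : p.Prime) :
    nuB (QH f H) p < p := by
  obtain ⟨n, hn⟩ := hadm p hp
  unfold nuB
  refine lt_of_lt_of_eq (card_lt_card ?_) (card_range p)
  rw [filter_ssubset]
  exact ⟨n % p, mem_range.2 (Nat.mod_lt _ hp.pos), fun hc => hn ((QH_per f H p n).2 hc)⟩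

/-- a non-admissible pattern is covered modulo a small prime -/
lemma small_of_not_admP (f : Fin s → ℤ[X]) {c : ℕ} (hc : PerB (Q f) c) {H : Finset ℕ}
    (h : ¬ AdmP f H) : ∃ p : ℕ, p.Prime ∧ p ≤ H.card * c ∧ ∀ n : ℕ, QH f H p n := by
  classical
  unfold AdmP at h
  push Not at h
  obtain ⟨p, hp, hcov⟩ := h
  refine ⟨p, hp, ?_, hcov⟩
  have h1 := (perB_QH f hc H).few p hp
  unfold nuB at h1
  rw [filter_true_of_mem (fun n _ => hcov n), card_range] at h1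
  exact h1

/-- **A lower bound for the sieve product, uniformly in the pattern.** -/
lemma V_lowP (f : Fin s → ℤ[X]) (hf : Sys f) (k b : ℕ) (hb : 2 ≤ b) :
    ∃ v : ℝ, 0 < v ∧ ∀ᶠ K : ℕ in atTop, ∀ H : Finset ℕ, H.card = k → AdmP f H →
      v / (K : ℝ) ^ (s * k) ≤ Vq (QH f H) (b ^ K) := by
  obtain ⟨c, hc, hQ⟩ := exists_c f hf
  obtain ⟨v, Cv, hv, hCv, hV⟩ := V_bounds f hf
  obtain ⟨u, hu⟩ : ∃ u : ℝ, u = (∏ p ∈ pz (2 * (k * c)), (p : ℝ)⁻¹) *
    Real.exp (-(∑' n : ℕ, 2 * ((k * c : ℕ) : ℝ) ^ 2 / (n : ℝ) ^ 2)) := ⟨_, rfl⟩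
  have hu0 : 0 < u := by
    rw [hu]
    refine mul_pos (prod_pos fun p hp => ?_) (Real.exp_pos _)
    have : (0 : ℝ) < p := by exact_mod_cast (mem_pz.1 hp).2.pos
    positivity
  have hb1 : (1 : ℝ) < b := by exact_mod_cast (by omega : 1 < b)
  have hlb : 0 < Real.log b := Real.log_pos hb1
  refine ⟨u * (v / Real.log b ^ s) ^ k, by positivity, ?_⟩
  filter_upwards [eventually_ge_atTop 2] with K hK H hHk hadm
  have hK0 : (0 : ℝ) < K := by exact_mod_cast (by omega : 0 < K)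
  have h3 : 3 ≤ b ^ K := by
    calc 3 ≤ 2 ^ 2 := by norm_num
      _ ≤ 2 ^ K := Nat.pow_le_pow_right (by norm_num) hK
      _ ≤ b ^ K := Nat.pow_le_pow_left hb K
  obtain ⟨h4, -⟩ := hV (b ^ K) h3
  rw [Fintype.card_fin] at h4
  push_cast at h4
  rw [Real.log_pow] at h4
  have h5 := Vq_low (QH f H) (H.card * c) (perB_QH f hQ H) (fun p hp => adm_lt f hadm hp) (b ^ K)
  rw [hHk, ← hu] at h5
  refine le_trans ?_ h5
  have h6 : (v / Real.log b ^ s / (K : ℝ) ^ s) ^ k ≤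
      Real.exp (-(∑ p ∈ pz (b ^ K), (nuB (QH f H) p : ℝ) / p)) := by
    have h7 : v / Real.log b ^ s / (K : ℝ) ^ s = v / ((K : ℝ) * Real.log b) ^ s := by
      rw [mul_pow]
      field_simp
    rw [h7]
    have h8 := h4.trans (Vq_up (Q f) (b ^ K))
    calc (v / ((K : ℝ) * Real.log b) ^ s) ^ k
        ≤ Real.exp (-(∑ p ∈ pz (b ^ K), (nuB (Q f) p : ℝ) / p)) ^ k :=
          pow_le_pow_left₀ (by positivity) h8 k
      _ = Real.exp (-(∑ p ∈ pz (b ^ K), (k : ℝ) * ((nuB (Q f) p : ℝ) / p))) := by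
          rw [← Real.exp_nat_mul, ← mul_sum]
          congr 1
          ring
      _ ≤ _ := by
          refine Real.exp_le_exp.2 (neg_le_neg (sum_le_sum fun p hp => ?_))
          have h9 : (nuB (QH f H) p : ℝ) ≤ k * nuB (Q f) p := by
            have := nu_QH_le f H (mem_pz.1 hp).2
            rw [hHk] at this
            exact_mod_cast this
          rw [← mul_div_assoc]
          exact div_le_div_of_nonneg_right h9 (Nat.cast_nonneg _)
  calc u * (v / Real.log b ^ s) ^ k / (K : ℝ) ^ (s * k)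
      = u * (v / Real.log b ^ s / (K : ℝ) ^ s) ^ k := by
        rw [div_pow (v / Real.log b ^ s), ← pow_mul]
        ring
    _ ≤ _ := mul_le_mul_of_nonneg_left h6 hu0.le

open Classical in
/-- the average over the further place -/
theorem avgP (f : Fin s → ℤ[X]) (hf : Sys f) (hn : NT f) (k b : ℕ) (hb : 2 ≤ b) :
    ∃ C : ℝ, 0 < C ∧ ∃ T₀ : ℕ, ∀ᶠ K : ℕ in atTop, ∀ T : ℕ, T₀ ≤ T →
    ∀ H : Finset ℕ, H ⊆ range T → H.card = k →
    ∑ j ∈ range T \ H, Vq (QH f (insert j H)) (b ^ K) ≤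
      C * T / (K : ℝ) ^ s * Vq (QH f H) (b ^ K) := by
  obtain ⟨c, hc, hQ⟩ := exists_c f hf
  obtain ⟨v, Cv, hv, hCv, hV⟩ := V_bounds f hf
  obtain ⟨D', hD'⟩ := large f hf hn
  obtain ⟨C, hC, T₀, hT₀, havg⟩ := Pool.Agent.W123.RU.avg (2 * c) ((k * c) * c) (k * D') (2 * c)
  have hb1 : (1 : ℝ) < b := by exact_mod_cast (by omega : 1 < b)
  have hlb : 0 < Real.log b := Real.log_pos hb1
  have hfac : (0 : ℝ) < ((2 * c).factorial : ℝ) := by exact_mod_cast (2 * c).factorial_pos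
  refine ⟨Cv / Real.log b ^ s * (((2 * c).factorial : ℝ) * C), by positivity, T₀, ?_⟩
  filter_upwards [eventually_ge_atTop 2] with K hK T hT H hH hHk
  have hK0 : (0 : ℝ) < K := by exact_mod_cast (by omega : 0 < K)
  have h3 : 3 ≤ b ^ K := by
    calc 3 ≤ 2 ^ 2 := by norm_num
      _ ≤ 2 ^ K := Nat.pow_le_pow_right (by norm_num) hK
      _ ≤ b ^ K := Nat.pow_le_pow_left hb K
  obtain ⟨-, hV1⟩ := hV (b ^ K) h3
  rw [Fintype.card_fin] at hV1
  push_cast at hV1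
  rw [Real.log_pow] at hV1
  have hV1' : Vq (Q f) (b ^ K) ≤ Cv / Real.log b ^ s / (K : ℝ) ^ s := by
    refine hV1.trans (le_of_eq ?_)
    rw [mul_pow]
    field_simp
  obtain ⟨S, hS⟩ : ∃ S, S = range T \ H := ⟨_, rfl⟩
  rw [← hS]
  have hSm : ∀ j ∈ S, j < T ∧ j ∉ H := by
    intro j hj
    rw [hS, Finset.mem_sdiff, mem_range] at hj
    exact hj
  obtain ⟨Co', hCo'⟩ : ∃ Co' : ℕ → ℕ → Prop,
      Co' = fun p i => ∃ n : ℕ, Q f p (n + i) ∧ QH f H p (n + 1) := ⟨_, rfl⟩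
  have hcoll : Coll Co' (2 * c) ((k * c) * c) := by
    constructor
    · intro p n
      rw [hCo']
      simp only
      refine exists_congr fun m => and_congr_left fun _ => ?_
      rw [add_comm m n, add_comm m (n % p)]
      exact per_add f p n m
    · intro p hp _
      have hsub : (range p).filter (fun i => Co' p i) ⊆
          ((range p).filter (fun a => QH f H p a)).biUnion
            (fun a => (range p).filter (fun i => Q f p ((a + (p - 1)) + i))) := by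
        intro i hi
        rw [mem_filter, hCo'] at hi
        obtain ⟨hi1, n, hn1, hn2⟩ := hi
        rw [mem_biUnion]
        refine ⟨(n + 1) % p, ?_, ?_⟩
        · rw [mem_filter, mem_range]
          exact ⟨Nat.mod_lt _ hp.pos, (QH_per f H p (n + 1)).1 hn2⟩
        · rw [mem_filter]
          refine ⟨hi1, ?_⟩
          have e : ((n + 1) % p + (p - 1) + i) % p = (n + i) % p := by
            have h1 : (n + 1) % p + (p - 1) + i ≡ (n + 1) + (p - 1) + i [MOD p] :=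
              ((Nat.mod_modEq (n + 1) p).add_right _).add_right _
            have e2 : (n + 1) + (p - 1) + i = n + i + p := by
              have := hp.pos
              omega
            rw [e2] at h1
            have h2 : n + i + p ≡ n + i [MOD p] := by
              unfold Nat.ModEq
              rw [Nat.add_mod_right]
            exact h1.trans h2
          rw [per f p, e, ← per f p]
          exact hn1
      refine (card_le_card hsub).trans ?_
      refine (card_biUnion_le_card_mul _ _ c (fun a _ => ?_)).trans ?_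
      · have h4 := shift_eq p (a + (p - 1)) hp.pos (fun n => Q f p n) (per f p)
        have h5 := hQ.few p hp
        unfold nuB at h5
        rw [h4]
        exact h5
      · refine Nat.mul_le_mul_right c ?_
        have h5 := (perB_QH f hQ H).few p hp
        rw [hHk] at h5
        unfold nuB at h5
        exact h5
  have hT1 : 1 ≤ T := by omega
  have hiff : ∀ p j : ℕ, p.Prime → (Co' p (j + 1) ↔ Co f H p j) := by
    intro p j hp
    rw [hCo']
    unfold Co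
    simp only
    constructor
    · rintro ⟨n, h1, h2⟩
      refine ⟨n + 1, ?_, h2⟩
      have e : n + 1 + j = n + (j + 1) := by omega
      rw [e]
      exact h1
    · rintro ⟨n, h1, h2⟩
      refine ⟨n + (p - 1), ?_, ?_⟩
      · have e : n + (p - 1) + (j + 1) = n + j + p := by
          have := hp.pos
          omega
        rw [e, per f p, Nat.add_mod_right, ← per f p]
        exact h1
      · have e : n + (p - 1) + 1 = n + p := by
          have := hp.pos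
          omega
        rw [e, QH_per, Nat.add_mod_right, ← QH_per]
        exact h2
  have hEs : S.image (fun j => j + 1) ⊆ Icc 1 T := by
    intro i hi
    rw [mem_image] at hi
    obtain ⟨j, hj, rfl⟩ := hi
    have := (hSm j hj).1
    rw [mem_Icc]
    omega
  have hEc : ∀ i ∈ S.image (fun j => j + 1),
      ((pz (b ^ K)).filter (fun p : ℕ => T < p ∧ Co' p i)).card ≤ k * D' * T := by
    intro i hi
    rw [mem_image] at hi
    obtain ⟨j, hj, rfl⟩ := hi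
    have hsub : (pz (b ^ K)).filter (fun p : ℕ => T < p ∧ Co' p (j + 1)) ⊆
        H.biUnion (fun h => (pz (b ^ K)).filter (fun p : ℕ => T < p ∧ ∃ m : ℕ, ∃ i i' : Fin s,
          (p : ℤ) ∣ (f i).eval (m : ℤ) ∧
            (p : ℤ) ∣ (f i').eval ((m : ℤ) + ((j : ℤ) - h)))) := by
      intro p hp
      rw [mem_filter] at hp
      obtain ⟨hp1, hp2, hp3⟩ := hp
      rw [hiff p j (mem_pz.1 hp1).2] at hp3
      obtain ⟨n, ⟨i', h1⟩, h, hh, i, h2⟩ := hp3
      rw [mem_biUnion]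
      refine ⟨h, hh, mem_filter.2 ⟨hp1, hp2, n + h, i, i', h2, ?_⟩⟩
      have e : (((n + h : ℕ)) : ℤ) + ((j : ℤ) - h) = ((n + j : ℕ) : ℤ) := by
        push_cast
        ring
      rw [e]
      exact h1
    refine (card_le_card hsub).trans (card_biUnion_le.trans ?_)
    have h4 : ∀ h ∈ H, ((pz (b ^ K)).filter (fun p : ℕ => T < p ∧ ∃ m : ℕ, ∃ i i' : Fin s,
          (p : ℤ) ∣ (f i).eval (m : ℤ) ∧
            (p : ℤ) ∣ (f i').eval ((m : ℤ) + ((j : ℤ) - h)))).card ≤ D' * T := by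
      intro h hh
      refine hD' T hT1 (b ^ K) ((j : ℤ) - h) ?_ ?_
      · intro h0
        have h5 : j = h := by omega
        exact (hSm j hj).2 (h5 ▸ hh)
      · have h5 := (hSm j hj).1
        have h6 : h < T := mem_range.1 (hH hh)
        rw [abs_le]
        constructor <;> omega
    refine (sum_le_sum h4).trans ?_
    rw [sum_const, hHk, smul_eq_mul, mul_assoc]
  have h1 := havg T hT Co' hcoll (b ^ K) (S.image (fun j => j + 1)) hEs hEc
  rw [sum_image (fun i _ j _ h => Nat.succ_injective h)] at h1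
  have h2 : ∑ j ∈ S, ∏ p ∈ (pz (b ^ K)).filter (fun p : ℕ => 2 * c < p ∧ Co f H p j),
      (1 + ((2 * c : ℕ) : ℝ) / (p : ℝ)) ≤ C * T := by
    refine le_trans (le_of_eq ?_) h1
    refine sum_congr rfl fun j _ => prod_congr ?_ fun _ _ => rfl
    refine filter_congr fun p hp => ?_
    rw [hiff p j (mem_pz.1 hp).2]
  have hV0 : ∀ Q' : ℕ → ℕ → Prop, 0 ≤ Vq Q' (b ^ K) := fun Q' =>
    prod_nonneg fun p hp => one_sub_nonneg Q' p (mem_pz.1 hp).2
  have hCT : 0 ≤ C * T := by positivity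
  calc ∑ j ∈ S, Vq (QH f (insert j H)) (b ^ K)
      ≤ ∑ j ∈ S, Vq (QH f H) (b ^ K) * (Vq (Q f) (b ^ K) * (((2 * c).factorial : ℝ) *
        ∏ p ∈ (pz (b ^ K)).filter (fun p : ℕ => 2 * c < p ∧ Co f H p j),
          (1 + ((2 * c : ℕ) : ℝ) / (p : ℝ)))) :=
        sum_le_sum fun j hj => V_insert f hc hQ (Pool.Agent.W123.RU.Poly.adm f hf) H j (b ^ K)
    _ = Vq (QH f H) (b ^ K) * (Vq (Q f) (b ^ K) * (((2 * c).factorial : ℝ) * ∑ j ∈ S,
        ∏ p ∈ (pz (b ^ K)).filter (fun p : ℕ => 2 * c < p ∧ Co f H p j),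
          (1 + ((2 * c : ℕ) : ℝ) / (p : ℝ)))) := by
        rw [mul_sum, mul_sum, mul_sum]
    _ ≤ Vq (QH f H) (b ^ K) * (Cv / Real.log b ^ s / (K : ℝ) ^ s *
        (((2 * c).factorial : ℝ) * (C * T))) := by
        refine mul_le_mul_of_nonneg_left ?_ (hV0 _)
        refine mul_le_mul hV1' (mul_le_mul_of_nonneg_left h2 hfac.le) ?_ (by positivity)
        exact mul_nonneg hfac.le (sum_nonneg fun j _ => prod_nonneg fun p _ => by positivity)
    _ = _ := by ring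

/-- **Exact patterns of the places of rough values.** -/
theorem exactP (hs : 1 ≤ s) (f : Fin s → ℤ[X]) (hf : Sys f) (hn : NT f) (k D : ℕ) (hk : 1 ≤ k) :
    ∃ δ : ℝ, 0 < δ ∧ ∃ r₀ : ℕ, 2 ≤ r₀ ∧ ∀ r : ℕ, r₀ ≤ r → ∀ b : ℕ, 2 ≤ b →
      ∃ κ C c : ℝ, 0 < κ ∧ 0 < C ∧ 0 < c ∧ ∀ᶠ K : ℕ in atTop, ∀ N : ℕ, N ≤ b ^ (D * K) →
        ∀ H : Finset ℕ, H.card = k → (∀ h ∈ H, (h : ℝ) ≤ c * (K : ℝ) ^ s) → AdmP f H →
        ∀ A : ℕ → Finset ℕ, (∀ i < K, A i ⊆ range b) →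
        (b : ℝ) ^ K ≤ Real.exp (δ * K) * NA K A →
        κ / (K : ℝ) ^ (s * k) ≤ Vq (QH f H) (b ^ K) ∧
        ((∃ e ∈ A 0, ∀ h ∈ H, ∀ i, ((f i).eval (((N + e + h : ℕ)) : ℤ)).natAbs.Coprime b) →
          (∃ e ∈ A (K - 1), e ≠ 0) →
          κ * NA K A * Vq (QH f H) (b ^ K) ≤
            ND b K A {n | b ^ (K - 1) ≤ n ∧
              (∀ h ∈ H, ∀ i, AP r (b ^ K) ((f i).eval (((N + n + h : ℕ)) : ℤ)).natAbs) ∧
              ∀ j : ℕ, (j : ℝ) ≤ c * (K : ℝ) ^ s → j ∉ H → ∃ i, ∃ p : ℕ, p.Prime ∧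
                (p : ℤ) ∣ (f i).eval (((N + n + j : ℕ)) : ℤ) ∧ p ^ r ≤ b ^ K}) ∧
        (ND b K A {n | ∀ h ∈ H, ∀ i, ∀ p : ℕ, p.Prime →
            (p : ℤ) ∣ (f i).eval (((N + n + h : ℕ)) : ℤ) → n < p ^ r} : ℝ) ≤
          C * NA K A * Vq (QH f H) (b ^ K) := by
  classical
  obtain ⟨c0, hc01, hQ⟩ := exists_c f hf
  obtain ⟨δ1, hδ1, r1, hr1, ht1⟩ := tupP hs f k D hk
  obtain ⟨δ2, hδ2, r2, hr2, ht2⟩ := tupP hs f (k + 1) D (by omega)
  refine ⟨min δ1 δ2, lt_min hδ1 hδ2, max r1 r2, hr1.trans (le_max_left _ _), fun r hr b hb => ?_⟩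
  obtain ⟨κ, C, hκ, hC, h1⟩ := ht1 r ((le_max_left _ _).trans hr) b hb
  obtain ⟨κ2, C2, hκ2, hC2, h2⟩ := ht2 r ((le_max_right _ _).trans hr) b hb
  obtain ⟨C3, hC3, T₀, h3⟩ := avgP f hf hn k b hb
  obtain ⟨v, hv, hVl⟩ := V_lowP f hf k b hb
  obtain ⟨c, hc⟩ : ∃ c : ℝ, c = min 1 (κ / (4 * C2 * C3)) := ⟨_, rfl⟩
  have hc0 : 0 < c := by rw [hc]; exact lt_min one_pos (by positivity)
  have hc1 : c ≤ 1 := by rw [hc]; exact min_le_left _ _
  have hc2 : C2 * C3 * (2 * c) ≤ κ / 2 := by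
    have : c ≤ κ / (4 * C2 * C3) := by rw [hc]; exact min_le_right _ _
    rw [le_div_iff₀ (by positivity)] at this
    linarith
  refine ⟨min (κ / 2) v, C, c, lt_min (by positivity) hv, hC, hc0, ?_⟩
  have hbpow : Tendsto (fun K : ℕ => b ^ K) atTop atTop :=
    tendsto_pow_atTop_atTop_of_one_lt (by omega)
  have hKs : Tendsto (fun K : ℕ => (K : ℝ) ^ s) atTop atTop :=
    (tendsto_pow_atTop (by omega)).comp tendsto_natCast_atTop_atTop
  have hb1 : (1 : ℝ) < b := by exact_mod_cast (by omega : 1 < b)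
  have hKsb : ∀ᶠ K : ℕ in atTop, (K : ℝ) ^ s / (b : ℝ) ^ K < 1 / 2 :=
    (tendsto_pow_const_div_const_pow_of_one_lt s hb1).eventually_lt_const (by norm_num)
  filter_upwards [h1, h2, h3, hVl, hbpow.eventually_gt_atTop (((k + 1) * c0) ^ r),
    hKs.eventually_ge_atTop ((T₀ + 1) / c), eventually_ge_atTop 1, hKsb] with
    K hK1 hK2 hK3 hVK hKb hKT hK0 hKsb N hN H hHk hHc hadm A hA hprod
  have hKr0 : (0 : ℝ) < K := by exact_mod_cast hK0
  have hKs0 : (0 : ℝ) < (K : ℝ) ^ s := by positivity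
  have hcK : (T₀ : ℝ) + 1 ≤ c * (K : ℝ) ^ s := by
    rw [div_le_iff₀ hc0] at hKT
    linarith
  obtain ⟨T, hT⟩ : ∃ T, T = ⌊c * (K : ℝ) ^ s⌋₊ + 1 := ⟨_, rfl⟩
  have hfl : (⌊c * (K : ℝ) ^ s⌋₊ : ℝ) ≤ c * (K : ℝ) ^ s := Nat.floor_le (by positivity)
  have hTle : (T : ℝ) ≤ 2 * c * (K : ℝ) ^ s := by
    rw [hT]
    push_cast
    have : (0 : ℝ) ≤ T₀ := Nat.cast_nonneg _
    linarith
  have hTT₀ : T₀ ≤ T := by
    have h4 : c * (K : ℝ) ^ s < ⌊c * (K : ℝ) ^ s⌋₊ + 1 := Nat.lt_floor_add_one _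
    have h5 : (T₀ : ℝ) < T := by
      rw [hT]
      push_cast
      linarith
    exact (by exact_mod_cast h5 : T₀ < T).le
  have hmem : ∀ j : ℕ, (j : ℝ) ≤ c * (K : ℝ) ^ s → j < T := by
    intro j hj
    rw [hT]
    exact Nat.lt_succ_of_le (Nat.le_floor hj)
  have hTb : T ≤ b ^ K := by
    have h4 : (T : ℝ) ≤ (b : ℝ) ^ K := by
      have hbK0 : (0 : ℝ) < (b : ℝ) ^ K := by positivity
      rw [div_lt_iff₀ hbK0] at hKsb
      have h5 : c * (K : ℝ) ^ s ≤ (K : ℝ) ^ s := by nlinarith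
      linarith
    exact_mod_cast h4
  have hHT : H ⊆ range T := fun h hh => mem_range.2 (hmem h (hHc h hh))
  have hHb : ∀ h ∈ H, h ≤ b ^ K := fun h hh => by
    have := mem_range.1 (hHT hh)
    omega
  have hNA := NA_nonneg K A
  have hexp : ∀ δ : ℝ, min δ1 δ2 ≤ δ → (b : ℝ) ^ K ≤ Real.exp (δ * K) * NA K A := by
    intro δ hδ
    refine hprod.trans (mul_le_mul_of_nonneg_right (Real.exp_le_exp.2 ?_) hNA)
    exact mul_le_mul_of_nonneg_right hδ hKr0.le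
  obtain ⟨h4, h5⟩ := hK1 N hN H hHk hHb hadm A hA (hexp δ1 (min_le_left _ _))
  have hW0 : 0 ≤ Vq (QH f H) (b ^ K) :=
    prod_nonneg fun p hp => one_sub_nonneg _ p (mem_pz.1 hp).2
  refine ⟨(div_le_div_of_nonneg_right (min_le_right _ _) (by positivity)).trans
    (hVK H hHk hadm), ?_, h5⟩
  intro hcop htop
  have h6 := h4 hcop htop
  obtain ⟨J, hJ⟩ : ∃ J, J = (range T \ H).filter (fun j => AdmP f (insert j H)) := ⟨_, rfl⟩
  have h7 : ND b K A {n | b ^ (K - 1) ≤ n ∧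
        ∀ h ∈ H, ∀ i, AP r (b ^ K) ((f i).eval (((N + n + h : ℕ)) : ℤ)).natAbs} ≤
      ND b K A {n | b ^ (K - 1) ≤ n ∧
        (∀ h ∈ H, ∀ i, AP r (b ^ K) ((f i).eval (((N + n + h : ℕ)) : ℤ)).natAbs) ∧
        ∀ j : ℕ, (j : ℝ) ≤ c * (K : ℝ) ^ s → j ∉ H → ∃ i, ∃ p : ℕ, p.Prime ∧
          (p : ℤ) ∣ (f i).eval (((N + n + j : ℕ)) : ℤ) ∧ p ^ r ≤ b ^ K} +
      ∑ j ∈ J, ND b K A {n | ∀ h ∈ insert j H, ∀ i, ∀ p : ℕ, p.Prime →
        (p : ℤ) ∣ (f i).eval (((N + n + h : ℕ)) : ℤ) → n < p ^ r} := by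
    refine ND_cover J _ fun n hn hn1 => ?_
    obtain ⟨hn2, hn3⟩ := hn1
    by_cases hg : ∀ j : ℕ, (j : ℝ) ≤ c * (K : ℝ) ^ s → j ∉ H → ∃ i, ∃ p : ℕ, p.Prime ∧
          (p : ℤ) ∣ (f i).eval (((N + n + j : ℕ)) : ℤ) ∧ p ^ r ≤ b ^ K
    · exact Or.inl ⟨hn2, hn3, hg⟩
    · push Not at hg
      obtain ⟨j, hj1, hj2, hj3⟩ := hg
      have hall : ∀ h ∈ insert j H, ∀ i, ∀ p : ℕ, p.Prime →
          (p : ℤ) ∣ (f i).eval (((N + n + h : ℕ)) : ℤ) → b ^ K < p ^ r := by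
        intro h hh i p hp hd
        rw [mem_insert] at hh
        rcases hh with rfl | hh
        · exact hj3 i p hp hd
        · exact (hn3 h hh i).1 p hp (Int.natCast_dvd.1 hd)
      right
      refine ⟨j, ?_, fun h hh i p hp hd => hn.trans (hall h hh i p hp hd)⟩
      rw [hJ, mem_filter, Finset.mem_sdiff, mem_range]
      refine ⟨⟨hmem j hj1, hj2⟩, ?_⟩
      by_contra hna
      obtain ⟨p, hp, hpk, hcov⟩ := small_of_not_admP f hQ hna
      obtain ⟨h, hh, i, hd⟩ := hcov (N + n)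
      have h8 := hall h hh i p hp hd
      have h9 : (insert j H).card ≤ k + 1 := (card_insert_le _ _).trans (by omega)
      have h10 : p ≤ (k + 1) * c0 := hpk.trans (Nat.mul_le_mul_right _ h9)
      have h11 : p ^ r ≤ ((k + 1) * c0) ^ r := Nat.pow_le_pow_left h10 r
      omega
  have h8 : ∀ j ∈ J, (ND b K A {n | ∀ h ∈ insert j H, ∀ i, ∀ p : ℕ, p.Prime →
      (p : ℤ) ∣ (f i).eval (((N + n + h : ℕ)) : ℤ) → n < p ^ r} : ℝ) ≤
      C2 * NA K A * Vq (QH f (insert j H)) (b ^ K) := by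
    intro j hj
    rw [hJ, mem_filter, Finset.mem_sdiff, mem_range] at hj
    refine (hK2 N hN (insert j H) ?_ ?_ hj.2 A hA (hexp δ2 (min_le_right _ _))).2
    · rw [card_insert_of_notMem hj.1.2, hHk]
    · intro h hh
      rw [mem_insert] at hh
      rcases hh with rfl | hh
      · omega
      · exact hHb h hh
  have h9 : ∑ j ∈ J, Vq (QH f (insert j H)) (b ^ K) ≤
      C3 * T / (K : ℝ) ^ s * Vq (QH f H) (b ^ K) := by
    refine le_trans ?_ (hK3 T hTT₀ H hHT hHk)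
    rw [hJ]
    refine sum_le_sum_of_subset_of_nonneg (filter_subset _ _) fun j _ _ => ?_
    exact prod_nonneg fun p hp => one_sub_nonneg _ p (mem_pz.1 hp).2
  have h10 : (ND b K A {n | b ^ (K - 1) ≤ n ∧
        ∀ h ∈ H, ∀ i, AP r (b ^ K) ((f i).eval (((N + n + h : ℕ)) : ℤ)).natAbs} : ℝ) ≤
      ND b K A {n | b ^ (K - 1) ≤ n ∧
        (∀ h ∈ H, ∀ i, AP r (b ^ K) ((f i).eval (((N + n + h : ℕ)) : ℤ)).natAbs) ∧
        ∀ j : ℕ, (j : ℝ) ≤ c * (K : ℝ) ^ s → j ∉ H → ∃ i, ∃ p : ℕ, p.Prime ∧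
          (p : ℤ) ∣ (f i).eval (((N + n + j : ℕ)) : ℤ) ∧ p ^ r ≤ b ^ K} +
      ∑ j ∈ J, (ND b K A {n | ∀ h ∈ insert j H, ∀ i, ∀ p : ℕ, p.Prime →
        (p : ℤ) ∣ (f i).eval (((N + n + h : ℕ)) : ℤ) → n < p ^ r} : ℝ) := by exact_mod_cast h7
  have h11 : ∑ j ∈ J, (ND b K A {n | ∀ h ∈ insert j H, ∀ i, ∀ p : ℕ, p.Prime →
      (p : ℤ) ∣ (f i).eval (((N + n + h : ℕ)) : ℤ) → n < p ^ r} : ℝ) ≤
      κ / 2 * (NA K A * Vq (QH f H) (b ^ K)) := by
    calc _ ≤ ∑ j ∈ J, C2 * NA K A * Vq (QH f (insert j H)) (b ^ K) := sum_le_sum h8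
      _ = C2 * NA K A * ∑ j ∈ J, Vq (QH f (insert j H)) (b ^ K) := by rw [mul_sum]
      _ ≤ C2 * NA K A * (C3 * T / (K : ℝ) ^ s * Vq (QH f H) (b ^ K)) :=
          mul_le_mul_of_nonneg_left h9 (by positivity)
      _ = (C2 * C3 * (T / (K : ℝ) ^ s)) * (NA K A * Vq (QH f H) (b ^ K)) := by ring
      _ ≤ κ / 2 * (NA K A * Vq (QH f H) (b ^ K)) := by
          refine mul_le_mul_of_nonneg_right ?_ (by positivity)
          refine le_trans ?_ hc2
          refine mul_le_mul_of_nonneg_left ?_ (by positivity)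
          rw [div_le_iff₀ hKs0]
          exact hTle
  have h12 : min (κ / 2) v * NA K A * Vq (QH f H) (b ^ K) ≤
      κ / 2 * (NA K A * Vq (QH f H) (b ^ K)) := by
    rw [mul_assoc]
    exact mul_le_mul_of_nonneg_right (min_le_left _ _) (by positivity)
  have h13 : κ * NA K A * Vq (QH f H) (b ^ K) = κ / 2 * (NA K A * Vq (QH f H) (b ^ K)) +
      κ / 2 * (NA K A * Vq (QH f H) (b ^ K)) := by ring
  linarith

end Pool.Agent.H225.EP
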