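import Pool.Agent.H225.EP2
import Pool.Agent.TH977.PW.Inst

/-!
# Exact patterns for systems of polynomials, in terms of the absolute values of the polynomials
-/

set_option autoImplicit false

namespace Pool.Agent.H225.EP

open Polynomial Finset Filter
open Pool.Agent.Y816.PD (NA ND ND_sub)
open Pool.Agent.H225.DG (AP)
open Pool.Agent.H373R2.T7 (pz nuB)
open Pool.Agent.W123.RU.Poly (Sys Q)
open Pool.Agent.W123.RP (Vq)
open Pool.Agent.W182.PW (lin lin_eval)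

variable {s : ℕ}

/-- the number of the residues `n` modulo `p` with a value divisible by `p` -/
noncomputable def nuV (v : Fin s → ℕ → ℕ) (H : Finset ℕ) (p : ℕ) : ℕ := by
  classical
  exact ((range p).filter (fun n : ℕ => ∃ h ∈ H, ∃ i, p ∣ v i (n + h))).card

/-- the sieve product -/
noncomputable def VV (v : Fin s → ℕ → ℕ) (H : Finset ℕ) (x : ℕ) : ℝ :=
  ∏ p ∈ (Icc 1 x).filter Nat.Prime, (1 - (nuV v H p : ℝ) / p)

lemma Q_iff {f : Fin s → ℤ[X]} {v : Fin s → ℕ → ℕ}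
    (hv : ∀ i, ∀ m : ℕ, ((f i).eval (m : ℤ)).natAbs = v i m) {p : ℕ} (n : ℕ) :
    Q f p n ↔ ∃ i, p ∣ v i n := by
  unfold Q
  refine exists_congr fun i => ?_
  rw [Int.natCast_dvd, hv]

lemma VV_eq {f : Fin s → ℤ[X]} {v : Fin s → ℕ → ℕ}
    (hv : ∀ i, ∀ m : ℕ, ((f i).eval (m : ℤ)).natAbs = v i m) (H : Finset ℕ) (x : ℕ) :
    Vq (QH f H) x = VV v H x := by
  classical
  unfold Vq VV nuB nuV pz
  refine prod_congr rfl fun p _ => ?_
  have e : (range p).filter (fun n => QH f H p n) =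
      (range p).filter (fun n : ℕ => ∃ h ∈ H, ∃ i, p ∣ v i (n + h)) := by
    refine filter_congr fun n _ => exists_congr fun h => and_congr_right fun _ => ?_
    exact Q_iff hv (n + h)
  congr 3
  convert congrArg Finset.card e

/-- **Exact patterns in terms of the values.** -/
theorem exactV (hs : 1 ≤ s) (f : Fin s → ℤ[X]) (hf : Sys f) (hn : NT f) (v : Fin s → ℕ → ℕ)
    (hv : ∀ i, ∀ m : ℕ, ((f i).eval (m : ℤ)).natAbs = v i m)
    (hge : ∀ i, ∀ m : ℕ, (v i m).Prime → m ≤ v i m) (k D : ℕ) (hk : 1 ≤ k) :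
    ∃ δ : ℝ, 0 < δ ∧ ∃ r₀ : ℕ, 2 ≤ r₀ ∧ ∀ r : ℕ, r₀ ≤ r → ∀ b : ℕ, 2 ≤ b →
      ∃ κ C c : ℝ, 0 < κ ∧ 0 < C ∧ 0 < c ∧ ∀ᶠ K : ℕ in atTop, ∀ N : ℕ, N ≤ b ^ (D * K) →
        ∀ H : Finset ℕ, H.card = k → (∀ h ∈ H, (h : ℝ) ≤ c * (K : ℝ) ^ s) →
        (∀ p : ℕ, p.Prime → ∃ n : ℕ, ∀ h ∈ H, ∀ i, ¬ p ∣ v i (n + h)) →
        ∀ A : ℕ → Finset ℕ, (∀ i < K, A i ⊆ range b) →
        (b : ℝ) ^ K ≤ Real.exp (δ * K) * NA K A →
        κ / (K : ℝ) ^ (s * k) ≤ VV v H (b ^ K) ∧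
        ((∃ e ∈ A 0, ∀ h ∈ H, ∀ i, (v i (N + e + h)).Coprime b) → (∃ e ∈ A (K - 1), e ≠ 0) →
          κ * NA K A * VV v H (b ^ K) ≤
            ND b K A {n | b ^ (K - 1) ≤ n ∧
              (∀ j : ℕ, (j : ℝ) ≤ c * (K : ℝ) ^ s →
                ((∀ i, ∀ p : ℕ, p.Prime → p ∣ v i (N + n + j) → b ^ K < p ^ r) ↔ j ∈ H)) ∧
              ∀ h ∈ H, ∀ i, (v i (N + n + h)).primeFactorsList.length ≤ r}) ∧
        (ND b K A {n | ∀ h ∈ H, ∀ i, (v i (N + n + h)).Prime} : ℝ) ≤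
          C * NA K A * VV v H (b ^ K) := by
  obtain ⟨δ, hδ, r₀, hr₀, h⟩ := exactP hs f hf hn k D hk
  refine ⟨δ, hδ, r₀, hr₀, fun r hr b hb => ?_⟩
  obtain ⟨κ, C, c, hκ, hC, hc, h1⟩ := h r hr b hb
  refine ⟨κ, C, c, hκ, hC, hc, ?_⟩
  filter_upwards [h1] with K hK N hN H hHk hHc hadm A hA hprod
  have hadm' : AdmP f H := by
    intro p hp
    obtain ⟨n, hn⟩ := hadm p hp
    refine ⟨n, fun ⟨x, hx, hd⟩ => ?_⟩
    obtain ⟨i, hi⟩ := (Q_iff hv _).1 hd
    exact hn x hx i hi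
  obtain ⟨h2, h3, h4⟩ := hK N hN H hHk hHc hadm' A hA hprod
  rw [VV_eq hv] at h2 h3 h4
  refine ⟨h2, fun hcop htop => ?_, le_trans (Nat.cast_le.2 ?_) h4⟩
  · obtain ⟨e, he, hcop⟩ := hcop
    refine (h3 ⟨e, he, fun h hh i => ?_⟩ htop).trans (Nat.cast_le.2 ?_)
    · rw [hv]
      exact hcop h hh i
    · refine ND_sub fun n _ hn1 hn2 => ⟨hn1, hn2.1, fun j hj => ⟨fun hR => ?_, fun hj2 => ?_⟩,
        fun h hh i => ?_⟩
      · by_contra hj2
        obtain ⟨i, p, hp, hpd, hpr⟩ := hn2.2.2 j hj hj2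
        rw [Int.natCast_dvd, hv] at hpd
        exact absurd (hR i p hp hpd) (by omega)
      · intro i p hp hpd
        refine (hn2.2.1 j hj2 i).1 p hp ?_
        rw [hv]
        exact hpd
      · have := (hn2.2.1 h hh i).2
        rw [hv] at this
        exact this
  · refine ND_sub fun n _ hn1 hn2 => ⟨hn1, fun h hh i p hp hd => ?_⟩
    have hp0 : (v i (N + n + h)).Prime := hn2 h hh i
    rw [Int.natCast_dvd, hv] at hd
    rw [(Nat.prime_dvd_prime_iff_eq hp hp0).1 hd]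
    have h5 : v i (N + n + h) < v i (N + n + h) ^ 2 := by nlinarith [hp0.two_le]
    have h6 : v i (N + n + h) ^ 2 ≤ v i (N + n + h) ^ r := Nat.pow_le_pow_right hp0.pos (by omega)
    have h7 := hge i (N + n + h) hp0
    omega

/-- linear forms with different leading coefficients are not translates of each other -/
lemma nt_lin (a : Fin s → ℕ) (b : Fin s → ℤ) (ha : ∀ i, 0 < a i) (hinj : Function.Injective a) :
    NT (fun i => lin (a i) (b i)) := by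
  intro i i' t ht h
  have h0 := congrArg (fun P : ℤ[X] => P.eval 0) h
  have h1 := congrArg (fun P : ℤ[X] => P.eval 1) h
  simp only [eval_comp, eval_add, eval_X, eval_C, lin_eval] at h0 h1
  have h2 : (a i : ℤ) = a i' := by linarith
  have h3 : i = i' := hinj (by exact_mod_cast h2)
  subst h3
  have h4 : (a i : ℤ) * t = 0 := by linarith
  have h5 : (a i : ℤ) ≠ 0 := by exact_mod_cast (ha i).ne'
  exact ht ((mul_eq_zero.1 h4).resolve_left h5)

end Pool.Agent.H225.EP
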