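import Pool.Agent.H225.DG

/-!
# A lower bound for sieve products
-/

set_option autoImplicit false

namespace Pool.Agent.H225.VL

open Finset Filter
open Pool.Agent.Y816.PD (WG TP TP_dvd WG_bounds WG_nonneg)

/-- an admissible set of `k` numbers which are distinct modulo all primes `p > k` -/
def HH (k : ℕ) : Finset ℕ := (range k).image (fun j => j * k.factorial)

lemma HH_card (k : ℕ) : (HH k).card = k := by
  unfold HH
  rw [card_image_of_injective _ (fun i j h => Nat.eq_of_mul_eq_mul_right k.factorial_pos h),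
    card_range]

lemma HH_inj {k p : ℕ} (hp : p.Prime) (hk : k < p) {h h' : ℕ} (hh : h ∈ HH k) (hh' : h' ∈ HH k)
    (he : h ≡ h' [MOD p]) : h = h' := by
  unfold HH at hh hh'
  rw [mem_image] at hh hh'
  obtain ⟨i, hi, rfl⟩ := hh
  obtain ⟨j, hj, rfl⟩ := hh'
  rw [mem_range] at hi hj
  have hcop : Nat.Coprime p k.factorial := (Nat.Prime.coprime_iff_not_dvd hp).2 fun h => by
    have := (Nat.Prime.dvd_factorial hp).1 h
    omega
  have h1 : i ≡ j [MOD p] := Nat.ModEq.cancel_right_of_coprime hcop he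
  have h2 : i = j := by
    unfold Nat.ModEq at h1
    rwa [Nat.mod_eq_of_lt (by omega), Nat.mod_eq_of_lt (by omega)] at h1
  rw [h2]

lemma HH_adm (k : ℕ) : ∀ p : ℕ, p.Prime → ∃ m : ℕ, ∀ h ∈ HH k, ¬ p ∣ m + h := by
  intro p hp
  by_cases hk : p ≤ k
  · refine ⟨1, fun h hh hd => ?_⟩
    unfold HH at hh
    rw [mem_image] at hh
    obtain ⟨i, -, rfl⟩ := hh
    have h1 : p ∣ i * k.factorial := ((Nat.Prime.dvd_factorial hp).2 hk).mul_left _
    have h2 : p ∣ 1 := (Nat.dvd_add_left h1).1 hd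
    exact hp.one_lt.ne' (Nat.dvd_one.1 h2)
  · by_contra hcon
    push Not at hcon
    choose f hf hfd using hcon
    have h1 : (range p).card ≤ (HH k).card := by
      refine card_le_card_of_injOn f (fun m _ => hf m) ?_
      intro m hm m' hm' he
      rw [mem_coe, mem_range] at hm hm'
      have h2 : m + f m ≡ m' + f m [MOD p] := by
        have h3 := hfd m
        have h4 := hfd m'
        rw [← he] at h4
        exact (Nat.modEq_zero_iff_dvd.2 h3).trans (Nat.modEq_zero_iff_dvd.2 h4).symm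
      have h5 := Nat.ModEq.add_right_cancel' (f m) h2
      unfold Nat.ModEq at h5
      rwa [Nat.mod_eq_of_lt hm, Nat.mod_eq_of_lt hm'] at h5
    rw [card_range, HH_card] at h1
    omega

open Classical in
/-- the product of the `n + h` has at least `k` roots modulo `p > k` -/
lemma roots_ge {k p : ℕ} (hp : p.Prime) (hk : k < p) :
    k ≤ ((range p).filter (fun n : ℕ => (p : ℤ) ∣ TP (HH k) 0 n)).card := by
  refine le_of_eq_of_le (HH_card k).symm ?_
  refine card_le_card_of_injOn (fun h => (p - h % p) % p) ?_ ?_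
  · intro h hh
    rw [mem_coe] at hh
    rw [mem_coe, mem_filter, mem_range, TP_dvd _ _ _ hp]
    refine ⟨Nat.mod_lt _ hp.pos, h, ?_, ?_⟩
    · exact hh
    · have h1 : h % p < p := Nat.mod_lt _ hp.pos
      have h2 : (0 + (p - h % p) % p + h) % p = 0 := by
        rw [zero_add, Nat.mod_add_mod, ← Nat.add_mod_mod, Nat.sub_add_cancel h1.le, Nat.mod_self]
      exact Nat.dvd_of_mod_eq_zero h2
  · intro h hh h' hh' he
    rw [mem_coe] at hh hh'
    simp only at he
    have h1 : h % p < p := Nat.mod_lt _ hp.pos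
    have h2 : h' % p < p := Nat.mod_lt _ hp.pos
    refine HH_inj hp hk hh hh' ?_
    unfold Nat.ModEq
    have e : ∀ x : ℕ, x < p → (p - x) % p = if x = 0 then 0 else p - x := by
      intro x hx
      split_ifs with h0
      · rw [h0, Nat.sub_zero, Nat.mod_self]
      · exact Nat.mod_eq_of_lt (by omega)
    rw [e _ h1, e _ h2] at he
    split_ifs at he <;> omega

open Classical in
/-- **Sieve products with at most `k` roots are at least `v / K ^ k`.** -/
theorem lower (k g : ℕ) (hk : 1 ≤ k) (hg : 2 ≤ g) : ∃ v : ℝ, 0 < v ∧ ∀ᶠ K : ℕ in atTop,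
    ∀ G : ℕ → ℤ, (∀ p : ℕ, p.Prime → ((range p).filter (fun n : ℕ => (p : ℤ) ∣ G n)).card ≤ k) →
    (∀ p : ℕ, p.Prime → ((range p).filter (fun n : ℕ => (p : ℤ) ∣ G n)).card < p) →
    v / (K : ℝ) ^ k ≤ WG G (g ^ K) := by
  obtain ⟨v, Cv, hv, hCv, hW⟩ := WG_bounds (HH k) (HH_adm k) k (HH_card k) g hg
  have hk0 : (0 : ℝ) < k := by exact_mod_cast hk
  have hk1 : (1 : ℝ) ≤ k := by exact_mod_cast hk
  refine ⟨(1 / (k : ℝ)) ^ k * v, by positivity, ?_⟩
  filter_upwards [hW] with K hWK G hG hG'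
  obtain ⟨hW1, -⟩ := hWK 0
  have hfac : ∀ p ∈ (Icc 1 (g ^ K)).filter Nat.Prime,
      (if p ≤ k then 1 / (k : ℝ) else 1) *
        (1 - (((range p).filter (fun n : ℕ => (p : ℤ) ∣ TP (HH k) 0 n)).card : ℝ) / p) ≤
      1 - (((range p).filter (fun n : ℕ => (p : ℤ) ∣ G n)).card : ℝ) / p := by
    intro p hp
    have hpp := (mem_filter.1 hp).2
    have hp0 : (0 : ℝ) < p := by exact_mod_cast hpp.pos
    by_cases h : p ≤ k
    · rw [if_pos h]
      have h1 : (((range p).filter (fun n : ℕ => (p : ℤ) ∣ G n)).card : ℝ) ≤ (p : ℝ) - 1 := by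
        have := hG' p hpp
        have h2 : ((range p).filter (fun n : ℕ => (p : ℤ) ∣ G n)).card + 1 ≤ p := this
        have h3 : ((((range p).filter (fun n : ℕ => (p : ℤ) ∣ G n)).card + 1 : ℕ) : ℝ) ≤ p :=
          Nat.cast_le.2 h2
        push_cast at h3
        linarith
      have h2 : (1 : ℝ) - (((range p).filter (fun n : ℕ => (p : ℤ) ∣ TP (HH k) 0 n)).card : ℝ) / p
          ≤ 1 := by
        have : (0 : ℝ) ≤ (((range p).filter (fun n : ℕ => (p : ℤ) ∣ TP (HH k) 0 n)).card : ℝ) / p :=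
          by positivity
        linarith
      calc 1 / (k : ℝ) *
            (1 - (((range p).filter (fun n : ℕ => (p : ℤ) ∣ TP (HH k) 0 n)).card : ℝ) / p)
          ≤ 1 / (k : ℝ) * 1 := mul_le_mul_of_nonneg_left h2 (by positivity)
        _ = 1 / (k : ℝ) := mul_one _
        _ ≤ 1 / (p : ℝ) := one_div_le_one_div_of_le hp0 (by exact_mod_cast h)
        _ = 1 - ((p : ℝ) - 1) / p := by field_simp; ring
        _ ≤ _ := by
            have := div_le_div_of_nonneg_right h1 hp0.le
            linarith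
    · rw [if_neg h, one_mul]
      have h1 := roots_ge hpp (not_le.1 h)
      have h2 := (hG p hpp).trans h1
      have h3 : (((range p).filter (fun n : ℕ => (p : ℤ) ∣ G n)).card : ℝ) ≤
          (((range p).filter (fun n : ℕ => (p : ℤ) ∣ TP (HH k) 0 n)).card : ℝ) := Nat.cast_le.2 h2
      have := div_le_div_of_nonneg_right h3 hp0.le
      linarith
  have hc : (1 / (k : ℝ)) ^ k ≤
      ∏ p ∈ (Icc 1 (g ^ K)).filter Nat.Prime, (if p ≤ k then 1 / (k : ℝ) else 1) := by
    rw [prod_ite, prod_const, prod_const_one, mul_one]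
    refine pow_le_pow_of_le_one (by positivity) ?_ ?_
    · rw [div_le_one hk0]
      exact hk1
    · have h1 : (((Icc 1 (g ^ K)).filter Nat.Prime).filter (fun p => p ≤ k)) ⊆ Icc 1 k := by
        intro p hp
        rw [mem_filter, mem_filter, mem_Icc] at hp
        rw [mem_Icc]
        exact ⟨hp.1.1.1, hp.2⟩
      have h2 := card_le_card h1
      rwa [Nat.card_Icc, Nat.add_sub_cancel] at h2
  have hle : (∏ p ∈ (Icc 1 (g ^ K)).filter Nat.Prime, (if p ≤ k then 1 / (k : ℝ) else 1)) *
      WG (TP (HH k) 0) (g ^ K) ≤ WG G (g ^ K) := by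
    unfold WG
    rw [← prod_mul_distrib]
    refine prod_le_prod (fun p hp => ?_) (fun p hp => ?_)
    · have hpp := (mem_filter.1 hp).2
      have hp0 : (0 : ℝ) < p := by exact_mod_cast hpp.pos
      refine mul_nonneg (by split_ifs <;> positivity) ?_
      rw [sub_nonneg, div_le_one hp0]
      have h1 := card_filter_le (range p) (fun n : ℕ => (p : ℤ) ∣ TP (HH k) 0 n)
      rw [card_range] at h1
      refine le_trans (le_of_eq ?_) (Nat.cast_le.2 h1)
      congr
    · convert hfac p hp using 3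
  calc (1 / (k : ℝ)) ^ k * v / (K : ℝ) ^ k = (1 / (k : ℝ)) ^ k * (v / (K : ℝ) ^ k) := by ring
    _ ≤ (∏ p ∈ (Icc 1 (g ^ K)).filter Nat.Prime, (if p ≤ k then 1 / (k : ℝ) else 1)) *
      WG (TP (HH k) 0) (g ^ K) := by
        refine mul_le_mul hc hW1 (by positivity) ?_
        exact le_trans (by positivity) hc
    _ ≤ _ := hle

end Pool.Agent.H225.VL
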