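import Pool.Agent.Y816.PD.UniS
import Pool.Agent.W123.RU.Avg
import Pool.Agent.H225.VL

/-!
# Exact patterns of rough numbers at integers with restricted digits, uniformly in the pattern

The pattern may have a diameter up to a small multiple of the mean distance of the rough numbers.
-/

set_option autoImplicit false

namespace Pool.Agent.H225.EX

open Polynomial Finset Filter
open Pool.Agent.Y816.PD (WG uni_top NA ND Rgh Alm WG_nonneg shift_eq TP TP_dvd WG_bounds ND_sub
  NA_nonneg)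
open Pool.Agent.H225.DG (AP len_dvd)
open Pool.Agent.H373R2.T7 (pz mem_pz)

/-- `m` has no prime factor `p` with `p ^ r ≤ z` -/
def Rough (r z m : ℕ) : Prop := ∀ p : ℕ, p.Prime → p ∣ m → z < p ^ r

/-- admissible sets -/
def Adm (H : Finset ℕ) : Prop := ∀ p : ℕ, p.Prime → ∃ m : ℕ, ∀ h ∈ H, ¬ p ∣ m + h

/-- **Tuples, uniformly in the shifts.** -/
theorem tup (k D : ℕ) (hk : 1 ≤ k) :
    ∃ δ : ℝ, 0 < δ ∧ ∃ r₀ : ℕ, 2 ≤ r₀ ∧ ∀ r : ℕ, r₀ ≤ r → ∀ b : ℕ, 2 ≤ b →
      ∃ κ C : ℝ, 0 < κ ∧ 0 < C ∧ ∀ᶠ K : ℕ in atTop, ∀ N : ℕ, N ≤ b ^ (D * K) →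
        ∀ H : Finset ℕ, H.card = k → (∀ h ∈ H, h ≤ b ^ K) → Adm H →
        ∀ A : ℕ → Finset ℕ, (∀ i < K, A i ⊆ range b) →
        (b : ℝ) ^ K ≤ Real.exp (δ * K) * NA K A →
        ((∃ e ∈ A 0, ∀ h ∈ H, (N + e + h).Coprime b) → (∃ e ∈ A (K - 1), e ≠ 0) →
          κ * NA K A * WG (TP H N) (b ^ K) ≤
            ND b K A {n | b ^ (K - 1) ≤ n ∧ ∀ h ∈ H, AP r (b ^ K) (N + n + h)}) ∧
        (ND b K A {n | ∀ h ∈ H, ∀ p : ℕ, p.Prime → p ∣ N + n + h → n < p ^ r} : ℝ) ≤
          C * NA K A * WG (TP H N) (b ^ K) := by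
  classical
  obtain ⟨δ, hδ, r₀, hr₀, h⟩ := uni_top k ((D + 3) * k) hk
  refine ⟨δ, hδ, r₀, hr₀, fun r hr b hb => ?_⟩
  obtain ⟨κ, C, hκ, hC, h1⟩ := h r hr b hb
  refine ⟨κ, C, hκ, hC, ?_⟩
  filter_upwards [h1, eventually_ge_atTop (r + 2)] with K hK hKr N hN H hHk hHb hadm A hA hprod
  have hbK : 2 ^ (r + 2) ≤ b ^ K :=
    (Nat.pow_le_pow_left hb _).trans (Nat.pow_le_pow_right (by omega) hKr)
  have h4b : 4 ≤ b ^ K := by
    have : 2 ^ 2 ≤ 2 ^ (r + 2) := Nat.pow_le_pow_right (by norm_num) (by omega)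
    omega
  have hTPn : ∀ j, (TP H N j).natAbs = ∏ h ∈ H, (N + j + h) := by
    intro j
    unfold TP
    have e : ∏ h ∈ H, ((N : ℤ) + j + h) = ((∏ h ∈ H, (N + j + h) : ℕ) : ℤ) := by push_cast; rfl
    rw [e, Int.natAbs_natCast]
  have hpoly : ∃ P : ℤ[X], P.natDegree ≤ k ∧ ∀ j : ℕ, P.eval (j : ℤ) = TP H N j := by
    refine ⟨∏ h ∈ H, (X + Polynomial.C ((N : ℤ) + h)), ?_, fun j => ?_⟩
    · refine (natDegree_prod_le _ _).trans ?_
      rw [← hHk, Finset.card_eq_sum_ones]
      exact sum_le_sum fun h _ => by rw [natDegree_X_add_C]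
    · rw [eval_prod]
      unfold TP
      refine prod_congr rfl fun h _ => ?_
      simp only [eval_add, eval_X, eval_C]
      ring
  have hadm' : ∀ p : ℕ, p.Prime → ∃ n : ℕ, ¬ (p : ℤ) ∣ TP H N n := by
    intro p hp
    obtain ⟨m, hm⟩ := hadm p hp
    refine ⟨m + (p * N - N), fun hd => ?_⟩
    rw [TP_dvd H N _ hp] at hd
    obtain ⟨h, hh, hd⟩ := hd
    have hle : N ≤ p * N := Nat.le_mul_of_pos_left N hp.pos
    have e : N + (m + (p * N - N)) + h = p * N + (m + h) := by omega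
    rw [e] at hd
    exact hm h hh ((Nat.dvd_add_right (Dvd.intro N rfl)).1 hd)
  have hsize : ∀ n : ℕ, n < b ^ K → (TP H N n).natAbs ≤ b ^ ((D + 3) * k * K) := by
    intro n hn
    rw [hTPn]
    calc ∏ h ∈ H, (N + n + h) ≤ ∏ _h ∈ H, b ^ ((D + 3) * K) := by
          refine prod_le_prod' fun h hh => ?_
          have e : b ^ ((D + 3) * K) = b ^ (D * K) * b ^ K * b ^ K * b ^ K := by
            rw [← pow_add, ← pow_add, ← pow_add]
            congr 1
            ring
          rw [e]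
          have h1 : 1 ≤ b ^ (D * K) := Nat.one_le_pow _ _ (by omega)
          have h2 : b ^ K ≤ b ^ (D * K) * b ^ K := Nat.le_mul_of_pos_left _ (by omega)
          have h3 : b ^ (D * K) ≤ b ^ (D * K) * b ^ K := Nat.le_mul_of_pos_right _ (by omega)
          have h4 : b ^ (D * K) * b ^ K * 4 ≤ b ^ (D * K) * b ^ K * b ^ K :=
            Nat.mul_le_mul_left _ h4b
          have h5 : b ^ (D * K) * b ^ K * b ^ K ≤ b ^ (D * K) * b ^ K * b ^ K * b ^ K :=
            Nat.le_mul_of_pos_right _ (by omega)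
          have h6 := hHb h hh
          omega
      _ = b ^ ((D + 3) * k * K) := by
          rw [prod_const, hHk, ← pow_mul]
          congr 1
          ring
  obtain ⟨h2, h3⟩ := hK (TP H N) hpoly hadm' hsize A hA hprod
  constructor
  · rintro ⟨e, he, hcop⟩ htop
    refine (h2 ⟨e, he, ?_⟩ htop).trans (Nat.cast_le.2 ?_)
    · rw [hTPn]
      exact Nat.Coprime.prod_left fun h hh => hcop h hh
    · refine ND_sub fun n _ hn1 hn2 => ⟨hn1, ?_⟩
      obtain ⟨hn3, hn4, hn5⟩ := hn2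
      have h0 : (TP H N n).natAbs ≠ 0 := by
        intro h0
        have h7 := hn4 2 Nat.prime_two (by
          rw [Int.natAbs_eq_zero.1 h0]
          exact dvd_zero _)
        have : 2 ^ r ≤ 2 ^ (r + 2) := Nat.pow_le_pow_right (by norm_num) (by omega)
        omega
      refine ⟨hn3, fun h hh => ⟨fun p hp hpd => hn4 p hp ((TP_dvd H N n hp).2 ⟨h, hh, hpd⟩), ?_⟩⟩
      refine (len_dvd h0 ?_).trans hn5
      rw [hTPn]
      exact dvd_prod_of_mem (fun h => N + n + h) hh
  · refine le_trans (Nat.cast_le.2 ?_) h3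
    refine ND_sub fun n _ hn1 hn2 => ⟨hn1, fun p hp hpd => ?_⟩
    obtain ⟨h, hh, hd⟩ := (TP_dvd H N n hp).1 hpd
    exact hn2 h hh p hp hd

open Classical in
/-- the number of the residues -/
lemma card_TP (H : Finset ℕ) (N : ℕ) {p : ℕ} (hp : p.Prime) :
    ((range p).filter (fun n : ℕ => (p : ℤ) ∣ TP H N n)).card =
      ((range p).filter (fun n : ℕ => ∃ h ∈ H, p ∣ n + h)).card := by
  have h1 : ((range p).filter (fun n : ℕ => (p : ℤ) ∣ TP H N n)).card =
      ((range p).filter (fun n : ℕ => ∃ h ∈ H, p ∣ N + n + h)).card := by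
    congr 1
    apply filter_congr
    intro n _
    exact TP_dvd H N n hp
  rw [h1]
  convert shift_eq p N hp.pos (fun n => ∃ h ∈ H, p ∣ n + h) (fun n => by
    apply exists_congr
    intro h
    apply and_congr_right
    intro _
    rw [Nat.dvd_iff_mod_eq_zero, Nat.dvd_iff_mod_eq_zero, Nat.mod_add_mod])

/-- the shift `j` coincides with a shift in `H` modulo `p` -/
def Co (H : Finset ℕ) (p j : ℕ) : Prop := ∃ h ∈ H, j ≡ h [MOD p]

/-- the residue `-h` -/
lemma neg_res {p : ℕ} (hp : 0 < p) (h : ℕ) : ∃ a < p, ∀ n < p, (p ∣ n + h ↔ n = a) := by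
  refine ⟨(p - h % p) % p, Nat.mod_lt _ hp, fun n hn => ?_⟩
  have h1 : h % p < p := Nat.mod_lt _ hp
  have e : p ∣ n + h ↔ p ∣ n + h % p := by
    rw [Nat.dvd_iff_mod_eq_zero, Nat.dvd_iff_mod_eq_zero, Nat.add_mod_mod]
  rw [e]
  rcases Nat.eq_zero_or_pos (h % p) with h0 | h0
  · rw [h0, Nat.sub_zero, Nat.mod_self, add_zero]
    constructor
    · intro hd
      exact Nat.eq_zero_of_dvd_of_lt hd hn
    · rintro rfl
      exact dvd_zero _
  · rw [Nat.mod_eq_of_lt (by omega : p - h % p < p)]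
    constructor
    · rintro ⟨c, hc⟩
      have hc1 : c = 1 := by
        rcases Nat.lt_or_ge c 2 with h2 | h2
        · interval_cases c
          · omega
          · rfl
        · have : p * 2 ≤ p * c := Nat.mul_le_mul_left _ h2
          omega
      subst hc1
      omega
    · rintro rfl
      rw [Nat.sub_add_cancel h1.le]

open Classical in
/-- one more shift -/
lemma card_insert_eq (H : Finset ℕ) (j : ℕ) {p : ℕ} (hp : p.Prime) :
    ((range p).filter (fun n : ℕ => ∃ h ∈ insert j H, p ∣ n + h)).card =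
      ((range p).filter (fun n : ℕ => ∃ h ∈ H, p ∣ n + h)).card + (if Co H p j then 0 else 1) := by
  obtain ⟨a, ha, ha'⟩ := neg_res hp.pos j
  have e : (range p).filter (fun n : ℕ => ∃ h ∈ insert j H, p ∣ n + h) =
      insert a ((range p).filter (fun n : ℕ => ∃ h ∈ H, p ∣ n + h)) := by
    ext n
    simp only [mem_filter, mem_range, mem_insert, exists_eq_or_imp]
    constructor
    · rintro ⟨hn, h | h⟩
      · exact Or.inl ((ha' n hn).1 h)
      · exact Or.inr ⟨hn, h⟩
    · rintro (rfl | ⟨hn, h⟩)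
      · exact ⟨ha, Or.inl ((ha' _ ha).2 rfl)⟩
      · exact ⟨hn, Or.inr h⟩
  rw [e]
  by_cases hc : Co H p j
  · rw [if_pos hc, add_zero, insert_eq_of_mem]
    rw [mem_filter, mem_range]
    obtain ⟨h, hh, hjh⟩ := hc
    refine ⟨ha, h, hh, ?_⟩
    have h1 : p ∣ a + j := (ha' a ha).2 rfl
    exact (Nat.modEq_zero_iff_dvd.1 (((Nat.ModEq.add_left a hjh).symm).trans
      (Nat.modEq_zero_iff_dvd.2 h1)))
  · rw [if_neg hc, card_insert_of_notMem]
    rw [mem_filter, mem_range]
    rintro ⟨-, h, hh, hd⟩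
    refine hc ⟨h, hh, ?_⟩
    have h1 : p ∣ a + j := (ha' a ha).2 rfl
    exact Nat.ModEq.add_left_cancel' a ((Nat.modEq_zero_iff_dvd.2 h1).trans
      (Nat.modEq_zero_iff_dvd.2 hd).symm)

open Classical in
lemma card_lt_of_adm {H : Finset ℕ} (hadm : Adm H) {p : ℕ} (hp : p.Prime) :
    ((range p).filter (fun n : ℕ => ∃ h ∈ H, p ∣ n + h)).card < p := by
  obtain ⟨m, hm⟩ := hadm p hp
  refine lt_of_lt_of_eq (card_lt_card ?_) (card_range p)
  rw [filter_ssubset]
  refine ⟨m % p, mem_range.2 (Nat.mod_lt _ hp.pos), fun ⟨h, hh, hd⟩ => hm h hh ?_⟩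
  rw [Nat.dvd_iff_mod_eq_zero, Nat.mod_add_mod] at hd
  exact Nat.dvd_of_mod_eq_zero hd

open Classical in
/-- **The sieve product with one more shift.** -/
lemma WG_insert {H : Finset ℕ} (hadm : Adm H) (j N x : ℕ) (hadm' : Adm (insert j H)) :
    WG (TP (insert j H) N) x ≤ WG (TP H N) x * (WG (TP {0} 0) x *
      ∏ p ∈ (pz x).filter (fun p : ℕ => 0 < p ∧ Co H p j), (1 + (2 : ℕ) / (p : ℝ))) := by
  have e : ∏ p ∈ (pz x).filter (fun p : ℕ => 0 < p ∧ Co H p j), (1 + (2 : ℕ) / (p : ℝ)) =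
      ∏ p ∈ (Icc 1 x).filter Nat.Prime, (if Co H p j then (1 + (2 : ℕ) / (p : ℝ)) else 1) := by
    rw [prod_filter]
    unfold pz
    refine prod_congr rfl fun p hp => ?_
    have hpp := (mem_filter.1 hp).2
    simp only [hpp.pos, true_and]
  rw [e]
  unfold WG
  rw [← prod_mul_distrib, ← prod_mul_distrib]
  refine prod_le_prod (fun p hp => ?_) (fun p hp => ?_)
  · have hpp := (mem_filter.1 hp).2
    have hp0 : (0 : ℝ) < p := by exact_mod_cast hpp.pos
    rw [sub_nonneg, div_le_one hp0]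
    have h1 := card_filter_le (range p) (fun n : ℕ => (p : ℤ) ∣ TP (insert j H) N n)
    rw [card_range] at h1
    refine le_trans (le_of_eq ?_) (Nat.cast_le.2 h1)
    congr
  · have hpp := (mem_filter.1 hp).2
    have hp2 : (2 : ℝ) ≤ p := by exact_mod_cast hpp.two_le
    have hp0 : (0 : ℝ) < p := by linarith
    have h1 := card_TP (insert j H) N hpp
    have h2 := card_TP H N hpp
    have h3 := card_TP {0} 0 hpp
    have h4 : ((range p).filter (fun n : ℕ => ∃ h ∈ ({0} : Finset ℕ), p ∣ n + h)).card = 1 := by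
      rw [card_eq_one]
      refine ⟨0, ?_⟩
      ext n
      simp only [mem_filter, mem_range, mem_singleton, exists_eq_left, add_zero]
      constructor
      · rintro ⟨hn, hd⟩
        exact Nat.eq_zero_of_dvd_of_lt hd hn
      · rintro rfl
        exact ⟨hpp.pos, dvd_zero _⟩
    have h5 := card_insert_eq H j hpp
    have h6 := card_lt_of_adm hadm hpp
    have h7 := card_lt_of_adm hadm' hpp
    obtain ⟨ν, hν⟩ : ∃ ν : ℕ, ν = ((range p).filter (fun n : ℕ => ∃ h ∈ H, p ∣ n + h)).card :=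
      ⟨_, rfl⟩
    have e1 : ((range p).filter (fun n : ℕ => (p : ℤ) ∣ TP (insert j H) N n)).card =
        ν + (if Co H p j then 0 else 1) := by rw [h1, h5, hν]
    have e2 : ((range p).filter (fun n : ℕ => (p : ℤ) ∣ TP H N n)).card = ν := by rw [h2, hν]
    have e3 : ((range p).filter (fun n : ℕ => (p : ℤ) ∣ TP {0} 0 n)).card = 1 := by rw [h3, h4]
    rw [← hν] at h6
    have h6' : (ν : ℝ) ≤ p := by exact_mod_cast h6.le
    have goal : (1 - ((ν + (if Co H p j then 0 else 1) : ℕ) : ℝ) / p) ≤ (1 - (ν : ℝ) / p) *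
        ((1 - ((1 : ℕ) : ℝ) / p) * (if Co H p j then (1 + (2 : ℕ) / (p : ℝ)) else 1)) := by
      have h8 : 0 ≤ 1 - (ν : ℝ) / p := by
        rw [sub_nonneg, div_le_one hp0]
        exact h6'
      split_ifs
      · rw [add_zero]
        have h9 : (1 : ℝ) ≤ (1 - ((1 : ℕ) : ℝ) / p) * (1 + (2 : ℕ) / (p : ℝ)) := by
          have e9 : (1 - ((1 : ℕ) : ℝ) / p) * (1 + (2 : ℕ) / (p : ℝ)) =
              1 + (1 / p) * (1 - 2 / p) := by
            push_cast
            field_simp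
            ring
          rw [e9]
          have h10 : (2 : ℝ) / p ≤ 1 := by
            rw [div_le_one hp0]
            exact hp2
          have h11 : 0 ≤ 1 / (p : ℝ) := by positivity
          nlinarith
        nlinarith
      · rw [mul_one]
        have e9 : (1 - (ν : ℝ) / p) * (1 - ((1 : ℕ) : ℝ) / p) =
            1 - ((ν + 1 : ℕ) : ℝ) / p + (ν : ℝ) / p / p := by
          push_cast
          field_simp
          ring
        rw [e9]
        have : 0 ≤ (ν : ℝ) / p / p := by positivity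
        linarith
    rw [← e1] at goal
    nth_rewrite 1 [← e2] at goal
    rw [← e3] at goal
    convert goal using 5

end Pool.Agent.H225.EX
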