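import Pool.Agent.H225.EX

/-!
# Exact patterns of rough numbers at integers with restricted digits: main theorem
-/

set_option autoImplicit false

namespace Pool.Agent.H225.EX

open Polynomial Finset Filter
open Pool.Agent.Y816.PD (WG uni_top NA ND Rgh Alm WG_nonneg shift_eq TP TP_dvd WG_bounds ND_sub
  NA_nonneg)
open Pool.Agent.H225.DG (AP len_dvd)
open Pool.Agent.H373R2.T7 (pz mem_pz)

lemma ND_cover {ι : Type} {b K : ℕ} {A : ℕ → Finset ℕ} {S G : Set ℕ} (J : Finset ι) (B : ι → Set ℕ)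
    (h : ∀ n < b ^ K, n ∈ S → n ∈ G ∨ ∃ j ∈ J, n ∈ B j) :
    ND b K A S ≤ ND b K A G + ∑ j ∈ J, ND b K A (B j) := by
  classical
  have h1 : (range (b ^ K)).filter (fun n => (∀ i < K, n / b ^ i % b ∈ A i) ∧ n ∈ S) ⊆
      (range (b ^ K)).filter (fun n => (∀ i < K, n / b ^ i % b ∈ A i) ∧ n ∈ G) ∪
      J.biUnion (fun j => (range (b ^ K)).filter
        (fun n => (∀ i < K, n / b ^ i % b ∈ A i) ∧ n ∈ B j)) := by
    intro n hn
    rw [mem_filter, mem_range] at hn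
    rw [mem_union, mem_biUnion]
    rcases h n hn.1 hn.2.2 with h2 | ⟨j, hj, h2⟩
    · exact Or.inl (mem_filter.2 ⟨mem_range.2 hn.1, hn.2.1, h2⟩)
    · exact Or.inr ⟨j, hj, mem_filter.2 ⟨mem_range.2 hn.1, hn.2.1, h2⟩⟩
  unfold ND
  have h2 := (card_le_card h1).trans ((card_union_le _ _).trans
    (Nat.add_le_add_left card_biUnion_le _))
  convert h2

/-- a non-admissible set is covered modulo a small prime -/
lemma small_of_not_adm {H : Finset ℕ} {k : ℕ} (hk : H.card ≤ k) (h : ¬ Adm H) :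
    ∃ p : ℕ, p.Prime ∧ p ≤ k ∧ ∀ m : ℕ, ∃ h ∈ H, p ∣ m + h := by
  unfold Adm at h
  push Not at h
  obtain ⟨p, hp, hc⟩ := h
  refine ⟨p, hp, ?_, hc⟩
  choose f hf hfd using hc
  have h1 : (range p).card ≤ H.card := by
    refine card_le_card_of_injOn f (fun m _ => hf m) ?_
    intro m hm m' hm' he
    rw [mem_coe, mem_range] at hm hm'
    have h2 : m + f m ≡ m' + f m [MOD p] := by
      have h3 := hfd m
      have h4 := hfd m'
      rw [← he] at h4
      exact (Nat.modEq_zero_iff_dvd.2 h3).trans (Nat.modEq_zero_iff_dvd.2 h4).symm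
    have h5 := Nat.ModEq.add_right_cancel' (f m) h2
    unfold Nat.ModEq at h5
    rwa [Nat.mod_eq_of_lt hm, Nat.mod_eq_of_lt hm'] at h5
  rw [card_range] at h1
  omega

open Classical in
/-- the average over the further shift -/
theorem avgV (k b : ℕ) (hb : 2 ≤ b) : ∃ C : ℝ, 0 < C ∧ ∃ T₀ : ℕ, ∀ᶠ K : ℕ in atTop, ∀ T : ℕ, T₀ ≤ T →
    ∀ H : Finset ℕ, H ⊆ range T → H.card = k → Adm H → ∀ N : ℕ,
    ∑ j ∈ (range T \ H).filter (fun j => Adm (insert j H)), WG (TP (insert j H) N) (b ^ K) ≤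
      C * T / K * WG (TP H N) (b ^ K) := by
  obtain ⟨v, Cv, hv, hCv, hW⟩ := WG_bounds {0} (fun p hp => ⟨1, fun h hh => by
    rw [mem_singleton] at hh
    subst hh
    simpa using hp.one_lt.ne'⟩) 1 (card_singleton 0) b hb
  obtain ⟨C, hC, T₀, hT₀, havg⟩ := Pool.Agent.W123.RU.avg 2 k 1 0
  refine ⟨Cv * C, by positivity, T₀, ?_⟩
  filter_upwards [hW] with K hWK T hT H hH hHk hadm N
  obtain ⟨-, hW1⟩ := hWK 0
  rw [pow_one] at hW1
  obtain ⟨S, hS⟩ : ∃ S, S = (range T \ H).filter (fun j => Adm (insert j H)) := ⟨_, rfl⟩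
  rw [← hS]
  have hSm : ∀ j ∈ S, j < T ∧ j ∉ H ∧ Adm (insert j H) := by
    intro j hj
    rw [hS, mem_filter, Finset.mem_sdiff, mem_range] at hj
    exact ⟨hj.1.1, hj.1.2, hj.2⟩
  obtain ⟨Co', hCo'⟩ : ∃ Co' : ℕ → ℕ → Prop, Co' = fun p i => ∃ h ∈ H, i ≡ h + 1 [MOD p] :=
    ⟨_, rfl⟩
  have hcoll : Pool.Agent.W123.RU.Coll Co' 0 k := by
    constructor
    · intro p n
      rw [hCo']
      simp only
      refine exists_congr fun h => and_congr_right fun _ => ?_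
      exact ⟨fun h1 => (Nat.mod_modEq n p).trans h1, fun h1 => (Nat.mod_modEq n p).symm.trans h1⟩
    · intro p hp _
      have h1 : (range p).filter (fun r => Co' p r) ⊆ H.image (fun h => (h + 1) % p) := by
        intro r hr
        rw [mem_filter, mem_range, hCo'] at hr
        obtain ⟨hr, h, hh, h1⟩ := hr
        rw [mem_image]
        refine ⟨h, hh, ?_⟩
        unfold Nat.ModEq at h1
        rw [← h1, Nat.mod_eq_of_lt hr]
      exact (card_le_card h1).trans (card_image_le.trans hHk.le)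
  have hEs : S.image (fun j => j + 1) ⊆ Icc 1 T := by
    intro i hi
    rw [mem_image] at hi
    obtain ⟨j, hj, rfl⟩ := hi
    have := (hSm j hj).1
    rw [mem_Icc]
    omega
  have hEc : ∀ i ∈ S.image (fun j => j + 1),
      ((pz (b ^ K)).filter (fun p : ℕ => T < p ∧ Co' p i)).card ≤ 1 * T := by
    intro i hi
    rw [mem_image] at hi
    obtain ⟨j, hj, rfl⟩ := hi
    have h0 : (pz (b ^ K)).filter (fun p : ℕ => T < p ∧ Co' p (j + 1)) = ∅ := by
      refine filter_eq_empty_iff.2 fun p _ hcon => ?_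
      obtain ⟨hTp, hc⟩ := hcon
      rw [hCo'] at hc
      obtain ⟨h, hh, h1⟩ := hc
      have h2 := (hSm j hj).1
      have h3 : h < T := mem_range.1 (hH hh)
      unfold Nat.ModEq at h1
      rw [Nat.mod_eq_of_lt (by omega), Nat.mod_eq_of_lt (by omega)] at h1
      have h4 : j = h := by omega
      exact (hSm j hj).2.1 (h4 ▸ hh)
    rw [h0, card_empty]
    exact Nat.zero_le _
  have h1 := havg T hT Co' hcoll (b ^ K) (S.image (fun j => j + 1)) hEs hEc
  rw [sum_image (fun i _ j _ h => Nat.succ_injective h)] at h1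
  have hiff : ∀ p j : ℕ, Co' p (j + 1) ↔ Co H p j := by
    intro p j
    rw [hCo']
    refine exists_congr fun h => and_congr_right fun _ => ?_
    exact ⟨fun h1 => Nat.ModEq.add_right_cancel' 1 h1, fun h1 => h1.add_right 1⟩
  have h2 : ∑ j ∈ S, ∏ p ∈ (pz (b ^ K)).filter (fun p : ℕ => 0 < p ∧ Co H p j),
      (1 + ((2 : ℕ) : ℝ) / (p : ℝ)) ≤ C * T := by
    refine le_trans (le_of_eq ?_) h1
    refine sum_congr rfl fun j _ => prod_congr ?_ fun _ _ => rfl
    refine filter_congr fun p _ => ?_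
    rw [hiff]
  have hW0 := WG_nonneg (TP H N) (b ^ K)
  have hW00 := WG_nonneg (TP {0} 0) (b ^ K)
  have hCT : 0 ≤ C * T := by positivity
  calc ∑ j ∈ S, WG (TP (insert j H) N) (b ^ K)
      ≤ ∑ j ∈ S, WG (TP H N) (b ^ K) * (WG (TP {0} 0) (b ^ K) *
        ∏ p ∈ (pz (b ^ K)).filter (fun p : ℕ => 0 < p ∧ Co H p j), (1 + (2 : ℕ) / (p : ℝ))) :=
        sum_le_sum fun j hj => WG_insert hadm j N (b ^ K) (hSm j hj).2.2
    _ = WG (TP H N) (b ^ K) * (WG (TP {0} 0) (b ^ K) * ∑ j ∈ S,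
        ∏ p ∈ (pz (b ^ K)).filter (fun p : ℕ => 0 < p ∧ Co H p j), (1 + (2 : ℕ) / (p : ℝ))) := by
        rw [mul_sum, mul_sum]
    _ ≤ WG (TP H N) (b ^ K) * (Cv / K * (C * T)) := by
        refine mul_le_mul_of_nonneg_left ?_ hW0
        exact mul_le_mul hW1 h2 (sum_nonneg fun j _ => prod_nonneg fun p _ => by positivity)
          (by positivity)
    _ = _ := by ring

/-- **Exact patterns of rough numbers.** -/
theorem exact (k D : ℕ) (hk : 1 ≤ k) :
    ∃ δ : ℝ, 0 < δ ∧ ∃ r₀ : ℕ, 2 ≤ r₀ ∧ ∀ r : ℕ, r₀ ≤ r → ∀ b : ℕ, 2 ≤ b →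
      ∃ κ C c : ℝ, 0 < κ ∧ 0 < C ∧ 0 < c ∧ ∀ᶠ K : ℕ in atTop, ∀ N : ℕ, N ≤ b ^ (D * K) →
        ∀ H : Finset ℕ, H.card = k → (∀ h ∈ H, (h : ℝ) ≤ c * K) → Adm H →
        ∀ A : ℕ → Finset ℕ, (∀ i < K, A i ⊆ range b) →
        (b : ℝ) ^ K ≤ Real.exp (δ * K) * NA K A →
        κ / (K : ℝ) ^ k ≤ WG (TP H N) (b ^ K) ∧
        ((∃ e ∈ A 0, ∀ h ∈ H, (N + e + h).Coprime b) → (∃ e ∈ A (K - 1), e ≠ 0) →
          κ * NA K A * WG (TP H N) (b ^ K) ≤
            ND b K A {n | b ^ (K - 1) ≤ n ∧ (∀ h ∈ H, AP r (b ^ K) (N + n + h)) ∧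
              ∀ j : ℕ, (j : ℝ) ≤ c * K → j ∉ H → ¬ Rough r (b ^ K) (N + n + j)}) ∧
        (ND b K A {n | ∀ h ∈ H, ∀ p : ℕ, p.Prime → p ∣ N + n + h → n < p ^ r} : ℝ) ≤
          C * NA K A * WG (TP H N) (b ^ K) := by
  classical
  obtain ⟨δ1, hδ1, r1, hr1, ht1⟩ := tup k D hk
  obtain ⟨δ2, hδ2, r2, hr2, ht2⟩ := tup (k + 1) D (by omega)
  refine ⟨min δ1 δ2, lt_min hδ1 hδ2, max r1 r2, hr1.trans (le_max_left _ _), fun r hr b hb => ?_⟩
  obtain ⟨κ, C, hκ, hC, h1⟩ := ht1 r ((le_max_left _ _).trans hr) b hb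
  obtain ⟨κ2, C2, hκ2, hC2, h2⟩ := ht2 r ((le_max_right _ _).trans hr) b hb
  obtain ⟨C3, hC3, T₀, h3⟩ := avgV k b hb
  obtain ⟨v, hv, hVl⟩ := Pool.Agent.H225.VL.lower k b hk hb
  obtain ⟨c, hc⟩ : ∃ c : ℝ, c = min 1 (κ / (4 * C2 * C3)) := ⟨_, rfl⟩
  have hc0 : 0 < c := by rw [hc]; exact lt_min one_pos (by positivity)
  have hc1 : c ≤ 1 := by rw [hc]; exact min_le_left _ _
  have hc2 : C2 * C3 * (2 * c) ≤ κ / 2 := by
    have : c ≤ κ / (4 * C2 * C3) := by rw [hc]; exact min_le_right _ _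
    rw [le_div_iff₀ (by positivity)] at this
    linarith
  refine ⟨min (κ / 2) v, C, c, lt_min (by positivity) hv, hC, hc0, ?_⟩
  have hbpow : Tendsto (fun K : ℕ => b ^ K) atTop atTop :=
    tendsto_pow_atTop_atTop_of_one_lt (by omega)
  filter_upwards [h1, h2, h3, hVl, hbpow.eventually_gt_atTop ((k + 1) ^ r),
    tendsto_natCast_atTop_atTop.eventually_ge_atTop ((T₀ + 1) / c), eventually_ge_atTop 1] with
    K hK1 hK2 hK3 hVK hKb hKT hK0 N hN H hHk hHc hadm A hA hprod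
  have hKr0 : (0 : ℝ) < K := by exact_mod_cast hK0
  have hcK : (T₀ : ℝ) + 1 ≤ c * K := by
    rw [div_le_iff₀ hc0] at hKT
    linarith
  obtain ⟨T, hT⟩ : ∃ T, T = ⌊c * K⌋₊ + 1 := ⟨_, rfl⟩
  have hTle : (T : ℝ) ≤ 2 * c * K := by
    have h4 : (⌊c * K⌋₊ : ℝ) ≤ c * K := Nat.floor_le (by positivity)
    rw [hT]
    push_cast
    have : (0 : ℝ) ≤ T₀ := Nat.cast_nonneg _
    linarith
  have hTT₀ : T₀ ≤ T := by
    have h4 : c * K < ⌊c * K⌋₊ + 1 := Nat.lt_floor_add_one _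
    have h5 : (T₀ : ℝ) < T := by
      rw [hT]
      push_cast
      linarith
    exact (by exact_mod_cast h5 : T₀ < T).le
  have hmem : ∀ j : ℕ, (j : ℝ) ≤ c * K → j < T := by
    intro j hj
    rw [hT]
    exact Nat.lt_succ_of_le (Nat.le_floor hj)
  have hTK : T ≤ K + 1 := by
    rw [hT]
    have : ⌊c * K⌋₊ ≤ ⌊(K : ℝ)⌋₊ := Nat.floor_le_floor (by nlinarith)
    rw [Nat.floor_natCast] at this
    omega
  have hKlt : K < b ^ K := Nat.lt_pow_self (by omega)
  have hHT : H ⊆ range T := fun h hh => mem_range.2 (hmem h (hHc h hh))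
  have hHb : ∀ h ∈ H, h ≤ b ^ K := fun h hh => by
    have := mem_range.1 (hHT hh)
    omega
  have hNA := NA_nonneg K A
  have hexp : ∀ δ : ℝ, min δ1 δ2 ≤ δ → (b : ℝ) ^ K ≤ Real.exp (δ * K) * NA K A := by
    intro δ hδ
    refine hprod.trans (mul_le_mul_of_nonneg_right (Real.exp_le_exp.2 ?_) hNA)
    exact mul_le_mul_of_nonneg_right hδ hKr0.le
  obtain ⟨h4, h5⟩ := hK1 N hN H hHk hHb hadm A hA (hexp δ1 (min_le_left _ _))
  have hW0 := WG_nonneg (TP H N) (b ^ K)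
  refine ⟨?_, ?_, h5⟩
  · refine le_trans (div_le_div_of_nonneg_right (min_le_right _ _) (by positivity)) ?_
    refine hVK (TP H N) (fun p hp => ?_) (fun p hp => ?_)
    · have e := card_TP H N hp
      have h6 : ((range p).filter (fun n : ℕ => ∃ h ∈ H, p ∣ n + h)).card ≤ H.card := by
        have h7 : (range p).filter (fun n : ℕ => ∃ h ∈ H, p ∣ n + h) ⊆
            H.biUnion (fun h => (range p).filter (fun n : ℕ => p ∣ n + h)) := by
          intro n hn
          rw [mem_filter] at hn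
          obtain ⟨h, hh, hd⟩ := hn.2
          exact mem_biUnion.2 ⟨h, hh, mem_filter.2 ⟨hn.1, hd⟩⟩
        refine (card_le_card h7).trans (card_biUnion_le.trans ?_)
        rw [card_eq_sum_ones]
        refine sum_le_sum fun h _ => ?_
        obtain ⟨a, ha, ha'⟩ := neg_res hp.pos h
        rw [card_le_one]
        intro x hx y hy
        rw [mem_filter, mem_range] at hx hy
        rw [(ha' x hx.1).1 hx.2, (ha' y hy.1).1 hy.2]
      rw [hHk] at h6
      refine le_trans (le_of_eq ?_) h6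
      convert e
    · refine lt_of_eq_of_lt ?_ (card_lt_of_adm hadm hp)
      convert card_TP H N hp
  · intro hcop htop
    have h6 := h4 hcop htop
    obtain ⟨J, hJ⟩ : ∃ J, J = (range T \ H).filter (fun j => Adm (insert j H)) := ⟨_, rfl⟩
    have h7 : ND b K A {n | b ^ (K - 1) ≤ n ∧ ∀ h ∈ H, AP r (b ^ K) (N + n + h)} ≤
        ND b K A {n | b ^ (K - 1) ≤ n ∧ (∀ h ∈ H, AP r (b ^ K) (N + n + h)) ∧
              ∀ j : ℕ, (j : ℝ) ≤ c * K → j ∉ H → ¬ Rough r (b ^ K) (N + n + j)} +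
        ∑ j ∈ J, ND b K A {n | ∀ h ∈ insert j H, ∀ p : ℕ, p.Prime → p ∣ N + n + h → n < p ^ r} := by
      refine ND_cover J _ fun n hn hn1 => ?_
      obtain ⟨hn2, hn3⟩ := hn1
      by_cases hg : ∀ j : ℕ, (j : ℝ) ≤ c * K → j ∉ H → ¬ Rough r (b ^ K) (N + n + j)
      · exact Or.inl ⟨hn2, hn3, hg⟩
      · push Not at hg
        obtain ⟨j, hj1, hj2, hj3⟩ := hg
        have hall : ∀ h ∈ insert j H, ∀ p : ℕ, p.Prime → p ∣ N + n + h → b ^ K < p ^ r := by
          intro h hh p hp hd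
          rw [mem_insert] at hh
          rcases hh with rfl | hh
          · exact hj3 p hp hd
          · exact (hn3 h hh).1 p hp hd
        right
        refine ⟨j, ?_, fun h hh p hp hd => hn.trans (hall h hh p hp hd)⟩
        rw [hJ, mem_filter, Finset.mem_sdiff, mem_range]
        refine ⟨⟨hmem j hj1, hj2⟩, ?_⟩
        by_contra hna
        obtain ⟨p, hp, hpk, hcov⟩ := small_of_not_adm (k := k + 1)
          ((card_insert_le _ _).trans (by omega)) hna
        obtain ⟨h, hh, hd⟩ := hcov (N + n)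
        have h8 := hall h hh p hp hd
        have h9 : p ^ r ≤ (k + 1) ^ r := Nat.pow_le_pow_left hpk r
        omega
    have h8 : ∀ j ∈ J, (ND b K A {n | ∀ h ∈ insert j H, ∀ p : ℕ, p.Prime → p ∣ N + n + h →
        n < p ^ r} : ℝ) ≤ C2 * NA K A * WG (TP (insert j H) N) (b ^ K) := by
      intro j hj
      rw [hJ, mem_filter, Finset.mem_sdiff, mem_range] at hj
      refine (hK2 N hN (insert j H) ?_ ?_ hj.2 A hA (hexp δ2 (min_le_right _ _))).2
      · rw [card_insert_of_notMem hj.1.2, hHk]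
      · intro h hh
        rw [mem_insert] at hh
        rcases hh with rfl | hh
        · omega
        · exact hHb h hh
    have h9 := hK3 T hTT₀ H hHT hHk hadm N
    rw [← hJ] at h9
    have h10 : (ND b K A {n | b ^ (K - 1) ≤ n ∧ ∀ h ∈ H, AP r (b ^ K) (N + n + h)} : ℝ) ≤
        ND b K A {n | b ^ (K - 1) ≤ n ∧ (∀ h ∈ H, AP r (b ^ K) (N + n + h)) ∧
              ∀ j : ℕ, (j : ℝ) ≤ c * K → j ∉ H → ¬ Rough r (b ^ K) (N + n + j)} +
        ∑ j ∈ J, (ND b K A {n | ∀ h ∈ insert j H, ∀ p : ℕ, p.Prime → p ∣ N + n + h →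
          n < p ^ r} : ℝ) := by exact_mod_cast h7
    have h11 : ∑ j ∈ J, (ND b K A {n | ∀ h ∈ insert j H, ∀ p : ℕ, p.Prime → p ∣ N + n + h →
        n < p ^ r} : ℝ) ≤ κ / 2 * (NA K A * WG (TP H N) (b ^ K)) := by
      calc _ ≤ ∑ j ∈ J, C2 * NA K A * WG (TP (insert j H) N) (b ^ K) := sum_le_sum h8
        _ = C2 * NA K A * ∑ j ∈ J, WG (TP (insert j H) N) (b ^ K) := by rw [mul_sum]
        _ ≤ C2 * NA K A * (C3 * T / K * WG (TP H N) (b ^ K)) :=
            mul_le_mul_of_nonneg_left h9 (by positivity)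
        _ = (C2 * C3 * (T / K)) * (NA K A * WG (TP H N) (b ^ K)) := by ring
        _ ≤ κ / 2 * (NA K A * WG (TP H N) (b ^ K)) := by
            refine mul_le_mul_of_nonneg_right ?_ (by positivity)
            refine le_trans ?_ hc2
            refine mul_le_mul_of_nonneg_left ?_ (by positivity)
            rw [div_le_iff₀ hKr0]
            exact hTle
    have h12 : min (κ / 2) v * NA K A * WG (TP H N) (b ^ K) ≤
        κ / 2 * (NA K A * WG (TP H N) (b ^ K)) := by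
      rw [mul_assoc]
      exact mul_le_mul_of_nonneg_right (min_le_left _ _) (by positivity)
    have h13 : κ * NA K A * WG (TP H N) (b ^ K) = κ / 2 * (NA K A * WG (TP H N) (b ^ K)) +
        κ / 2 * (NA K A * WG (TP H N) (b ^ K)) := by ring
    linarith

end Pool.Agent.H225.EX
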