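import Pool.Agent.H225.EX2

/-!
# A fixed pattern at integers with restricted digits, exactly
-/

set_option autoImplicit false

namespace Pool.Agent.H225.FX

open Finset Filter
open Pool.Agent.Y816.PD (WG NA ND ND_sub TP NA_nonneg WG_bounds)
open Pool.Agent.H225.EX (Adm Rough exact)
open Pool.Agent.H225.DG (AP)

/-- **A fixed pattern.** -/
theorem fx (Q : Finset ℕ) (hQ : Q.Nonempty) (hadm : Adm Q) (D : ℕ) :
    ∃ δ : ℝ, 0 < δ ∧ ∃ r₀ : ℕ, 2 ≤ r₀ ∧ ∀ r : ℕ, r₀ ≤ r → ∀ b : ℕ, 2 ≤ b →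
      ∃ κ C c : ℝ, 0 < κ ∧ 0 < C ∧ 0 < c ∧ ∀ᶠ K : ℕ in atTop, ∀ N : ℕ, N ≤ b ^ (D * K) →
        ∀ A : ℕ → Finset ℕ, (∀ i < K, A i ⊆ range b) →
        (b : ℝ) ^ K ≤ Real.exp (δ * K) * NA K A →
        ((∃ e ∈ A 0, ∀ q ∈ Q, (N + e + q).Coprime b) → (∃ e ∈ A (K - 1), e ≠ 0) →
          κ * NA K A / (K : ℝ) ^ Q.card ≤
            ND b K A {n | b ^ (K - 1) ≤ n ∧ (∀ q ∈ Q, AP r (b ^ K) (N + n + q)) ∧
              ∀ j : ℕ, (j : ℝ) ≤ c * K → j ∉ Q → ¬ Rough r (b ^ K) (N + n + j)}) ∧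
        (ND b K A {n | ∀ q ∈ Q, (N + n + q).Prime} : ℝ) ≤
          C * NA K A / (K : ℝ) ^ Q.card := by
  have hk : 1 ≤ Q.card := hQ.card_pos
  obtain ⟨δ, hδ, r₀, hr₀, h⟩ := exact Q.card D hk
  refine ⟨δ, hδ, r₀, hr₀, fun r hr b hb => ?_⟩
  obtain ⟨κ, C, c, hκ, hC, hc, h1⟩ := h r hr b hb
  obtain ⟨v, Cv, hv, hCv, hW⟩ := WG_bounds Q hadm Q.card rfl b hb
  refine ⟨κ * v, C * Cv, c, by positivity, by positivity, hc, ?_⟩
  -- the pattern is short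
  have hlarge : ∀ᶠ K : ℕ in atTop, ∀ q ∈ Q, (q : ℝ) ≤ c * K := by
    rw [eventually_all_finset]
    intro q _
    have h2 : Tendsto (fun K : ℕ => c * (K : ℝ)) atTop atTop :=
      tendsto_natCast_atTop_atTop.const_mul_atTop hc
    exact h2.eventually_ge_atTop _
  filter_upwards [h1, hW, hlarge] with K hK hWK hl N hN A hA hprod
  obtain ⟨-, h2, h3⟩ := hK N hN Q rfl hl hadm A hA hprod
  obtain ⟨hw1, hw2⟩ := hWK N
  have hNA := NA_nonneg K A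
  refine ⟨fun hcop htop => le_trans ?_ (h2 hcop htop), ?_⟩
  · calc κ * v * NA K A / (K : ℝ) ^ Q.card = κ * NA K A * (v / (K : ℝ) ^ Q.card) := by ring
      _ ≤ _ := mul_le_mul_of_nonneg_left hw1 (mul_nonneg hκ.le hNA)
  · refine le_trans (le_trans (Nat.cast_le.2 ?_) h3) ?_
    · refine ND_sub fun n _ hn1 hn2 => ⟨hn1, fun q hq p hp hpd => ?_⟩
      have hp0 : (N + n + q).Prime := hn2 q hq
      rw [(Nat.prime_dvd_prime_iff_eq hp hp0).1 hpd]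
      have h5 : N + n + q < (N + n + q) ^ 2 := by nlinarith [hp0.two_le]
      have h6 : (N + n + q) ^ 2 ≤ (N + n + q) ^ r :=
        Nat.pow_le_pow_right hp0.pos (hr₀.trans hr)
      omega
    · calc C * NA K A * WG (TP Q N) (b ^ K) ≤ C * NA K A * (Cv / (K : ℝ) ^ Q.card) :=
            mul_le_mul_of_nonneg_left hw2 (mul_nonneg hC.le hNA)
        _ = C * Cv * NA K A / (K : ℝ) ^ Q.card := by ring

end Pool.Agent.H225.FX
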