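import Pool.Agent.H225.AX2

/-!
# Exact patterns on both sides of the representations `N = m + (N - m)`: preparations
-/

set_option autoImplicit false

namespace Pool.Agent.H225.GX

open Polynomial Finset Filter
open Pool.Agent.Y816.PD (WG uni_top NA ND Rgh Alm WG_nonneg shift_eq TP TP_dvd WG_bounds ND_sub
  NA_nonneg)
open Pool.Agent.H225.DG (AP len_dvd)
open Pool.Agent.H225.EX (Rough neg_res)
open Pool.Agent.H373R2.T7 (pz mem_pz)

/-- the class of `y` is occupied by `-H` or `N + G` -/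
def Oc (N : ℕ) (H G : Finset ℕ) (p y : ℕ) : Prop :=
  (∃ h ∈ H, p ∣ y + h) ∨ ∃ g ∈ G, y ≡ N + g [MOD p]

/-- admissible pairs of sets -/
def Adm (N : ℕ) (H G : Finset ℕ) : Prop := ∀ p : ℕ, p.Prime → ∃ y : ℕ, ¬ Oc N H G p y

open Classical in
/-- the number of the occupied classes -/
noncomputable def nu (N : ℕ) (H G : Finset ℕ) (p : ℕ) : ℕ :=
  ((range p).filter (fun y : ℕ => Oc N H G p y)).card

/-- the sieve product -/
noncomputable def V (N : ℕ) (H G : Finset ℕ) (x : ℕ) : ℝ :=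
  ∏ p ∈ (Icc 1 x).filter Nat.Prime, (1 - (nu N H G p : ℝ) / p)

/-- the product of the values -/
def TG (M N : ℕ) (H G : Finset ℕ) (n : ℕ) : ℤ :=
  (∏ h ∈ H, ((M + n + h : ℕ) : ℤ)) * ∏ g ∈ G, (((N + g : ℕ) : ℤ) - ((M + n : ℕ) : ℤ))

lemma TG_dvd (M N : ℕ) (H G : Finset ℕ) (n : ℕ) {p : ℕ} (hp : p.Prime) :
    (p : ℤ) ∣ TG M N H G n ↔ Oc N H G p (M + n) := by
  unfold TG Oc
  rw [(Nat.prime_iff_prime_int.1 hp).dvd_mul,
    Prime.dvd_finsetProd_iff (Nat.prime_iff_prime_int.1 hp),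
    Prime.dvd_finsetProd_iff (Nat.prime_iff_prime_int.1 hp)]
  refine or_congr (exists_congr fun h => and_congr_right fun _ => ?_)
    (exists_congr fun g => and_congr_right fun _ => ?_)
  · exact Int.natCast_dvd_natCast
  · exact Nat.modEq_iff_dvd.symm

lemma natAbs_TG {M N : ℕ} (H G : Finset ℕ) {n : ℕ} (hn : M + n ≤ N) :
    (TG M N H G n).natAbs = (∏ h ∈ H, (M + n + h)) * ∏ g ∈ G, (N + g - (M + n)) := by
  unfold TG
  have e : (∏ h ∈ H, ((M + n + h : ℕ) : ℤ)) * ∏ g ∈ G, (((N + g : ℕ) : ℤ) - ((M + n : ℕ) : ℤ)) =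
      (((∏ h ∈ H, (M + n + h)) * ∏ g ∈ G, (N + g - (M + n)) : ℕ) : ℤ) := by
    rw [Nat.cast_mul, Nat.cast_prod, Nat.cast_prod]
    congr 1
    refine prod_congr rfl fun g _ => ?_
    rw [Nat.cast_sub (by omega)]
  rw [e, Int.natAbs_natCast]

lemma Oc_per (N : ℕ) (H G : Finset ℕ) (p y : ℕ) : Oc N H G p y ↔ Oc N H G p (y % p) := by
  unfold Oc
  refine or_congr (exists_congr fun h => and_congr_right fun _ => ?_)
    (exists_congr fun g => and_congr_right fun _ => ?_)
  · rw [Nat.dvd_iff_mod_eq_zero, Nat.dvd_iff_mod_eq_zero, Nat.mod_add_mod]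
  · exact ⟨fun h => (Nat.mod_modEq y p).trans h, fun h => (Nat.mod_modEq y p).symm.trans h⟩

open Classical in
lemma card_TG (M N : ℕ) (H G : Finset ℕ) {p : ℕ} (hp : p.Prime) :
    ((range p).filter (fun n : ℕ => (p : ℤ) ∣ TG M N H G n)).card = nu N H G p := by
  unfold nu
  have h2 : ((range p).filter (fun n : ℕ => (p : ℤ) ∣ TG M N H G n)).card =
      ((range p).filter (fun n : ℕ => Oc N H G p (M + n))).card := by
    congr 1
    apply filter_congr
    intro n _
    exact TG_dvd M N H G n hp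
  rw [h2]
  convert shift_eq p M hp.pos (fun y => Oc N H G p y) (Oc_per N H G p)

lemma WG_TG (M N : ℕ) (H G : Finset ℕ) (x : ℕ) : WG (TG M N H G) x = V N H G x := by
  classical
  unfold WG V
  refine prod_congr rfl fun p hp => ?_
  rw [← card_TG M N H G (mem_filter.1 hp).2]

lemma nu_le (N : ℕ) (H G : Finset ℕ) {p : ℕ} (hp : p.Prime) : nu N H G p ≤ H.card + G.card := by
  classical
  unfold nu
  have h7 : (range p).filter (fun n : ℕ => Oc N H G p n) ⊆
      H.biUnion (fun h => (range p).filter (fun n : ℕ => p ∣ n + h)) ∪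
        G.image (fun g => (N + g) % p) := by
    intro n hn
    rw [mem_filter] at hn
    rw [mem_union]
    rcases hn.2 with ⟨h, hh, hd⟩ | ⟨g, hg, hd⟩
    · exact Or.inl (mem_biUnion.2 ⟨h, hh, mem_filter.2 ⟨hn.1, hd⟩⟩)
    · refine Or.inr (mem_image.2 ⟨g, hg, ?_⟩)
      unfold Nat.ModEq at hd
      rw [Nat.mod_eq_of_lt (mem_range.1 hn.1)] at hd
      exact hd.symm
  refine le_trans (le_of_eq (by congr)) ((card_le_card h7).trans ((card_union_le _ _).trans
    (Nat.add_le_add (card_biUnion_le.trans ?_) card_image_le)))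
  rw [card_eq_sum_ones]
  refine sum_le_sum fun h _ => ?_
  obtain ⟨a, ha, ha'⟩ := neg_res hp.pos h
  rw [card_le_one]
  intro x hx y hy
  rw [mem_filter, mem_range] at hx hy
  rw [(ha' x hx.1).1 hx.2, (ha' y hy.1).1 hy.2]

lemma nu_lt {N : ℕ} {H G : Finset ℕ} (hadm : Adm N H G) {p : ℕ} (hp : p.Prime) :
    nu N H G p < p := by
  classical
  unfold nu
  obtain ⟨m, hm⟩ := hadm p hp
  refine lt_of_lt_of_eq (card_lt_card ?_) (card_range p)
  rw [filter_ssubset]
  exact ⟨m % p, mem_range.2 (Nat.mod_lt _ hp.pos), fun h => hm ((Oc_per N H G p m).2 h)⟩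

lemma V_nonneg {N : ℕ} {H G : Finset ℕ} (x : ℕ) (hadm : Adm N H G) : 0 ≤ V N H G x := by
  unfold V
  refine prod_nonneg fun p hp => ?_
  have hpp := (mem_filter.1 hp).2
  rw [sub_nonneg, div_le_one (by exact_mod_cast hpp.pos)]
  exact_mod_cast (nu_lt hadm hpp).le

/-- **Tuples on both sides, uniformly.** -/
theorem tup (k D : ℕ) (hk : 1 ≤ k) :
    ∃ δ : ℝ, 0 < δ ∧ ∃ r₀ : ℕ, 2 ≤ r₀ ∧ ∀ r : ℕ, r₀ ≤ r → ∀ b : ℕ, 2 ≤ b →
      ∃ κ C : ℝ, 0 < κ ∧ 0 < C ∧ ∀ᶠ K : ℕ in atTop, ∀ M N : ℕ, M + b ^ K ≤ N → N ≤ b ^ (D * K) →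
        ∀ H G : Finset ℕ, H.card + G.card = k → (∀ h ∈ H, h ≤ b ^ K) → (∀ g ∈ G, g ≤ b ^ K) →
        Adm N H G → ∀ A : ℕ → Finset ℕ, (∀ i < K, A i ⊆ range b) →
        (b : ℝ) ^ K ≤ Real.exp (δ * K) * NA K A →
        ((∃ e ∈ A 0, (∀ h ∈ H, (M + e + h).Coprime b) ∧ ∀ g ∈ G, (N + g - (M + e)).Coprime b) →
          (∃ e ∈ A (K - 1), e ≠ 0) →
          κ * NA K A * V N H G (b ^ K) ≤
            ND b K A {n | b ^ (K - 1) ≤ n ∧ (∀ h ∈ H, AP r (b ^ K) (M + n + h)) ∧
              ∀ g ∈ G, AP r (b ^ K) (N + g - (M + n))}) ∧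
        (ND b K A {n | (∀ h ∈ H, ∀ p : ℕ, p.Prime → p ∣ M + n + h → n < p ^ r) ∧
          ∀ g ∈ G, ∀ p : ℕ, p.Prime → p ∣ N + g - (M + n) → n < p ^ r} : ℝ) ≤
          C * NA K A * V N H G (b ^ K) := by
  classical
  obtain ⟨δ, hδ, r₀, hr₀, h⟩ := uni_top k ((D + 2) * k) hk
  refine ⟨δ, hδ, r₀, hr₀, fun r hr b hb => ?_⟩
  obtain ⟨κ, C, hκ, hC, h1⟩ := h r hr b hb
  refine ⟨κ, C, hκ, hC, ?_⟩
  filter_upwards [h1, eventually_ge_atTop (r + 2)] with
    K hK hKr M N hMN hN H G hHk hHb hGb hadm A hA hprod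
  have hbK : 2 ^ (r + 2) ≤ b ^ K :=
    (Nat.pow_le_pow_left hb _).trans (Nat.pow_le_pow_right (by omega) hKr)
  have h4b : 4 ≤ b ^ K := by
    have : 2 ^ 2 ≤ 2 ^ (r + 2) := Nat.pow_le_pow_right (by norm_num) (by omega)
    omega
  have hpoly : ∃ P : ℤ[X], P.natDegree ≤ k ∧ ∀ j : ℕ, P.eval (j : ℤ) = TG M N H G j := by
    refine ⟨(∏ h ∈ H, (X + Polynomial.C ((M : ℤ) + h))) *
      ∏ g ∈ G, (-X + Polynomial.C ((N : ℤ) + g - M)), ?_, fun j => ?_⟩
    · refine natDegree_mul_le.trans ?_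
      rw [← hHk]
      refine Nat.add_le_add ((natDegree_prod_le _ _).trans ?_) ((natDegree_prod_le _ _).trans ?_)
      · rw [Finset.card_eq_sum_ones]
        exact sum_le_sum fun h _ => by compute_degree
      · rw [Finset.card_eq_sum_ones]
        exact sum_le_sum fun h _ => by compute_degree
    · rw [eval_mul, eval_prod, eval_prod]
      unfold TG
      congr 1
      · refine prod_congr rfl fun h _ => ?_
        simp only [eval_add, eval_X, eval_C]
        push_cast
        ring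
      · refine prod_congr rfl fun h _ => ?_
        simp only [eval_add, eval_neg, eval_X, eval_C]
        push_cast
        ring
  have hadm' : ∀ p : ℕ, p.Prime → ∃ n : ℕ, ¬ (p : ℤ) ∣ TG M N H G n := by
    intro p hp
    have h2 := card_TG M N H G hp
    have h3 : ((range p).filter (fun n : ℕ => (p : ℤ) ∣ TG M N H G n)).card < (range p).card := by
      rw [card_range]
      exact lt_of_eq_of_lt (by convert h2) (nu_lt hadm hp)
    obtain ⟨n, hn, hn'⟩ := exists_mem_notMem_of_card_lt_card h3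
    exact ⟨n, fun hd => hn' (mem_filter.2 ⟨hn, hd⟩)⟩
  have h1b : 1 ≤ b ^ (D * K) := Nat.one_le_pow _ _ (by omega)
  have hbig : ∀ m : ℕ, m ≤ N + b ^ K → m ≤ b ^ ((D + 2) * K) := by
    intro m hm
    have e : b ^ ((D + 2) * K) = b ^ (D * K) * (b ^ K * b ^ K) := by
      rw [← pow_add, ← pow_add]
      congr 1
      ring
    rw [e]
    have h2 : b ^ (D * K) * (4 * 4) ≤ b ^ (D * K) * (b ^ K * b ^ K) :=
      Nat.mul_le_mul_left _ (Nat.mul_le_mul h4b h4b)
    have h3 : 4 * b ^ K ≤ b ^ (D * K) * (b ^ K * b ^ K) := by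
      calc 4 * b ^ K ≤ b ^ K * b ^ K := Nat.mul_le_mul_right _ h4b
        _ ≤ _ := Nat.le_mul_of_pos_left _ h1b
    omega
  have hsize : ∀ n : ℕ, n < b ^ K → (TG M N H G n).natAbs ≤ b ^ ((D + 2) * k * K) := by
    intro n hn
    rw [natAbs_TG H G (by omega)]
    calc (∏ h ∈ H, (M + n + h)) * ∏ g ∈ G, (N + g - (M + n))
        ≤ (∏ _h ∈ H, b ^ ((D + 2) * K)) * ∏ _g ∈ G, b ^ ((D + 2) * K) := by
          refine Nat.mul_le_mul (prod_le_prod' fun h hh => ?_) (prod_le_prod' fun g hg => ?_)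
          · have := hHb h hh
            exact hbig _ (by omega)
          · have := hGb g hg
            exact hbig _ (by omega)
      _ = b ^ ((D + 2) * k * K) := by
          rw [prod_const, prod_const, ← pow_add, hHk, ← pow_mul]
          congr 1
          ring
  obtain ⟨h2, h3⟩ := hK (TG M N H G) hpoly hadm' hsize A hA hprod
  rw [WG_TG] at h2 h3
  constructor
  · rintro ⟨e, he, hcop, hcop'⟩ htop
    have heb : e < b ^ K := by
      have := mem_range.1 (hA 0 (by omega) he)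
      exact this.trans_le (Nat.le_self_pow (by omega) b)
    refine (h2 ⟨e, he, ?_⟩ htop).trans (Nat.cast_le.2 ?_)
    · rw [natAbs_TG H G (by omega)]
      exact Nat.Coprime.mul_left (Nat.Coprime.prod_left fun h hh => hcop h hh)
        (Nat.Coprime.prod_left fun h hh => hcop' h hh)
    · refine ND_sub fun n hn hn1 hn2 => ⟨hn1, ?_⟩
      obtain ⟨hn3, hn4, hn5⟩ := hn2
      have h0 : (TG M N H G n).natAbs ≠ 0 := by
        intro h0
        have h7 := hn4 2 Nat.prime_two (by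
          rw [Int.natAbs_eq_zero.1 h0]
          exact dvd_zero _)
        have : 2 ^ r ≤ 2 ^ (r + 2) := Nat.pow_le_pow_right (by norm_num) (by omega)
        omega
      have hMn : M + n ≤ N := by omega
      refine ⟨hn3, fun h hh => ⟨fun p hp hpd => hn4 p hp ((TG_dvd M N H G n hp).2
        (Or.inl ⟨h, hh, hpd⟩)), ?_⟩, fun g hg => ⟨fun p hp hpd => hn4 p hp
        ((TG_dvd M N H G n hp).2 (Or.inr ⟨g, hg, ?_⟩)), ?_⟩⟩
      · refine (len_dvd h0 ?_).trans hn5
        rw [natAbs_TG H G hMn]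
        exact Dvd.dvd.mul_right (dvd_prod_of_mem (fun h => M + n + h) hh) _
      · exact (Nat.modEq_iff_dvd' (by omega)).2 hpd
      · refine (len_dvd h0 ?_).trans hn5
        rw [natAbs_TG H G hMn]
        exact Dvd.dvd.mul_left (dvd_prod_of_mem (fun g => N + g - (M + n)) hg) _
  · refine le_trans (Nat.cast_le.2 ?_) h3
    refine ND_sub fun n hn hn1 hn2 => ⟨hn1, fun p hp hpd => ?_⟩
    rcases (TG_dvd M N H G n hp).1 hpd with ⟨h, hh, hd⟩ | ⟨g, hg, hd⟩
    · exact hn2.1 h hh p hp hd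
    · exact hn2.2 g hg p hp ((Nat.modEq_iff_dvd' (by omega)).1 hd)

/-- the coincidence of a new shift -/
def Co (N : ℕ) (A B : Finset ℕ) (p j : ℕ) : Prop :=
  (∃ h ∈ A, j ≡ h [MOD p]) ∨ ∃ g ∈ B, p ∣ N + g + j

/-- the Euler factors with one more class -/
lemma fac {p ν : ℕ} (hp : p.Prime) (hν : ν < p) (P : Prop) [Decidable P] :
    (1 - ((ν + (if P then 0 else 1) : ℕ) : ℝ) / p) ≤ (1 - (ν : ℝ) / p) *
        ((1 - 1 / (p : ℝ)) * (if P then (1 + (2 : ℕ) / (p : ℝ)) else 1)) := by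
  have hp2 : (2 : ℝ) ≤ p := by exact_mod_cast hp.two_le
  have hp0 : (0 : ℝ) < p := by linarith
  have h8 : 0 ≤ 1 - (ν : ℝ) / p := by
    rw [sub_nonneg, div_le_one hp0]
    exact_mod_cast hν.le
  split_ifs
  · rw [add_zero]
    have h9 : (1 : ℝ) ≤ (1 - 1 / (p : ℝ)) * (1 + (2 : ℕ) / (p : ℝ)) := by
      have e9 : (1 - 1 / (p : ℝ)) * (1 + (2 : ℕ) / (p : ℝ)) = 1 + (1 / p) * (1 - 2 / p) := by
        push_cast
        field_simp
        ring
      rw [e9]
      have h10 : (2 : ℝ) / p ≤ 1 := by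
        rw [div_le_one hp0]
        exact hp2
      have h11 : 0 ≤ 1 / (p : ℝ) := by positivity
      nlinarith
    nlinarith
  · rw [mul_one]
    have e9 : (1 - (ν : ℝ) / p) * (1 - 1 / (p : ℝ)) = 1 - ((ν + 1 : ℕ) : ℝ) / p + (ν : ℝ) / p / p := by
      push_cast
      field_simp
      ring
    rw [e9]
    have : 0 ≤ (ν : ℝ) / p / p := by positivity
    linarith

open Classical in
/-- **The sieve product with one more class.** -/
lemma V_insert_abs {N : ℕ} {H G H' G' A B : Finset ℕ} (hadm : Adm N H G) (hadm' : Adm N H' G')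
    (j x : ℕ) (h : ∀ p : ℕ, p.Prime → nu N H' G' p = nu N H G p + (if Co N A B p j then 0 else 1)) :
    V N H' G' x ≤ V N H G x * (WG (TP {0} 0) x *
      ∏ p ∈ (pz x).filter (fun p : ℕ => 0 < p ∧ Co N A B p j), (1 + (2 : ℕ) / (p : ℝ))) := by
  have e : ∏ p ∈ (pz x).filter (fun p : ℕ => 0 < p ∧ Co N A B p j), (1 + (2 : ℕ) / (p : ℝ)) =
      ∏ p ∈ (Icc 1 x).filter Nat.Prime,
        (if Co N A B p j then (1 + (2 : ℕ) / (p : ℝ)) else 1) := by
    rw [prod_filter]
    unfold pz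
    refine prod_congr rfl fun p hp => ?_
    have hpp := (mem_filter.1 hp).2
    simp only [hpp.pos, true_and]
  rw [e, Pool.Agent.H225.AX.WG_zero]
  unfold V
  rw [← prod_mul_distrib, ← prod_mul_distrib]
  refine prod_le_prod (fun p hp => ?_) (fun p hp => ?_)
  · have hpp := (mem_filter.1 hp).2
    rw [sub_nonneg, div_le_one (by exact_mod_cast hpp.pos)]
    exact_mod_cast (nu_lt hadm' hpp).le
  · have hpp := (mem_filter.1 hp).2
    rw [h p hpp]
    exact fac hpp (nu_lt hadm hpp) _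

/-- one more class -/
lemma card_insert_abs {p t : ℕ} (ht : t < p) (O O' : ℕ → Prop) [DecidablePred O] [DecidablePred O']
    (P : Prop) [Decidable P] (h1 : ∀ y < p, O' y ↔ y = t ∨ O y) (h2 : P ↔ O t) :
    ((range p).filter O').card = ((range p).filter O).card + (if P then 0 else 1) := by
  have e : (range p).filter O' = insert t ((range p).filter O) := by
    ext n
    simp only [mem_filter, mem_range, mem_insert]
    constructor
    · rintro ⟨hn, h⟩
      rcases (h1 n hn).1 h with h | h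
      · exact Or.inl h
      · exact Or.inr ⟨hn, h⟩
    · rintro (rfl | ⟨hn, h⟩)
      · exact ⟨ht, (h1 _ ht).2 (Or.inl rfl)⟩
      · exact ⟨hn, (h1 n hn).2 (Or.inr h)⟩
  rw [e]
  by_cases hc : P
  · rw [if_pos hc, add_zero, insert_eq_of_mem]
    exact mem_filter.2 ⟨mem_range.2 ht, h2.1 hc⟩
  · rw [if_neg hc, card_insert_of_notMem]
    rw [mem_filter]
    exact fun h => hc (h2.2 h.2)

open Classical in
lemma nu_insert_left (N : ℕ) (H G : Finset ℕ) (j : ℕ) {p : ℕ} (hp : p.Prime) :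
    nu N (insert j H) G p = nu N H G p + (if Co N H G p j then 0 else 1) := by
  obtain ⟨t, ht, ht'⟩ := neg_res hp.pos j
  have htj : p ∣ t + j := (ht' t ht).2 rfl
  unfold nu
  convert card_insert_abs ht (fun y => Oc N H G p y) (fun y => Oc N (insert j H) G p y)
    (Co N H G p j) (fun y hy => ?_) ?_
  · constructor
    · rintro (⟨h, hh, hd⟩ | h)
      · rw [mem_insert] at hh
        rcases hh with rfl | hh
        · exact Or.inl ((ht' y hy).1 hd)
        · exact Or.inr (Or.inl ⟨h, hh, hd⟩)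
      · exact Or.inr (Or.inr h)
    · rintro (rfl | ⟨h, hh, hd⟩ | h)
      · exact Or.inl ⟨j, mem_insert_self _ _, htj⟩
      · exact Or.inl ⟨h, mem_insert_of_mem hh, hd⟩
      · exact Or.inr h
  · refine or_congr (exists_congr fun h => and_congr_right fun _ => ?_)
      (exists_congr fun g => and_congr_right fun _ => ?_)
    · constructor
      · intro hjh
        exact Nat.modEq_zero_iff_dvd.1 (((Nat.ModEq.add_left t hjh).symm).trans
          (Nat.modEq_zero_iff_dvd.2 htj))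
      · intro hd
        exact Nat.ModEq.add_left_cancel' t ((Nat.modEq_zero_iff_dvd.2 htj).trans
          (Nat.modEq_zero_iff_dvd.2 hd).symm)
    · constructor
      · intro hd
        exact Nat.ModEq.add_right_cancel' j ((Nat.modEq_zero_iff_dvd.2 htj).trans
          (Nat.modEq_zero_iff_dvd.2 hd).symm)
      · intro hd
        exact Nat.modEq_zero_iff_dvd.1 (((Nat.ModEq.add_right j hd).symm).trans
          (Nat.modEq_zero_iff_dvd.2 htj))

open Classical in
lemma nu_insert_right (N : ℕ) (H G : Finset ℕ) (j : ℕ) {p : ℕ} (hp : p.Prime) :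
    nu N H (insert j G) p = nu N H G p + (if Co N G H p j then 0 else 1) := by
  have ht : (N + j) % p < p := Nat.mod_lt _ hp.pos
  have hmod : (N + j) % p ≡ N + j [MOD p] := Nat.mod_modEq _ _
  unfold nu
  convert card_insert_abs ht (fun y => Oc N H G p y) (fun y => Oc N H (insert j G) p y)
    (Co N G H p j) (fun y hy => ?_) ?_
  · have hy' : y ≡ N + j [MOD p] ↔ y = (N + j) % p := by
      constructor
      · intro h
        unfold Nat.ModEq at h
        rwa [Nat.mod_eq_of_lt hy] at h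
      · rintro h
        rw [h]
        exact hmod
    constructor
    · rintro (h | ⟨g, hg, hd⟩)
      · exact Or.inr (Or.inl h)
      · rw [mem_insert] at hg
        rcases hg with rfl | hg
        · exact Or.inl (hy'.1 hd)
        · exact Or.inr (Or.inr ⟨g, hg, hd⟩)
    · rintro (h | h | ⟨g, hg, hd⟩)
      · exact Or.inr ⟨j, mem_insert_self _ _, hy'.2 h⟩
      · exact Or.inl h
      · exact Or.inr ⟨g, mem_insert_of_mem hg, hd⟩
  · unfold Co Oc
    rw [or_comm]
    refine or_congr (exists_congr fun h => and_congr_right fun _ => ?_)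
      (exists_congr fun g => and_congr_right fun _ => ?_)
    · have e : (N + j) % p + h ≡ N + h + j [MOD p] := by
        have := hmod.add_right h
        rwa [show N + j + h = N + h + j by ring] at this
      exact (e.dvd_iff dvd_rfl).symm
    · constructor
      · intro hd
        exact hmod.trans (Nat.ModEq.add_left N hd)
      · intro hd
        exact Nat.ModEq.add_left_cancel' N (hmod.symm.trans hd)

end Pool.Agent.H225.GX
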