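import Pool.Agent.H225.GX

/-!
# Exact patterns on both sides of the representations `N = m + (N - m)`
-/

set_option autoImplicit false

namespace Pool.Agent.H225.GX

open Finset Filter
open Pool.Agent.Y816.PD (WG NA ND WG_nonneg TP WG_bounds ND_sub NA_nonneg)
open Pool.Agent.H225.DG (AP)
open Pool.Agent.H225.EX (Rough ND_cover)
open Pool.Agent.H373R2.T7 (pz mem_pz)

/-- the number of the large primes dividing a number -/
lemma few_primes {T B b m L : ℕ} (hB : 0 < B) (hT : 2 ^ B ≤ T) (hm : 0 < m) (hmb : m ≤ b ^ L)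
    (s : Finset ℕ) (hs : ∀ p ∈ s, p.Prime ∧ T < p ∧ p ∣ m) : B * s.card ≤ b * L := by
  have h1 : ∏ p ∈ s, p ∣ m := Finset.prod_primes_dvd m (fun p hp => (hs p hp).1.prime)
    (fun p hp => (hs p hp).2.2)
  have h2 : T ^ s.card ≤ ∏ p ∈ s, p := by
    rw [← prod_const]
    exact prod_le_prod' fun p hp => (hs p hp).2.1.le
  have h3 : 2 ^ (B * s.card) ≤ 2 ^ (b * L) := by
    calc 2 ^ (B * s.card) = (2 ^ B) ^ s.card := by rw [pow_mul]
      _ ≤ T ^ s.card := Nat.pow_le_pow_left hT _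
      _ ≤ m := h2.trans (Nat.le_of_dvd hm h1)
      _ ≤ b ^ L := hmb
      _ ≤ (2 ^ b) ^ L := Nat.pow_le_pow_left Nat.lt_two_pow_self.le _
      _ = 2 ^ (b * L) := by rw [pow_mul]
  exact (Nat.pow_le_pow_iff_right (by norm_num)).1 h3

lemma xy_le {x y : ℕ} (h1 : 1 ≤ x) (h4 : 4 ≤ y) : x + y * y ≤ x * (y * (y * y)) := by
  have h7 : 1 ≤ y * y := Nat.mul_pos (by omega) (by omega)
  have h8 : 2 * (x * (y * y)) ≤ x * (y * (y * y)) := by
    calc 2 * (x * (y * y)) ≤ y * (x * (y * y)) := Nat.mul_le_mul_right _ (by omega)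
      _ = x * (y * (y * y)) := by ring
  have h9 : x ≤ x * (y * y) := Nat.le_mul_of_pos_right _ h7
  have h10 : y * y ≤ x * (y * y) := Nat.le_mul_of_pos_left _ h1
  omega

open Classical in
/-- the average of the products over the coincidences -/
theorem avgCo (k b D : ℕ) (hb : 2 ≤ b) : ∃ C : ℝ, 0 < C ∧ ∀ c : ℝ, 0 < c → ∀ᶠ K : ℕ in atTop,
    ∀ T : ℕ, c * K ≤ T → T ≤ K + 1 → ∀ N : ℕ, 1 ≤ N → N ≤ b ^ (D * K) → ∀ A B : Finset ℕ,
    A ⊆ range T → B ⊆ range T → A.card + B.card ≤ k → ∀ S : Finset ℕ, S ⊆ range T \ A →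
    ∑ j ∈ S, ∏ p ∈ (pz (b ^ K)).filter (fun p : ℕ => 0 < p ∧ Co N A B p j), (1 + (2 : ℕ) / (p : ℝ)) ≤
      C * T := by
  obtain ⟨C, hC, T₀, hT₀, havg⟩ := Pool.Agent.W123.RU.avg 2 k 1 0
  refine ⟨C, by linarith, fun c hc => ?_⟩
  obtain ⟨B₀, hB₀⟩ : ∃ B₀ : ℕ, B₀ = ⌈(k : ℝ) * (b * (D + 3)) / c⌉₊ + 1 := ⟨_, rfl⟩
  have hB₀c : (k : ℝ) * (b * (D + 3)) ≤ B₀ * c := by
    have h1 : (k : ℝ) * (b * (D + 3)) / c ≤ B₀ := by
      rw [hB₀]
      push_cast
      linarith [Nat.le_ceil ((k : ℝ) * (b * (D + 3)) / c)]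
    rwa [div_le_iff₀ hc] at h1
  filter_upwards [tendsto_natCast_atTop_atTop.eventually_ge_atTop (((T₀ + 2 ^ B₀ : ℕ) : ℝ) / c),
    eventually_ge_atTop 2] with K hK hK2 T hcT hTK N hN1 hN A B hA hB hAB S hS
  have hTbig : T₀ + 2 ^ B₀ ≤ T := by
    rw [div_le_iff₀ hc] at hK
    have : ((T₀ + 2 ^ B₀ : ℕ) : ℝ) ≤ T := by linarith
    exact_mod_cast this
  have hT : T₀ ≤ T := le_trans (Nat.le_add_right _ _) hTbig
  have hTB : 2 ^ B₀ ≤ T := le_trans (Nat.le_add_left _ _) hTbig
  have hSm : ∀ j ∈ S, j < T ∧ j ∉ A := by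
    intro j hj
    have := hS hj
    rw [Finset.mem_sdiff, mem_range] at this
    exact this
  have hKlt : K < b ^ K := Nat.lt_pow_self (by omega)
  obtain ⟨Co', hCo'⟩ : ∃ Co' : ℕ → ℕ → Prop, Co' = fun p i => (∃ h ∈ A, i ≡ h + 1 [MOD p]) ∨
    ∃ g ∈ B, N + g + i ≡ 1 [MOD p] := ⟨_, rfl⟩
  have hcoll : Pool.Agent.W123.RU.Coll Co' 0 k := by
    constructor
    · intro p n
      rw [hCo']
      simp only
      refine or_congr (exists_congr fun h => and_congr_right fun _ => ?_)
        (exists_congr fun h => and_congr_right fun _ => ?_)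
      · exact ⟨fun h1 => (Nat.mod_modEq n p).trans h1, fun h1 => (Nat.mod_modEq n p).symm.trans h1⟩
      · exact ⟨fun h1 => (Nat.ModEq.add_left _ (Nat.mod_modEq n p)).trans h1,
          fun h1 => (Nat.ModEq.add_left _ (Nat.mod_modEq n p)).symm.trans h1⟩
    · intro p hp _
      have h1 : (range p).filter (fun r => Co' p r) ⊆ A.image (fun h => (h + 1) % p) ∪
          B.biUnion (fun g => (range p).filter (fun r => N + g + r ≡ 1 [MOD p])) := by
        intro r hr
        rw [mem_filter, mem_range, hCo'] at hr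
        rw [mem_union]
        obtain ⟨hr, ⟨h, hh, h1⟩ | ⟨g, hg, h1⟩⟩ := hr
        · left
          rw [mem_image]
          refine ⟨h, hh, ?_⟩
          unfold Nat.ModEq at h1
          rw [← h1, Nat.mod_eq_of_lt hr]
        · right
          exact mem_biUnion.2 ⟨g, hg, mem_filter.2 ⟨mem_range.2 hr, h1⟩⟩
      refine (card_le_card h1).trans ((card_union_le _ _).trans ((Nat.add_le_add card_image_le
        (card_biUnion_le.trans ?_)).trans hAB))
      rw [card_eq_sum_ones]
      refine sum_le_sum fun g _ => ?_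
      rw [card_le_one]
      intro x hx y hy
      rw [mem_filter, mem_range] at hx hy
      have h2 : x ≡ y [MOD p] := Nat.ModEq.add_left_cancel' (N + g) (hx.2.trans hy.2.symm)
      unfold Nat.ModEq at h2
      rwa [Nat.mod_eq_of_lt hx.1, Nat.mod_eq_of_lt hy.1] at h2
  have hEs : S.image (fun j => j + 1) ⊆ Icc 1 T := by
    intro i hi
    rw [mem_image] at hi
    obtain ⟨j, hj, rfl⟩ := hi
    have := (hSm j hj).1
    rw [mem_Icc]
    omega
  have hiff : ∀ p j : ℕ, Co' p (j + 1) ↔ Co N A B p j := by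
    intro p j
    rw [hCo']
    refine or_congr (exists_congr fun h => and_congr_right fun _ => ?_)
      (exists_congr fun g => and_congr_right fun _ => ?_)
    · exact ⟨fun h1 => Nat.ModEq.add_right_cancel' 1 h1, fun h1 => h1.add_right 1⟩
    · constructor
      · intro h1
        refine Nat.modEq_zero_iff_dvd.1 (Nat.ModEq.add_right_cancel' 1 ?_)
        rw [zero_add]
        exact h1
      · intro h1
        have := (Nat.modEq_zero_iff_dvd.2 h1).add_right 1
        rwa [zero_add] at this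
  have hEc : ∀ i ∈ S.image (fun j => j + 1),
      ((pz (b ^ K)).filter (fun p : ℕ => T < p ∧ Co' p i)).card ≤ 1 * T := by
    intro i hi
    rw [mem_image] at hi
    obtain ⟨j, hj, rfl⟩ := hi
    have hjT := (hSm j hj).1
    have h0 : (pz (b ^ K)).filter (fun p : ℕ => T < p ∧ Co' p (j + 1)) ⊆
        B.biUnion (fun g => (pz (b ^ K)).filter (fun p : ℕ => T < p ∧ p ∣ N + g + j)) := by
      intro p hp
      rw [mem_filter] at hp
      obtain ⟨hp1, hTp, hc⟩ := hp
      rw [hiff] at hc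
      rcases hc with ⟨h, hh, h1⟩ | ⟨g, hg, h1⟩
      · exfalso
        have h3 : h < T := mem_range.1 (hA hh)
        unfold Nat.ModEq at h1
        rw [Nat.mod_eq_of_lt (by omega), Nat.mod_eq_of_lt (by omega)] at h1
        exact (hSm j hj).2 (h1 ▸ hh)
      · exact mem_biUnion.2 ⟨g, hg, mem_filter.2 ⟨hp1, hTp, h1⟩⟩
    have h4 : ∀ g ∈ B, B₀ * ((pz (b ^ K)).filter (fun p : ℕ => T < p ∧ p ∣ N + g + j)).card ≤
        b * ((D + 3) * K) := by
      intro g hg
      have hgT : g < T := mem_range.1 (hB hg)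
      refine few_primes (by omega) hTB (by omega : 0 < N + g + j) ?_ _ (fun p hp => ?_)
      · have e : b ^ ((D + 3) * K) = b ^ (D * K) * (b ^ K * (b ^ K * b ^ K)) := by
          rw [← pow_add, ← pow_add, ← pow_add]
          congr 1
          ring
        rw [e]
        have h1b : 1 ≤ b ^ (D * K) := Nat.one_le_pow _ _ (by omega)
        have h4b : 4 ≤ b ^ K := by
          calc 4 = 2 ^ 2 := by norm_num
            _ ≤ 2 ^ K := Nat.pow_le_pow_right (by norm_num) hK2
            _ ≤ b ^ K := Nat.pow_le_pow_left hb K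
        have h5 : 2 * T ≤ b ^ K * b ^ K := by
          have : 4 * b ^ K ≤ b ^ K * b ^ K := Nat.mul_le_mul_right _ h4b
          omega
        have h6 : b ^ (D * K) + b ^ K * b ^ K ≤ b ^ (D * K) * (b ^ K * (b ^ K * b ^ K)) :=
          xy_le h1b h4b
        omega
      · rw [mem_filter, mem_pz] at hp
        exact ⟨hp.1.2, hp.2.1, hp.2.2⟩
    rw [one_mul]
    have h5 : B₀ * ((pz (b ^ K)).filter (fun p : ℕ => T < p ∧ Co' p (j + 1))).card ≤ B₀ * T := by
      calc B₀ * ((pz (b ^ K)).filter (fun p : ℕ => T < p ∧ Co' p (j + 1))).card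
          ≤ B₀ * ∑ g ∈ B, ((pz (b ^ K)).filter (fun p : ℕ => T < p ∧ p ∣ N + g + j)).card :=
            Nat.mul_le_mul_left _ ((card_le_card h0).trans card_biUnion_le)
        _ = ∑ g ∈ B, B₀ * ((pz (b ^ K)).filter (fun p : ℕ => T < p ∧ p ∣ N + g + j)).card := by
            rw [mul_sum]
        _ ≤ ∑ _g ∈ B, b * ((D + 3) * K) := sum_le_sum h4
        _ = B.card * (b * ((D + 3) * K)) := by rw [sum_const, smul_eq_mul]
        _ ≤ k * (b * ((D + 3) * K)) := Nat.mul_le_mul_right _ (by omega)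
        _ ≤ B₀ * T := by
            have h6 : (k : ℝ) * (b * ((D + 3) * K)) ≤ B₀ * T := by
              calc (k : ℝ) * (b * ((D + 3) * K)) = (k * (b * (D + 3))) * K := by ring
                _ ≤ (B₀ * c) * K := mul_le_mul_of_nonneg_right hB₀c (Nat.cast_nonneg _)
                _ = B₀ * (c * K) := by ring
                _ ≤ _ := mul_le_mul_of_nonneg_left hcT (Nat.cast_nonneg _)
            exact_mod_cast h6
    exact Nat.le_of_mul_le_mul_left h5 (by omega)
  have h1 := havg T hT Co' hcoll (b ^ K) (S.image (fun j => j + 1)) hEs hEc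
  rw [sum_image (fun i _ j _ h => Nat.succ_injective h)] at h1
  refine le_trans (le_of_eq ?_) h1
  refine sum_congr rfl fun j _ => prod_congr ?_ fun _ _ => rfl
  refine filter_congr fun p _ => ?_
  rw [hiff]

/-- a non-admissible pair of sets is covered modulo a small prime -/
lemma small_of_not_adm {N : ℕ} {H G : Finset ℕ} {k : ℕ} (hk : H.card + G.card ≤ k)
    (h : ¬ Adm N H G) : ∃ p : ℕ, p.Prime ∧ p ≤ k ∧ ∀ y : ℕ, Oc N H G p y := by
  classical
  unfold Adm at h
  push Not at h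
  obtain ⟨p, hp, hc⟩ := h
  refine ⟨p, hp, ?_, hc⟩
  have h1 : nu N H G p = p := by
    unfold nu
    rw [filter_true_of_mem (fun y _ => hc y), card_range]
  have := nu_le N H G hp
  omega

end Pool.Agent.H225.GX
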