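import Pool.Agent.H225.GX2

/-!
# Exact patterns on both sides of the representations `N = m + (N - m)`: main theorem
-/

set_option autoImplicit false

namespace Pool.Agent.H225.GX

open Finset Filter
open Pool.Agent.Y816.PD (WG NA ND WG_nonneg TP WG_bounds ND_sub NA_nonneg)
open Pool.Agent.H225.DG (AP)
open Pool.Agent.H225.EX (Rough ND_cover)
open Pool.Agent.H373R2.T7 (pz mem_pz)

/-- the lower bound of the sieve product -/
lemma V_low (k b : ℕ) (hk : 1 ≤ k) (hb : 2 ≤ b) : ∃ v : ℝ, 0 < v ∧ ∀ᶠ K : ℕ in atTop,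
    ∀ N : ℕ, ∀ H G : Finset ℕ, H.card + G.card = k → Adm N H G →
      v / (K : ℝ) ^ k ≤ V N H G (b ^ K) := by
  classical
  obtain ⟨v, hv, hVl⟩ := Pool.Agent.H225.VL.lower k b hk hb
  refine ⟨v, hv, ?_⟩
  filter_upwards [hVl] with K hVK N H G hHk hadm
  rw [← WG_TG 0 N H G]
  refine hVK (TG 0 N H G) (fun p hp => ?_) (fun p hp => ?_)
  · exact le_trans (le_of_eq (by convert card_TG 0 N H G hp)) ((nu_le N H G hp).trans hHk.le)
  · exact lt_of_eq_of_lt (by convert card_TG 0 N H G hp) (nu_lt hadm hp)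

open Classical in
/-- the average over the further shift, on the left -/
lemma avg_left (k b D : ℕ) (hb : 2 ≤ b) : ∃ C : ℝ, 0 < C ∧ ∀ c : ℝ, 0 < c → ∀ᶠ K : ℕ in atTop,
    ∀ T : ℕ, c * K ≤ T → T ≤ K + 1 → ∀ N : ℕ, 1 ≤ N → N ≤ b ^ (D * K) → ∀ H G : Finset ℕ,
    H ⊆ range T → G ⊆ range T → H.card + G.card = k → Adm N H G →
    ∑ j ∈ (range T \ H).filter (fun j => Adm N (insert j H) G), V N (insert j H) G (b ^ K) ≤
      C * T / K * V N H G (b ^ K) ∧
    ∑ j ∈ (range T \ G).filter (fun j => Adm N H (insert j G)), V N H (insert j G) (b ^ K) ≤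
      C * T / K * V N H G (b ^ K) := by
  obtain ⟨v, Cv, hv, hCv, hW⟩ := WG_bounds {0} (fun p hp => ⟨1, fun h hh => by
    rw [mem_singleton] at hh
    subst hh
    simpa using hp.one_lt.ne'⟩) 1 (card_singleton 0) b hb
  obtain ⟨C, hC, h⟩ := avgCo k b D hb
  refine ⟨Cv * C, by positivity, fun c hc => ?_⟩
  filter_upwards [hW, h c hc] with K hWK hK T hcT hTK N hN1 hN H G hH hG hk hadm
  obtain ⟨-, hW1⟩ := hWK 0
  rw [pow_one] at hW1
  have hW0 := V_nonneg (b ^ K) hadm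
  have hCT : 0 ≤ C * T := by positivity
  constructor
  · obtain ⟨S, hS⟩ : ∃ S, S = (range T \ H).filter (fun j => Adm N (insert j H) G) := ⟨_, rfl⟩
    rw [← hS]
    have h2 := hK T hcT hTK N hN1 hN H G hH hG hk.le S (by rw [hS]; exact filter_subset _ _)
    calc ∑ j ∈ S, V N (insert j H) G (b ^ K)
        ≤ ∑ j ∈ S, V N H G (b ^ K) * (WG (TP {0} 0) (b ^ K) *
          ∏ p ∈ (pz (b ^ K)).filter (fun p : ℕ => 0 < p ∧ Co N H G p j),
            (1 + (2 : ℕ) / (p : ℝ))) := sum_le_sum fun j hj => by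
          refine V_insert_abs hadm ?_ j (b ^ K) (fun p hp => nu_insert_left N H G j hp)
          rw [hS, mem_filter] at hj
          exact hj.2
      _ = V N H G (b ^ K) * (WG (TP {0} 0) (b ^ K) * ∑ j ∈ S,
          ∏ p ∈ (pz (b ^ K)).filter (fun p : ℕ => 0 < p ∧ Co N H G p j),
            (1 + (2 : ℕ) / (p : ℝ))) := by
          rw [mul_sum, mul_sum]
      _ ≤ V N H G (b ^ K) * (Cv / K * (C * T)) := by
          refine mul_le_mul_of_nonneg_left ?_ hW0
          exact mul_le_mul hW1 h2 (sum_nonneg fun j _ => prod_nonneg fun p _ => by positivity)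
            (by positivity)
      _ = _ := by ring
  · obtain ⟨S, hS⟩ : ∃ S, S = (range T \ G).filter (fun j => Adm N H (insert j G)) := ⟨_, rfl⟩
    rw [← hS]
    have h2 := hK T hcT hTK N hN1 hN G H hG hH (by omega) S (by rw [hS]; exact filter_subset _ _)
    calc ∑ j ∈ S, V N H (insert j G) (b ^ K)
        ≤ ∑ j ∈ S, V N H G (b ^ K) * (WG (TP {0} 0) (b ^ K) *
          ∏ p ∈ (pz (b ^ K)).filter (fun p : ℕ => 0 < p ∧ Co N G H p j),
            (1 + (2 : ℕ) / (p : ℝ))) := sum_le_sum fun j hj => by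
          refine V_insert_abs hadm ?_ j (b ^ K) (fun p hp => nu_insert_right N H G j hp)
          rw [hS, mem_filter] at hj
          exact hj.2
      _ = V N H G (b ^ K) * (WG (TP {0} 0) (b ^ K) * ∑ j ∈ S,
          ∏ p ∈ (pz (b ^ K)).filter (fun p : ℕ => 0 < p ∧ Co N G H p j),
            (1 + (2 : ℕ) / (p : ℝ))) := by
          rw [mul_sum, mul_sum]
      _ ≤ V N H G (b ^ K) * (Cv / K * (C * T)) := by
          refine mul_le_mul_of_nonneg_left ?_ hW0
          exact mul_le_mul hW1 h2 (sum_nonneg fun j _ => prod_nonneg fun p _ => by positivity)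
            (by positivity)
      _ = _ := by ring

/-- **Exact patterns on both sides of the representations of `N`, uniformly.** -/
theorem exact (k D : ℕ) (hk : 1 ≤ k) :
    ∃ δ : ℝ, 0 < δ ∧ ∃ r₀ : ℕ, 2 ≤ r₀ ∧ ∀ r : ℕ, r₀ ≤ r → ∀ b : ℕ, 2 ≤ b →
      ∃ κ C c : ℝ, 0 < κ ∧ 0 < C ∧ 0 < c ∧ ∀ᶠ K : ℕ in atTop, ∀ M N : ℕ, M + b ^ K ≤ N →
        N ≤ b ^ (D * K) → ∀ H G : Finset ℕ, H.card + G.card = k →
        (∀ h ∈ H, (h : ℝ) ≤ c * K) → (∀ g ∈ G, (g : ℝ) ≤ c * K) → Adm N H G →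
        ∀ A : ℕ → Finset ℕ, (∀ i < K, A i ⊆ range b) →
        (b : ℝ) ^ K ≤ Real.exp (δ * K) * NA K A →
        κ / (K : ℝ) ^ k ≤ V N H G (b ^ K) ∧
        ((∃ e ∈ A 0, (∀ h ∈ H, (M + e + h).Coprime b) ∧ ∀ g ∈ G, (N + g - (M + e)).Coprime b) →
          (∃ e ∈ A (K - 1), e ≠ 0) →
          κ * NA K A * V N H G (b ^ K) ≤
            ND b K A {n | b ^ (K - 1) ≤ n ∧ (∀ h ∈ H, AP r (b ^ K) (M + n + h)) ∧
              (∀ g ∈ G, AP r (b ^ K) (N + g - (M + n))) ∧
              (∀ j : ℕ, (j : ℝ) ≤ c * K → j ∉ H → ¬ Rough r (b ^ K) (M + n + j)) ∧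
              ∀ j : ℕ, (j : ℝ) ≤ c * K → j ∉ G → ¬ Rough r (b ^ K) (N + j - (M + n))}) ∧
        (ND b K A {n | (∀ h ∈ H, ∀ p : ℕ, p.Prime → p ∣ M + n + h → n < p ^ r) ∧
          ∀ g ∈ G, ∀ p : ℕ, p.Prime → p ∣ N + g - (M + n) → n < p ^ r} : ℝ) ≤
          C * NA K A * V N H G (b ^ K) := by
  classical
  obtain ⟨δ1, hδ1, r1, hr1, ht1⟩ := tup k D hk
  obtain ⟨δ2, hδ2, r2, hr2, ht2⟩ := tup (k + 1) D (by omega)
  refine ⟨min δ1 δ2, lt_min hδ1 hδ2, max r1 r2, hr1.trans (le_max_left _ _), fun r hr b hb => ?_⟩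
  obtain ⟨κ, C, hκ, hC, h1⟩ := ht1 r ((le_max_left _ _).trans hr) b hb
  obtain ⟨κ2, C2, hκ2, hC2, h2⟩ := ht2 r ((le_max_right _ _).trans hr) b hb
  obtain ⟨C3, hC3, h3⟩ := avg_left k b D hb
  obtain ⟨v, hv, hVl⟩ := V_low k b hk hb
  obtain ⟨c, hc⟩ : ∃ c : ℝ, c = min 1 (κ / (8 * C2 * C3)) := ⟨_, rfl⟩
  have hc0 : 0 < c := by rw [hc]; exact lt_min one_pos (by positivity)
  have hc1 : c ≤ 1 := by rw [hc]; exact min_le_left _ _
  have hc2 : C2 * C3 * (2 * c) ≤ κ / 4 := by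
    have : c ≤ κ / (8 * C2 * C3) := by rw [hc]; exact min_le_right _ _
    rw [le_div_iff₀ (by positivity)] at this
    linarith
  refine ⟨min (κ / 2) v, C, c, lt_min (by positivity) hv, hC, hc0, ?_⟩
  have hbpow : Tendsto (fun K : ℕ => b ^ K) atTop atTop :=
    tendsto_pow_atTop_atTop_of_one_lt (by omega)
  filter_upwards [h1, h2, h3 c hc0, hVl, hbpow.eventually_gt_atTop ((k + 1) ^ r),
    tendsto_natCast_atTop_atTop.eventually_ge_atTop (1 / c), eventually_ge_atTop 1] with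
    K hK1 hK2 hK3 hVK hKb hKT hK0 M N hMN hN H G hHk hHc hGc hadm A hA hprod
  have hKr0 : (0 : ℝ) < K := by exact_mod_cast hK0
  have hcK : 1 ≤ c * K := by
    rw [div_le_iff₀ hc0] at hKT
    linarith
  obtain ⟨T, hT⟩ : ∃ T, T = ⌊c * K⌋₊ + 1 := ⟨_, rfl⟩
  have hTle : (T : ℝ) ≤ 2 * c * K := by
    have h4 : (⌊c * K⌋₊ : ℝ) ≤ c * K := Nat.floor_le (by positivity)
    rw [hT]
    push_cast
    linarith
  have hcT : c * K ≤ T := by
    have h4 : c * K < ⌊c * K⌋₊ + 1 := Nat.lt_floor_add_one _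
    rw [hT]
    push_cast
    linarith
  have hmem : ∀ j : ℕ, (j : ℝ) ≤ c * K → j < T := by
    intro j hj
    rw [hT]
    exact Nat.lt_succ_of_le (Nat.le_floor hj)
  have hTK : T ≤ K + 1 := by
    rw [hT]
    have : ⌊c * K⌋₊ ≤ ⌊(K : ℝ)⌋₊ := Nat.floor_le_floor (by nlinarith)
    rw [Nat.floor_natCast] at this
    omega
  have hKlt : K < b ^ K := Nat.lt_pow_self (by omega)
  have hHT : H ⊆ range T := fun h hh => mem_range.2 (hmem h (hHc h hh))
  have hGT : G ⊆ range T := fun h hh => mem_range.2 (hmem h (hGc h hh))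
  have hHb : ∀ h ∈ H, h ≤ b ^ K := fun h hh => by
    have := mem_range.1 (hHT hh)
    omega
  have hGb : ∀ g ∈ G, g ≤ b ^ K := fun h hh => by
    have := mem_range.1 (hGT hh)
    omega
  have hNA := NA_nonneg K A
  have hexp : ∀ δ : ℝ, min δ1 δ2 ≤ δ → (b : ℝ) ^ K ≤ Real.exp (δ * K) * NA K A := by
    intro δ hδ
    refine hprod.trans (mul_le_mul_of_nonneg_right (Real.exp_le_exp.2 ?_) hNA)
    exact mul_le_mul_of_nonneg_right hδ hKr0.le
  obtain ⟨h4, h5⟩ := hK1 M N hMN hN H G hHk hHb hGb hadm A hA (hexp δ1 (min_le_left _ _))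
  have hW0 := V_nonneg (b ^ K) hadm
  refine ⟨?_, ?_, h5⟩
  · exact le_trans (div_le_div_of_nonneg_right (min_le_right _ _) (by positivity))
      (hVK N H G hHk hadm)
  · intro hcop htop
    have h6 := h4 hcop htop
    -- the sets of the exceptions
    obtain ⟨J1, hJ1⟩ : ∃ J1, J1 = (range T \ H).filter (fun j => Adm N (insert j H) G) := ⟨_, rfl⟩
    obtain ⟨J2, hJ2⟩ : ∃ J2, J2 = (range T \ G).filter (fun j => Adm N H (insert j G)) := ⟨_, rfl⟩
    obtain ⟨E, hE⟩ : ∃ E : Finset ℕ → Finset ℕ → Set ℕ, E = fun H G =>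
        {n | (∀ h ∈ H, ∀ p : ℕ, p.Prime → p ∣ M + n + h → n < p ^ r) ∧
          ∀ g ∈ G, ∀ p : ℕ, p.Prime → p ∣ N + g - (M + n) → n < p ^ r} := ⟨_, rfl⟩
    have h7 : ND b K A {n | b ^ (K - 1) ≤ n ∧ (∀ h ∈ H, AP r (b ^ K) (M + n + h)) ∧
              ∀ g ∈ G, AP r (b ^ K) (N + g - (M + n))} ≤
        ND b K A {n | b ^ (K - 1) ≤ n ∧ (∀ h ∈ H, AP r (b ^ K) (M + n + h)) ∧
              (∀ g ∈ G, AP r (b ^ K) (N + g - (M + n))) ∧
              (∀ j : ℕ, (j : ℝ) ≤ c * K → j ∉ H → ¬ Rough r (b ^ K) (M + n + j)) ∧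
              ∀ j : ℕ, (j : ℝ) ≤ c * K → j ∉ G → ¬ Rough r (b ^ K) (N + j - (M + n))} +
        ∑ s ∈ J1.disjSum J2, ND b K A (Sum.elim (fun j => E (insert j H) G)
          (fun j => E H (insert j G)) s) := by
      refine ND_cover (J1.disjSum J2) _ fun n hn hn1 => ?_
      obtain ⟨hn2, hn3, hn4⟩ := hn1
      by_cases hg : ∀ j : ℕ, (j : ℝ) ≤ c * K → j ∉ H → ¬ Rough r (b ^ K) (M + n + j)
      · by_cases hg' : ∀ j : ℕ, (j : ℝ) ≤ c * K → j ∉ G → ¬ Rough r (b ^ K) (N + j - (M + n))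
        · exact Or.inl ⟨hn2, hn3, hn4, hg, hg'⟩
        · push Not at hg'
          obtain ⟨j, hj1, hj2, hj3⟩ := hg'
          have hall : ∀ g ∈ insert j G, ∀ p : ℕ, p.Prime → p ∣ N + g - (M + n) → b ^ K < p ^ r := by
            intro g hg p hp hd
            rw [mem_insert] at hg
            rcases hg with rfl | hg
            · exact hj3 p hp hd
            · exact (hn4 g hg).1 p hp hd
          right
          refine ⟨Sum.inr j, ?_, ?_⟩
          · rw [inr_mem_disjSum, hJ2, mem_filter, Finset.mem_sdiff, mem_range]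
            refine ⟨⟨hmem j hj1, hj2⟩, ?_⟩
            by_contra hna
            obtain ⟨p, hp, hpk, hcov⟩ := small_of_not_adm (k := k + 1)
              (by have := card_insert_le j G; omega) hna
            have h9 : p ^ r ≤ (k + 1) ^ r := Nat.pow_le_pow_left hpk r
            rcases hcov (M + n) with ⟨h, hh, hd⟩ | ⟨g, hg, hd⟩
            · have h8 := (hn3 h hh).1 p hp hd
              omega
            · have h8 := hall g hg p hp ((Nat.modEq_iff_dvd' (by omega)).1 hd)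
              omega
          · rw [Sum.elim_inr, hE]
            exact ⟨fun h hh p hp hd => hn.trans ((hn3 h hh).1 p hp hd),
              fun g hg p hp hd => hn.trans (hall g hg p hp hd)⟩
      · push Not at hg
        obtain ⟨j, hj1, hj2, hj3⟩ := hg
        have hall : ∀ h ∈ insert j H, ∀ p : ℕ, p.Prime → p ∣ M + n + h → b ^ K < p ^ r := by
          intro h hh p hp hd
          rw [mem_insert] at hh
          rcases hh with rfl | hh
          · exact hj3 p hp hd
          · exact (hn3 h hh).1 p hp hd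
        right
        refine ⟨Sum.inl j, ?_, ?_⟩
        · rw [inl_mem_disjSum, hJ1, mem_filter, Finset.mem_sdiff, mem_range]
          refine ⟨⟨hmem j hj1, hj2⟩, ?_⟩
          by_contra hna
          obtain ⟨p, hp, hpk, hcov⟩ := small_of_not_adm (k := k + 1)
            (by have := card_insert_le j H; omega) hna
          have h9 : p ^ r ≤ (k + 1) ^ r := Nat.pow_le_pow_left hpk r
          rcases hcov (M + n) with ⟨h, hh, hd⟩ | ⟨g, hg, hd⟩
          · have h8 := hall h hh p hp hd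
            omega
          · have h8 := (hn4 g hg).1 p hp ((Nat.modEq_iff_dvd' (by omega)).1 hd)
            omega
        · rw [Sum.elim_inl, hE]
          exact ⟨fun h hh p hp hd => hn.trans (hall h hh p hp hd),
            fun g hg p hp hd => hn.trans ((hn4 g hg).1 p hp hd)⟩
    rw [sum_disjSum] at h7
    simp only [Sum.elim_inl, Sum.elim_inr] at h7
    have h8 : ∀ j ∈ J1, (ND b K A (E (insert j H) G) : ℝ) ≤
        C2 * NA K A * V N (insert j H) G (b ^ K) := by
      intro j hj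
      rw [hJ1, mem_filter, Finset.mem_sdiff, mem_range] at hj
      rw [hE]
      refine (hK2 M N hMN hN (insert j H) G ?_ ?_ hGb hj.2 A hA (hexp δ2 (min_le_right _ _))).2
      · rw [card_insert_of_notMem hj.1.2]
        omega
      · intro h hh
        rw [mem_insert] at hh
        rcases hh with rfl | hh
        · omega
        · exact hHb h hh
    have h8' : ∀ j ∈ J2, (ND b K A (E H (insert j G)) : ℝ) ≤
        C2 * NA K A * V N H (insert j G) (b ^ K) := by
      intro j hj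
      rw [hJ2, mem_filter, Finset.mem_sdiff, mem_range] at hj
      rw [hE]
      refine (hK2 M N hMN hN H (insert j G) ?_ hHb ?_ hj.2 A hA (hexp δ2 (min_le_right _ _))).2
      · rw [card_insert_of_notMem hj.1.2]
        omega
      · intro h hh
        rw [mem_insert] at hh
        rcases hh with rfl | hh
        · omega
        · exact hGb h hh
    have hbK0 : 0 < b ^ K := by positivity
    obtain ⟨h9, h9'⟩ := hK3 T hcT hTK N (by omega) hN H G hHT hGT hHk hadm
    rw [← hJ1] at h9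
    rw [← hJ2] at h9'
    have h10 : (ND b K A {n | b ^ (K - 1) ≤ n ∧ (∀ h ∈ H, AP r (b ^ K) (M + n + h)) ∧
              ∀ g ∈ G, AP r (b ^ K) (N + g - (M + n))} : ℝ) ≤
        ND b K A {n | b ^ (K - 1) ≤ n ∧ (∀ h ∈ H, AP r (b ^ K) (M + n + h)) ∧
              (∀ g ∈ G, AP r (b ^ K) (N + g - (M + n))) ∧
              (∀ j : ℕ, (j : ℝ) ≤ c * K → j ∉ H → ¬ Rough r (b ^ K) (M + n + j)) ∧
              ∀ j : ℕ, (j : ℝ) ≤ c * K → j ∉ G → ¬ Rough r (b ^ K) (N + j - (M + n))} +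
        (∑ j ∈ J1, (ND b K A (E (insert j H) G) : ℝ) +
          ∑ j ∈ J2, (ND b K A (E H (insert j G)) : ℝ)) := by exact_mod_cast h7
    have hCT : C2 * (C3 * T / K) ≤ κ / 4 := by
      refine le_trans ?_ hc2
      rw [mul_div_assoc, ← mul_assoc]
      refine mul_le_mul_of_nonneg_left ?_ (by positivity)
      rw [div_le_iff₀ hKr0]
      exact hTle
    have h11 : ∑ j ∈ J1, (ND b K A (E (insert j H) G) : ℝ) ≤
        κ / 4 * (NA K A * V N H G (b ^ K)) := by
      calc _ ≤ ∑ j ∈ J1, C2 * NA K A * V N (insert j H) G (b ^ K) := sum_le_sum h8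
        _ = C2 * NA K A * ∑ j ∈ J1, V N (insert j H) G (b ^ K) := by rw [mul_sum]
        _ ≤ C2 * NA K A * (C3 * T / K * V N H G (b ^ K)) :=
            mul_le_mul_of_nonneg_left h9 (by positivity)
        _ = (C2 * (C3 * T / K)) * (NA K A * V N H G (b ^ K)) := by ring
        _ ≤ κ / 4 * (NA K A * V N H G (b ^ K)) :=
            mul_le_mul_of_nonneg_right hCT (by positivity)
    have h11' : ∑ j ∈ J2, (ND b K A (E H (insert j G)) : ℝ) ≤
        κ / 4 * (NA K A * V N H G (b ^ K)) := by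
      calc _ ≤ ∑ j ∈ J2, C2 * NA K A * V N H (insert j G) (b ^ K) := sum_le_sum h8'
        _ = C2 * NA K A * ∑ j ∈ J2, V N H (insert j G) (b ^ K) := by rw [mul_sum]
        _ ≤ C2 * NA K A * (C3 * T / K * V N H G (b ^ K)) :=
            mul_le_mul_of_nonneg_left h9' (by positivity)
        _ = (C2 * (C3 * T / K)) * (NA K A * V N H G (b ^ K)) := by ring
        _ ≤ κ / 4 * (NA K A * V N H G (b ^ K)) :=
            mul_le_mul_of_nonneg_right hCT (by positivity)
    have h12 : min (κ / 2) v * NA K A * V N H G (b ^ K) ≤ κ / 2 * (NA K A * V N H G (b ^ K)) := by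
      rw [mul_assoc]
      exact mul_le_mul_of_nonneg_right (min_le_left _ _) (by positivity)
    have h13 : κ * NA K A * V N H G (b ^ K) = κ / 2 * (NA K A * V N H G (b ^ K)) +
        κ / 4 * (NA K A * V N H G (b ^ K)) + κ / 4 * (NA K A * V N H G (b ^ K)) := by ring
    linarith

end Pool.Agent.H225.GX
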