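import Pool.Agent.H225.SS

/-!
# Solutions of `a p - b q = c` with a parameter with restricted digits, uniformly in `a`, `b`, `c`

Let `a, b ≥ 1` and `c ≠ 0` be as in the question: pairwise coprime and not all odd.  If `(p₀, q₀)` is one
solution of `a p - b q = c` in integers, all of them are `p = p₀ + b t`, `q = q₀ + a t`.  Let `g ≥ 2` be
a base and let the digits of the parameter `t < g^K` be restricted: the `i`-th digit belongs to a set
`A i`, where the sets `A i` are arbitrary, depend on the place `i < K`, and have the only property that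
the number `∏ |A i|` of these `t` is at least `e^{-δK} g^K`, where the constant `δ > 0` does not depend
on `g`.  (For example one digit may be excluded at every place if `g` is large; or a positive proportion
of the digits may be fixed.)  The heuristic of Hardy and Littlewood predicts that the number of these `t`
with `p` and `q` prime has the order of magnitude `S(abc) ∏ |A i| / K²`, where `S(abc)` is the product of
`(l - 1) / (l - 2)` over the odd primes `l` dividing `a b c` (if the last digit can be chosen such that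
`p` and `q` are prime to `g`), as long as `a`, `b`, `c`, `p₀`, `q₀` are bounded by a power of `g^K`.

We show that this is an upper bound for the number of the prime solutions, and a lower bound for the
number of the solutions for which `p` and `q` have at most `r` prime factors, all of them larger than
`g^{K/r}`, uniformly in `a`, `b`, `c`, in the starting point `(p₀, q₀)` and in the sets of digits.

The method is a Brun–Hooley sieve with weights, whose level of distribution is obtained from the Fourier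
transform of the set of the integers with restricted digits at rationals (large sieve in blocks of
digits), see `Pool/Agent/Y816/PD`.  Here we compute the local densities.
-/

set_option autoImplicit false

namespace Pool.Agent.H225.LE

open Finset Filter

/-- The hypotheses of the question. -/
def Adm (a b : ℕ) (c : ℤ) : Prop :=
  1 ≤ a ∧ 1 ≤ b ∧ c ≠ 0 ∧ IsCoprime (a : ℤ) b ∧ IsCoprime (a : ℤ) c ∧ IsCoprime (b : ℤ) c ∧
    ¬ (Odd a ∧ Odd b ∧ Odd c)

open Classical in
/-- The number of the `t < g ^ K` in `T` whose `i`-th digit in base `g` belongs to `A i` for all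
`i < K`. -/
noncomputable def count (g K : ℕ) (A : ℕ → Finset ℕ) (T : Set ℕ) : ℕ :=
  ((range (g ^ K)).filter (fun t => (∀ i < K, t / g ^ i % g ∈ A i) ∧ t ∈ T)).card

/-- The number of choices of the digits. -/
noncomputable def choices (K : ℕ) (A : ℕ → Finset ℕ) : ℝ := ∏ i ∈ range K, ((A i).card : ℝ)

/-- `m` has at most `r` prime factors, counted with multiplicity, and all of them are larger than
`z ^ (1 / r)`. -/
def AlmostPrime (r z m : ℕ) : Prop :=
  (∀ p : ℕ, p.Prime → p ∣ m → z < p ^ r) ∧ m.primeFactorsList.length ≤ r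

/-- The product of `(l - 1) / (l - 2)` over the odd prime factors `l` of `n`. -/
noncomputable def S (n : ℕ) : ℝ :=
  ∏ l ∈ n.primeFactors.filter (fun l => 2 < l), ((l : ℝ) - 1) / ((l : ℝ) - 2)

open Pool.Agent.Y816.PD (WG NA ND ND_sub)

lemma val_iff {p : ℕ} [NeZero p] {n : ℕ} (hn : n < p) (z : ZMod p) :
    n = z.val ↔ (n : ZMod p) = z :=
  ⟨fun h => by rw [h, ZMod.natCast_zmod_val], fun h => by rw [← h, ZMod.val_cast_of_lt hn]⟩

/-- a coprime pair has no common prime divisor -/
lemma not_both {x y : ℤ} (h : IsCoprime x y) {p : ℕ} (hp : p.Prime) (hx : (p : ℤ) ∣ x) :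
    ¬ (p : ℤ) ∣ y := by
  intro hy
  obtain ⟨u, v, huv⟩ := h
  have h1 : (p : ℤ) ∣ 1 := by
    rw [← huv]
    exact dvd_add (hx.mul_left _) (hy.mul_left _)
  have h2 : p ∣ 1 := by exact_mod_cast h1
  exact hp.one_lt.ne' (Nat.dvd_one.1 h2)

open Classical in
/-- the local densities -/
lemma card_G {a b p₀ q₀ : ℕ} {c : ℤ} (hadm : Adm a b c) (h0 : (a : ℤ) * p₀ - b * q₀ = c) {p : ℕ}
    (hp : p.Prime) :
    ((range p).filter (fun t : ℕ => (p : ℤ) ∣
      ∏ i : Fin 2, (![((p₀ + b * t : ℕ) : ℤ), ((q₀ + a * t : ℕ) : ℤ)] : Fin 2 → ℤ) i)).card =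
      if p ∣ a * b * c.natAbs then 1 else 2 := by
  haveI : Fact p.Prime := ⟨hp⟩
  obtain ⟨-, -, -, hab, hac, hbc, -⟩ := hadm
  have hc : (a : ZMod p) * p₀ - b * q₀ = (c : ZMod p) := by
    rw [← h0]
    push_cast
    ring
  have e1 : ∀ t : ℕ, ((p : ℤ) ∣ ∏ i : Fin 2,
      (![((p₀ + b * t : ℕ) : ℤ), ((q₀ + a * t : ℕ) : ℤ)] : Fin 2 → ℤ) i) ↔
      ((p₀ : ZMod p) + b * t = 0 ∨ (q₀ : ZMod p) + a * t = 0) := by
    intro t
    rw [Fin.prod_univ_two, ← ZMod.intCast_zmod_eq_zero_iff_dvd]
    simp only [Matrix.cons_val_zero, Matrix.cons_val_one, Int.cast_mul, Int.cast_add,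
      Int.cast_natCast, Nat.cast_add, Nat.cast_mul, mul_eq_zero]
  have hA0 : (p : ℤ) ∣ a ↔ (a : ZMod p) = 0 := by
    rw [← ZMod.intCast_zmod_eq_zero_iff_dvd]
    push_cast
    rfl
  have hB0 : (p : ℤ) ∣ b ↔ (b : ZMod p) = 0 := by
    rw [← ZMod.intCast_zmod_eq_zero_iff_dvd]
    push_cast
    rfl
  have hC0 : (p : ℤ) ∣ c ↔ (c : ZMod p) = 0 := by
    rw [← ZMod.intCast_zmod_eq_zero_iff_dvd]
  have hdvd : p ∣ a * b * c.natAbs ↔
      ((a : ZMod p) = 0 ∨ (b : ZMod p) = 0 ∨ (c : ZMod p) = 0) := by
    rw [Nat.Prime.dvd_mul hp, Nat.Prime.dvd_mul hp, ← hA0, ← hB0, ← hC0, Int.natCast_dvd_natCast,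
      Int.natCast_dvd_natCast, Int.natCast_dvd, or_assoc]
  by_cases ha : (a : ZMod p) = 0
  · -- one root, of the first form
    have hb : (b : ZMod p) ≠ 0 := fun h => not_both hab hp (hA0.2 ha) (hB0.2 h)
    have hcc : (c : ZMod p) ≠ 0 := fun h => not_both hac hp (hA0.2 ha) (hC0.2 h)
    have hq : (q₀ : ZMod p) ≠ 0 := by
      intro h
      apply hcc
      rw [← hc, ha, h]
      ring
    rw [if_pos (hdvd.2 (Or.inl ha)), card_eq_one]
    refine ⟨(-(p₀ : ZMod p) * (b : ZMod p)⁻¹).val, ?_⟩
    ext t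
    simp only [mem_filter, mem_range, mem_singleton, e1]
    constructor
    · rintro ⟨ht, h | h⟩
      · rw [val_iff ht]
        field_simp
        linear_combination h
      · exact absurd (by rw [ha] at h; simpa using h) hq
    · intro h
      have ht : t < p := by rw [h]; exact ZMod.val_lt _
      rw [val_iff ht] at h
      refine ⟨ht, Or.inl ?_⟩
      rw [h]
      field_simp
      ring
  · by_cases hb : (b : ZMod p) = 0
    · have hcc : (c : ZMod p) ≠ 0 := fun h => not_both hbc hp (hB0.2 hb) (hC0.2 h)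
      have hpp : (p₀ : ZMod p) ≠ 0 := by
        intro h
        apply hcc
        rw [← hc, hb, h]
        ring
      rw [if_pos (hdvd.2 (Or.inr (Or.inl hb))), card_eq_one]
      refine ⟨(-(q₀ : ZMod p) * (a : ZMod p)⁻¹).val, ?_⟩
      ext t
      simp only [mem_filter, mem_range, mem_singleton, e1]
      constructor
      · rintro ⟨ht, h | h⟩
        · exact absurd (by rw [hb] at h; simpa using h) hpp
        · rw [val_iff ht]
          field_simp
          linear_combination h
      · intro h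
        have ht : t < p := by rw [h]; exact ZMod.val_lt _
        rw [val_iff ht] at h
        refine ⟨ht, Or.inr ?_⟩
        rw [h]
        field_simp
        ring
    · have h1 : (range p).filter (fun t : ℕ => (p : ℤ) ∣ ∏ i : Fin 2,
          (![((p₀ + b * t : ℕ) : ℤ), ((q₀ + a * t : ℕ) : ℤ)] : Fin 2 → ℤ) i) =
          {(-(p₀ : ZMod p) * (b : ZMod p)⁻¹).val, (-(q₀ : ZMod p) * (a : ZMod p)⁻¹).val} := by
        ext t
        simp only [mem_filter, mem_range, mem_insert, mem_singleton, e1]
        constructor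
        · rintro ⟨ht, h | h⟩
          · left
            rw [val_iff ht]
            field_simp
            linear_combination h
          · right
            rw [val_iff ht]
            field_simp
            linear_combination h
        · intro h
          have ht : t < p := by
            rcases h with rfl | rfl <;> exact ZMod.val_lt _
          rw [val_iff ht, val_iff ht] at h
          refine ⟨ht, ?_⟩
          rcases h with h | h
          · left
            rw [h]
            field_simp
            ring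
          · right
            rw [h]
            field_simp
            ring
      have h2 : (-(p₀ : ZMod p) * (b : ZMod p)⁻¹ = -(q₀ : ZMod p) * (a : ZMod p)⁻¹) ↔
          (c : ZMod p) = 0 := by
        rw [← hc]
        constructor
        · intro h
          field_simp at h
          linear_combination -h
        · intro h
          field_simp
          linear_combination -h
      rw [h1]
      by_cases hcc : (c : ZMod p) = 0
      · rw [if_pos (hdvd.2 (Or.inr (Or.inr hcc))), h2.2 hcc]
        simp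
      · rw [if_neg (fun h => by
          rcases hdvd.1 h with h | h | h
          · exact ha h
          · exact hb h
          · exact hcc h), card_pair]
        intro h
        exact hcc (h2.1 (ZMod.val_injective p h))

/-- **The equation `a p - b q = c` with a parameter with restricted digits.** -/
theorem main (D : ℕ) :
    ∃ δ : ℝ, 0 < δ ∧ ∃ r₀ : ℕ, 2 ≤ r₀ ∧ ∀ r : ℕ, r₀ ≤ r → ∀ g : ℕ, 2 ≤ g →
      ∃ κ C : ℝ, 0 < κ ∧ 0 < C ∧
      ∀ᶠ K : ℕ in atTop, ∀ (a b : ℕ) (c : ℤ), Adm a b c → a ≤ g ^ (D * K) → b ≤ g ^ (D * K) →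
        c.natAbs ≤ g ^ (D * K) →
        ∀ p₀ q₀ : ℕ, (a : ℤ) * p₀ - b * q₀ = c → p₀ ≤ g ^ (D * K) → q₀ ≤ g ^ (D * K) →
        ∀ A : ℕ → Finset ℕ, (∀ i < K, A i ⊆ range g) →
        (g : ℝ) ^ K ≤ Real.exp (δ * K) * choices K A →
        ((∃ d ∈ A 0, (p₀ + b * d).Coprime g ∧ (q₀ + a * d).Coprime g) →
          (∃ d ∈ A (K - 1), d ≠ 0) →
          κ * choices K A * S (a * b * c.natAbs) / (K : ℝ) ^ 2 ≤
            count g K A {t | g ^ (K - 1) ≤ t ∧
              AlmostPrime r (g ^ K) (p₀ + b * t) ∧ AlmostPrime r (g ^ K) (q₀ + a * t)}) ∧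
        (count g K A {t | (p₀ + b * t).Prime ∧ (q₀ + a * t).Prime} : ℝ) ≤
          C * choices K A * S (a * b * c.natAbs) / (K : ℝ) ^ 2 := by
  classical
  obtain ⟨δ, hδ, r₀, hr₀, h⟩ := Pool.Agent.H225.DG.gen 2 1 (D + 2) (by norm_num) le_rfl
  refine ⟨δ, hδ, r₀, hr₀, fun r hr g hg => ?_⟩
  obtain ⟨κ, C, hκ, hC, h1⟩ := h r hr g hg
  obtain ⟨v, Cv, hv, hCv, hW⟩ := Pool.Agent.H225.SS.bounds (3 * D) g hg
  refine ⟨κ * v, C * Cv, by positivity, by positivity, ?_⟩
  filter_upwards [h1, hW, eventually_ge_atTop 1] with K hK hWK hK1 a b c hadm ha hb hc p₀ q₀ h0 hp₀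
    hq₀ A hA hprod
  have hgK : 2 ≤ g ^ K := hg.trans (Nat.le_self_pow (by omega) g)
  have hn0 : 0 < a * b * c.natAbs := by
    have h2 : 0 < c.natAbs := Int.natAbs_pos.2 hadm.2.2.1
    have h3 := hadm.1
    have h4 := hadm.2.1
    positivity
  have hneven : Even (a * b * c.natAbs) := by
    by_contra hodd
    rw [Nat.not_even_iff_odd, Nat.odd_mul, Nat.odd_mul, Int.natAbs_odd] at hodd
    exact hadm.2.2.2.2.2.2 ⟨hodd.1.1, hodd.1.2, hodd.2⟩
  have hnb : a * b * c.natAbs ≤ g ^ (3 * D * K) := by
    have e : g ^ (3 * D * K) = g ^ (D * K) * g ^ (D * K) * g ^ (D * K) := by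
      rw [← pow_add, ← pow_add]
      congr 1
      ring
    rw [e]
    exact Nat.mul_le_mul (Nat.mul_le_mul ha hb) hc
  obtain ⟨F, hF⟩ : ∃ F : Fin 2 → ℕ → ℤ, F = fun i t =>
    (![((p₀ + b * t : ℕ) : ℤ), ((q₀ + a * t : ℕ) : ℤ)] : Fin 2 → ℤ) i := ⟨_, rfl⟩
  have hF0 : ∀ t, F 0 t = ((p₀ + b * t : ℕ) : ℤ) := fun t => by rw [hF]; rfl
  have hF1 : ∀ t, F 1 t = ((q₀ + a * t : ℕ) : ℤ) := fun t => by rw [hF]; rfl
  have hroots : ∀ p : ℕ, p.Prime → ((range p).filter (fun t : ℕ => (p : ℤ) ∣ ∏ i, F i t)).card =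
      if p ∣ a * b * c.natAbs then 1 else 2 := by
    intro p hp
    rw [hF]
    exact card_G hadm h0 hp
  have hpoly : ∀ i, ∃ P : Polynomial ℤ, P.natDegree ≤ 1 ∧ ∀ n : ℕ, P.eval (n : ℤ) = F i n := by
    have key : ∀ u v : ℕ, ∃ P : Polynomial ℤ, P.natDegree ≤ 1 ∧
        ∀ n : ℕ, P.eval (n : ℤ) = ((u + v * n : ℕ) : ℤ) := fun u v =>
      ⟨Polynomial.C (v : ℤ) * Polynomial.X + Polynomial.C (u : ℤ), Polynomial.natDegree_linear_le,
        fun n => by simp [add_comm]⟩
    intro i
    fin_cases i
    · obtain ⟨P, hP1, hP2⟩ := key p₀ b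
      exact ⟨P, hP1, fun n => (hP2 n).trans (hF0 n).symm⟩
    · obtain ⟨P, hP1, hP2⟩ := key q₀ a
      exact ⟨P, hP1, fun n => (hP2 n).trans (hF1 n).symm⟩
  have hadm' : ∀ p : ℕ, p.Prime → ∃ n : ℕ, ∀ i, ¬ (p : ℤ) ∣ F i n := by
    intro p hp
    by_contra hcon
    push Not at hcon
    have hall : (range p).filter (fun t : ℕ => (p : ℤ) ∣ ∏ i, F i t) = range p :=
      filter_true_of_mem fun t _ => by
        obtain ⟨i, hi⟩ := hcon t
        exact hi.trans (dvd_prod_of_mem (fun i => F i t) (mem_univ i))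
    have h3 := hroots p hp
    rw [hall, card_range] at h3
    have hp2 := hp.two_le
    split_ifs at h3 with h4
    · omega
    · exact h4 (h3 ▸ even_iff_two_dvd.1 hneven)
  have hsize : ∀ n : ℕ, n < g ^ K → ∀ i, (F i n).natAbs ≤ g ^ ((D + 2) * K) := by
    have key : ∀ u v n : ℕ, u ≤ g ^ (D * K) → v ≤ g ^ (D * K) → n < g ^ K →
        u + v * n ≤ g ^ ((D + 2) * K) := by
      intro u v n hu hv hn
      have e : g ^ ((D + 2) * K) = g ^ (D * K) * g ^ K * g ^ K := by
        rw [← pow_add, ← pow_add]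
        congr 1
        ring
      rw [e]
      have h4 : v * n ≤ g ^ (D * K) * g ^ K := Nat.mul_le_mul hv hn.le
      have h5 : g ^ (D * K) ≤ g ^ (D * K) * g ^ K := Nat.le_mul_of_pos_right _ (by omega)
      have h6 : g ^ (D * K) * g ^ K * 2 ≤ g ^ (D * K) * g ^ K * g ^ K :=
        Nat.mul_le_mul_left _ hgK
      omega
    intro n hn i
    fin_cases i
    · change (F 0 n).natAbs ≤ _
      rw [hF0, Int.natAbs_natCast]
      exact key _ _ _ hp₀ hb hn
    · change (F 1 n).natAbs ≤ _
      rw [hF1, Int.natAbs_natCast]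
      exact key _ _ _ hq₀ ha hn
  obtain ⟨h2, h3⟩ := hK F hpoly hadm' hsize A hA hprod
  obtain ⟨hW1, hW2⟩ := hWK (a * b * c.natAbs) (fun t => ∏ i, F i t) hneven hn0 hnb (fun p hp => by
    convert hroots p hp)
  have hNA : 0 ≤ choices K A := by
    unfold choices
    exact prod_nonneg fun i _ => Nat.cast_nonneg _
  constructor
  · rintro ⟨d, hd, hc0, hc1⟩ htop
    refine le_trans ?_ ((h2 ⟨d, hd, fun i => ?_⟩ htop).trans (Nat.cast_le.2 ?_))
    · calc κ * v * choices K A * S (a * b * c.natAbs) / (K : ℝ) ^ 2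
          = κ * choices K A * (v * Pool.Agent.H225.SS.S (a * b * c.natAbs) / (K : ℝ) ^ 2) := by
            unfold S Pool.Agent.H225.SS.S
            ring
        _ ≤ _ := mul_le_mul_of_nonneg_left hW1 (mul_nonneg hκ.le hNA)
    · fin_cases i
      · change ((F 0 d).natAbs).Coprime g
        rw [hF0, Int.natAbs_natCast]
        exact hc0
      · change ((F 1 d).natAbs).Coprime g
        rw [hF1, Int.natAbs_natCast]
        exact hc1
    · refine ND_sub fun n _ hn1 hn2 => ⟨hn1, hn2.1, ?_, ?_⟩
      · have := hn2.2 0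
        rw [hF0, Int.natAbs_natCast] at this
        exact this
      · have := hn2.2 1
        rw [hF1, Int.natAbs_natCast] at this
        exact this
  · refine le_trans (Nat.cast_le.2 ?_) (h3.trans ?_)
    · refine ND_sub fun n _ hn1 hn2 => ⟨hn1, fun i => ?_⟩
      have hp0 := hn2.1
      have hp1 := hn2.2
      have hlt : ∀ v : ℕ, v.Prime → n ≤ v → n < v ^ r := by
        intro v hv hle
        have h5 : v < v ^ 2 := by nlinarith [hv.two_le]
        have h6 : v ^ 2 ≤ v ^ r := Nat.pow_le_pow_right hv.pos (by omega)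
        omega
      fin_cases i
      · change (F 0 n).natAbs.Prime ∧ n < (F 0 n).natAbs ^ r
        rw [hF0, Int.natAbs_natCast]
        exact ⟨hp0, hlt _ hp0 ((Nat.le_mul_of_pos_left n hadm.2.1).trans (Nat.le_add_left _ _))⟩
      · change (F 1 n).natAbs.Prime ∧ n < (F 1 n).natAbs ^ r
        rw [hF1, Int.natAbs_natCast]
        exact ⟨hp1, hlt _ hp1 ((Nat.le_mul_of_pos_left n hadm.1).trans (Nat.le_add_left _ _))⟩
    · calc C * NA K A * WG (fun t => ∏ i, F i t) (g ^ K)
          ≤ C * NA K A * (Cv * Pool.Agent.H225.SS.S (a * b * c.natAbs) / (K : ℝ) ^ 2) :=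
            mul_le_mul_of_nonneg_left hW2 (mul_nonneg hC.le hNA)
        _ = _ := by
            unfold S Pool.Agent.H225.SS.S NA choices
            ring

end Pool.Agent.H225.LE
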