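import Pool.Agent.H225.SGB
import Pool.Agent.H225.VL

/-!
# The singular series of a system of linear forms, uniformly in the coefficients
-/

set_option autoImplicit false

namespace Pool.Agent.H225.LF

open Finset Filter
open Pool.Agent.Y816.PD (WG NA ND ND_sub TP TP_dvd NA_nonneg WG_nonneg WG_bounds)
open Pool.Agent.H386R2.HL (singularSeries localFactor multipliable_localFactor sy one_sub_pos
  Admissible localFactor_pos)

/-- the local factor of `k` forms with `w p` roots modulo `p` -/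
noncomputable def loc (k : ℕ) (w : ℕ → ℕ) (p : ℕ) : ℝ :=
  ((1 - 1 / (p : ℝ))⁻¹) ^ k * (1 - (w p : ℝ) / p)

/-- the singular series -/
noncomputable def sg (k : ℕ) (w : ℕ → ℕ) : ℝ := ∏' p : Nat.Primes, loc k w (p : ℕ)

/-- the comparison tuple -/
def a0 (k : ℕ) : Fin k → ℕ := fun i => i * k.factorial

lemma a0_inj (k : ℕ) : Function.Injective (a0 k) := by
  intro i j h
  exact Fin.ext (Nat.eq_of_mul_eq_mul_right k.factorial_pos h)

lemma nu_a0_le {k p : ℕ} : Pool.Agent.H386R2.HL.nu (a0 k) p ≤ k := Pool.Agent.H386R2.HL.nu_le_r _ _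

lemma nu_a0 {k p : ℕ} (hp : p.Prime) (hk : k < p) : Pool.Agent.H386R2.HL.nu (a0 k) p = k := by
  unfold Pool.Agent.H386R2.HL.nu
  rw [card_image_of_injective, card_univ, Fintype.card_fin]
  intro i j h
  have hi : a0 k i ∈ Pool.Agent.H225.VL.HH k := mem_image.2 ⟨i, mem_range.2 i.2, rfl⟩
  have hj : a0 k j ∈ Pool.Agent.H225.VL.HH k := mem_image.2 ⟨j, mem_range.2 j.2, rfl⟩
  exact a0_inj k (Pool.Agent.H225.VL.HH_inj hp hk hi hj h)

lemma adm_a0 (k : ℕ) : Admissible (a0 k) := by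
  intro p hp
  by_cases hk : k < p
  · rw [nu_a0 hp hk]
    exact hk
  · have hd : p ∣ k.factorial := (Nat.Prime.dvd_factorial hp).2 (not_lt.1 hk)
    have h1 : univ.image (fun i => a0 k i % p) ⊆ {0} := by
      intro x hx
      rw [mem_image] at hx
      obtain ⟨i, -, rfl⟩ := hx
      rw [mem_singleton]
      exact Nat.mod_eq_zero_of_dvd (hd.mul_left _)
    have h2 := card_le_card h1
    rw [card_singleton] at h2
    unfold Pool.Agent.H386R2.HL.nu
    have := hp.one_lt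
    omega

lemma loc_nu (k p : ℕ) : localFactor (a0 k) p = loc k (Pool.Agent.H386R2.HL.nu (a0 k)) p := rfl

lemma ratio_one {k : ℕ} {w : ℕ → ℕ} {p : ℕ} (hp : p.Prime) (hk : k < p) (hw : w p = k) :
    loc k w p / localFactor (a0 k) p = 1 := by
  have h1 := localFactor_pos (adm_a0 k) hp
  have h2 : loc k w p = localFactor (a0 k) p := by
    rw [loc_nu]
    unfold loc
    rw [hw, nu_a0 hp hk]
  rw [h2, div_self h1.ne']

/-- the primes as elements of `Nat.Primes` -/
noncomputable def toP (s : Finset ℕ) : Finset Nat.Primes :=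
  s.preimage (fun p : Nat.Primes => (p : ℕ)) Subtype.val_injective.injOn

lemma mem_toP {s : Finset ℕ} {p : Nat.Primes} : p ∈ toP s ↔ (p : ℕ) ∈ s := by
  unfold toP
  rw [mem_preimage]

lemma prod_toP {s : Finset ℕ} (hs : ∀ p ∈ s, p.Prime) (f : ℕ → ℝ) :
    ∏ p ∈ toP s, f (p : ℕ) = ∏ p ∈ s, f p := by
  unfold toP
  refine prod_preimage (fun p : Nat.Primes => (p : ℕ)) _ Subtype.val_injective.injOn
    (fun p : ℕ => f p) ?_
  intro p hp hp2
  exact absurd ⟨⟨p, hs p hp⟩, rfl⟩ hp2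

/-- **The singular series is the one of the comparison tuple times finitely many factors.** -/
lemma sg_eq {k : ℕ} {w : ℕ → ℕ} {s : Finset ℕ} (hs : ∀ p ∈ s, p.Prime)
    (hw : ∀ p : ℕ, p.Prime → p ∉ s → loc k w p / localFactor (a0 k) p = 1) :
    HasProd (fun p : Nat.Primes => loc k w (p : ℕ))
      (singularSeries (a0 k) * ∏ p ∈ s, loc k w p / localFactor (a0 k) p) := by
  have h1 : HasProd (fun p : Nat.Primes => localFactor (a0 k) (p : ℕ)) (singularSeries (a0 k)) :=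
    (multipliable_localFactor (a0 k) (a0_inj k)).hasProd
  have h2 : HasProd (fun p : Nat.Primes => loc k w (p : ℕ) / localFactor (a0 k) (p : ℕ))
      (∏ p ∈ toP s, loc k w (p : ℕ) / localFactor (a0 k) (p : ℕ)) :=
    hasProd_prod_of_ne_finset_one fun p hp => hw p p.2 (fun h => hp (mem_toP.2 h))
  rw [prod_toP hs (fun p => loc k w p / localFactor (a0 k) p)] at h2
  convert h1.mul h2 using 1
  funext p
  have h3 := localFactor_pos (adm_a0 k) p.2
  rw [mul_div_cancel₀ _ h3.ne']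

/-- a vanishing factor -/
lemma sg_zero {k : ℕ} {w : ℕ → ℕ} {s : Finset ℕ} (hs : ∀ p ∈ s, p.Prime)
    (hw : ∀ p : ℕ, p.Prime → p ∉ s → loc k w p / localFactor (a0 k) p = 1) {q : ℕ} (hq : q.Prime)
    (h0 : loc k w q = 0) : sg k w = 0 := by
  have h1 := (sg_eq hs hw).tprod_eq
  unfold sg
  rw [h1]
  by_cases h : q ∈ s
  · rw [prod_eq_zero h (by rw [h0, zero_div]), mul_zero]
  · have := hw q hq h
    rw [h0, zero_div] at this
    exact absurd this (by norm_num)

/-- few large primes divide a bounded number -/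
lemma card_large {y n E : ℕ} (hy : 2 ≤ y) (hn : n ≠ 0) (hnE : n ≤ y ^ E) :
    (n.primeFactors.filter (fun p => y < p)).card ≤ E := by
  obtain ⟨F, hF⟩ : ∃ F, F = n.primeFactors.filter (fun p => y < p) := ⟨_, rfl⟩
  rw [← hF]
  have hFm : ∀ p ∈ F, p.Prime ∧ y < p := by
    intro p hp
    rw [hF, mem_filter] at hp
    exact ⟨Nat.prime_of_mem_primeFactors hp.1, hp.2⟩
  have h1 : y ^ F.card ≤ ∏ p ∈ F, p := by
    rw [← prod_const]
    exact prod_le_prod' fun p hp => (hFm p hp).2.le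
  have h2 : ∏ p ∈ F, p ≤ n := by
    refine Nat.le_of_dvd (Nat.pos_of_ne_zero hn) ?_
    refine (prod_dvd_prod_of_subset F n.primeFactors (fun p => p) ?_).trans
      (Nat.prod_primeFactors_dvd n)
    rw [hF]
    exact filter_subset _ _
  exact (Nat.pow_le_pow_iff_right (by omega)).1 ((h1.trans h2).trans hnE)

/-- **The singular series and its truncation.** -/
theorem sg_bounds (k E : ℕ) : ∃ c C : ℝ, 0 < c ∧ 0 < C ∧ ∃ y₀ : ℕ, ∀ y : ℕ, y₀ ≤ y →
    ∀ w : ℕ → ℕ, ∀ n : ℕ, n ≠ 0 → n ≤ y ^ E → (∀ p : ℕ, p.Prime → w p ≤ k) →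
    (∀ p : ℕ, p.Prime → w p < p) → (∀ p : ℕ, p.Prime → k < p → ¬ p ∣ n → w p = k) →
    c * sg k w ≤ ∏ p ∈ (Icc 1 y).filter Nat.Prime, loc k w p ∧
    ∏ p ∈ (Icc 1 y).filter Nat.Prime, loc k w p ≤ C * sg k w ∧ 0 < sg k w := by
  obtain ⟨c, C, hc, hC, hS⟩ := Pool.Agent.H225.SGB.sing_bounds k 1
  refine ⟨c * (2 ^ E)⁻¹, C, by positivity, hC, 2 * k ^ 2 + 2 * k + 2 + k * k.factorial,
    fun y hy w n hn hnE hwk hwp hwn => ?_⟩
  obtain ⟨hs1, hs2⟩ := hS y (by omega) (a0 k) (a0_inj k) (fun i => by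
    rw [pow_one]
    have : a0 k i ≤ k * k.factorial := Nat.mul_le_mul_right _ i.2.le
    omega)
  have hy2 : 2 ≤ y := by omega
  have hyk : 2 * k ≤ y := by omega
  obtain ⟨F, hF⟩ : ∃ F, F = n.primeFactors.filter (fun p => y < p) := ⟨_, rfl⟩
  have hFm : ∀ p ∈ F, p.Prime ∧ y < p := by
    intro p hp
    rw [hF, mem_filter] at hp
    exact ⟨Nat.prime_of_mem_primeFactors hp.1, hp.2⟩
  obtain ⟨P, hP⟩ : ∃ P, P = (Icc 1 y).filter Nat.Prime := ⟨_, rfl⟩
  have hPm : ∀ p, p ∈ P ↔ p.Prime ∧ p ≤ y := by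
    intro p
    rw [hP, mem_filter, mem_Icc]
    exact ⟨fun h => ⟨h.2, h.1.2⟩, fun h => ⟨⟨h.1.one_le, h.2⟩, h.1⟩⟩
  have hdisj : Disjoint P F := by
    rw [disjoint_left]
    intro p hp hp'
    have h1 := ((hPm p).1 hp).2
    have h2 := (hFm p hp').2
    omega
  have hpos : ∀ p : ℕ, p.Prime → 0 < localFactor (a0 k) p := fun p hp =>
    localFactor_pos (adm_a0 k) hp
  have hprod := sg_eq (k := k) (w := w) (s := P ∪ F) (fun p hp => by
    rw [mem_union] at hp
    rcases hp with hp | hp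
    · exact ((hPm p).1 hp).1
    · exact (hFm p hp).1) (fun p hp hps => by
      rw [mem_union, not_or] at hps
      have h1 : y < p := by
        by_contra h
        exact hps.1 ((hPm p).2 ⟨hp, not_lt.1 h⟩)
      refine ratio_one hp (by omega) (hwn p hp (by omega) fun hd => hps.2 ?_)
      rw [hF, mem_filter]
      exact ⟨Nat.mem_primeFactors.2 ⟨hp, hd, hn⟩, h1⟩)
  have hsg : sg k w = singularSeries (a0 k) *
      ((∏ p ∈ P, loc k w p / localFactor (a0 k) p) *
        ∏ p ∈ F, loc k w p / localFactor (a0 k) p) := by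
    unfold sg
    rw [hprod.tprod_eq, prod_union hdisj]
  -- the large factors
  have hfac : ∀ p ∈ F, 1 ≤ loc k w p / localFactor (a0 k) p ∧
      loc k w p / localFactor (a0 k) p ≤ 2 := by
    intro p hp
    obtain ⟨hpp, hyp⟩ := hFm p hp
    have hp0 : (0 : ℝ) < p := by exact_mod_cast hpp.pos
    have h1 : 0 < 1 - 1 / (p : ℝ) := one_sub_pos hpp
    have h2 : (w p : ℝ) ≤ k := by exact_mod_cast hwk p hpp
    have h3 : (2 : ℝ) * k ≤ p := by exact_mod_cast (by omega : 2 * k ≤ p)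
    have h4 : loc k w p / localFactor (a0 k) p = (1 - (w p : ℝ) / p) / (1 - (k : ℝ) / p) := by
      rw [loc_nu]
      unfold loc
      rw [nu_a0 hpp (by omega), mul_div_mul_left]
      positivity
    have h5 : (k : ℝ) / p ≤ 1 / 2 := by
      rw [div_le_div_iff₀ hp0 (by norm_num)]
      linarith
    have h6 : (w p : ℝ) / p ≤ (k : ℝ) / p := div_le_div_of_nonneg_right h2 hp0.le
    have h7 : 0 ≤ (w p : ℝ) / p := by positivity
    rw [h4]
    constructor
    · rw [le_div_iff₀ (by linarith)]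
      linarith
    · rw [div_le_iff₀ (by linarith)]
      linarith
  have hF1 : 1 ≤ ∏ p ∈ F, loc k w p / localFactor (a0 k) p := by
    calc (1 : ℝ) = ∏ _p ∈ F, (1 : ℝ) := prod_const_one.symm
      _ ≤ _ := prod_le_prod (fun _ _ => zero_le_one) fun p hp => (hfac p hp).1
  have hF2 : ∏ p ∈ F, loc k w p / localFactor (a0 k) p ≤ 2 ^ E := by
    calc ∏ p ∈ F, loc k w p / localFactor (a0 k) p ≤ ∏ _p ∈ F, (2 : ℝ) :=
          prod_le_prod (fun p hp => zero_le_one.trans (hfac p hp).1) fun p hp => (hfac p hp).2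
      _ = 2 ^ F.card := by rw [prod_const]
      _ ≤ 2 ^ E := pow_le_pow_right₀ (by norm_num) (by
          rw [hF]
          exact card_large hy2 hn hnE)
  have hsy : sy (a0 k) y = ∏ p ∈ P, localFactor (a0 k) p := by
    unfold sy
    refine prod_congr ?_ fun _ _ => rfl
    ext p
    rw [Nat.mem_primesBelow, hPm]
    constructor
    · rintro ⟨h1, h2⟩
      exact ⟨h2, by omega⟩
    · rintro ⟨h1, h2⟩
      exact ⟨by omega, h1⟩
  have hsy0 : 0 < sy (a0 k) y := by
    rw [hsy]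
    exact prod_pos fun p hp => hpos p ((hPm p).1 hp).1
  have hPprod : ∏ p ∈ P, loc k w p / localFactor (a0 k) p =
      (∏ p ∈ P, loc k w p) / sy (a0 k) y := by
    rw [prod_div_distrib, hsy]
  have hloc0 : 0 < ∏ p ∈ P, loc k w p := by
    refine prod_pos fun p hp => ?_
    have hpp := ((hPm p).1 hp).1
    have hp0 : (0 : ℝ) < p := by exact_mod_cast hpp.pos
    have h1 : 0 < 1 - 1 / (p : ℝ) := one_sub_pos hpp
    have h2 : (w p : ℝ) < p := by exact_mod_cast hwp p hpp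
    unfold loc
    have h3 : 0 < 1 - (w p : ℝ) / p := by
      rw [sub_pos, div_lt_one hp0]
      exact h2
    positivity
  have hS0 : 0 < singularSeries (a0 k) :=
    Pool.Agent.H386R2.HL.singularSeries_pos (a0_inj k) (adm_a0 k)
  rw [← hP, hsg, hPprod]
  obtain ⟨Q, hQ⟩ : ∃ Q, Q = ∏ p ∈ F, loc k w p / localFactor (a0 k) p := ⟨_, rfl⟩
  obtain ⟨L, hL⟩ : ∃ L, L = ∏ p ∈ P, loc k w p := ⟨_, rfl⟩
  obtain ⟨T, hT⟩ : ∃ T, T = sy (a0 k) y := ⟨_, rfl⟩
  obtain ⟨Z, hZ⟩ : ∃ Z, Z = singularSeries (a0 k) := ⟨_, rfl⟩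
  rw [← hQ] at hF1 hF2 ⊢
  rw [← hL] at hloc0 ⊢
  rw [← hT] at hs1 hs2 hsy0 ⊢
  rw [← hZ] at hs1 hs2 hS0 ⊢
  refine ⟨?_, ?_, by positivity⟩
  · calc c * (2 ^ E)⁻¹ * (Z * (L / T * Q)) = (c * Z / T) * ((2 ^ E)⁻¹ * Q) * L := by
          field_simp
      _ ≤ 1 * 1 * L := by
          refine mul_le_mul_of_nonneg_right ?_ hloc0.le
          refine mul_le_mul ?_ ?_ (by positivity) (by norm_num)
          · rw [div_le_one hsy0]
            exact hs1
          · rw [inv_mul_le_iff₀ (by positivity), mul_one]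
            exact hF2
      _ = L := by ring
  · calc L = 1 * 1 * L := by ring
      _ ≤ (C * Z / T) * Q * L := by
          refine mul_le_mul_of_nonneg_right ?_ hloc0.le
          refine mul_le_mul ?_ hF1 (by norm_num) (by positivity)
          rw [le_div_iff₀ hsy0, one_mul]
          exact hs2
      _ = C * (Z * (L / T * Q)) := by
          field_simp

end Pool.Agent.H225.LF
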