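import Pool.Agent.H225.GX2

/-!
# Exact neighbourhoods of the values of several linear forms: preparations
-/

set_option autoImplicit false

namespace Pool.Agent.H225.MX

open Polynomial Finset Filter
open Pool.Agent.Y816.PD (WG uni_top NA ND Rgh Alm WG_nonneg shift_eq TP TP_dvd WG_bounds ND_sub
  NA_nonneg)
open Pool.Agent.H225.DG (AP len_dvd)
open Pool.Agent.H225.EX (Rough)
open Pool.Agent.H225.GX (fac card_insert_abs few_primes)
open Pool.Agent.H373R2.T7 (pz mem_pz)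

variable {s : ℕ}

/-- the shifted form -/
def fm (a c : Fin s → ℤ) (x : Fin s × ℕ) (y : ℕ) : ℤ := a x.1 * (y : ℤ) + c x.1 + x.2

/-- the class of `y` is occupied -/
def Oc (a c : Fin s → ℤ) (P : Finset (Fin s × ℕ)) (p y : ℕ) : Prop :=
  ∃ x ∈ P, (p : ℤ) ∣ fm a c x y

/-- admissible sets -/
def Adm (a c : Fin s → ℤ) (P : Finset (Fin s × ℕ)) : Prop :=
  ∀ p : ℕ, p.Prime → ∃ y : ℕ, ¬ Oc a c P p y

open Classical in
/-- the number of the occupied classes -/
noncomputable def nu (a c : Fin s → ℤ) (P : Finset (Fin s × ℕ)) (p : ℕ) : ℕ :=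
  ((range p).filter (fun y : ℕ => Oc a c P p y)).card

/-- the sieve product -/
noncomputable def V (a c : Fin s → ℤ) (P : Finset (Fin s × ℕ)) (x : ℕ) : ℝ :=
  ∏ p ∈ (Icc 1 x).filter Nat.Prime, (1 - (nu a c P p : ℝ) / p)

/-- the product of the values -/
def TM (a c : Fin s → ℤ) (M : ℕ) (P : Finset (Fin s × ℕ)) (n : ℕ) : ℤ := ∏ x ∈ P, fm a c x (M + n)

lemma TM_dvd (a c : Fin s → ℤ) (M : ℕ) (P : Finset (Fin s × ℕ)) (n : ℕ) {p : ℕ} (hp : p.Prime) :
    (p : ℤ) ∣ TM a c M P n ↔ Oc a c P p (M + n) :=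
  Prime.dvd_finsetProd_iff (Nat.prime_iff_prime_int.1 hp) _

lemma natAbs_TM (a c : Fin s → ℤ) (M : ℕ) (P : Finset (Fin s × ℕ)) (n : ℕ) :
    (TM a c M P n).natAbs = ∏ x ∈ P, (fm a c x (M + n)).natAbs := by
  unfold TM
  exact map_prod Int.natAbsHom _ _

lemma fm_per (a c : Fin s → ℤ) (x : Fin s × ℕ) (p y : ℕ) :
    (p : ℤ) ∣ fm a c x y ↔ (p : ℤ) ∣ fm a c x (y % p) := by
  have e : fm a c x y = fm a c x (y % p) + p * (a x.1 * ((y / p : ℕ) : ℤ)) := by
    unfold fm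
    have : (y : ℤ) = ((y % p : ℕ) : ℤ) + p * ((y / p : ℕ) : ℤ) := by
      exact_mod_cast (Nat.mod_add_div y p).symm
    conv_lhs => rw [this]
    ring
  rw [e]
  exact ⟨fun h => (dvd_add_left (dvd_mul_right _ _)).1 h, fun h => h.add (dvd_mul_right _ _)⟩

lemma Oc_per (a c : Fin s → ℤ) (P : Finset (Fin s × ℕ)) (p y : ℕ) :
    Oc a c P p y ↔ Oc a c P p (y % p) :=
  exists_congr fun x => and_congr_right fun _ => fm_per a c x p y

open Classical in
lemma card_TM (a c : Fin s → ℤ) (M : ℕ) (P : Finset (Fin s × ℕ)) {p : ℕ} (hp : p.Prime) :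
    ((range p).filter (fun n : ℕ => (p : ℤ) ∣ TM a c M P n)).card = nu a c P p := by
  unfold nu
  have h2 : ((range p).filter (fun n : ℕ => (p : ℤ) ∣ TM a c M P n)).card =
      ((range p).filter (fun n : ℕ => Oc a c P p (M + n))).card := by
    congr 1
    apply filter_congr
    intro n _
    exact TM_dvd a c M P n hp
  rw [h2]
  convert shift_eq p M hp.pos (fun y => Oc a c P p y) (Oc_per a c P p)

lemma WG_TM (a c : Fin s → ℤ) (M : ℕ) (P : Finset (Fin s × ℕ)) (x : ℕ) :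
    WG (TM a c M P) x = V a c P x := by
  classical
  unfold WG V
  refine prod_congr rfl fun p hp => ?_
  rw [← card_TM a c M P (mem_filter.1 hp).2]

open Classical in
lemma roots_le (a c : Fin s → ℤ) (x : Fin s × ℕ) {p : ℕ} (hp : p.Prime)
    (h : ¬ (p : ℤ) ∣ a x.1 ∨ ∃ y : ℕ, ¬ (p : ℤ) ∣ fm a c x y) :
    ((range p).filter (fun y : ℕ => (p : ℤ) ∣ fm a c x y)).card ≤ 1 := by
  rw [card_le_one]
  intro y hy z hz
  rw [mem_filter, mem_range] at hy hz
  have h1 : (p : ℤ) ∣ a x.1 * ((y : ℤ) - z) := by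
    have := dvd_sub hy.2 hz.2
    unfold fm at this
    rwa [show a x.1 * (y : ℤ) + c x.1 + x.2 - (a x.1 * (z : ℤ) + c x.1 + x.2) =
      a x.1 * ((y : ℤ) - z) by ring] at this
  have h2 : ¬ (p : ℤ) ∣ a x.1 := by
    rcases h with h | ⟨w, hw⟩
    · exact h
    · intro ha
      refine hw ?_
      have e : fm a c x w = fm a c x y + a x.1 * ((w : ℤ) - y) := by
        unfold fm
        ring
      rw [e]
      exact dvd_add hy.2 (ha.mul_right _)
  rcases (Nat.prime_iff_prime_int.1 hp).dvd_or_dvd h1 with h3 | h3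
  · exact absurd h3 h2
  · have h4 : z ≡ y [MOD p] := Nat.modEq_iff_dvd.2 h3
    unfold Nat.ModEq at h4
    rw [Nat.mod_eq_of_lt hy.1, Nat.mod_eq_of_lt hz.1] at h4
    exact h4.symm

lemma nu_le (a c : Fin s → ℤ) (P : Finset (Fin s × ℕ)) {p : ℕ} (hp : p.Prime)
    (h : ∀ x ∈ P, ¬ (p : ℤ) ∣ a x.1 ∨ ∃ y : ℕ, ¬ (p : ℤ) ∣ fm a c x y) : nu a c P p ≤ P.card := by
  classical
  unfold nu
  have h7 : (range p).filter (fun n : ℕ => Oc a c P p n) ⊆
      P.biUnion (fun x => (range p).filter (fun n : ℕ => (p : ℤ) ∣ fm a c x n)) := by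
    intro n hn
    rw [mem_filter] at hn
    obtain ⟨x, hx, hd⟩ := hn.2
    exact mem_biUnion.2 ⟨x, hx, mem_filter.2 ⟨hn.1, hd⟩⟩
  refine le_trans (le_of_eq (by congr)) ((card_le_card h7).trans (card_biUnion_le.trans ?_))
  rw [card_eq_sum_ones]
  exact sum_le_sum fun x hx => roots_le a c x hp (h x hx)

lemma nu_lt {a c : Fin s → ℤ} {P : Finset (Fin s × ℕ)} (hadm : Adm a c P) {p : ℕ} (hp : p.Prime) :
    nu a c P p < p := by
  classical
  unfold nu
  obtain ⟨m, hm⟩ := hadm p hp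
  refine lt_of_lt_of_eq (card_lt_card ?_) (card_range p)
  rw [filter_ssubset]
  exact ⟨m % p, mem_range.2 (Nat.mod_lt _ hp.pos), fun h => hm ((Oc_per a c P p m).2 h)⟩

lemma nu_le_card {a c : Fin s → ℤ} {P : Finset (Fin s × ℕ)} (hadm : Adm a c P) {p : ℕ}
    (hp : p.Prime) : nu a c P p ≤ P.card := by
  obtain ⟨y, hy⟩ := hadm p hp
  exact nu_le a c P hp fun x hx => Or.inr ⟨y, fun h => hy ⟨x, hx, h⟩⟩

lemma V_nonneg {a c : Fin s → ℤ} {P : Finset (Fin s × ℕ)} (x : ℕ) (hadm : Adm a c P) :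
    0 ≤ V a c P x := by
  unfold V
  refine prod_nonneg fun p hp => ?_
  have hpp := (mem_filter.1 hp).2
  rw [sub_nonneg, div_le_one (by exact_mod_cast hpp.pos)]
  exact_mod_cast (nu_lt hadm hpp).le

/-- **Tuples, uniformly.** -/
theorem tup (a : Fin s → ℤ) (k D : ℕ) (hk : 1 ≤ k) :
    ∃ δ : ℝ, 0 < δ ∧ ∃ r₀ : ℕ, 2 ≤ r₀ ∧ ∀ r : ℕ, r₀ ≤ r → ∀ b : ℕ, 2 ≤ b →
      ∃ κ C : ℝ, 0 < κ ∧ 0 < C ∧ ∀ᶠ K : ℕ in atTop, ∀ M : ℕ, M ≤ b ^ (D * K) →
        ∀ c : Fin s → ℤ, (∀ i, (c i).natAbs ≤ b ^ (D * K)) →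
        ∀ P : Finset (Fin s × ℕ), P.card = k → (∀ x ∈ P, x.2 ≤ b ^ K) → Adm a c P →
        ∀ A : ℕ → Finset ℕ, (∀ i < K, A i ⊆ range b) →
        (b : ℝ) ^ K ≤ Real.exp (δ * K) * NA K A →
        ((∃ e ∈ A 0, ∀ x ∈ P, (fm a c x (M + e)).natAbs.Coprime b) → (∃ e ∈ A (K - 1), e ≠ 0) →
          κ * NA K A * V a c P (b ^ K) ≤
            ND b K A {n | b ^ (K - 1) ≤ n ∧ ∀ x ∈ P, AP r (b ^ K) (fm a c x (M + n)).natAbs}) ∧
        (ND b K A {n | ∀ x ∈ P, ∀ p : ℕ, p.Prime → p ∣ (fm a c x (M + n)).natAbs → n < p ^ r} : ℝ) ≤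
          C * NA K A * V a c P (b ^ K) := by
  classical
  obtain ⟨δ, hδ, r₀, hr₀, h⟩ := uni_top k ((D + 3) * k) hk
  refine ⟨δ, hδ, r₀, hr₀, fun r hr b hb => ?_⟩
  obtain ⟨κ, C, hκ, hC, h1⟩ := h r hr b hb
  refine ⟨κ, C, hκ, hC, ?_⟩
  obtain ⟨S, hS⟩ : ∃ S : ℕ, S = ∑ i, (a i).natAbs := ⟨_, rfl⟩
  have haS : ∀ i, (a i).natAbs ≤ S := fun i => by
    rw [hS]
    exact single_le_sum (f := fun i => (a i).natAbs) (fun _ _ => Nat.zero_le _) (mem_univ i)
  filter_upwards [h1, eventually_ge_atTop (r + 2), eventually_ge_atTop (S + 1)] with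
    K hK hKr hKS M hM c hc P hPk hPb hadm A hA hprod
  have hbK : 2 ^ (r + 2) ≤ b ^ K :=
    (Nat.pow_le_pow_left hb _).trans (Nat.pow_le_pow_right (by omega) hKr)
  have h4b : 4 ≤ b ^ K := by
    have : 2 ^ 2 ≤ 2 ^ (r + 2) := Nat.pow_le_pow_right (by norm_num) (by omega)
    omega
  have hSb : S ≤ b ^ K := by
    have : K < b ^ K := Nat.lt_pow_self (by omega)
    omega
  have hpoly : ∃ Q : ℤ[X], Q.natDegree ≤ k ∧ ∀ j : ℕ, Q.eval (j : ℤ) = TM a c M P j := by
    refine ⟨∏ x ∈ P, (Polynomial.C (a x.1) * X + Polynomial.C (a x.1 * M + c x.1 + x.2)), ?_,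
      fun j => ?_⟩
    · refine (natDegree_prod_le _ _).trans ?_
      rw [← hPk, Finset.card_eq_sum_ones]
      exact sum_le_sum fun h _ => by compute_degree
    · rw [eval_prod]
      unfold TM fm
      refine prod_congr rfl fun h _ => ?_
      simp only [eval_add, eval_mul, eval_X, eval_C]
      push_cast
      ring
  have hadm' : ∀ p : ℕ, p.Prime → ∃ n : ℕ, ¬ (p : ℤ) ∣ TM a c M P n := by
    intro p hp
    have h2 := card_TM a c M P hp
    have h3 : ((range p).filter (fun n : ℕ => (p : ℤ) ∣ TM a c M P n)).card < (range p).card := by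
      rw [card_range]
      exact lt_of_eq_of_lt (by convert h2) (nu_lt hadm hp)
    obtain ⟨n, hn, hn'⟩ := exists_mem_notMem_of_card_lt_card h3
    exact ⟨n, fun hd => hn' (mem_filter.2 ⟨hn, hd⟩)⟩
  have hsize : ∀ n : ℕ, n < b ^ K → (TM a c M P n).natAbs ≤ b ^ ((D + 3) * k * K) := by
    intro n hn
    rw [natAbs_TM]
    calc ∏ x ∈ P, (fm a c x (M + n)).natAbs ≤ ∏ _x ∈ P, b ^ ((D + 3) * K) := by
          refine prod_le_prod' fun x hx => ?_
          have e : b ^ ((D + 3) * K) = b ^ (D * K) * (b ^ K * (b ^ K * b ^ K)) := by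
            rw [← pow_add, ← pow_add, ← pow_add]
            congr 1
            ring
          rw [e]
          have h2 : (fm a c x (M + n)).natAbs ≤ (a x.1).natAbs * (M + n) + (c x.1).natAbs + x.2 := by
            unfold fm
            refine (Int.natAbs_add_le _ _).trans ?_
            rw [Int.natAbs_natCast]
            refine Nat.add_le_add_right ((Int.natAbs_add_le _ _).trans ?_) _
            rw [Int.natAbs_mul, Int.natAbs_natCast]
          have h3 := hPb x hx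
          have h4 := hc x.1
          have h5 := haS x.1
          have h1b : 1 ≤ b ^ (D * K) := Nat.one_le_pow _ _ (by omega)
          obtain ⟨X', hX⟩ : ∃ X' : ℕ, X' = b ^ (D * K) := ⟨_, rfl⟩
          obtain ⟨Y', hY⟩ : ∃ Y' : ℕ, Y' = b ^ K := ⟨_, rfl⟩
          rw [← hX] at hM h4 h1b ⊢
          rw [← hY] at hn h3 hSb h4b ⊢
          have h6 : M + n ≤ 2 * (X' * Y') := by
            have h7 : X' ≤ X' * Y' := Nat.le_mul_of_pos_right _ (by omega)
            have h8 : Y' ≤ X' * Y' := Nat.le_mul_of_pos_left _ h1b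
            omega
          have h9 : (a x.1).natAbs * (M + n) ≤ Y' * (2 * (X' * Y')) :=
            Nat.mul_le_mul (h5.trans hSb) h6
          have h10 : Y' * (2 * (X' * Y')) = 2 * (X' * (Y' * Y')) := by ring
          have h11 : X' ≤ X' * (Y' * Y') := Nat.le_mul_of_pos_right _ (Nat.mul_pos (by omega) (by omega))
          have h12 : Y' ≤ X' * (Y' * Y') := by
            calc Y' ≤ Y' * Y' := Nat.le_mul_of_pos_left _ (by omega)
              _ ≤ _ := Nat.le_mul_of_pos_left _ h1b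
          have h13 : 4 * (X' * (Y' * Y')) ≤ X' * (Y' * (Y' * Y')) := by
            calc 4 * (X' * (Y' * Y')) ≤ Y' * (X' * (Y' * Y')) := Nat.mul_le_mul_right _ h4b
              _ = _ := by ring
          omega
      _ = b ^ ((D + 3) * k * K) := by
          rw [prod_const, hPk, ← pow_mul]
          congr 1
          ring
  obtain ⟨h2, h3⟩ := hK (TM a c M P) hpoly hadm' hsize A hA hprod
  rw [WG_TM] at h2 h3
  constructor
  · rintro ⟨e, he, hcop⟩ htop
    refine (h2 ⟨e, he, ?_⟩ htop).trans (Nat.cast_le.2 ?_)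
    · rw [natAbs_TM]
      exact Nat.Coprime.prod_left fun x hx => hcop x hx
    · refine ND_sub fun n hn hn1 hn2 => ⟨hn1, ?_⟩
      obtain ⟨hn3, hn4, hn5⟩ := hn2
      have h0 : (TM a c M P n).natAbs ≠ 0 := by
        intro h0
        have h7 := hn4 2 Nat.prime_two (by
          rw [Int.natAbs_eq_zero.1 h0]
          exact dvd_zero _)
        have : 2 ^ r ≤ 2 ^ (r + 2) := Nat.pow_le_pow_right (by norm_num) (by omega)
        omega
      refine ⟨hn3, fun x hx => ⟨fun p hp hpd => hn4 p hp ((TM_dvd a c M P n hp).2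
        ⟨x, hx, Int.natCast_dvd.2 hpd⟩), ?_⟩⟩
      refine (len_dvd h0 ?_).trans hn5
      rw [natAbs_TM]
      exact dvd_prod_of_mem (fun x => (fm a c x (M + n)).natAbs) hx
  · refine le_trans (Nat.cast_le.2 ?_) h3
    refine ND_sub fun n hn hn1 hn2 => ⟨hn1, fun p hp hpd => ?_⟩
    obtain ⟨x, hx, hd⟩ := (TM_dvd a c M P n hp).1 hpd
    exact hn2 x hx p hp (Int.natCast_dvd.1 hd)

/-- the coincidence of a new shift -/
def Co (a c : Fin s → ℤ) (P : Finset (Fin s × ℕ)) (i : Fin s) (p j : ℕ) : Prop :=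
  ∃ x ∈ P, (p : ℤ) ∣ a x.1 * (c i + j) - a i * (c x.1 + x.2)

open Classical in
lemma nu_insert (a c : Fin s → ℤ) (P : Finset (Fin s × ℕ)) (i : Fin s) (j : ℕ) {p : ℕ}
    (hp : p.Prime) (ha : ¬ (p : ℤ) ∣ a i) :
    nu a c (insert (i, j) P) p = nu a c P p + (if Co a c P i p j then 0 else 1) := by
  obtain ⟨t, ht, ht'⟩ := Pool.Agent.H225.LF.exists_root hp ha (c i + j)
  have hpi := Nat.prime_iff_prime_int.1 hp
  have hroot : ∀ y < p, (p : ℤ) ∣ fm a c (i, j) y ↔ y = t := by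
    intro y hy
    constructor
    · intro h
      have h1 : (p : ℤ) ∣ a i * ((y : ℤ) - t) := by
        have := dvd_sub h ht'
        unfold fm at this
        rwa [show a (i, j).1 * (y : ℤ) + c (i, j).1 + ((i, j).2 : ℕ) - (a i * (t : ℤ) + (c i + j)) =
          a i * ((y : ℤ) - t) by simp only []; ring] at this
      rcases hpi.dvd_or_dvd h1 with h3 | h3
      · exact absurd h3 ha
      · have h4 : t ≡ y [MOD p] := Nat.modEq_iff_dvd.2 h3
        unfold Nat.ModEq at h4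
        rw [Nat.mod_eq_of_lt hy, Nat.mod_eq_of_lt ht] at h4
        exact h4.symm
    · rintro rfl
      unfold fm
      rwa [show a (i, j).1 * (y : ℤ) + c (i, j).1 + ((i, j).2 : ℕ) = a i * (y : ℤ) + (c i + j) by
        simp only []; ring]
  unfold nu
  convert card_insert_abs ht (fun y => Oc a c P p y) (fun y => Oc a c (insert (i, j) P) p y)
    (Co a c P i p j) (fun y hy => ?_) ?_
  · constructor
    · rintro ⟨x, hx, hd⟩
      rw [mem_insert] at hx
      rcases hx with rfl | hx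
      · exact Or.inl ((hroot y hy).1 hd)
      · exact Or.inr ⟨x, hx, hd⟩
    · rintro (h | ⟨x, hx, hd⟩)
      · exact ⟨(i, j), mem_insert_self _ _, (hroot y hy).2 h⟩
      · exact ⟨x, mem_insert_of_mem hx, hd⟩
  · refine exists_congr fun x => and_congr_right fun _ => ?_
    have e : a i * fm a c x t = a x.1 * (a i * (t : ℤ) + (c i + j)) -
        (a x.1 * (c i + j) - a i * (c x.1 + x.2)) := by
      unfold fm
      ring
    constructor
    · intro h
      have h2 : (p : ℤ) ∣ a i * fm a c x t := by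
        rw [e]
        exact dvd_sub (ht'.mul_left _) h
      rcases hpi.dvd_or_dvd h2 with h3 | h3
      · exact absurd h3 ha
      · exact h3
    · intro h
      have h2 : a x.1 * (c i + j) - a i * (c x.1 + x.2) =
        a x.1 * (a i * (t : ℤ) + (c i + j)) - a i * fm a c x t := by rw [e]; ring
      rw [h2]
      exact dvd_sub (ht'.mul_left _) (h.mul_left _)

lemma prod_le_of_subset {s t : Finset ℕ} (h : s ⊆ t) (f : ℕ → ℝ) (h1 : ∀ i ∈ t, 1 ≤ f i) :
    ∏ i ∈ s, f i ≤ ∏ i ∈ t, f i := by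
  rw [← prod_sdiff h]
  refine le_mul_of_one_le_left (prod_nonneg fun i hi => zero_le_one.trans (h1 i (h hi))) ?_
  calc (1 : ℝ) = ∏ _i ∈ t \ s, (1 : ℝ) := by rw [prod_const_one]
    _ ≤ _ := prod_le_prod (fun _ _ => zero_le_one) (fun i hi => h1 i (sdiff_subset hi))

lemma nu_mono (a c : Fin s → ℤ) {P Q : Finset (Fin s × ℕ)} (h : P ⊆ Q) (p : ℕ) :
    nu a c P p ≤ nu a c Q p := by
  classical
  unfold nu
  refine card_le_card fun y hy => ?_
  rw [mem_filter] at hy ⊢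
  obtain ⟨x, hx, hd⟩ := hy.2
  exact ⟨hy.1, x, h hx, hd⟩

open Classical in
/-- **The sieve product with one more class.** -/
lemma V_insert {a c : Fin s → ℤ} {P : Finset (Fin s × ℕ)} {p0 : ℕ}
    (hp0 : ∀ p : ℕ, p.Prime → p0 < p → ∀ i, ¬ (p : ℤ) ∣ a i) (hadm : Adm a c P) (i : Fin s)
    (j x : ℕ) (hadm' : Adm a c (insert (i, j) P)) :
    V a c (insert (i, j) P) x ≤ V a c P x * (WG (TP {0} 0) x *
      ((∏ p ∈ (Icc 1 p0).filter Nat.Prime, (1 + (2 : ℕ) / (p : ℝ))) *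
      ∏ p ∈ (pz x).filter (fun p : ℕ => p0 < p ∧ Co a c P i p j), (1 + (2 : ℕ) / (p : ℝ)))) := by
  have e : ∏ p ∈ (pz x).filter (fun p : ℕ => p0 < p ∧ Co a c P i p j), (1 + (2 : ℕ) / (p : ℝ)) =
      ∏ p ∈ (Icc 1 x).filter Nat.Prime,
        (if p0 < p ∧ Co a c P i p j then (1 + (2 : ℕ) / (p : ℝ)) else 1) := by
    rw [prod_filter]
    rfl
  have e2 : ∏ p ∈ (Icc 1 x).filter Nat.Prime, (if p ≤ p0 then (1 + (2 : ℕ) / (p : ℝ)) else 1) ≤
      ∏ p ∈ (Icc 1 p0).filter Nat.Prime, (1 + (2 : ℕ) / (p : ℝ)) := by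
    rw [← prod_filter]
    refine prod_le_of_subset (fun p hp => ?_) _ (fun p _ => ?_)
    · rw [mem_filter, mem_filter, mem_Icc] at hp
      rw [mem_filter, mem_Icc]
      exact ⟨⟨hp.1.1.1, hp.2⟩, hp.1.2⟩
    · have : (0 : ℝ) ≤ (2 : ℕ) / (p : ℝ) := by positivity
      linarith
  have h0 : 0 ≤ V a c P x := V_nonneg x hadm
  have hP1 : 0 ≤ WG (TP {0} 0) x := WG_nonneg _ _
  have hE : 0 ≤ ∏ p ∈ (pz x).filter (fun p : ℕ => p0 < p ∧ Co a c P i p j),
      (1 + (2 : ℕ) / (p : ℝ)) := prod_nonneg fun p _ => by positivity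
  refine le_trans ?_ (mul_le_mul_of_nonneg_left (mul_le_mul_of_nonneg_left
    (mul_le_mul_of_nonneg_right e2 hE) hP1) h0)
  rw [e, Pool.Agent.H225.AX.WG_zero]
  unfold V
  rw [← prod_mul_distrib, ← prod_mul_distrib, ← prod_mul_distrib]
  refine prod_le_prod (fun p hp => ?_) (fun p hp => ?_)
  · have hpp := (mem_filter.1 hp).2
    rw [sub_nonneg, div_le_one (by exact_mod_cast hpp.pos)]
    exact_mod_cast (nu_lt hadm' hpp).le
  · have hpp := (mem_filter.1 hp).2
    rcases le_or_gt p p0 with hle | hgt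
    · rw [if_pos hle, if_neg (fun h => absurd h.1 (not_lt.2 hle)), mul_one]
      have h1 := fac hpp (nu_lt hadm hpp) True
      rw [if_pos trivial, if_pos trivial, add_zero] at h1
      refine le_trans ?_ h1
      have h2 : (nu a c P p : ℝ) ≤ nu a c (insert (i, j) P) p := by
        exact_mod_cast nu_mono a c (subset_insert _ _) p
      have hp0' : (0 : ℝ) < p := by exact_mod_cast hpp.pos
      have h3 := div_le_div_of_nonneg_right h2 hp0'.le
      linarith
    · rw [nu_insert a c P i j hpp (hp0 p hpp hgt i), if_neg (not_le.2 hgt), one_mul]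
      have h1 := fac hpp (nu_lt hadm hpp) (Co a c P i p j)
      by_cases hc : Co a c P i p j
      · rw [if_pos hc, if_pos hc] at h1
        rw [if_pos hc, if_pos ⟨hgt, hc⟩]
        exact h1
      · rw [if_neg hc, if_neg hc] at h1
        rw [if_neg hc, if_neg (fun h => hc h.2)]
        exact h1

/-- a non-admissible set is covered modulo a small prime -/
lemma small_of_not_adm {a c : Fin s → ℤ} {P : Finset (Fin s × ℕ)} {p0 k : ℕ}
    (hp0 : ∀ p : ℕ, p.Prime → p0 < p → ∀ i, ¬ (p : ℤ) ∣ a i) (hk : P.card ≤ k)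
    (h : ¬ Adm a c P) : ∃ p : ℕ, p.Prime ∧ p ≤ k + p0 ∧ ∀ y : ℕ, Oc a c P p y := by
  classical
  unfold Adm at h
  push Not at h
  obtain ⟨p, hp, hc⟩ := h
  refine ⟨p, hp, ?_, hc⟩
  by_contra hcon
  rw [not_le] at hcon
  have h1 : nu a c P p = p := by
    unfold nu
    rw [filter_true_of_mem (fun y _ => hc y), card_range]
  have := nu_le a c P hp (fun x _ => Or.inl (hp0 p hp (by omega) x.1))
  omega

/-- the lower bound of the sieve product -/
lemma V_low (a : Fin s → ℤ) (k b : ℕ) (hk : 1 ≤ k) (hb : 2 ≤ b) : ∃ v : ℝ, 0 < v ∧ ∀ᶠ K : ℕ in atTop,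
    ∀ c : Fin s → ℤ, ∀ P : Finset (Fin s × ℕ), P.card = k → Adm a c P →
      v / (K : ℝ) ^ k ≤ V a c P (b ^ K) := by
  classical
  obtain ⟨v, hv, hVl⟩ := Pool.Agent.H225.VL.lower k b hk hb
  refine ⟨v, hv, ?_⟩
  filter_upwards [hVl] with K hVK c P hPk hadm
  rw [← WG_TM a c 0 P]
  refine hVK (TM a c 0 P) (fun p hp => ?_) (fun p hp => ?_)
  · exact le_trans (le_of_eq (by convert card_TM a c 0 P hp)) ((nu_le_card hadm hp).trans hPk.le)
  · exact lt_of_eq_of_lt (by convert card_TM a c 0 P hp) (nu_lt hadm hp)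

end Pool.Agent.H225.MX
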