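import Pool.Agent.H225.MX

/-!
# Exact neighbourhoods of the values of several linear forms
-/

set_option autoImplicit false

namespace Pool.Agent.H225.MX

open Finset Filter
open Pool.Agent.Y816.PD (WG NA ND WG_nonneg TP WG_bounds ND_sub NA_nonneg)
open Pool.Agent.H225.DG (AP)
open Pool.Agent.H225.EX (Rough ND_cover)
open Pool.Agent.H225.GX (few_primes)
open Pool.Agent.H373R2.T7 (pz mem_pz)

variable {s : ℕ}

lemma xy_le' {x y : ℕ} (h1 : 1 ≤ x) (h4 : 4 ≤ y) : y * (x + y) + y * (x + y) ≤ x * (y * (y * y)) := by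
  have h8 : 4 * (x * (y * y)) ≤ x * (y * (y * y)) := by
    calc 4 * (x * (y * y)) ≤ y * (x * (y * y)) := Nat.mul_le_mul_right _ h4
      _ = x * (y * (y * y)) := by ring
  have h9 : y * x ≤ x * (y * y) := by
    calc y * x = x * (y * 1) := by ring
      _ ≤ x * (y * y) := Nat.mul_le_mul_left _ (Nat.mul_le_mul_left _ (by omega))
  have h10 : y * y ≤ x * (y * y) := Nat.le_mul_of_pos_left _ h1
  have e : y * (x + y) = y * x + y * y := by ring
  rw [e]
  omega

open Classical in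
/-- the average of the products over the coincidences -/
theorem avgCo (a : Fin s → ℤ) {p0 : ℕ} (hp0 : ∀ p : ℕ, p.Prime → p0 < p → ∀ i, ¬ (p : ℤ) ∣ a i)
    (k b D : ℕ) (hb : 2 ≤ b) : ∃ C : ℝ, 0 < C ∧ ∀ c0 : ℝ, 0 < c0 → ∀ᶠ K : ℕ in atTop,
    ∀ T : ℕ, c0 * K ≤ T → T ≤ K + 1 → ∀ c : Fin s → ℤ, (∀ i, (c i).natAbs ≤ b ^ (D * K)) →
    ∀ P : Finset (Fin s × ℕ), P.card ≤ k → (∀ x ∈ P, x.2 < T) → ∀ i : Fin s,
    ∀ S : Finset ℕ, (∀ x ∈ P, x.1 ≠ i → ∀ j ∈ S, a x.1 * (c i + j) ≠ a i * (c x.1 + x.2)) →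
    (∀ j ∈ S, j < T ∧ (i, j) ∉ P) →
    ∑ j ∈ S, ∏ p ∈ (pz (b ^ K)).filter (fun p : ℕ => p0 < p ∧ Co a c P i p j),
      (1 + (2 : ℕ) / (p : ℝ)) ≤ C * T := by
  obtain ⟨C, hC, T₀, hT₀, havg⟩ := Pool.Agent.W123.RU.avg 2 k 1 p0
  refine ⟨C, by linarith, fun c0 hc0 => ?_⟩
  obtain ⟨B₀, hB₀⟩ : ∃ B₀ : ℕ, B₀ = ⌈(k : ℝ) * (b * (D + 3)) / c0⌉₊ + 1 := ⟨_, rfl⟩
  have hB₀c : (k : ℝ) * (b * (D + 3)) ≤ B₀ * c0 := by
    have h1 : (k : ℝ) * (b * (D + 3)) / c0 ≤ B₀ := by
      rw [hB₀]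
      push_cast
      linarith [Nat.le_ceil ((k : ℝ) * (b * (D + 3)) / c0)]
    rwa [div_le_iff₀ hc0] at h1
  obtain ⟨A', hA'⟩ : ∃ A' : ℕ, A' = ∑ i, (a i).natAbs := ⟨_, rfl⟩
  have haA : ∀ i, (a i).natAbs ≤ A' := fun i => by
    rw [hA']
    exact single_le_sum (f := fun i => (a i).natAbs) (fun _ _ => Nat.zero_le _) (mem_univ i)
  filter_upwards [tendsto_natCast_atTop_atTop.eventually_ge_atTop (((T₀ + 2 ^ B₀ + p0 : ℕ) : ℝ) / c0),
    eventually_ge_atTop (A' + 2)] with K hK hK2 T hcT hTK c hc P hPk hPT i S hsep hS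
  have hTbig : T₀ + 2 ^ B₀ + p0 ≤ T := by
    rw [div_le_iff₀ hc0] at hK
    have : ((T₀ + 2 ^ B₀ + p0 : ℕ) : ℝ) ≤ T := by linarith
    exact_mod_cast this
  have hT : T₀ ≤ T := le_trans (Nat.le_add_right _ _) (le_trans (Nat.le_add_right _ _) hTbig)
  have hTB : 2 ^ B₀ ≤ T := le_trans (Nat.le_add_left _ _) (le_trans (Nat.le_add_right _ _) hTbig)
  have hTp : p0 ≤ T := le_trans (Nat.le_add_left _ _) hTbig
  have hKlt : K < b ^ K := Nat.lt_pow_self (by omega)
  obtain ⟨Co', hCo'⟩ : ∃ Co' : ℕ → ℕ → Prop, Co' = fun (p i' : ℕ) => ∃ x ∈ P,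
    (p : ℤ) ∣ a x.1 * (c i + (i' : ℤ) - 1) - a i * (c x.1 + x.2) := ⟨_, rfl⟩
  have hcoll : Pool.Agent.W123.RU.Coll Co' p0 k := by
    constructor
    · intro p n
      rw [hCo']
      simp only
      refine exists_congr fun x => and_congr_right fun _ => ?_
      have e : a x.1 * (c i + (n : ℤ) - 1) - a i * (c x.1 + x.2) =
          (a x.1 * (c i + ((n % p : ℕ) : ℤ) - 1) - a i * (c x.1 + x.2)) +
            p * (a x.1 * ((n / p : ℕ) : ℤ)) := by
        have : (n : ℤ) = ((n % p : ℕ) : ℤ) + p * ((n / p : ℕ) : ℤ) := by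
          exact_mod_cast (Nat.mod_add_div n p).symm
        conv_lhs => rw [this]
        ring
      rw [e]
      exact ⟨fun h => (dvd_add_left (dvd_mul_right _ _)).1 h, fun h => h.add (dvd_mul_right _ _)⟩
    · intro p hp hpp0
      have h1 : (range p).filter (fun r => Co' p r) ⊆
          P.biUnion (fun x => (range p).filter (fun r : ℕ =>
            (p : ℤ) ∣ a x.1 * (c i + r - 1) - a i * (c x.1 + x.2))) := by
        intro r hr
        rw [mem_filter, mem_range, hCo'] at hr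
        obtain ⟨hr, x, hx, h1⟩ := hr
        exact mem_biUnion.2 ⟨x, hx, mem_filter.2 ⟨mem_range.2 hr, h1⟩⟩
      refine (card_le_card h1).trans ((card_biUnion_le.trans ?_).trans hPk)
      rw [card_eq_sum_ones]
      refine sum_le_sum fun x _ => ?_
      rw [card_le_one]
      intro y hy z hz
      rw [mem_filter, mem_range] at hy hz
      have h2 := dvd_sub hy.2 hz.2
      rw [show (a x.1 * (c i + (y : ℤ) - 1) - a i * (c x.1 + x.2)) -
        (a x.1 * (c i + (z : ℤ) - 1) - a i * (c x.1 + x.2)) = a x.1 * ((y : ℤ) - z) by ring] at h2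
      rcases (Nat.prime_iff_prime_int.1 hp).dvd_or_dvd h2 with h3 | h3
      · exact absurd h3 (hp0 p hp hpp0 x.1)
      · have h4 : z ≡ y [MOD p] := Nat.modEq_iff_dvd.2 h3
        unfold Nat.ModEq at h4
        rw [Nat.mod_eq_of_lt hy.1, Nat.mod_eq_of_lt hz.1] at h4
        exact h4.symm
  have hEs : S.image (fun j => j + 1) ⊆ Icc 1 T := by
    intro i' hi
    rw [mem_image] at hi
    obtain ⟨j, hj, rfl⟩ := hi
    have := (hS j hj).1
    rw [mem_Icc]
    omega
  have hiff : ∀ p j : ℕ, Co' p (j + 1) ↔ Co a c P i p j := by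
    intro p j
    rw [hCo']
    refine exists_congr fun x => and_congr_right fun _ => ?_
    have e : c i + ((j + 1 : ℕ) : ℤ) - 1 = c i + j := by
      push_cast
      ring
    rw [e]
  have hEc : ∀ i' ∈ S.image (fun j => j + 1),
      ((pz (b ^ K)).filter (fun p : ℕ => T < p ∧ Co' p i')).card ≤ 1 * T := by
    intro i' hi
    rw [mem_image] at hi
    obtain ⟨j, hj, rfl⟩ := hi
    obtain ⟨hjT, hjP⟩ := hS j hj
    have h0 : (pz (b ^ K)).filter (fun p : ℕ => T < p ∧ Co' p (j + 1)) ⊆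
        (P.filter (fun x => x.1 ≠ i)).biUnion (fun x => (pz (b ^ K)).filter (fun p : ℕ => T < p ∧
          p ∣ (a x.1 * (c i + j) - a i * (c x.1 + x.2)).natAbs)) := by
      intro p hp
      rw [mem_filter] at hp
      obtain ⟨hp1, hTp', hco⟩ := hp
      rw [hiff] at hco
      obtain ⟨x, hx, hd⟩ := hco
      have hpp : p.Prime := (mem_pz.1 hp1).2
      by_cases hxi : x.1 = i
      · exfalso
        rw [hxi] at hd
        rw [show a i * (c i + (j : ℤ)) - a i * (c i + (x.2 : ℤ)) = a i * ((j : ℤ) - x.2) by ring] at hd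
        rcases (Nat.prime_iff_prime_int.1 hpp).dvd_or_dvd hd with h3 | h3
        · exact hp0 p hpp (by omega) i h3
        · have h4 : x.2 ≡ j [MOD p] := Nat.modEq_iff_dvd.2 h3
          have h5 := hPT x hx
          unfold Nat.ModEq at h4
          rw [Nat.mod_eq_of_lt (by omega), Nat.mod_eq_of_lt (by omega)] at h4
          refine hjP ?_
          rw [← h4, ← hxi]
          exact hx
      · exact mem_biUnion.2 ⟨x, mem_filter.2 ⟨hx, hxi⟩,
          mem_filter.2 ⟨hp1, hTp', Int.natCast_dvd.1 hd⟩⟩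
    have h4 : ∀ x ∈ P.filter (fun x => x.1 ≠ i), B₀ * ((pz (b ^ K)).filter (fun p : ℕ => T < p ∧
        p ∣ (a x.1 * (c i + j) - a i * (c x.1 + x.2)).natAbs)).card ≤ b * ((D + 3) * K) := by
      intro x hx
      rw [mem_filter] at hx
      have hxT := hPT x hx.1
      refine few_primes (m := (a x.1 * (c i + j) - a i * (c x.1 + x.2)).natAbs) (by omega) hTB
        ?_ ?_ _ (fun p hp => ?_)
      · refine Nat.pos_of_ne_zero fun h => hsep x hx.1 hx.2 j hj ?_
        exact sub_eq_zero.1 (Int.natAbs_eq_zero.1 h)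
      · have e : b ^ ((D + 3) * K) = b ^ (D * K) * (b ^ K * (b ^ K * b ^ K)) := by
          rw [← pow_add, ← pow_add, ← pow_add]
          congr 1
          ring
        rw [e]
        have h1b : 1 ≤ b ^ (D * K) := Nat.one_le_pow _ _ (by omega)
        have h4b : 4 ≤ b ^ K := by
          calc 4 = 2 ^ 2 := by norm_num
            _ ≤ 2 ^ K := Nat.pow_le_pow_right (by norm_num) (by omega)
            _ ≤ b ^ K := Nat.pow_le_pow_left hb K
        refine le_trans ?_ (xy_le' h1b h4b)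
        refine (Int.natAbs_sub_le _ _).trans ?_
        rw [Int.natAbs_mul, Int.natAbs_mul]
        refine Nat.add_le_add (Nat.mul_le_mul ?_ ?_) (Nat.mul_le_mul ?_ ?_)
        · have := haA x.1
          omega
        · refine (Int.natAbs_add_le _ _).trans (Nat.add_le_add (hc i) ?_)
          rw [Int.natAbs_natCast]
          omega
        · have := haA i
          omega
        · refine (Int.natAbs_add_le _ _).trans (Nat.add_le_add (hc x.1) ?_)
          rw [Int.natAbs_natCast]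
          omega
      · rw [mem_filter, mem_pz] at hp
        exact ⟨hp.1.2, hp.2.1, hp.2.2⟩
    rw [one_mul]
    have h5 : B₀ * ((pz (b ^ K)).filter (fun p : ℕ => T < p ∧ Co' p (j + 1))).card ≤ B₀ * T := by
      calc B₀ * ((pz (b ^ K)).filter (fun p : ℕ => T < p ∧ Co' p (j + 1))).card
          ≤ B₀ * ∑ x ∈ P.filter (fun x => x.1 ≠ i), ((pz (b ^ K)).filter (fun p : ℕ => T < p ∧
            p ∣ (a x.1 * (c i + j) - a i * (c x.1 + x.2)).natAbs)).card :=
            Nat.mul_le_mul_left _ ((card_le_card h0).trans card_biUnion_le)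
        _ = ∑ x ∈ P.filter (fun x => x.1 ≠ i), B₀ * ((pz (b ^ K)).filter (fun p : ℕ => T < p ∧
            p ∣ (a x.1 * (c i + j) - a i * (c x.1 + x.2)).natAbs)).card := by
            rw [mul_sum]
        _ ≤ ∑ _x ∈ P.filter (fun x => x.1 ≠ i), b * ((D + 3) * K) := sum_le_sum h4
        _ = (P.filter (fun x => x.1 ≠ i)).card * (b * ((D + 3) * K)) := by
            rw [sum_const, smul_eq_mul]
        _ ≤ k * (b * ((D + 3) * K)) :=
            Nat.mul_le_mul_right _ ((card_filter_le _ _).trans hPk)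
        _ ≤ B₀ * T := by
            have h6 : (k : ℝ) * (b * ((D + 3) * K)) ≤ B₀ * T := by
              calc (k : ℝ) * (b * ((D + 3) * K)) = (k * (b * (D + 3))) * K := by ring
                _ ≤ (B₀ * c0) * K := mul_le_mul_of_nonneg_right hB₀c (Nat.cast_nonneg _)
                _ = B₀ * (c0 * K) := by ring
                _ ≤ _ := mul_le_mul_of_nonneg_left hcT (Nat.cast_nonneg _)
            exact_mod_cast h6
    exact Nat.le_of_mul_le_mul_left h5 (by omega)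
  have h1 := havg T hT Co' hcoll (b ^ K) (S.image (fun j => j + 1)) hEs hEc
  rw [sum_image (fun i _ j _ h => Nat.succ_injective h)] at h1
  refine le_trans (le_of_eq ?_) h1
  refine sum_congr rfl fun j _ => prod_congr ?_ fun _ _ => rfl
  refine filter_congr fun p _ => ?_
  rw [hiff]

/-- **Exact neighbourhoods of the values of several linear forms.** -/
theorem exact (a : Fin s → ℤ) (ha : ∀ i, a i ≠ 0) (k D : ℕ) (hk : 1 ≤ k) :
    ∃ δ : ℝ, 0 < δ ∧ ∃ r₀ : ℕ, 2 ≤ r₀ ∧ ∀ r : ℕ, r₀ ≤ r → ∀ b : ℕ, 2 ≤ b →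
      ∃ κ C c0 : ℝ, 0 < κ ∧ 0 < C ∧ 0 < c0 ∧ ∀ᶠ K : ℕ in atTop, ∀ M : ℕ, M ≤ b ^ (D * K) →
        ∀ c : Fin s → ℤ, (∀ i, (c i).natAbs ≤ b ^ (D * K)) →
        ∀ P : Finset (Fin s × ℕ), P.card = k → (∀ x ∈ P, (x.2 : ℝ) ≤ c0 * K) → Adm a c P →
        (∀ x ∈ P, ∀ y : Fin s × ℕ, x.1 ≠ y.1 → (y.2 : ℝ) ≤ c0 * K → Adm a c (insert y P) →
          a x.1 * (c y.1 + y.2) ≠ a y.1 * (c x.1 + x.2)) →
        ∀ A : ℕ → Finset ℕ, (∀ i < K, A i ⊆ range b) →
        (b : ℝ) ^ K ≤ Real.exp (δ * K) * NA K A →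
        κ / (K : ℝ) ^ k ≤ V a c P (b ^ K) ∧
        ((∃ e ∈ A 0, ∀ x ∈ P, (fm a c x (M + e)).natAbs.Coprime b) → (∃ e ∈ A (K - 1), e ≠ 0) →
          κ * NA K A * V a c P (b ^ K) ≤
            ND b K A {n | b ^ (K - 1) ≤ n ∧ (∀ x ∈ P, AP r (b ^ K) (fm a c x (M + n)).natAbs) ∧
              ∀ x : Fin s × ℕ, (x.2 : ℝ) ≤ c0 * K → x ∉ P →
                ¬ Rough r (b ^ K) (fm a c x (M + n)).natAbs}) ∧
        (ND b K A {n | ∀ x ∈ P, ∀ p : ℕ, p.Prime → p ∣ (fm a c x (M + n)).natAbs → n < p ^ r} : ℝ) ≤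
          C * NA K A * V a c P (b ^ K) := by
  classical
  obtain ⟨δ1, hδ1, r1, hr1, ht1⟩ := tup a k D hk
  obtain ⟨δ2, hδ2, r2, hr2, ht2⟩ := tup a (k + 1) D (by omega)
  refine ⟨min δ1 δ2, lt_min hδ1 hδ2, max r1 r2, hr1.trans (le_max_left _ _), fun r hr b hb => ?_⟩
  obtain ⟨κ, C, hκ, hC, h1⟩ := ht1 r ((le_max_left _ _).trans hr) b hb
  obtain ⟨κ2, C2, hκ2, hC2, h2⟩ := ht2 r ((le_max_right _ _).trans hr) b hb
  obtain ⟨p0, hp0'⟩ : ∃ p0 : ℕ, p0 = ∑ i, (a i).natAbs := ⟨_, rfl⟩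
  have hp0 : ∀ p : ℕ, p.Prime → p0 < p → ∀ i, ¬ (p : ℤ) ∣ a i := by
    intro p _ hpp i hd
    have h3 : (a i).natAbs ≤ p0 := by
      rw [hp0']
      exact single_le_sum (f := fun i => (a i).natAbs) (fun _ _ => Nat.zero_le _) (mem_univ i)
    have h4 := Nat.le_of_dvd (Int.natAbs_pos.2 (ha i)) (Int.natCast_dvd.1 hd)
    omega
  obtain ⟨w, Cv, hw, hCv, hW⟩ := WG_bounds {0} (fun p hp => ⟨1, fun h hh => by
    rw [mem_singleton] at hh
    subst hh
    simpa using hp.one_lt.ne'⟩) 1 (card_singleton 0) b hb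
  obtain ⟨C4, hC4, h3⟩ := avgCo a hp0 k b D hb
  obtain ⟨E, hE⟩ : ∃ E : ℝ, E = ∏ p ∈ (Icc 1 p0).filter Nat.Prime, (1 + (2 : ℕ) / (p : ℝ)) := ⟨_, rfl⟩
  have hE0 : 0 < E := by
    rw [hE]
    exact prod_pos fun p _ => by positivity
  obtain ⟨C3, hC3e⟩ : ∃ C3 : ℝ, C3 = (s + 1) * (Cv * (E * C4)) := ⟨_, rfl⟩
  have hC3 : 0 < C3 := by rw [hC3e]; positivity
  obtain ⟨v, hv, hVl⟩ := V_low a k b hk hb
  obtain ⟨c0, hc⟩ : ∃ c0 : ℝ, c0 = min 1 (κ / (4 * C2 * C3)) := ⟨_, rfl⟩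
  have hc0 : 0 < c0 := by rw [hc]; exact lt_min one_pos (by positivity)
  have hc1 : c0 ≤ 1 := by rw [hc]; exact min_le_left _ _
  have hc2 : C2 * C3 * (2 * c0) ≤ κ / 2 := by
    have : c0 ≤ κ / (4 * C2 * C3) := by rw [hc]; exact min_le_right _ _
    rw [le_div_iff₀ (by positivity)] at this
    linarith
  refine ⟨min (κ / 2) v, C, c0, lt_min (by positivity) hv, hC, hc0, ?_⟩
  have hbpow : Tendsto (fun K : ℕ => b ^ K) atTop atTop :=
    tendsto_pow_atTop_atTop_of_one_lt (by omega)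
  filter_upwards [h1, h2, h3 c0 hc0, hVl, hW, hbpow.eventually_gt_atTop ((k + 1 + p0) ^ r),
    tendsto_natCast_atTop_atTop.eventually_ge_atTop (1 / c0), eventually_ge_atTop 1] with
    K hK1 hK2 hK3 hVK hWK hKb hKT hK0 M hM c hcb P hPk hPc hadm hsep A hA hprod
  have hKr0 : (0 : ℝ) < K := by exact_mod_cast hK0
  have hcK : 1 ≤ c0 * K := by
    rw [div_le_iff₀ hc0] at hKT
    linarith
  obtain ⟨T, hT⟩ : ∃ T, T = ⌊c0 * K⌋₊ + 1 := ⟨_, rfl⟩
  have hTle : (T : ℝ) ≤ 2 * c0 * K := by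
    have h4 : (⌊c0 * K⌋₊ : ℝ) ≤ c0 * K := Nat.floor_le (by positivity)
    rw [hT]
    push_cast
    linarith
  have hcT : c0 * K ≤ T := by
    have h4 : c0 * K < ⌊c0 * K⌋₊ + 1 := Nat.lt_floor_add_one _
    rw [hT]
    push_cast
    linarith
  have hmem : ∀ j : ℕ, (j : ℝ) ≤ c0 * K → j < T := by
    intro j hj
    rw [hT]
    exact Nat.lt_succ_of_le (Nat.le_floor hj)
  have hmem' : ∀ j : ℕ, j < T → (j : ℝ) ≤ c0 * K := by
    intro j hj
    rw [hT] at hj
    have h4 : (⌊c0 * K⌋₊ : ℝ) ≤ c0 * K := Nat.floor_le (by positivity)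
    have h5 : (j : ℝ) ≤ ⌊c0 * K⌋₊ := by exact_mod_cast (by omega : j ≤ ⌊c0 * K⌋₊)
    linarith
  have hTK : T ≤ K + 1 := by
    rw [hT]
    have : ⌊c0 * K⌋₊ ≤ ⌊(K : ℝ)⌋₊ := Nat.floor_le_floor (by nlinarith)
    rw [Nat.floor_natCast] at this
    omega
  have hKlt : K < b ^ K := Nat.lt_pow_self (by omega)
  have hPT : ∀ x ∈ P, x.2 < T := fun x hx => hmem _ (hPc x hx)
  have hPb : ∀ x ∈ P, x.2 ≤ b ^ K := fun x hx => by
    have := hPT x hx
    omega
  have hNA := NA_nonneg K A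
  have hexp : ∀ δ : ℝ, min δ1 δ2 ≤ δ → (b : ℝ) ^ K ≤ Real.exp (δ * K) * NA K A := by
    intro δ hδ
    refine hprod.trans (mul_le_mul_of_nonneg_right (Real.exp_le_exp.2 ?_) hNA)
    exact mul_le_mul_of_nonneg_right hδ hKr0.le
  obtain ⟨h4, h5⟩ := hK1 M hM c hcb P hPk hPb hadm A hA (hexp δ1 (min_le_left _ _))
  have hW0 := V_nonneg (b ^ K) hadm
  refine ⟨?_, ?_, h5⟩
  · exact le_trans (div_le_div_of_nonneg_right (min_le_right _ _) (by positivity))
      (hVK c P hPk hadm)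
  · intro hcop htop
    have h6 := h4 hcop htop
    obtain ⟨J, hJ⟩ : ∃ J : Finset (Fin s × ℕ), J = ((univ : Finset (Fin s)) ×ˢ range T).filter
        (fun x => x ∉ P ∧ Adm a c (insert x P)) := ⟨_, rfl⟩
    have h7 : ND b K A {n | b ^ (K - 1) ≤ n ∧ ∀ x ∈ P, AP r (b ^ K) (fm a c x (M + n)).natAbs} ≤
        ND b K A {n | b ^ (K - 1) ≤ n ∧ (∀ x ∈ P, AP r (b ^ K) (fm a c x (M + n)).natAbs) ∧
              ∀ x : Fin s × ℕ, (x.2 : ℝ) ≤ c0 * K → x ∉ P →
                ¬ Rough r (b ^ K) (fm a c x (M + n)).natAbs} +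
        ∑ y ∈ J, ND b K A {n | ∀ x ∈ insert y P, ∀ p : ℕ, p.Prime →
          p ∣ (fm a c x (M + n)).natAbs → n < p ^ r} := by
      refine ND_cover J _ fun n hn hn1 => ?_
      obtain ⟨hn2, hn3⟩ := hn1
      by_cases hg : ∀ x : Fin s × ℕ, (x.2 : ℝ) ≤ c0 * K → x ∉ P →
          ¬ Rough r (b ^ K) (fm a c x (M + n)).natAbs
      · exact Or.inl ⟨hn2, hn3, hg⟩
      · push Not at hg
        obtain ⟨y, hy1, hy2, hy3⟩ := hg
        have hall : ∀ x ∈ insert y P, ∀ p : ℕ, p.Prime → p ∣ (fm a c x (M + n)).natAbs →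
            b ^ K < p ^ r := by
          intro x hx p hp hd
          rw [mem_insert] at hx
          rcases hx with rfl | hx
          · exact hy3 p hp hd
          · exact (hn3 x hx).1 p hp hd
        right
        refine ⟨y, ?_, fun x hx p hp hd => hn.trans (hall x hx p hp hd)⟩
        rw [hJ, mem_filter, mem_product, mem_range]
        refine ⟨⟨mem_univ _, hmem _ hy1⟩, hy2, ?_⟩
        by_contra hna
        obtain ⟨p, hp, hpk, hcov⟩ := small_of_not_adm (k := k + 1) hp0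
          ((card_insert_le _ _).trans (by omega)) hna
        obtain ⟨x, hx, hd⟩ := hcov (M + n)
        have h8 := hall x hx p hp (Int.natCast_dvd.1 hd)
        have h9 : p ^ r ≤ (k + 1 + p0) ^ r := Nat.pow_le_pow_left hpk r
        omega
    have h8 : ∀ y ∈ J, (ND b K A {n | ∀ x ∈ insert y P, ∀ p : ℕ, p.Prime →
        p ∣ (fm a c x (M + n)).natAbs → n < p ^ r} : ℝ) ≤
        C2 * NA K A * V a c (insert y P) (b ^ K) := by
      intro y hy
      rw [hJ, mem_filter, mem_product, mem_range] at hy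
      refine (hK2 M hM c hcb (insert y P) ?_ ?_ hy.2.2 A hA (hexp δ2 (min_le_right _ _))).2
      · rw [card_insert_of_notMem hy.2.1, hPk]
      · intro x hx
        rw [mem_insert] at hx
        rcases hx with rfl | hx
        · omega
        · exact hPb x hx
    -- the average
    obtain ⟨-, hW1⟩ := hWK 0
    rw [pow_one] at hW1
    have hP1 : 0 ≤ WG (TP {0} 0) (b ^ K) := WG_nonneg _ _
    have h9 : ∑ y ∈ J, V a c (insert y P) (b ^ K) ≤ C3 * T / K * V a c P (b ^ K) := by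
      have hsum : ∑ y ∈ J, V a c (insert y P) (b ^ K) = ∑ i : Fin s, ∑ j ∈ (range T).filter
          (fun j => (i, j) ∉ P ∧ Adm a c (insert (i, j) P)), V a c (insert (i, j) P) (b ^ K) := by
        rw [hJ, sum_filter, sum_product]
        refine sum_congr rfl fun i _ => ?_
        rw [sum_filter]
      have hone : ∀ i : Fin s, ∑ j ∈ (range T).filter
          (fun j => (i, j) ∉ P ∧ Adm a c (insert (i, j) P)), V a c (insert (i, j) P) (b ^ K) ≤
          V a c P (b ^ K) * (Cv / K * (E * (C4 * T))) := by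
        intro i
        obtain ⟨S, hS⟩ : ∃ S, S = (range T).filter
          (fun j => (i, j) ∉ P ∧ Adm a c (insert (i, j) P)) := ⟨_, rfl⟩
        rw [← hS]
        have hSm : ∀ j ∈ S, j < T ∧ (i, j) ∉ P ∧ Adm a c (insert (i, j) P) := by
          intro j hj
          rw [hS, mem_filter, mem_range] at hj
          exact hj
        have h2 := hK3 T hcT hTK c hcb P hPk.le hPT i S (fun x hx hxi j hj =>
          hsep x hx (i, j) hxi (hmem' j (hSm j hj).1) (hSm j hj).2.2)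
          (fun j hj => ⟨(hSm j hj).1, (hSm j hj).2.1⟩)
        calc ∑ j ∈ S, V a c (insert (i, j) P) (b ^ K)
            ≤ ∑ j ∈ S, V a c P (b ^ K) * (WG (TP {0} 0) (b ^ K) * (E *
              ∏ p ∈ (pz (b ^ K)).filter (fun p : ℕ => p0 < p ∧ Co a c P i p j),
                (1 + (2 : ℕ) / (p : ℝ)))) := sum_le_sum fun j hj => by
              rw [hE]
              exact V_insert hp0 hadm i j (b ^ K) (hSm j hj).2.2
          _ = V a c P (b ^ K) * (WG (TP {0} 0) (b ^ K) * (E * ∑ j ∈ S,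
              ∏ p ∈ (pz (b ^ K)).filter (fun p : ℕ => p0 < p ∧ Co a c P i p j),
                (1 + (2 : ℕ) / (p : ℝ)))) := by
              rw [mul_sum, mul_sum, mul_sum]
          _ ≤ V a c P (b ^ K) * (Cv / K * (E * (C4 * T))) := by
              refine mul_le_mul_of_nonneg_left ?_ hW0
              refine mul_le_mul hW1 (mul_le_mul_of_nonneg_left h2 hE0.le) ?_ (by positivity)
              exact mul_nonneg hE0.le (sum_nonneg fun j _ => prod_nonneg fun p _ => by positivity)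
      rw [hsum]
      calc _ ≤ ∑ _i : Fin s, V a c P (b ^ K) * (Cv / K * (E * (C4 * T))) :=
            sum_le_sum fun i _ => hone i
        _ = s * (V a c P (b ^ K) * (Cv / K * (E * (C4 * T)))) := by
            rw [sum_const, card_univ, Fintype.card_fin, nsmul_eq_mul]
        _ ≤ (s + 1) * (V a c P (b ^ K) * (Cv / K * (E * (C4 * T)))) := by
            refine mul_le_mul_of_nonneg_right (by linarith) ?_
            exact mul_nonneg hW0 (by positivity)
        _ = _ := by rw [hC3e]; ring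
    have h10 : (ND b K A {n | b ^ (K - 1) ≤ n ∧
        ∀ x ∈ P, AP r (b ^ K) (fm a c x (M + n)).natAbs} : ℝ) ≤
        ND b K A {n | b ^ (K - 1) ≤ n ∧ (∀ x ∈ P, AP r (b ^ K) (fm a c x (M + n)).natAbs) ∧
              ∀ x : Fin s × ℕ, (x.2 : ℝ) ≤ c0 * K → x ∉ P →
                ¬ Rough r (b ^ K) (fm a c x (M + n)).natAbs} +
        ∑ y ∈ J, (ND b K A {n | ∀ x ∈ insert y P, ∀ p : ℕ, p.Prime →
          p ∣ (fm a c x (M + n)).natAbs → n < p ^ r} : ℝ) := by exact_mod_cast h7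
    have h11 : ∑ y ∈ J, (ND b K A {n | ∀ x ∈ insert y P, ∀ p : ℕ, p.Prime →
          p ∣ (fm a c x (M + n)).natAbs → n < p ^ r} : ℝ) ≤
        κ / 2 * (NA K A * V a c P (b ^ K)) := by
      calc _ ≤ ∑ y ∈ J, C2 * NA K A * V a c (insert y P) (b ^ K) := sum_le_sum h8
        _ = C2 * NA K A * ∑ y ∈ J, V a c (insert y P) (b ^ K) := by rw [mul_sum]
        _ ≤ C2 * NA K A * (C3 * T / K * V a c P (b ^ K)) :=
            mul_le_mul_of_nonneg_left h9 (by positivity)
        _ = (C2 * C3 * (T / K)) * (NA K A * V a c P (b ^ K)) := by ring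
        _ ≤ κ / 2 * (NA K A * V a c P (b ^ K)) := by
            refine mul_le_mul_of_nonneg_right ?_ (by positivity)
            refine le_trans ?_ hc2
            refine mul_le_mul_of_nonneg_left ?_ (by positivity)
            rw [div_le_iff₀ hKr0]
            exact hTle
    have h12 : min (κ / 2) v * NA K A * V a c P (b ^ K) ≤ κ / 2 * (NA K A * V a c P (b ^ K)) := by
      rw [mul_assoc]
      exact mul_le_mul_of_nonneg_right (min_le_left _ _) (by positivity)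
    have h13 : κ * NA K A * V a c P (b ^ K) = κ / 2 * (NA K A * V a c P (b ^ K)) +
        κ / 2 * (NA K A * V a c P (b ^ K)) := by ring
    linarith

/-- proportional shifted forms are not admissible, if the coefficients divide each other -/
lemma sep_of_dvd {a c : Fin s → ℤ} (ha : ∀ i, a i ≠ 0)
    (hdv : ∀ i i' : Fin s, i ≠ i' → (∃ q : ℤ, 2 ≤ q.natAbs ∧ a i' = q * a i) ∨
      ∃ q : ℤ, 2 ≤ q.natAbs ∧ a i = q * a i') {P : Finset (Fin s × ℕ)}
    (x : Fin s × ℕ) (hx : x ∈ P) (y : Fin s × ℕ) (hxy : x.1 ≠ y.1) (hadm : Adm a c (insert y P)) :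
    a x.1 * (c y.1 + y.2) ≠ a y.1 * (c x.1 + x.2) := by
  intro he
  have key : ∀ u v : Fin s × ℕ, v ∈ insert y P → (∃ q : ℤ, 2 ≤ q.natAbs ∧ a v.1 = q * a u.1) →
      a u.1 * (c v.1 + v.2) = a v.1 * (c u.1 + u.2) → False := by
    rintro u v hv ⟨q, hq, hqa⟩ h
    rw [hqa] at h
    have h1 : c v.1 + v.2 = q * (c u.1 + u.2) := by
      refine mul_left_cancel₀ (ha u.1) ?_
      rw [h]
      ring
    obtain ⟨p, hp, hpq⟩ := Nat.exists_prime_and_dvd (by omega : q.natAbs ≠ 1)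
    obtain ⟨m, hm⟩ := hadm p hp
    refine hm ⟨v, hv, ?_⟩
    have e : fm a c v m = q * (a u.1 * m + (c u.1 + u.2)) := by
      unfold fm
      rw [add_assoc, h1, hqa]
      ring
    rw [e]
    exact (Int.natCast_dvd.2 hpq).mul_right _
  rcases hdv x.1 y.1 hxy with h | h
  · exact key x y (mem_insert_self _ _) h he
  · exact key y x (mem_insert_of_mem hx) h he.symm

end Pool.Agent.H225.MX
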