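import Pool.Agent.H225.MX2

/-!
# Proportional shifted forms are not admissible
-/

set_option autoImplicit false

namespace Pool.Agent.H225.MX

open Finset

variable {s : ℕ}

/-- proportional shifted forms are not admissible, if the coefficients are not equal up to sign -/
lemma sep_of_ne {a c : Fin s → ℤ} (ha : ∀ i, a i ≠ 0)
    (hne : ∀ i i' : Fin s, i ≠ i' → (a i).natAbs ≠ (a i').natAbs) {P : Finset (Fin s × ℕ)}
    (x : Fin s × ℕ) (hx : x ∈ P) (y : Fin s × ℕ) (hxy : x.1 ≠ y.1) (hadm : Adm a c (insert y P)) :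
    a x.1 * (c y.1 + y.2) ≠ a y.1 * (c x.1 + x.2) := by
  intro he
  obtain ⟨g, hg⟩ : ∃ g : ℤ, g = ((Int.gcd (a x.1) (a y.1) : ℕ) : ℤ) := ⟨_, rfl⟩
  have hg0 : g ≠ 0 := by
    rw [hg]
    exact_mod_cast (Int.gcd_pos_of_ne_zero_left _ (ha x.1)).ne'
  obtain ⟨u, hu⟩ : g ∣ a x.1 := hg ▸ Int.gcd_dvd_left _ _
  obtain ⟨v, hv⟩ : g ∣ a y.1 := hg ▸ Int.gcd_dvd_right _ _
  have hcop : IsCoprime u v := by
    rw [Int.isCoprime_iff_gcd_eq_one]
    have h1 : Int.gcd (g * u) (g * v) = g.natAbs * Int.gcd u v := Int.gcd_mul_left _ _ _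
    rw [← hu, ← hv] at h1
    have h2 : g.natAbs = Int.gcd (a x.1) (a y.1) := by
      rw [hg, Int.natAbs_natCast]
    rw [h2] at h1
    have h3 : 0 < Int.gcd (a x.1) (a y.1) := Int.gcd_pos_of_ne_zero_left _ (ha x.1)
    exact (Nat.eq_of_mul_eq_mul_left h3 (by rw [mul_one]; exact h1)).symm
  have he2 : u * (c y.1 + y.2) = v * (c x.1 + x.2) := by
    refine mul_left_cancel₀ hg0 ?_
    rw [← mul_assoc, ← mul_assoc, ← hu, ← hv]
    exact he
  -- the common factor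
  have h1 : v ∣ c y.1 + y.2 := hcop.symm.dvd_of_dvd_mul_left (Dvd.intro _ he2.symm)
  have h2 : u ∣ c x.1 + x.2 := hcop.dvd_of_dvd_mul_left (Dvd.intro _ he2)
  have key : ∀ z : Fin s × ℕ, z ∈ insert y P → ∀ w : ℤ, w.natAbs ≠ 1 → w ∣ a z.1 →
      w ∣ c z.1 + z.2 → False := by
    intro z hz w hw h3 h4
    obtain ⟨p, hp, hpw⟩ := Nat.exists_prime_and_dvd hw
    obtain ⟨m, hm⟩ := hadm p hp
    refine hm ⟨z, hz, (Int.natCast_dvd.2 hpw).trans ?_⟩
    have e : fm a c z m = a z.1 * m + (c z.1 + z.2) := by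
      unfold fm
      ring
    rw [e]
    exact dvd_add (h3.mul_right _) h4
  by_cases hu1 : u.natAbs = 1
  · by_cases hv1 : v.natAbs = 1
    · refine hne x.1 y.1 hxy ?_
      rw [hu, hv, Int.natAbs_mul, Int.natAbs_mul, hu1, hv1]
    · exact key y (mem_insert_self _ _) v hv1 (hv ▸ dvd_mul_left _ _) h1
  · exact key x (mem_insert_of_mem hx) u hu1 (hu ▸ dvd_mul_left _ _) h2

end Pool.Agent.H225.MX
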