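import Pool.Agent.H225.SS
import Pool.Agent.H225.EX

/-!
# Pairs `u + t`, `w - t` with fixed sum, at `t` with restricted digits
-/

set_option autoImplicit false

namespace Pool.Agent.H225.PM

open Finset Filter
open Pool.Agent.Y816.PD (WG NA ND ND_sub NA_nonneg WG_nonneg)
open Pool.Agent.H225.DG (AP)
open Pool.Agent.H225.SS (S)

/-- the two forms -/
def F (u w : ℕ) : Fin 2 → ℕ → ℤ := ![fun t => (u : ℤ) + t, fun t => (w : ℤ) - t]

lemma prod_F (u w t : ℕ) : ∏ i, F u w i t = ((u : ℤ) + t) * ((w : ℤ) - t) := by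
  rw [Fin.prod_univ_two]
  rfl

open Classical in
lemma card_F (u w : ℕ) {p : ℕ} (hp : p.Prime) :
    ((range p).filter (fun t : ℕ => (p : ℤ) ∣ ∏ i, F u w i t)).card =
      if p ∣ u + w then 1 else 2 := by
  have hp0 : 0 < p := hp.pos
  obtain ⟨a, ha, ha'⟩ := Pool.Agent.H225.EX.neg_res hp0 u
  have h1 : (range p).filter (fun t : ℕ => (p : ℤ) ∣ ∏ i, F u w i t) = {a, w % p} := by
    ext t
    simp only [mem_filter, mem_range, mem_insert, mem_singleton]
    rw [prod_F, (Nat.prime_iff_prime_int.1 hp).dvd_mul]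
    have e1 : (p : ℤ) ∣ (u : ℤ) + t ↔ p ∣ t + u := by
      rw [add_comm]
      exact_mod_cast Int.natCast_dvd_natCast (m := p) (n := t + u)
    constructor
    · rintro ⟨ht, h | h⟩
      · left
        exact (ha' t ht).1 (e1.1 h)
      · right
        have h2 : (t : ℤ) ≡ w [ZMOD p] := Int.modEq_iff_dvd.2 h
        have h3 : t ≡ w [MOD p] := Int.natCast_modEq_iff.1 h2
        rw [← Nat.mod_eq_of_lt ht]
        exact h3
    · rintro (rfl | rfl)
      · exact ⟨ha, Or.inl (e1.2 ((ha' _ ha).2 rfl))⟩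
      · refine ⟨Nat.mod_lt _ hp0, Or.inr ?_⟩
        have h3 : (w % p : ℕ) ≡ w [MOD p] := Nat.mod_modEq _ _
        exact (Int.natCast_modEq_iff.2 h3).dvd
  rw [h1]
  have h2 : a = w % p ↔ p ∣ u + w := by
    rw [eq_comm, ← ha' (w % p) (Nat.mod_lt _ hp0), Nat.dvd_iff_mod_eq_zero,
      Nat.dvd_iff_mod_eq_zero, Nat.mod_add_mod, add_comm]
  split_ifs with h
  · rw [h2.2 h]
    simp
  · rw [card_pair (fun h3 => h (h2.1 h3))]

/-- **Pairs with fixed sum.** -/
theorem pm (D : ℕ) :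
    ∃ δ : ℝ, 0 < δ ∧ ∃ r₀ : ℕ, 2 ≤ r₀ ∧ ∀ r : ℕ, r₀ ≤ r → ∀ b : ℕ, 2 ≤ b →
      ∃ κ C : ℝ, 0 < κ ∧ 0 < C ∧ ∀ᶠ K : ℕ in atTop, ∀ u w : ℕ, Even (u + w) → b ^ K ≤ w →
        u ≤ b ^ (D * K) → w ≤ b ^ (D * K) → ∀ A : ℕ → Finset ℕ, (∀ i < K, A i ⊆ range b) →
        (b : ℝ) ^ K ≤ Real.exp (δ * K) * NA K A →
        ((∃ e ∈ A 0, (u + e).Coprime b ∧ (w - e).Coprime b) → (∃ e ∈ A (K - 1), e ≠ 0) →
          κ * S (u + w) * NA K A / (K : ℝ) ^ 2 ≤
            ND b K A {t | b ^ (K - 1) ≤ t ∧ AP r (b ^ K) (u + t) ∧ AP r (b ^ K) (w - t)}) ∧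
        (ND b K A {t | (u + t).Prime ∧ (w - t).Prime ∧ t < (w - t) ^ 2} : ℝ) ≤
          C * S (u + w) * NA K A / (K : ℝ) ^ 2 := by
  classical
  obtain ⟨δ, hδ, r₀, hr₀, h⟩ := Pool.Agent.H225.DG.gen 2 1 (D + 2) (by norm_num) le_rfl
  refine ⟨δ, hδ, r₀, hr₀, fun r hr b hb => ?_⟩
  obtain ⟨κ, C, hκ, hC, h1⟩ := h r hr b hb
  obtain ⟨v, Cv, hv, hCv, hS⟩ := Pool.Agent.H225.SS.bounds (D + 2) b hb
  refine ⟨κ * v, C * Cv, by positivity, by positivity, ?_⟩
  filter_upwards [h1, hS, eventually_ge_atTop 2] with K hK hSK hK2 u w huw hbw hu hw A hA hprod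
  have hbK0 : 2 ≤ b ^ K := hb.trans (Nat.le_self_pow (by omega) b)
  have hbb : b ^ ((D + 2) * K) = b ^ (D * K) * b ^ K * b ^ K := by
    rw [← pow_add, ← pow_add]
    congr 1
    ring
  have h11 : b ^ (D * K) ≤ b ^ (D * K) * b ^ K := Nat.le_mul_of_pos_right _ (by omega)
  have h12 : b ^ K ≤ b ^ (D * K) * b ^ K :=
    Nat.le_mul_of_pos_left _ (Nat.one_le_pow _ _ (by omega))
  have h13 : b ^ (D * K) * b ^ K * 2 ≤ b ^ (D * K) * b ^ K * b ^ K := Nat.mul_le_mul_left _ hbK0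
  have hnat : ∀ t < b ^ K, ∀ i, (F u w i t).natAbs = ![u + t, w - t] i := by
    intro t ht i
    fin_cases i
    · change ((u : ℤ) + t).natAbs = u + t
      omega
    · change ((w : ℤ) - t).natAbs = w - t
      omega
  have hpoly : ∀ i, ∃ P : Polynomial ℤ, P.natDegree ≤ 1 ∧ ∀ n : ℕ, P.eval (n : ℤ) = F u w i n := by
    intro i
    fin_cases i
    · refine ⟨Polynomial.C (1 : ℤ) * Polynomial.X + Polynomial.C (u : ℤ),
        Polynomial.natDegree_linear_le, fun n => ?_⟩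
      change _ = (u : ℤ) + n
      simp
      ring
    · refine ⟨Polynomial.C (-1 : ℤ) * Polynomial.X + Polynomial.C (w : ℤ),
        Polynomial.natDegree_linear_le, fun n => ?_⟩
      change _ = (w : ℤ) - n
      simp
      ring
  have hadm : ∀ p : ℕ, p.Prime → ∃ n : ℕ, ∀ i, ¬ (p : ℤ) ∣ F u w i n := by
    intro p hp
    have h2 := card_F u w hp
    have h3 : ((range p).filter (fun t : ℕ => (p : ℤ) ∣ ∏ i, F u w i t)).card < (range p).card := by
      rw [h2, card_range]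
      split_ifs with h4
      · exact hp.one_lt
      · have : p ≠ 2 := by
          rintro rfl
          exact h4 (even_iff_two_dvd.1 huw)
        have := hp.two_le
        omega
    obtain ⟨t, ht, ht'⟩ := exists_mem_notMem_of_card_lt_card h3
    refine ⟨t, fun i hi => ht' (mem_filter.2 ⟨ht, hi.trans (dvd_prod_of_mem _ (mem_univ i))⟩)⟩
  have hsize : ∀ n : ℕ, n < b ^ K → ∀ i, (F u w i n).natAbs ≤ b ^ ((D + 2) * K) := by
    intro n hn i
    rw [hnat n hn i, hbb]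
    fin_cases i
    · change u + n ≤ _
      omega
    · change w - n ≤ _
      omega
  obtain ⟨h4, h5⟩ := hK (F u w) hpoly hadm hsize A hA hprod
  have hNA := NA_nonneg K A
  obtain ⟨hS1, hS2⟩ := hSK (u + w) (fun t => ∏ i, F u w i t) huw (by omega)
    (by rw [hbb]; omega) (fun p hp => by convert card_F u w hp)
  constructor
  · rintro ⟨e, he, hc1, hc2⟩ htop
    have heb : e < b ^ K := lt_of_lt_of_le (mem_range.1 (hA 0 (by omega) he))
      (Nat.le_self_pow (by omega) b)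
    refine le_trans ?_ ((h4 ⟨e, he, fun i => ?_⟩ htop).trans (Nat.cast_le.2 ?_))
    · calc κ * v * S (u + w) * NA K A / (K : ℝ) ^ 2
          = κ * NA K A * (v * S (u + w) / (K : ℝ) ^ 2) := by ring
        _ ≤ _ := mul_le_mul_of_nonneg_left hS1 (by positivity)
    · rw [hnat e heb i]
      fin_cases i
      · exact hc1
      · exact hc2
    · refine ND_sub fun n hn hn1 hn2 => ⟨hn1, hn2.1, ?_, ?_⟩
      · have := hn2.2 0
        rw [hnat n hn 0] at this
        exact this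
      · have := hn2.2 1
        rw [hnat n hn 1] at this
        exact this
  · refine le_trans (Nat.cast_le.2 ?_) (h5.trans ?_)
    · refine ND_sub fun n hn hn1 hn2 => ⟨hn1, fun i => ?_⟩
      rw [hnat n hn i]
      have hr2 : 2 ≤ r := hr₀.trans hr
      have hlt : ∀ q : ℕ, q.Prime → n < q ^ 2 → n < q ^ r := fun q hq hlt =>
        hlt.trans_le (Nat.pow_le_pow_right hq.pos hr2)
      fin_cases i
      · refine ⟨hn2.1, hlt _ hn2.1 ?_⟩
        have : u + n < (u + n) ^ 2 := by nlinarith [hn2.1.two_le]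
        change n < (u + n) ^ 2
        omega
      · exact ⟨hn2.2.1, hlt _ hn2.2.1 hn2.2.2⟩
    · calc C * NA K A * WG (fun n => ∏ i, F u w i n) (b ^ K)
          ≤ C * NA K A * (Cv * S (u + w) / (K : ℝ) ^ 2) :=
            mul_le_mul_of_nonneg_left hS2 (mul_nonneg hC.le hNA)
        _ = C * Cv * S (u + w) * NA K A / (K : ℝ) ^ 2 := by ring

end Pool.Agent.H225.PM
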