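import Pool.Agent.H386R2.HL.B
import Pool.Agent.H225.EX2

/-!
# The singular series of a tuple with large shifts and its truncation
-/

set_option autoImplicit false

namespace Pool.Agent.H225.SGB

open Finset Filter
open Pool.Agent.H386R2.HL
open Pool.Agent.Y816.PD (WG WG_nonneg TP TP_dvd WG_bounds)

/-- few large primes divide a bounded number -/
lemma tt_le {y n E : ℕ} (hy : 2 ≤ y) (hn : n ≠ 0) (hnE : n ≤ y ^ E) : tt y n ≤ 2 ^ E := by
  unfold tt
  obtain ⟨F, hF⟩ : ∃ F, F = n.primeFactors.filter (fun p => y < p) := ⟨_, rfl⟩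
  rw [← hF]
  have hFm : ∀ p ∈ F, p.Prime ∧ y < p := by
    intro p hp
    rw [hF, mem_filter] at hp
    exact ⟨Nat.prime_of_mem_primeFactors hp.1, hp.2⟩
  have hcard : F.card ≤ E := by
    have h1 : y ^ F.card ≤ ∏ p ∈ F, p := by
      rw [← prod_const]
      exact prod_le_prod' fun p hp => (hFm p hp).2.le
    have h2 : ∏ p ∈ F, p ≤ n := by
      refine Nat.le_of_dvd (Nat.pos_of_ne_zero hn) ?_
      refine (prod_dvd_prod_of_subset F n.primeFactors (fun p => p) ?_).trans
        (Nat.prod_primeFactors_dvd n)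
      rw [hF]
      exact filter_subset _ _
    exact (Nat.pow_le_pow_iff_right (by omega)).1 ((h1.trans h2).trans hnE)
  calc ∏ p ∈ F, (1 - 1 / (p : ℝ))⁻¹ ≤ ∏ _p ∈ F, (2 : ℝ) := by
        refine prod_le_prod (fun p hp => zero_le_one.trans (one_le_inv (hFm p hp).1)) ?_
        intro p hp
        have h2 : (2 : ℝ) ≤ p := by exact_mod_cast (hFm p hp).1.two_le
        have h3 : 1 / (p : ℝ) ≤ 1 / 2 := one_div_le_one_div_of_le (by norm_num) h2
        have h4 : (1 : ℝ) / 2 ≤ 1 - 1 / (p : ℝ) := by linarith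
        calc (1 - 1 / (p : ℝ))⁻¹ ≤ (1 / 2 : ℝ)⁻¹ := inv_anti₀ (by norm_num) h4
          _ = 2 := by norm_num
    _ = 2 ^ F.card := by rw [prod_const]
    _ ≤ 2 ^ E := pow_le_pow_right₀ (by norm_num) hcard

/-- the local factors at large primes are not small -/
lemma localFactor_ge {r : ℕ} (a : Fin r → ℕ) {p : ℕ} (hp : p.Prime) (hr : 2 * r ^ 2 ≤ p) :
    Real.exp (-(2 * (r : ℝ) ^ 2 / (p : ℝ) ^ 2)) ≤ localFactor a p := by
  have h1 := one_sub_pos hp
  have hp0 : (0 : ℝ) < p := by exact_mod_cast hp.pos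
  have hp2 : (2 : ℝ) ≤ p := by exact_mod_cast hp.two_le
  have hnu : (nu a p : ℝ) ≤ r := by exact_mod_cast nu_le_r a p
  have h3 : 1 + 1 / (p : ℝ) ≤ (1 - 1 / (p : ℝ))⁻¹ := by
    rw [← one_div, le_div_iff₀ h1]
    have : 0 ≤ (1 / (p : ℝ)) ^ 2 := by positivity
    nlinarith
  have h4 : 1 + (r : ℝ) / p ≤ ((1 - 1 / (p : ℝ))⁻¹) ^ r := by
    have h50 : (0 : ℝ) ≤ 1 / (p : ℝ) := by positivity
    have h5 := one_add_mul_le_pow (a := (1 / (p : ℝ))) (by linarith) r
    calc 1 + (r : ℝ) / p = 1 + (r : ℝ) * (1 / (p : ℝ)) := by ring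
      _ ≤ (1 + 1 / (p : ℝ)) ^ r := h5
      _ ≤ _ := pow_le_pow_left₀ (by positivity) h3 r
  have hr' : 2 * (r : ℝ) ^ 2 ≤ p := by exact_mod_cast hr
  have hrp : (r : ℝ) / p ≤ 1 := by
    rw [div_le_one hp0]
    have : (r : ℝ) ≤ (r : ℝ) ^ 2 := by
      rcases Nat.eq_zero_or_pos r with rfl | h
      · simp
      · have : (1 : ℝ) ≤ r := by exact_mod_cast h
        nlinarith
    nlinarith
  have h6 : 1 - (r : ℝ) ^ 2 / (p : ℝ) ^ 2 ≤ localFactor a p := by
    unfold localFactor
    have h7 : 1 - (r : ℝ) / p ≤ 1 - (nu a p : ℝ) / p := by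
      have := div_le_div_of_nonneg_right hnu hp0.le
      linarith
    calc 1 - (r : ℝ) ^ 2 / (p : ℝ) ^ 2 = (1 + (r : ℝ) / p) * (1 - (r : ℝ) / p) := by
          field_simp; ring
      _ ≤ ((1 - 1 / (p : ℝ))⁻¹) ^ r * (1 - (r : ℝ) / p) :=
          mul_le_mul_of_nonneg_right h4 (by linarith)
      _ ≤ _ := mul_le_mul_of_nonneg_left h7 (by positivity)
  refine le_trans ?_ h6
  -- `exp (-2 x) ≤ 1 - x` for `x ≤ 1/2`
  obtain ⟨x, hx⟩ : ∃ x : ℝ, x = (r : ℝ) ^ 2 / (p : ℝ) ^ 2 := ⟨_, rfl⟩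
  have hx0 : 0 ≤ x := by rw [hx]; positivity
  have hx1 : x ≤ 1 / 2 := by
    rw [hx, div_le_iff₀ (by positivity)]
    nlinarith
  have e : 2 * (r : ℝ) ^ 2 / (p : ℝ) ^ 2 = 2 * x := by rw [hx]; ring
  rw [e, ← hx]
  have h8 : Real.exp (-(2 * x)) ≤ 1 / (1 + 2 * x) := by
    rw [Real.exp_neg, ← one_div]
    refine one_div_le_one_div_of_le (by positivity) ?_
    have := Real.add_one_le_exp (2 * x)
    linarith
  refine h8.trans ?_
  rw [div_le_iff₀ (by positivity)]
  nlinarith

/-- **The singular series and its truncation.** -/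
theorem sing_bounds (r E : ℕ) : ∃ c C : ℝ, 0 < c ∧ 0 < C ∧ ∀ y : ℕ, 2 * r ^ 2 + 2 ≤ y →
    ∀ a : Fin r → ℕ, Function.Injective a → (∀ i, a i ≤ y ^ E) →
    c * singularSeries a ≤ sy a y ∧ sy a y ≤ C * singularSeries a := by
  have hsum : Summable (fun n : ℕ => 2 * (r : ℝ) ^ 2 / (n : ℝ) ^ 2) :=
    (Real.summable_one_div_nat_pow.2 (by norm_num : 1 < 2)).mul_left (2 * (r : ℝ) ^ 2) |>.congr
      (fun n => by ring)
  obtain ⟨Z, hZ⟩ : ∃ Z : ℝ, Z = ∑' n : ℕ, 2 * (r : ℝ) ^ 2 / (n : ℝ) ^ 2 := ⟨_, rfl⟩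
  refine ⟨((2 ^ E) ^ (prs r).card)⁻¹, Real.exp Z, by positivity, Real.exp_pos _,
    fun y hy a ha haE => ⟨?_, ?_⟩⟩
  · have h1 := singularSeries_le a ha y
    have h2 : ∏ q ∈ prs r, tt y (Nat.dist (a q.1) (a q.2)) ≤ (2 ^ E) ^ (prs r).card := by
      rw [← prod_const]
      refine prod_le_prod (fun q _ => zero_le_one.trans (one_le_tt _ _)) fun q hq => ?_
      have hq' : q.1 < q.2 := (mem_filter.1 hq).2
      have hne : Nat.dist (a q.1) (a q.2) ≠ 0 := by
        intro h
        exact hq'.ne (ha (Nat.eq_of_dist_eq_zero h))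
      refine tt_le (by omega) hne ?_
      have h3 := haE q.1
      have h4 := haE q.2
      unfold Nat.dist
      omega
    have h3 : singularSeries a ≤ sy a y * (2 ^ E) ^ (prs r).card :=
      h1.trans (mul_le_mul_of_nonneg_left h2 (sy_nonneg a y))
    rw [inv_mul_le_iff₀ (by positivity)]
    linarith
  · have hm := (multipliable_localFactor a ha).hasProd
    have h1 : sy a y * Real.exp (-Z) ≤ singularSeries a := by
      unfold singularSeries
      set s0 : Finset Nat.Primes := (y + 1).primesBelow.preimage (fun p : Nat.Primes => (p : ℕ))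
        Subtype.val_injective.injOn with hs0
      have hs0' : ∀ p : Nat.Primes, p ∈ s0 ↔ (p : ℕ) ≤ y := by
        intro p
        rw [hs0, mem_preimage, Nat.mem_primesBelow]
        constructor
        · rintro ⟨h, _⟩; omega
        · intro h; exact ⟨by omega, p.2⟩
      refine ge_of_tendsto hm ?_
      filter_upwards [Filter.eventually_ge_atTop s0] with s hs
      have hsplit : ∏ p ∈ s, localFactor a (p : ℕ) =
          (∏ p ∈ s0, localFactor a (p : ℕ)) * ∏ p ∈ s \ s0, localFactor a (p : ℕ) := by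
        rw [mul_comm, prod_sdiff hs]
      rw [hsplit]
      have h1 : ∏ p ∈ s0, localFactor a (p : ℕ) = sy a y := by
        unfold sy
        rw [hs0]
        refine prod_preimage (fun p : Nat.Primes => (p : ℕ)) _ Subtype.val_injective.injOn
          (fun p : ℕ => localFactor a p) ?_
        intro p hp hp2
        exact absurd ⟨⟨p, Nat.prime_of_mem_primesBelow hp⟩, rfl⟩ hp2
      rw [h1]
      refine mul_le_mul_of_nonneg_left ?_ (sy_nonneg a y)
      calc Real.exp (-Z) ≤ Real.exp (-(∑ p ∈ s \ s0, 2 * (r : ℝ) ^ 2 / ((p : ℕ) : ℝ) ^ 2)) := by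
            refine Real.exp_le_exp.2 (neg_le_neg ?_)
            have e : ∑ p ∈ s \ s0, 2 * (r : ℝ) ^ 2 / ((p : ℕ) : ℝ) ^ 2 =
                ∑ n ∈ (s \ s0).image (fun p : Nat.Primes => (p : ℕ)), 2 * (r : ℝ) ^ 2 / (n : ℝ) ^ 2 := by
              rw [sum_image]
              intro x _ z _ hxz
              exact Subtype.val_injective hxz
            rw [e, hZ]
            exact hsum.sum_le_tsum _ (fun n _ => by positivity)
        _ = ∏ p ∈ s \ s0, Real.exp (-(2 * (r : ℝ) ^ 2 / ((p : ℕ) : ℝ) ^ 2)) := by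
            rw [← Real.exp_sum, sum_neg_distrib]
        _ ≤ ∏ p ∈ s \ s0, localFactor a (p : ℕ) := by
            refine prod_le_prod (fun p _ => (Real.exp_pos _).le) fun p hp => ?_
            rw [Finset.mem_sdiff, hs0'] at hp
            exact localFactor_ge a p.2 (by omega)
    have h2 : Real.exp Z * (sy a y * Real.exp (-Z)) = sy a y := by
      rw [mul_comm, mul_assoc, ← Real.exp_add, neg_add_cancel, Real.exp_zero, mul_one]
    rw [← h2]
    exact mul_le_mul_of_nonneg_left h1 (Real.exp_pos _).le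

open Classical in
/-- **The sieve product of a tuple and the singular series.** -/
theorem V_sing (k E b : ℕ) (hb : 2 ≤ b) : ∃ c C : ℝ, 0 < c ∧ 0 < C ∧ ∀ᶠ K : ℕ in atTop,
    ∀ H : Finset ℕ, H.card = k → (∀ h ∈ H, h ≤ b ^ (E * K)) → ∀ N : ℕ,
    ∀ a : Fin k → ℕ, Function.Injective a → (univ.image a = H) →
    c * singularSeries a / (K : ℝ) ^ k ≤ WG (TP H N) (b ^ K) ∧
    WG (TP H N) (b ^ K) ≤ C * singularSeries a / (K : ℝ) ^ k := by
  obtain ⟨v, Cv, hv, hCv, hW⟩ := WG_bounds {0} (fun p hp => ⟨1, fun h hh => by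
    rw [mem_singleton] at hh
    subst hh
    simpa using hp.one_lt.ne'⟩) 1 (card_singleton 0) b hb
  obtain ⟨c, C, hc, hC, hS⟩ := sing_bounds k E
  have hbpow : Tendsto (fun K : ℕ => b ^ K) atTop atTop :=
    tendsto_pow_atTop_atTop_of_one_lt (by omega)
  refine ⟨c * v ^ k, C * Cv ^ k, by positivity, by positivity, ?_⟩
  filter_upwards [hW, hbpow.eventually_ge_atTop (2 * k ^ 2 + 2), eventually_ge_atTop 1] with
    K hWK hbK hK1 H hHk hHE N a ha haH
  have hK0 : (0 : ℝ) < K := by exact_mod_cast hK1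
  obtain ⟨hw1, hw2⟩ := hWK 0
  rw [pow_one] at hw1 hw2
  obtain ⟨hs1, hs2⟩ := hS (b ^ K) hbK a ha (fun i => by
    rw [← pow_mul, mul_comm K E]
    exact hHE _ (by rw [← haH]; exact mem_image_of_mem a (mem_univ i)))
  have hkey : WG (TP H N) (b ^ K) = WG (TP {0} 0) (b ^ K) ^ k * sy a (b ^ K) := by
    unfold WG sy
    have e0 : (b ^ K + 1).primesBelow = (Icc 1 (b ^ K)).filter Nat.Prime := by
      ext p
      rw [Nat.mem_primesBelow, mem_filter, mem_Icc]
      constructor
      · rintro ⟨h1, h2⟩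
        exact ⟨⟨h2.one_le, by omega⟩, h2⟩
      · rintro ⟨⟨h1, h2⟩, h3⟩
        exact ⟨by omega, h3⟩
    rw [e0, ← prod_pow, ← prod_mul_distrib]
    refine prod_congr rfl fun p hp => ?_
    have hpp := (mem_filter.1 hp).2
    have h1 := one_sub_pos hpp
    have c1 := Pool.Agent.H225.EX.card_TP H N hpp
    have c2 := Pool.Agent.H225.EX.card_TP {0} 0 hpp
    have c3 : ((range p).filter (fun n : ℕ => ∃ h ∈ ({0} : Finset ℕ), p ∣ n + h)).card = 1 := by
      rw [card_eq_one]
      refine ⟨0, ?_⟩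
      ext n
      simp only [mem_filter, mem_range, mem_singleton, exists_eq_left, add_zero]
      constructor
      · rintro ⟨hn, hd⟩
        exact Nat.eq_zero_of_dvd_of_lt hd hn
      · rintro rfl
        exact ⟨hpp.pos, dvd_zero _⟩
    have c4 : ((range p).filter (fun n : ℕ => ∃ h ∈ H, p ∣ n + h)).card = nu a p := by
      unfold nu
      have hp0 := hpp.pos
      have e1 : univ.image (fun i => a i % p) = H.image (fun h => h % p) := by
        rw [← haH, image_image]
        rfl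
      rw [e1]
      refine card_bij' (fun n _ => (p - n) % p) (fun a _ => (p - a) % p) ?_ ?_ ?_ ?_
      · intro n hn
        rw [mem_filter, mem_range] at hn
        obtain ⟨hn, h, hh, hd⟩ := hn
        rw [mem_image]
        refine ⟨h, hh, ?_⟩
        have h1 : n + h ≡ n + (p - n) [MOD p] := by
          have e : n + (p - n) = p := by omega
          rw [e]
          exact (Nat.modEq_zero_iff_dvd.2 hd).trans (Nat.modEq_zero_iff_dvd.2 dvd_rfl).symm
        exact Nat.ModEq.add_left_cancel' _ h1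
      · intro a ha
        rw [mem_image] at ha
        obtain ⟨h, hh, rfl⟩ := ha
        rw [mem_filter, mem_range]
        refine ⟨Nat.mod_lt _ hp0, h, hh, ?_⟩
        have hlt : h % p < p := Nat.mod_lt _ hp0
        have h1 : (p - h % p) % p + h ≡ (p - h % p) + h % p [MOD p] :=
          Nat.ModEq.add (Nat.mod_modEq _ _) (Nat.mod_modEq _ _).symm
        rw [Nat.sub_add_cancel hlt.le] at h1
        exact Nat.modEq_zero_iff_dvd.1 (h1.trans (Nat.modEq_zero_iff_dvd.2 dvd_rfl))
      · intro n hn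
        rw [mem_filter, mem_range] at hn
        rcases Nat.eq_zero_or_pos n with rfl | h0
        · simp
        · rw [Nat.mod_eq_of_lt (by omega : p - n < p)]
          have e : p - (p - n) = n := by omega
          rw [e, Nat.mod_eq_of_lt hn.1]
      · intro a ha
        rw [mem_image] at ha
        obtain ⟨h, hh, rfl⟩ := ha
        have hlt : h % p < p := Nat.mod_lt _ hp0
        rcases Nat.eq_zero_or_pos (h % p) with h0 | h0
        · rw [h0]
          simp
        · rw [Nat.mod_eq_of_lt (by omega : p - h % p < p)]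
          have e : p - (p - h % p) = h % p := by omega
          rw [e, Nat.mod_mod]
    have d1 : ((range p).filter (fun n : ℕ => (p : ℤ) ∣ TP H N n)).card = nu a p := by
      rw [c1, c4]
    have d2 : ((range p).filter (fun n : ℕ => (p : ℤ) ∣ TP {0} 0 n)).card = 1 := by
      rw [c2, c3]
    have goal : 1 - (nu a p : ℝ) / p = (1 - ((1 : ℕ) : ℝ) / p) ^ k * localFactor a p := by
      unfold localFactor
      rw [Nat.cast_one, ← mul_assoc, ← mul_pow, mul_inv_cancel₀ h1.ne', one_pow, one_mul]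
    rw [← d1, ← d2] at goal
    convert goal using 5
  have hS0 : 0 ≤ singularSeries a := singularSeries_nonneg ha
  have hsy0 := sy_nonneg a (b ^ K)
  have hw0 : 0 ≤ WG (TP {0} 0) (b ^ K) := WG_nonneg _ _
  rw [hkey]
  constructor
  · calc c * v ^ k * singularSeries a / (K : ℝ) ^ k
        = (v / K) ^ k * (c * singularSeries a) := by
          rw [div_pow]
          ring
      _ ≤ WG (TP {0} 0) (b ^ K) ^ k * sy a (b ^ K) :=
          mul_le_mul (pow_le_pow_left₀ (by positivity) hw1 k) hs1 (by positivity) (by positivity)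
  · calc WG (TP {0} 0) (b ^ K) ^ k * sy a (b ^ K)
        ≤ (Cv / K) ^ k * (C * singularSeries a) :=
          mul_le_mul (pow_le_pow_left₀ hw0 hw2 k) hs2 hsy0 (by positivity)
      _ = C * Cv ^ k * singularSeries a / (K : ℝ) ^ k := by
          rw [div_pow]
          ring

end Pool.Agent.H225.SGB
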