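import Pool.Agent.H225.DG

/-!
# Sieve products of pairs of linear polynomials: comparison with the singular series
-/

set_option autoImplicit false

namespace Pool.Agent.H225.SS

open Finset Filter
open Pool.Agent.Y816.PD (WG TP TP_dvd WG_bounds WG_nonneg)

/-- The product of `(p - 1) / (p - 2)` over the odd prime factors `p` of `N`. -/
noncomputable def S (N : ℕ) : ℝ :=
  ∏ p ∈ N.primeFactors.filter (fun p => 2 < p), ((p : ℝ) - 1) / ((p : ℝ) - 2)

open Classical in
lemma card_T {p : ℕ} (hp : p.Prime) :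
    ((range p).filter (fun n : ℕ => (p : ℤ) ∣ TP {0, 2} 0 n)).card = if p = 2 then 1 else 2 := by
  have hp0 : 0 < p := hp.pos
  have hp2 := hp.two_le
  have h1 : (range p).filter (fun n : ℕ => (p : ℤ) ∣ TP {0, 2} 0 n) = {0, p - 2} := by
    ext n
    simp only [mem_filter, mem_range, mem_insert, mem_singleton]
    rw [TP_dvd _ _ _ hp]
    constructor
    · rintro ⟨hn, h, hh, hd⟩
      simp only [mem_insert, mem_singleton] at hh
      rcases hh with rfl | rfl
      · left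
        exact Nat.eq_zero_of_dvd_of_lt (by simpa using hd) hn
      · obtain ⟨c, hc⟩ := hd
        have hc1 : c = 1 ∨ 2 ≤ c := by
          rcases Nat.eq_zero_or_pos c with rfl | h
          · omega
          · omega
        rcases hc1 with rfl | hc1
        · right
          omega
        · left
          have : p * 2 ≤ p * c := Nat.mul_le_mul_left _ hc1
          omega
    · rintro (rfl | rfl)
      · exact ⟨hp0, 0, by simp, by simp⟩
      · refine ⟨by omega, 2, by simp, ?_⟩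
        have : 0 + (p - 2) + 2 = p := by omega
        rw [this]
  rw [h1]
  split_ifs with h
  · subst h
    rfl
  · rw [card_pair]
    omega

/-- the local factors -/
lemma factor {N : ℕ} (hN : Even N) {p : ℕ} (hp : p.Prime) :
    (1 - ((if p ∣ N then 1 else 2 : ℕ) : ℝ) / p) = (1 - ((if p = 2 then 1 else 2 : ℕ) : ℝ) / p) *
      (if 2 < p ∧ p ∣ N then ((p : ℝ) - 1) / ((p : ℝ) - 2) else 1) := by
  have hp0 : (0 : ℝ) < p := by exact_mod_cast hp.pos
  by_cases h2 : p = 2
  · subst h2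
    rw [if_pos (even_iff_two_dvd.1 hN), if_pos rfl, if_neg (by omega), mul_one]
  · have hp2 : 2 < p := lt_of_le_of_ne hp.two_le (Ne.symm h2)
    have hp2' : (0 : ℝ) < (p : ℝ) - 2 := by
      have : (2 : ℝ) < p := by exact_mod_cast hp2
      linarith
    rw [if_neg h2]
    by_cases hd : p ∣ N
    · rw [if_pos hd, if_pos ⟨hp2, hd⟩]
      push_cast
      field_simp
    · rw [if_neg hd, if_neg (fun h => hd h.2), mul_one]

/-- the part of `S` with primes up to `x` -/
noncomputable def Sx (N x : ℕ) : ℝ :=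
  ∏ p ∈ ((Icc 1 x).filter Nat.Prime).filter (fun p => 2 < p ∧ p ∣ N), ((p : ℝ) - 1) / ((p : ℝ) - 2)

open Classical in
lemma WG_eq {G : ℕ → ℤ} {N : ℕ} (hN : Even N)
    (hG : ∀ p : ℕ, p.Prime → ((range p).filter (fun n : ℕ => (p : ℤ) ∣ G n)).card =
      if p ∣ N then 1 else 2) (x : ℕ) : WG G x = WG (TP {0, 2} 0) x * Sx N x := by
  unfold WG Sx
  rw [prod_filter (fun p => 2 < p ∧ p ∣ N), ← prod_mul_distrib]
  refine prod_congr rfl fun p hp => ?_
  have hpp : p.Prime := (mem_filter.1 hp).2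
  have e1 := hG p hpp
  have e2 := card_T hpp
  have e3 := factor hN hpp
  rw [← e1, ← e2] at e3
  convert e3 using 5

lemma fac_one {p : ℕ} (hp : 2 < p) : (1 : ℝ) ≤ ((p : ℝ) - 1) / ((p : ℝ) - 2) ∧
    ((p : ℝ) - 1) / ((p : ℝ) - 2) ≤ 2 := by
  have h3 : (3 : ℝ) ≤ p := by exact_mod_cast hp
  have h2 : (0 : ℝ) < (p : ℝ) - 2 := by linarith
  constructor
  · rw [le_div_iff₀ h2]
    linarith
  · rw [div_le_iff₀ h2]
    linarith

lemma S_bounds {b K D N : ℕ} (hb : 2 ≤ b) (hK : 1 ≤ K) (hN0 : 0 < N) (hN : N ≤ b ^ (D * K)) :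
    Sx N (b ^ K) ≤ S N ∧ S N ≤ 2 ^ D * Sx N (b ^ K) := by
  classical
  obtain ⟨T, hT⟩ : ∃ T, T = N.primeFactors.filter (fun p => 2 < p) := ⟨_, rfl⟩
  obtain ⟨U, hU⟩ : ∃ U, U = ((Icc 1 (b ^ K)).filter Nat.Prime).filter (fun p => 2 < p ∧ p ∣ N) :=
    ⟨_, rfl⟩
  have hUT : U ⊆ T := by
    intro p hp
    rw [hU, mem_filter, mem_filter] at hp
    rw [hT, mem_filter, Nat.mem_primeFactors]
    exact ⟨⟨hp.1.2, hp.2.2, by omega⟩, hp.2.1⟩
  have hS : S N = (∏ p ∈ T \ U, ((p : ℝ) - 1) / ((p : ℝ) - 2)) * Sx N (b ^ K) := by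
    unfold S Sx
    rw [← hT, ← hU, prod_sdiff hUT]
  have hSx0 : 0 ≤ Sx N (b ^ K) := by
    unfold Sx
    rw [← hU]
    refine prod_nonneg fun p hp => ?_
    have h2 : 2 < p := by
      have := hUT hp
      rw [hT, mem_filter] at this
      exact this.2
    exact zero_le_one.trans (fac_one h2).1
  have h2T : ∀ p ∈ T \ U, 2 < p := by
    intro p hp
    have := (mem_sdiff.1 hp).1
    rw [hT, mem_filter] at this
    exact this.2
  have hcard : (T \ U).card ≤ D := by
    have h1 : ∀ p ∈ T \ U, b ^ K ≤ p := by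
      intro p hp
      obtain ⟨h1, h2⟩ := mem_sdiff.1 hp
      rw [hT, mem_filter, Nat.mem_primeFactors] at h1
      by_contra hlt
      apply h2
      rw [hU, mem_filter, mem_filter, mem_Icc]
      exact ⟨⟨⟨h1.1.1.one_lt.le, by omega⟩, h1.1.1⟩, h1.2, h1.1.2.1⟩
    have h3 : (b ^ K) ^ (T \ U).card ≤ ∏ p ∈ T \ U, p := by
      rw [← prod_const]
      exact prod_le_prod' h1
    have h4 : ∏ p ∈ T \ U, p ≤ N := by
      refine Nat.le_of_dvd hN0 ?_
      refine (prod_dvd_prod_of_subset (T \ U) N.primeFactors (fun p => p) ?_).trans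
        (Nat.prod_primeFactors_dvd N)
      intro p hp
      have := (mem_sdiff.1 hp).1
      rw [hT, mem_filter] at this
      exact this.1
    have h5 : b ^ (K * (T \ U).card) ≤ b ^ (D * K) := by
      rw [pow_mul]
      exact (h3.trans h4).trans hN
    have h6 := (Nat.pow_le_pow_iff_right (by omega : 1 < b)).1 h5
    rw [mul_comm D K] at h6
    exact Nat.le_of_mul_le_mul_left h6 (by omega)
  constructor
  · rw [hS]
    have h1 : (1 : ℝ) ≤ ∏ p ∈ T \ U, ((p : ℝ) - 1) / ((p : ℝ) - 2) := by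
      refine Finset.prod_induction _ (fun y => (1 : ℝ) ≤ y) (fun a b ha hb => ?_) le_rfl
        (fun p hp => (fac_one (h2T p hp)).1)
      nlinarith
    nlinarith
  · rw [hS]
    refine mul_le_mul_of_nonneg_right ?_ hSx0
    calc ∏ p ∈ T \ U, ((p : ℝ) - 1) / ((p : ℝ) - 2) ≤ ∏ p ∈ T \ U, (2 : ℝ) :=
          Finset.prod_le_prod (fun p hp => zero_le_one.trans (fac_one (h2T p hp)).1)
            (fun p hp => (fac_one (h2T p hp)).2)
      _ = 2 ^ (T \ U).card := by rw [prod_const]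
      _ ≤ 2 ^ D := pow_le_pow_right₀ (by norm_num) hcard

open Classical in
/-- **The sieve product of a pair of linear polynomials with the bad primes `p ∣ n`.** -/
theorem bounds (D b : ℕ) (hb : 2 ≤ b) : ∃ v C : ℝ, 0 < v ∧ 0 < C ∧ ∀ᶠ K : ℕ in atTop,
    ∀ (n : ℕ) (G : ℕ → ℤ), Even n → 0 < n → n ≤ b ^ (D * K) →
    (∀ p : ℕ, p.Prime → ((range p).filter (fun t : ℕ => (p : ℤ) ∣ G t)).card =
      if p ∣ n then 1 else 2) →
    v * S n / (K : ℝ) ^ 2 ≤ WG G (b ^ K) ∧ WG G (b ^ K) ≤ C * S n / (K : ℝ) ^ 2 := by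
  obtain ⟨v, Cv, hv, hCv, hW⟩ := WG_bounds {0, 2} (by
    intro p hp
    by_cases hp2 : p = 3
    · refine ⟨2, fun h hh => ?_⟩
      simp only [mem_insert, mem_singleton] at hh
      rcases hh with rfl | rfl <;> subst hp2 <;> norm_num
    · refine ⟨1, fun h hh => ?_⟩
      simp only [mem_insert, mem_singleton] at hh
      rcases hh with rfl | rfl
      · simpa using hp.one_lt.ne'
      · intro hd
        exact hp2 ((Nat.prime_dvd_prime_iff_eq hp Nat.prime_three).1 (by simpa using hd))) 2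
    (by decide) b hb
  refine ⟨v / 2 ^ D, Cv, by positivity, hCv, ?_⟩
  filter_upwards [hW, eventually_ge_atTop 2] with K hWK hK2 n G hn hn0 hnb hG
  obtain ⟨hS1, hS2⟩ := S_bounds hb (by omega) hn0 hnb
  obtain ⟨hW1, hW2⟩ := hWK 0
  have hS0 : 0 ≤ S n := by
    unfold S
    refine prod_nonneg fun p hp => ?_
    exact zero_le_one.trans (fac_one (mem_filter.1 hp).2).1
  have hSx0 : 0 ≤ Sx n (b ^ K) := by
    have hD : (0 : ℝ) < 2 ^ D := by positivity
    by_contra hneg
    push Not at hneg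
    have h5 : S n < 0 := lt_of_le_of_lt hS2 (mul_neg_of_pos_of_neg hD hneg)
    linarith
  have hKpos : (0 : ℝ) < (K : ℝ) ^ 2 := by
    have : (0 : ℝ) < K := by exact_mod_cast (by omega : 0 < K)
    positivity
  rw [WG_eq hn hG (b ^ K)]
  constructor
  · have h7 : v / (K : ℝ) ^ 2 * (S n / 2 ^ D) ≤ WG (TP {0, 2} 0) (b ^ K) * Sx n (b ^ K) := by
      refine mul_le_mul hW1 ?_ ?_ ((by positivity : (0 : ℝ) ≤ v / (K : ℝ) ^ 2).trans hW1)
      · rw [div_le_iff₀ (by positivity)]
        linarith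
      · exact div_nonneg hS0 (by positivity)
    calc v / 2 ^ D * S n / (K : ℝ) ^ 2 = v / (K : ℝ) ^ 2 * (S n / 2 ^ D) := by ring
      _ ≤ _ := h7
  · calc WG (TP {0, 2} 0) (b ^ K) * Sx n (b ^ K) ≤ Cv / (K : ℝ) ^ 2 * S n :=
          mul_le_mul hW2 hS1 hSx0 (by positivity)
      _ = _ := by ring

end Pool.Agent.H225.SS
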