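import Pool.Agent.H225.EX2

/-!
# Tuples with large shifts at integers with restricted digits
-/

set_option autoImplicit false

namespace Pool.Agent.H225.EX

open Polynomial Finset Filter
open Pool.Agent.Y816.PD (WG uni_top NA ND Rgh Alm WG_nonneg shift_eq TP TP_dvd WG_bounds ND_sub
  NA_nonneg)
open Pool.Agent.H225.DG (AP len_dvd)

/-- **Tuples, uniformly in the shifts.** -/
theorem tupE (k D : ℕ) (hk : 1 ≤ k) :
    ∃ δ : ℝ, 0 < δ ∧ ∃ r₀ : ℕ, 2 ≤ r₀ ∧ ∀ r : ℕ, r₀ ≤ r → ∀ b : ℕ, 2 ≤ b →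
      ∃ κ C : ℝ, 0 < κ ∧ 0 < C ∧ ∀ᶠ K : ℕ in atTop, ∀ N : ℕ, N ≤ b ^ (D * K) →
        ∀ H : Finset ℕ, H.card = k → (∀ h ∈ H, h ≤ b ^ (D * K)) → Adm H →
        ∀ A : ℕ → Finset ℕ, (∀ i < K, A i ⊆ range b) →
        (b : ℝ) ^ K ≤ Real.exp (δ * K) * NA K A →
        ((∃ e ∈ A 0, ∀ h ∈ H, (N + e + h).Coprime b) → (∃ e ∈ A (K - 1), e ≠ 0) →
          κ * NA K A * WG (TP H N) (b ^ K) ≤
            ND b K A {n | b ^ (K - 1) ≤ n ∧ ∀ h ∈ H, AP r (b ^ K) (N + n + h)}) ∧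
        (ND b K A {n | ∀ h ∈ H, ∀ p : ℕ, p.Prime → p ∣ N + n + h → n < p ^ r} : ℝ) ≤
          C * NA K A * WG (TP H N) (b ^ K) := by
  classical
  obtain ⟨δ, hδ, r₀, hr₀, h⟩ := uni_top k ((D + 3) * k) hk
  refine ⟨δ, hδ, r₀, hr₀, fun r hr b hb => ?_⟩
  obtain ⟨κ, C, hκ, hC, h1⟩ := h r hr b hb
  refine ⟨κ, C, hκ, hC, ?_⟩
  filter_upwards [h1, eventually_ge_atTop (r + 2)] with K hK hKr N hN H hHk hHb hadm A hA hprod
  have hbK : 2 ^ (r + 2) ≤ b ^ K :=
    (Nat.pow_le_pow_left hb _).trans (Nat.pow_le_pow_right (by omega) hKr)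
  have h4b : 4 ≤ b ^ K := by
    have : 2 ^ 2 ≤ 2 ^ (r + 2) := Nat.pow_le_pow_right (by norm_num) (by omega)
    omega
  have hTPn : ∀ j, (TP H N j).natAbs = ∏ h ∈ H, (N + j + h) := by
    intro j
    unfold TP
    have e : ∏ h ∈ H, ((N : ℤ) + j + h) = ((∏ h ∈ H, (N + j + h) : ℕ) : ℤ) := by push_cast; rfl
    rw [e, Int.natAbs_natCast]
  have hpoly : ∃ P : ℤ[X], P.natDegree ≤ k ∧ ∀ j : ℕ, P.eval (j : ℤ) = TP H N j := by
    refine ⟨∏ h ∈ H, (X + Polynomial.C ((N : ℤ) + h)), ?_, fun j => ?_⟩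
    · refine (natDegree_prod_le _ _).trans ?_
      rw [← hHk, Finset.card_eq_sum_ones]
      exact sum_le_sum fun h _ => by rw [natDegree_X_add_C]
    · rw [eval_prod]
      unfold TP
      refine prod_congr rfl fun h _ => ?_
      simp only [eval_add, eval_X, eval_C]
      ring
  have hadm' : ∀ p : ℕ, p.Prime → ∃ n : ℕ, ¬ (p : ℤ) ∣ TP H N n := by
    intro p hp
    obtain ⟨m, hm⟩ := hadm p hp
    refine ⟨m + (p * N - N), fun hd => ?_⟩
    rw [TP_dvd H N _ hp] at hd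
    obtain ⟨h, hh, hd⟩ := hd
    have hle : N ≤ p * N := Nat.le_mul_of_pos_left N hp.pos
    have e : N + (m + (p * N - N)) + h = p * N + (m + h) := by omega
    rw [e] at hd
    exact hm h hh ((Nat.dvd_add_right (Dvd.intro N rfl)).1 hd)
  have hsize : ∀ n : ℕ, n < b ^ K → (TP H N n).natAbs ≤ b ^ ((D + 3) * k * K) := by
    intro n hn
    rw [hTPn]
    calc ∏ h ∈ H, (N + n + h) ≤ ∏ _h ∈ H, b ^ ((D + 3) * K) := by
          refine prod_le_prod' fun h hh => ?_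
          have e : b ^ ((D + 3) * K) = b ^ (D * K) * b ^ K * b ^ K * b ^ K := by
            rw [← pow_add, ← pow_add, ← pow_add]
            congr 1
            ring
          rw [e]
          have h1 : 1 ≤ b ^ (D * K) := Nat.one_le_pow _ _ (by omega)
          have h2 : b ^ K ≤ b ^ (D * K) * b ^ K := Nat.le_mul_of_pos_left _ (by omega)
          have h3 : b ^ (D * K) ≤ b ^ (D * K) * b ^ K := Nat.le_mul_of_pos_right _ (by omega)
          have h4 : b ^ (D * K) * b ^ K * 4 ≤ b ^ (D * K) * b ^ K * b ^ K :=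
            Nat.mul_le_mul_left _ h4b
          have h5 : b ^ (D * K) * b ^ K * b ^ K ≤ b ^ (D * K) * b ^ K * b ^ K * b ^ K :=
            Nat.le_mul_of_pos_right _ (by omega)
          have h6 := hHb h hh
          omega
      _ = b ^ ((D + 3) * k * K) := by
          rw [prod_const, hHk, ← pow_mul]
          congr 1
          ring
  obtain ⟨h2, h3⟩ := hK (TP H N) hpoly hadm' hsize A hA hprod
  constructor
  · rintro ⟨e, he, hcop⟩ htop
    refine (h2 ⟨e, he, ?_⟩ htop).trans (Nat.cast_le.2 ?_)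
    · rw [hTPn]
      exact Nat.Coprime.prod_left fun h hh => hcop h hh
    · refine ND_sub fun n _ hn1 hn2 => ⟨hn1, ?_⟩
      obtain ⟨hn3, hn4, hn5⟩ := hn2
      have h0 : (TP H N n).natAbs ≠ 0 := by
        intro h0
        have h7 := hn4 2 Nat.prime_two (by
          rw [Int.natAbs_eq_zero.1 h0]
          exact dvd_zero _)
        have : 2 ^ r ≤ 2 ^ (r + 2) := Nat.pow_le_pow_right (by norm_num) (by omega)
        omega
      refine ⟨hn3, fun h hh => ⟨fun p hp hpd => hn4 p hp ((TP_dvd H N n hp).2 ⟨h, hh, hpd⟩), ?_⟩⟩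
      refine (len_dvd h0 ?_).trans hn5
      rw [hTPn]
      exact dvd_prod_of_mem (fun h => N + n + h) hh
  · refine le_trans (Nat.cast_le.2 ?_) h3
    refine ND_sub fun n _ hn1 hn2 => ⟨hn1, fun p hp hpd => ?_⟩
    obtain ⟨h, hh, hd⟩ := (TP_dvd H N n hp).1 hpd
    exact hn2 h hh p hp hd

end Pool.Agent.H225.EX
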